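import Pool.Agent.Solovay.Closing

/-! # Complete theories with a finite model -/

set_option linter.unusedVariables false

namespace Pool.Agent.Solovay

open Function

variable {τ : Vocab}

/-- definability without free relation variables, by formulas whose element variables are `< n` -/
def ED (n : ℕ) (P : ∀ S : Str τ, (ℕ → S.M) → Prop) : Prop :=
  ∃ φ : SOF τ, (∀ i ∈ φ.freeE, i < n) ∧ φ.freeR = ∅ ∧ ∀ (S : Str τ) v V, P S v ↔ φ.Sat S v V

theorem ED.congr {n : ℕ} {P Q : ∀ S : Str τ, (ℕ → S.M) → Prop} (h : ED n P)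
    (hPQ : ∀ S v, Q S v ↔ P S v) : ED n Q := by
  obtain ⟨φ, h1, h2, h3⟩ := h
  exact ⟨φ, h1, h2, fun S v V => (hPQ S v).trans (h3 S v V)⟩

theorem ED.not {n : ℕ} {P : ∀ S : Str τ, (ℕ → S.M) → Prop} (h : ED n P) :
    ED n (fun S v => ¬ P S v) := by
  obtain ⟨φ, h1, h2, h3⟩ := h
  exact ⟨.neg φ, h1, h2, fun S v V => not_congr (h3 S v V)⟩

theorem ED.and {n : ℕ} {P Q : ∀ S : Str τ, (ℕ → S.M) → Prop} (h : ED n P) (h' : ED n Q) :
    ED n (fun S v => P S v ∧ Q S v) := by
  obtain ⟨φ, h1, h2, h3⟩ := h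
  obtain ⟨ψ, h1', h2', h3'⟩ := h'
  refine ⟨.and φ ψ, fun i hi => hi.elim (h1 i) (h1' i), ?_, fun S v V =>
    and_congr (h3 S v V) (h3' S v V)⟩
  simp only [SOF.freeR]; rw [h2, h2', Set.empty_union]

theorem ED.triv {n : ℕ} : ED n (fun (S : Str τ) _ => True) := by
  refine ⟨.all 0 (.eq 0 0), ?_, rfl, fun S v V => ?_⟩
  · intro i hi; simp [SOF.freeE] at hi
  · simp [SOF.Sat]

theorem ED.finall {n : ℕ} {ι : Type} [Finite ι] {P : ι → ∀ S : Str τ, (ℕ → S.M) → Prop}
    (h : ∀ i, ED n (P i)) : ED n (fun S v => ∀ i, P i S v) := by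
  have key : ∀ s : Finset ι, ED n (fun S v => ∀ i ∈ s, P i S v) := by
    classical
    intro s
    induction s using Finset.induction_on with
    | empty => exact ED.triv.congr (fun S v => by simp)
    | insert a s ha ih => exact ((h a).and ih).congr (fun S v => by simp)
  have := Fintype.ofFinite ι
  exact (key Finset.univ).congr (fun S v => by simp)

theorem ED.iffc {n : ℕ} {P : ∀ S : Str τ, (ℕ → S.M) → Prop} (h : ED n P) (p : Prop) :
    ED n (fun S v => p ↔ P S v) := by
  by_cases hp : p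
  · exact h.congr fun S v => by simp [hp]
  · exact h.not.congr fun S v => by simp [hp]

theorem ED.eq {n i j : ℕ} (hi : i < n) (hj : j < n) : ED n (fun (S : Str τ) v => v i = v j) := by
  refine ⟨.eq i j, fun k hk => ?_, rfl, fun S v V => Iff.rfl⟩
  rcases hk with rfl | rfl
  · exact hi
  · exact hj

theorem ED.rel {n : ℕ} (R : Fin τ.nR) (x : Fin (τ.arR R) → Fin n) :
    ED n (fun (S : Str τ) v => S.rel R (fun k => v (x k))) := by
  refine ⟨.rel R (fun k => x k), fun k hk => ?_, rfl, fun S v V => Iff.rfl⟩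
  obtain ⟨m, rfl⟩ := hk
  exact (x m).2

theorem ED.fn {n : ℕ} (F : Fin τ.nF) (x : Fin (τ.arF F) → Fin n) (i : Fin n) :
    ED n (fun (S : Str τ) v => S.fn F (fun k => v (x k)) = v i) := by
  refine ⟨.fn F (fun k => x k) i, fun k hk => ?_, rfl, fun S v V => Iff.rfl⟩
  rcases hk with rfl | ⟨m, rfl⟩
  · exact i.2
  · exact (x m).2

theorem ED.ex {n : ℕ} {P : ∀ S : Str τ, (ℕ → S.M) → Prop} (h : ED (n + 1) P) :
    ED n (fun S v => ∃ a, P S (update v n a)) := by
  obtain ⟨φ, h1, h2, h3⟩ := h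
  refine ⟨SOF.ex n φ, fun i hi => ?_, h2, fun S v V => ?_⟩
  · have h4 := h1 i hi.1
    have h5 : i ≠ n := hi.2
    omega
  · rw [sat_ex]
    exact exists_congr fun a => h3 S _ V

theorem ED.exAll {n : ℕ} : ∀ {P : ∀ S : Str τ, (ℕ → S.M) → Prop}, ED n P →
    ED 0 (fun S _ => ∃ w, P S w) := by
  induction n with
  | zero =>
    intro P h
    obtain ⟨φ, h1, h2, h3⟩ := h
    refine ⟨φ, h1, h2, fun S v V => ?_⟩
    rw [← h3]
    have key : ∀ w w' : ℕ → S.M, P S w ↔ P S w' := by
      intro w w'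
      rw [h3 S w V, h3 S w' V]
      exact SOF.sat_congr _ _ _ _ _ _ (fun i hi => absurd (h1 i hi) (by omega))
        (fun _ _ _ => rfl)
    exact ⟨fun ⟨w, hw⟩ => (key w v).1 hw, fun h => ⟨v, h⟩⟩
  | succ n ih =>
    intro P h
    refine (ih h.ex).congr fun S v => ?_
    constructor
    · rintro ⟨w, hw⟩
      exact ⟨w, w n, by rw [update_eq_self]; exact hw⟩
    · rintro ⟨w, a, hw⟩
      exact ⟨_, hw⟩

/-- a finite structure is described up to isomorphism by a sentence -/
theorem exists_char (A : Str τ) [Finite A.M] : ∃ χ : SOF τ, χ.IsSentence ∧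
    ∀ S : Str τ, (∀ v V, χ.Sat S v V ↔ Iso A S) := by
  obtain ⟨n, ⟨e'⟩⟩ := Finite.exists_equiv_fin A.M
  let e := e'.symm
  have hP : ED n (fun (S : Str τ) w => (∀ i j : Fin n, i = j ↔ w i = w j) ∧
      (¬ ∃ a : S.M, ∀ i : Fin n, ¬ a = w i) ∧
      (∀ (R : Fin τ.nR) (x : Fin (τ.arR R) → Fin n), A.rel R (fun k => e (x k)) ↔
        S.rel R (fun k => w (x k))) ∧
      (∀ (F : Fin τ.nF) (x : Fin (τ.arF F) → Fin n) (m : Fin n), A.fn F (fun k => e (x k)) = e m ↔
        S.fn F (fun k => w (x k)) = w m)) := by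
    refine ED.and ?_ (ED.and ?_ (ED.and ?_ ?_))
    · exact ED.finall fun i => ED.finall fun j => (ED.eq i.2 j.2).iffc _
    · have h1 : ED (n + 1) (fun (S : Str τ) w => ∀ i : Fin n, ¬ w n = w i) :=
        ED.finall fun i => (ED.eq (by omega) (by omega)).not
      refine h1.ex.not.congr fun S v => ?_
      refine not_congr (exists_congr fun a => forall_congr' fun i => ?_)
      rw [update_self, update_of_ne (by omega)]
    · exact ED.finall fun R => ED.finall fun x => (ED.rel R x).iffc _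
    · exact ED.finall fun F => ED.finall fun x => ED.finall fun m => (ED.fn F x m).iffc _
  obtain ⟨χ, h1, h2, h3⟩ := hP.exAll
  refine ⟨χ, ⟨?_, h2⟩, fun S v V => ?_⟩
  · rw [Set.eq_empty_iff_forall_notMem]
    intro i hi
    exact absurd (h1 i hi) (by omega)
  · rw [← h3]
    constructor
    · rintro ⟨w, hinj, hsurj, hR, hF⟩
      have hbij : Bijective (fun i : Fin n => w i) := by
        refine ⟨fun i j h => (hinj i j).2 h, fun a => ?_⟩
        by_contra hcon
        exact hsurj ⟨a, fun i hi => hcon ⟨i, hi.symm⟩⟩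
      refine ⟨e.symm.trans (Equiv.ofBijective _ hbij), fun R x => ?_, fun F x => ?_⟩
      · have := hR R (fun k => e.symm (x k))
        simp only [Equiv.apply_symm_apply] at this
        exact this
      · have := (hF F (fun k => e.symm (x k)) (e.symm (A.fn F x))).1 (by
          simp only [Equiv.apply_symm_apply])
        exact this.symm
    · rintro ⟨E, hR, hF⟩
      obtain ⟨m0⟩ := S.ne
      have hw : ∀ i : Fin n, (fun j : ℕ => if h : j < n then E (e ⟨j, h⟩) else m0) i = E (e i) := by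
        intro i
        simp only [i.2, dif_pos, Fin.eta]
      refine ⟨fun j : ℕ => if h : j < n then E (e ⟨j, h⟩) else m0, ?_, ?_, ?_, ?_⟩
      · intro i j
        rw [hw, hw]
        simp
      · rintro ⟨a, ha⟩
        apply ha (e.symm (E.symm a))
        rw [hw]; simp
      · intro R x
        simp only [hw]
        exact hR R _
      · intro F x m
        simp only [hw]
        have := hF F (fun k => e (x k))
        have h4 : (E ∘ fun k => e (x k)) = fun k => E (e (x k)) := rfl
        rw [h4] at this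
        rw [← this, E.apply_eq_iff_eq]

theorem categorical_of_finite {T : Set (SOF τ)} (hT : Complete T) {A : Str τ} (hA : A.Models T)
    (hfin : Finite A.M) : Categorical T := by
  have key : ∀ A : Str τ, A.Models T → Finite A.M → ∀ S : Str τ, S.Models T → Iso A S := by
    intro A hA hfin S hS
    obtain ⟨χ, hχ, h⟩ := exists_char A
    obtain ⟨m⟩ := S.ne
    obtain ⟨a⟩ := A.ne
    have hAA : Iso A A := ⟨Equiv.refl _, fun R x => Iff.rfl, fun F x => rfl⟩
    rcases hT.2 χ hχ with h1 | h1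
    · exact (h S (fun _ => m) (fun _ _ _ => True)).1 (h1 S hS _ _)
    · exact absurd ((h A (fun _ => a) (fun _ _ _ => True)).2 hAA) (h1 A hA _ _)
  intro B C hB hC
  obtain ⟨e, _⟩ := key A hA hfin B hB
  exact key B hB (Finite.of_equiv _ e) C hC

end Pool.Agent.Solovay
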