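import Pool.Agent.Solovay.SD

/-! # Second-order definability of arithmetic and of computable predicates -/

namespace Pool.Agent.Solovay

open Function

universe u w

variable {τ : Vocab} {Γ : NStr τ → Type u} {C : SCx τ Γ}

instance SD.eqSucc {x y : ∀ B, Γ B → ℕ} [hx : IsN C x] [hy : IsN C y] :
    SD C (fun B g => y B g = x B g + 1) :=
  SD.congr (P := fun B g => B.succR (B.ν (x B g)) (B.ν (y B g)) (B.ν (y B g))) inferInstance
    (fun B g v V _ => by
      constructor
      · intro h; exact ⟨x B g, rfl, by rw [h]⟩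
      · rintro ⟨n, h1, h2⟩
        have h1 := B.inj h1
        have h2 := B.inj h2
        omega)

instance SD.eqAdd {x y z : ∀ B, Γ B → ℕ} [hx : IsN C x] [hy : IsN C y] [hz : IsN C z] :
    SD C (fun B g => z B g = x B g + y B g) :=
  SD.congr (P := fun B g => ∀ X : ℕ → ℕ → ℕ → Prop, (∀ a, X a 0 a) →
    (∀ a b c, X a b c → ∀ b', b' = b + 1 → ∀ c', c' = c + 1 → X a b' c') →
    X (x B g) (y B g) (z B g)) inferInstance
    (fun B g v V _ => by
      constructor
      · intro h X h0 hs
        rw [h]
        generalize y B g = m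
        induction m with
        | zero => exact h0 _
        | succ m ih => exact hs _ _ _ ih _ rfl _ rfl
      · intro h
        refine h (fun a b c => c = a + b) (fun a => rfl) ?_
        rintro a b c rfl _ rfl _ rfl
        omega)

instance SD.eqMul {x y z : ∀ B, Γ B → ℕ} [hx : IsN C x] [hy : IsN C y] [hz : IsN C z] :
    SD C (fun B g => z B g = x B g * y B g) :=
  SD.congr (P := fun B g => ∀ X : ℕ → ℕ → ℕ → Prop, (∀ a, X a 0 0) →
    (∀ a b c, X a b c → ∀ b', b' = b + 1 → ∀ c', c' = c + a → X a b' c') →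
    X (x B g) (y B g) (z B g)) inferInstance
    (fun B g v V _ => by
      constructor
      · intro h X h0 hs
        rw [h]
        generalize y B g = m
        induction m with
        | zero => exact h0 _
        | succ m ih => exact hs _ _ _ ih _ rfl _ (by ring)
      · intro h
        refine h (fun a b c => c = a * b) (fun a => rfl) ?_
        rintro a b c rfl _ rfl _ rfl
        ring)

instance SD.lt {x y : ∀ B, Γ B → ℕ} [hx : IsN C x] [hy : IsN C y] :
    SD C (fun B g => x B g < y B g) :=
  SD.congr (P := fun B g => ∃ d : ℕ, ∃ e : ℕ, e = d + 1 ∧ y B g = x B g + e) inferInstance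
    (fun B g v V _ => by
      constructor
      · intro h; exact ⟨y B g - x B g - 1, y B g - x B g, by omega, by omega⟩
      · rintro ⟨d, e, h1, h2⟩; omega)

instance SD.eqPair {x y z : ∀ B, Γ B → ℕ} [hx : IsN C x] [hy : IsN C y] [hz : IsN C z] :
    SD C (fun B g => z B g = Nat.pair (x B g) (y B g)) :=
  SD.congr (P := fun B g => (x B g < y B g ∧ ∃ m : ℕ, m = y B g * y B g ∧ z B g = m + x B g) ∨
    (¬ x B g < y B g ∧ ∃ m : ℕ, m = x B g * x B g ∧ ∃ n : ℕ, n = m + x B g ∧ z B g = n + y B g))
    inferInstance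
    (fun B g v V _ => by
      unfold Nat.pair
      split_ifs with h
      · simp only [h, true_and, not_true_eq_false, false_and, or_false]
        constructor
        · intro h; exact ⟨_, rfl, h⟩
        · rintro ⟨_, rfl, h⟩; exact h
      · simp only [h, false_and, false_or, not_false_eq_true, true_and]
        constructor
        · intro h; exact ⟨_, rfl, _, rfl, h⟩
        · rintro ⟨_, rfl, _, rfl, h⟩; exact h)

instance SD.eqConst (n : ℕ) : ∀ {Γ : NStr τ → Type u} {C : SCx τ Γ} {x : ∀ B, Γ B → ℕ}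
    [IsN C x], SD C (fun B g => x B g = n) := by
  induction n with
  | zero => intro Γ C x hx; infer_instance
  | succ n ih =>
    intro Γ C x hx
    have : SD (C.ext kN) (fun B p => p.2 = n) := ih (C := C.ext kN) (x := fun B p => p.2)
    exact SD.congr (P := fun B g => ∃ m : ℕ, m = n ∧ x B g = m + 1) inferInstance
      (fun B g v V _ => ⟨fun h => ⟨n, rfl, h⟩, fun ⟨m, h1, h2⟩ => by rw [h2, h1]⟩)

/-- `f` has a definable graph -/
def NDef (τ : Vocab) (f : ℕ →. ℕ) : Prop :=
  ∀ {Γ : NStr τ → Type u} (C : SCx τ Γ) (x y : ∀ B, Γ B → ℕ), IsN C x → IsN C y →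
    SD C (fun B g => y B g ∈ f (x B g))

theorem ndef_of_partrec {f : ℕ →. ℕ} (hf : Nat.Partrec f) : NDef.{u} τ f := by
  induction hf with
  | zero =>
    intro Γ C x y hx hy
    exact SD.congr (P := fun B g => y B g = 0) inferInstance
      (fun B g v V _ => by simp [pure, PFun.pure])
  | succ =>
    intro Γ C x y hx hy
    exact SD.congr (P := fun B g => y B g = x B g + 1) inferInstance
      (fun B g v V _ => by simp)
  | left =>
    intro Γ C x y hx hy
    exact SD.congr (P := fun B g => ∃ k : ℕ, x B g = Nat.pair (y B g) k) inferInstance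
      (fun B g v V _ => by
        simp only [PFun.coe_val, Part.mem_some_iff]
        constructor
        · intro h; exact ⟨(x B g).unpair.2, by rw [h, Nat.pair_unpair]⟩
        · rintro ⟨k, h⟩; rw [h]; simp)
  | right =>
    intro Γ C x y hx hy
    exact SD.congr (P := fun B g => ∃ k : ℕ, x B g = Nat.pair k (y B g)) inferInstance
      (fun B g v V _ => by
        simp only [PFun.coe_val, Part.mem_some_iff]
        constructor
        · intro h; exact ⟨(x B g).unpair.1, by rw [h, Nat.pair_unpair]⟩
        · rintro ⟨k, h⟩; rw [h]; simp)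
  | pair _ _ ihf ihg =>
    rename_i f g _ _
    intro Γ C x y hx hy
    have h1 : SD ((C.ext kN).ext kN) (fun B p => p.1.2 ∈ f (x B p.1.1)) :=
      ihf ((C.ext kN).ext kN) (fun B p => x B p.1.1) (fun B p => p.1.2) inferInstance inferInstance
    have h2 : SD ((C.ext kN).ext kN) (fun B p => p.2 ∈ g (x B p.1.1)) :=
      ihg ((C.ext kN).ext kN) (fun B p => x B p.1.1) (fun B p => p.2) inferInstance inferInstance
    exact SD.congr (P := fun B t => ∃ a : ℕ, ∃ b : ℕ, a ∈ f (x B t) ∧ b ∈ g (x B t) ∧
      y B t = Nat.pair a b) inferInstance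
      (fun B t v V _ => by
        simp only [Seq.seq, Functor.map, Part.mem_bind_iff, Part.mem_map_iff]
        constructor
        · rintro ⟨F, ⟨a, ha, rfl⟩, b, hb, h⟩
          exact ⟨a, b, ha, hb, h.symm⟩
        · rintro ⟨a, b, ha, hb, h⟩
          exact ⟨_, ⟨a, ha, rfl⟩, b, hb, h.symm⟩)
  | comp _ _ ihf ihg =>
    rename_i f g _ _
    intro Γ C x y hx hy
    have h1 : SD (C.ext kN) (fun B p => p.2 ∈ g (x B p.1)) :=
      ihg (C.ext kN) (fun B p => x B p.1) (fun B p => p.2) inferInstance inferInstance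
    have h2 : SD (C.ext kN) (fun B p => y B p.1 ∈ f p.2) :=
      ihf (C.ext kN) (fun B p => p.2) (fun B p => y B p.1) inferInstance inferInstance
    exact SD.congr (P := fun B t => ∃ k : ℕ, k ∈ g (x B t) ∧ y B t ∈ f k) inferInstance
      (fun B t v V _ => by
        constructor
        · intro h
          obtain ⟨k, hk, h⟩ := Part.mem_bind_iff.1 h
          exact ⟨k, hk, h⟩
        · rintro ⟨k, hk, h⟩
          exact Part.mem_bind_iff.2 ⟨k, hk, h⟩)
  | prec _ _ ihf ihg =>
    rename_i f g _ _
    intro Γ C x y hx hy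
    refine SD.congr (P := fun B t => ∃ a : ℕ, ∃ n : ℕ, x B t = Nat.pair a n ∧
      ∀ X : ℕ → ℕ → Prop, (∀ b : ℕ, b ∈ f a → X 0 b) →
        (∀ m : ℕ, ∀ i : ℕ, ∀ b : ℕ, X m i → ∀ m' : ℕ, m' = m + 1 →
          (∃ q : ℕ, q = Nat.pair m i ∧ ∃ r : ℕ, r = Nat.pair a q ∧ b ∈ g r) → X m' b) →
        X n (y B t)) ?_ ?_
    · have h1 : SD ((((C.ext kN).ext kN).ext kR).ext kN) (fun B p => p.2 ∈ f p.1.1.1.2) :=
        ihf ((((C.ext kN).ext kN).ext kR).ext kN) (fun B p => p.1.1.1.2) (fun B p => p.2)
          inferInstance inferInstance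
      have h2 : SD (((((((((C.ext kN).ext kN).ext kR).ext kN).ext kN).ext kN).ext kN).ext kN).ext kN)
          (fun B p => p.1.1.1.2 ∈ g p.2) :=
        ihg (((((((((C.ext kN).ext kN).ext kR).ext kN).ext kN).ext kN).ext kN).ext kN).ext kN)
          (fun B p => p.2) (fun B p => p.1.1.1.2) inferInstance inferInstance
      infer_instance
    · intro B t v V _
      generalize hyy : y B t = yy
      generalize hxx : x B t = xx
      simp only [Nat.unpaired]
      constructor
      · intro h
        refine ⟨xx.unpair.1, xx.unpair.2, (Nat.pair_unpair xx).symm, ?_⟩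
        intro X hX0 hXs
        generalize xx.unpair.2 = n at h
        generalize xx.unpair.1 = a at h hX0 hXs
        clear hyy
        induction n generalizing yy with
        | zero => exact hX0 _ h
        | succ n ih =>
          simp only [Part.bind_eq_bind, Part.mem_bind_iff] at h
          obtain ⟨i, hi, hb⟩ := h
          exact hXs n i yy (ih i hi) _ rfl ⟨_, rfl, _, rfl, hb⟩
      · rintro ⟨a, n, rfl, h⟩
        rw [Nat.unpair_pair]
        refine h (fun m b => b ∈ (Nat.rec (f a) (fun y IH => do let i ← IH; g (Nat.pair a (Nat.pair y i))) m : Part ℕ)) (fun b hb => hb) ?_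
        rintro m i b hi _ rfl ⟨_, rfl, _, rfl, hb⟩
        simp only [Part.bind_eq_bind, Part.mem_bind_iff]
        exact ⟨i, hi, hb⟩
  | rfind _ ihf =>
    rename_i f _
    intro Γ C x y hx hy
    refine SD.congr (P := fun B t => (∃ q : ℕ, ∃ o : ℕ, q = Nat.pair (x B t) (y B t) ∧ o = 0 ∧ o ∈ f q) ∧
      ∀ m : ℕ, m < y B t → ∃ q : ℕ, ∃ b : ℕ, q = Nat.pair (x B t) m ∧ b ∈ f q ∧ ¬ b = 0) ?_ ?_
    · have h1 : SD ((C.ext kN).ext kN) (fun B p => p.2 ∈ f p.1.2) :=
        ihf ((C.ext kN).ext kN) (fun B p => p.1.2) (fun B p => p.2) inferInstance inferInstance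
      have h2 : SD (((C.ext kN).ext kN).ext kN) (fun B p => p.2 ∈ f p.1.2) :=
        ihf (((C.ext kN).ext kN).ext kN) (fun B p => p.1.2) (fun B p => p.2) inferInstance inferInstance
      infer_instance
    · intro B t v V _
      refine Iff.trans (Nat.mem_rfind (p := fun n => Part.map (fun m => decide (m = 0))
        (f (Nat.pair (x B t) n)))) ?_
      simp only [Part.mem_map_iff, decide_eq_true_eq, decide_eq_false_iff_not]
      constructor
      · rintro ⟨⟨b, hb, hb0⟩, h⟩
        refine ⟨⟨_, b, rfl, hb0, hb⟩, fun m hm => ?_⟩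
        obtain ⟨b, hb, hb0⟩ := h hm
        exact ⟨_, b, rfl, hb, hb0⟩
      · rintro ⟨⟨_, b, rfl, hb0, hb⟩, h⟩
        refine ⟨⟨b, hb, hb0⟩, fun {m} hm => ?_⟩
        obtain ⟨_, b, rfl, hb, hb0⟩ := h m hm
        exact ⟨b, hb, hb0⟩

theorem SD.computable {p : ℕ → Prop} (hp : ComputablePred p) {x : ∀ B, Γ B → ℕ} [hx : IsN C x] :
    SD C (fun B g => p (x B g)) := by
  obtain ⟨hdec, hc⟩ := hp
  have hc' : Partrec (fun a => Part.some (decide (p a)) : ℕ →. Bool) := hc
  have h1 : Nat.Partrec fun n => Part.map Encodable.encode (Part.some (decide (p n)) : Part Bool) := by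
    have := Partrec.nat_iff.1 (hc'.map (Computable.encode.comp Computable.snd).to₂)
    exact this
  have h2 : SD (C.ext kN) (fun B p' => p'.2 ∈ Part.map Encodable.encode
      (Part.some (decide (p (x B p'.1))) : Part Bool)) :=
    ndef_of_partrec h1 (C.ext kN) (fun B p' => x B p'.1) (fun B p' => p'.2) inferInstance inferInstance
  refine SD.congr (P := fun B g => ∃ b : ℕ, b = 1 ∧ b ∈ Part.map Encodable.encode
      (Part.some (decide (p (x B g))) : Part Bool)) inferInstance (fun B g v V _ => ?_)
  simp only [Part.map_some, Part.mem_some_iff]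
  constructor
  · intro h; exact ⟨1, rfl, by simp [h]⟩
  · rintro ⟨b, rfl, h⟩
    by_contra hcon
    simp [hcon] at h

end Pool.Agent.Solovay
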