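import Pool.Agent.Solovay.FinLev

/-! # The fine-structural core of the argument -/

set_option linter.unusedVariables false

namespace Pool.Agent.Solovay

open Function

/-- `θ` defines `x` from `a` in `X` -/
def Dfs (X : Set ZFSet.{0}) (θ : FL) (a x : ZFSet.{0}) : Prop :=
  ∀ y ∈ X, (y = x ↔ θ.Sat X (update (fun _ => a) 0 y))

theorem mem_dcl_single {X : Set ZFSet.{0}} {a x : ZFSet.{0}} :
    x ∈ dcl X {a} ↔ x ∈ X ∧ ∃ θ, Dfs X θ a x := by
  constructor
  · rintro ⟨hx, φ, w, hw, h⟩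
    have : w = fun _ => a := funext fun n => hw n
    subst this
    exact ⟨hx, φ, h⟩
  · rintro ⟨hx, θ, h⟩
    exact ⟨hx, θ, fun _ => a, fun _ => rfl, h⟩

theorem Dfs.unique {X : Set ZFSet.{0}} {θ : FL} {a x x' : ZFSet.{0}} (h : Dfs X θ a x)
    (h' : Dfs X θ a x') (hx : x ∈ X) : x = x' := (h' x hx).2 ((h x hx).1 rfl)

/-- `p` is the part of `a` above `ζ` -/
def IsTop (ζ a p : ZFSet.{0}) : Prop :=
  (∀ y, y ∈ p → y ∈ a ∧ ζ ∈ y) ∧ (∀ y, y ∈ a → ζ ∈ y → y ∈ p)

/-- capturing of the truth of `φ` at `p ∪ b` by the small structure `Y` at `r ∪ b` -/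
def Cap (φ : FL) (m : ℕ) (X : Set ZFSet.{0}) (a ζ Y r : ZFSet.{0}) : Prop :=
  ∀ p ∈ X, IsTop ζ a p → ∀ b ∈ X, FinLev m b → (∀ u, u ∈ b → u ∈ ζ) → ∀ c ∈ X, c = p ∪ b →
    ∃ c', c' ∈ Y ∧ (c' = r ∪ b ∧ (φ.Sat X (fun _ => c) ↔ φ.Sat (El Y) (fun _ => c')))

section FD

variable {Γ : Type 1} {C : FCx Γ}

theorem FD.dfs (θ : FL) {a x : Γ → ZFSet.{0}} [ha : IsV C a] [hx : IsV C x] :
    FD C (fun X g => Dfs X θ (a g) (x g)) := by
  have h1 : FD C.ext (fun X p => θ.Sat X (fun n => if n = 0 then p.2 else a p.1)) :=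
    FD.sat θ (C := C.ext) (fun n p => if n = 0 then p.2 else a p.1) (by
      intro n
      by_cases h : n = 0
      · simp only [h, if_true]; infer_instance
      · simp only [h, if_false]; infer_instance)
  have h2 : FD C.ext (fun X p => θ.Sat X (update (fun _ => a p.1) 0 p.2)) := by
    refine h1.congr fun X p v _ => ?_
    have : (update (fun _ => a p.1) 0 p.2) = fun n => if n = 0 then p.2 else a p.1 := by
      funext n; simp [update_apply]
    rw [this]
  unfold Dfs
  infer_instance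

theorem FD.dfsRel (θ : FL) {Y a x : Γ → ZFSet.{0}} [hY : IsV C Y] [ha : IsV C a] [hx : IsV C x] :
    FD C (fun X g => Dfs (El (Y g)) θ (a g) (x g)) := by
  have h1 : FD C.ext (fun X p => θ.Sat (El (Y p.1)) (fun n => if n = 0 then p.2 else a p.1)) :=
    FD.satRel θ (C := C.ext) (fun p => Y p.1) (fun n p => if n = 0 then p.2 else a p.1)
      inferInstance (by
      intro n
      by_cases h : n = 0
      · simp only [h, if_true]; infer_instance
      · simp only [h, if_false]; infer_instance)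
  have h2 : FD C.ext (fun X p => θ.Sat (El (Y p.1)) (update (fun _ => a p.1) 0 p.2)) := by
    refine h1.congr fun X p v _ => ?_
    have : (update (fun _ => a p.1) 0 p.2) = fun n => if n = 0 then p.2 else a p.1 := by
      funext n; simp [update_apply]
    rw [this]
  unfold Dfs
  simp only [mem_El]
  exact FD.ballv

instance FD.isTop {ζ a p : Γ → ZFSet.{0}} [IsV C ζ] [IsV C a] [IsV C p] :
    FD C (fun _ g => IsTop (ζ g) (a g) (p g)) := by
  unfold IsTop; infer_instance

theorem FD.cap (φ : FL) (m : ℕ) {a ζ Y r : Γ → ZFSet.{0}} [IsV C a] [IsV C ζ] [IsV C Y] [IsV C r] :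
    FD C (fun X g => Cap φ m X (a g) (ζ g) (Y g) (r g)) := by
  have h1 : FD C.ext.ext.ext.ext (fun X p => φ.Sat X (fun _ => p.1.2)) :=
    FD.sat φ (C := C.ext.ext.ext.ext) (fun n p => p.1.2) (fun n => inferInstance)
  have h2 : FD C.ext.ext.ext.ext (fun X p => φ.Sat (El (Y p.1.1.1.1)) (fun _ => p.2)) :=
    FD.satRel φ (C := C.ext.ext.ext.ext) (fun p => Y p.1.1.1.1) (fun n p => p.2) inferInstance
      (fun n => inferInstance)
  unfold Cap
  infer_instance

end FD

/-- finite subsets of elementary substructures are elements -/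
theorem Elem.finite_mem {N X : Set ZFSet.{0}} (hN : Elem N X) (hX : Good X) (hne : N.Nonempty)
    {s : Set ZFSet.{0}} (hs : s.Finite) (hsN : s ⊆ N) : ∃ y ∈ N, El y = s := by
  induction s, hs using Set.Finite.induction_on with
  | empty =>
    obtain ⟨n0, hn0⟩ := hne
    exact ⟨∅, hN.mem_unique hX (P := fun _ _ y => y = ∅) inferInstance (g := fun _ => n0)
      (fun _ => hn0) hX.em rfl (fun y _ h => h), by ext z; simp [El]⟩
  | insert ha hfin ih =>
    rename_i a s
    obtain ⟨y, hy, rfl⟩ := ih (fun z hz => hsN (Set.mem_insert_of_mem _ hz))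
    have haN : a ∈ N := hsN (Set.mem_insert _ _)
    refine ⟨insert a y, ?_, El_insert a y⟩
    refine hN.mem_unique hX (P := fun _ g z => z = insert (g 0) (g 1)) inferInstance
      (g := fun n => if n = 0 then a else y) (fun n => ?_) (hX.ins a (hN.1 haN) y (hN.1 hy)) ?_ ?_
    · show (if n = 0 then a else y) ∈ N
      split_ifs
      · exact haN
      · exact hy
    · simp
    · intro z _ hz; simpa using hz

theorem transferFD {N X X' : Set ZFSet.{0}} (hX : Good X) (hX' : Good X') (hNX : N ⊆ X)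
    (himg : col N '' N = X')
    (hsat : ∀ (φ : FL) (v : ℕ → ZFSet.{0}), (∀ n, v n ∈ N) →
      (φ.Sat X' (fun n => col N (v n)) ↔ φ.Sat X v))
    {P : Set ZFSet.{0} → (ℕ → ZFSet.{0}) → Prop} (hP : FD FCx.base P) {g : ℕ → ZFSet.{0}}
    (hg : ∀ n, g n ∈ N) : P X' (fun n => col N (g n)) ↔ P X g := by
  obtain ⟨φ, hφ⟩ := hP.base_out
  rw [hφ X hX g (fun n => hNX (hg n)), hφ X' hX' (fun n => col N (g n)) (fun n => by
    rw [← himg]; exact ⟨_, hg n, rfl⟩)]
  exact hsat φ (fun j => g (j / 2)) (fun n => hg _)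

/-- The core lemma. -/
theorem core {γ : Ordinal.{0}} (h0 : 0 < γ) (hs : ∀ α < γ, Order.succ α < γ)
    {a1 : ZFSet.{0}} {n : ℕ} (ha1 : FinLev n a1) (ha1X : a1 ∈ El (L γ))
    (hmin : ∀ c m, FinLev m c → c ∈ El (L γ) → cx c a1 → a1 ∉ dcl (El (L γ)) {c})
    {ζ1 : ZFSet.{0}} (hζ1 : ζ1 ∈ a1) (hz : ∃ z, z ∈ ζ1 ∧ Lv z) (m : ℕ) :
    ∃ Y r, Y ∈ dcl (El (L γ)) {a1} ∧ r ∈ dcl (El (L γ)) {a1} ∧ Good (El Y) ∧
      ∀ φ, Cap φ m (El (L γ)) a1 ζ1 Y r := by
  have hX := good_L h0 hs
  have hsing : ({a1} : Set ZFSet.{0}) ⊆ El (L γ) := by rintro _ rfl; exact ha1X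
  have hN := elem_dcl h0 hs hsing ⟨a1, rfl⟩
  have ha1N : a1 ∈ dcl (El (L γ)) {a1} := subset_dcl hX hsing rfl
  set X := El (L γ) with hXdef
  set N := dcl X {a1} with hNdef
  obtain ⟨δ, hδγ, hδ0, hδs, himg, hsat⟩ := condensation h0 hs hN ⟨a1, ha1N⟩
  have hX' := good_L hδ0 hδs
  set X' := El (L δ) with hX'def
  have T : ∀ {P : Set ZFSet.{0} → (ℕ → ZFSet.{0}) → Prop} (hP : FD FCx.base P)
      {g : ℕ → ZFSet.{0}} (hg : ∀ n, g n ∈ N), P X' (fun n => col N (g n)) ↔ P X g :=
    fun {P} hP {g} hg => transferFD hX hX' hN.1 himg hsat hP hg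
  have hζ1N : ζ1 ∈ N := elem_fin_subset h0 hs hN n a1 ha1N ha1 hζ1
  -- the top part
  let p1 : ZFSet.{0} := ZFSet.sep (fun y => ζ1 ∈ y) a1
  have hp1 : IsTop ζ1 a1 p1 := ⟨fun y hy => ZFSet.mem_sep.1 hy, fun y h1 h2 => ZFSet.mem_sep.2 ⟨h1, h2⟩⟩
  have hp1N : p1 ∈ N := by
    obtain ⟨y, hyN, he⟩ := hN.finite_mem hX ⟨a1, ha1N⟩ (s := El p1)
      (ha1.finite.subset fun z hz => (hp1.1 z hz).1)
      (fun z hz => elem_fin_subset h0 hs hN n a1 ha1N ha1 (hp1.1 z hz).1)
    rw [← El_inj he]; exact hyN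
  set ab := col N a1 with hab
  set zb := col N ζ1 with hzb
  set pb := col N p1 with hpb
  have hmemX' : ∀ x ∈ N, col N x ∈ X' := fun x hx => by rw [← himg]; exact ⟨x, hx, rfl⟩
  have habX' : ab ∈ X' := hmemX' _ ha1N
  have hzbX' : zb ∈ X' := hmemX' _ hζ1N
  have hpbX' : pb ∈ X' := hmemX' _ hp1N
  let g1 : ℕ → ZFSet.{0} := fun n => if n = 0 then a1 else if n = 1 then ζ1 else p1
  have hg1 : ∀ n, g1 n ∈ N := by
    intro n
    show (if n = 0 then a1 else if n = 1 then ζ1 else p1) ∈ N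
    split_ifs
    · exact ha1N
    · exact hζ1N
    · exact hp1N
  have hFin : FinLev n ab := (T (P := fun _ g => FinLev n (g 0)) inferInstance hg1).2 ha1
  have hzab : zb ∈ ab := (T (P := fun _ g => g 1 ∈ g 0) inferInstance hg1).2 hζ1
  have hTop : IsTop zb ab pb := (T (P := fun _ g => IsTop (g 1) (g 0) (g 2)) inferInstance hg1).2 hp1
  have hLz : ∃ z, z ∈ zb ∧ Lv z := (T (P := fun _ g => ∃ z, z ∈ g 1 ∧ Lv z) inferInstance hg1).2 hz
  have hzbL : Lv zb := hFin.1 _ hzab
  have hmin' : ∀ c k, FinLev k c → c ∈ X' → cx c ab → ab ∉ dcl X' {c} := by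
    intro c k hc hcX' hcx hmem
    rw [← himg] at hcX'
    obtain ⟨c', hc'N, rfl⟩ := hcX'
    obtain ⟨_, θ, hθ⟩ := mem_dcl_single.1 hmem
    let g2 : ℕ → ZFSet.{0} := fun n => if n = 0 then a1 else c'
    have hg2 : ∀ n, g2 n ∈ N := by
      intro n
      show (if n = 0 then a1 else c') ∈ N
      split_ifs
      · exact ha1N
      · exact hc'N
    refine hmin c' k ((T (P := fun _ g => FinLev k (g 1)) inferInstance hg2).1 hc) (hN.1 hc'N)
      ((T (P := fun _ g => cx (g 1) (g 0)) inferInstance hg2).1 hcx) ?_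
    exact mem_dcl_single.2 ⟨ha1X, θ,
      (T (P := fun X g => Dfs X θ (g 1) (g 0)) (FD.dfs θ) hg2).1 hθ⟩
  -- the second hull
  let Z : Set ZFSet.{0} := {z | Lv z ∧ (z ∈ zb ∨ z ∈ pb)}
  have hZX' : Z ⊆ X' := by
    rintro z ⟨_, h | h⟩
    · exact hX'.tr zb hzbX' z h
    · exact hX'.tr pb hpbX' z h
  have hpL : ∀ z ∈ pb, Lv z := fun z hz => hFin.1 z (hTop.1 z hz).1
  obtain ⟨z0, hz0, hz0L⟩ := hLz
  have hZne : Z.Nonempty := ⟨z0, hz0L, Or.inl hz0⟩
  have hM := elem_dcl hδ0 hδs hZX' hZne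
  have hZM : Z ⊆ dcl X' Z := subset_dcl hX' hZX'
  set M := dcl X' Z with hMdef
  have hMne : M.Nonempty := ⟨z0, hZM ⟨hz0L, Or.inl hz0⟩⟩
  obtain ⟨ν, hνδ, hν0, hνs, himg', hsat'⟩ := condensation hδ0 hδs hM hMne
  have hY := good_L hν0 hνs
  have T' : ∀ {P : Set ZFSet.{0} → (ℕ → ZFSet.{0}) → Prop} (hP : FD FCx.base P)
      {g : ℕ → ZFSet.{0}} (hg : ∀ n, g n ∈ M), P (El (L ν)) (fun n => col M (g n)) ↔ P X' g :=
    fun {P} hP {g} hg => transferFD hX' hY hM.1 himg' hsat' hP hg
  have hlevM := col_level hδ0 hδs hM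
  -- levels below `zb` are fixed
  have hfix : ∀ z, z ∈ zb → Lv z → col M z = z := by
    intro z hz hzL
    obtain ⟨β, rfl⟩ := hzL
    induction β using WellFoundedLT.induction with
    | ind β ih =>
      obtain ⟨β', hβ', he⟩ := hlevM β (hZM ⟨Lv_L _, Or.inl hz⟩)
      have hge : β ≤ β' := by
        by_contra hcon
        have hlt := not_le.1 hcon
        have h1 : L β' ∈ zb := Lv_trans hzbL _ hz (L_mem_of_lt hlt)
        have h2 := ih β' hlt h1
        have h3 : col M (L β') ∈ col M (L β) :=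
          col_mem (L_mem_of_lt hlt) (hZM ⟨Lv_L _, Or.inl h1⟩)
        rw [h2, he] at h3
        exact ZFSet.mem_irrefl _ h3
      rw [he, le_antisymm hβ' hge]
  have hle : ∀ z, z ∈ pb → (col M z ∈ z ∨ col M z = z) ∧ Lv (col M z) := by
    intro z hz
    obtain ⟨β, rfl⟩ := hpL z hz
    obtain ⟨β', hβ', he⟩ := hlevM β (hZM ⟨Lv_L _, Or.inr hz⟩)
    rw [he]
    rcases hβ'.eq_or_lt with h | h
    · exact ⟨Or.inr (by rw [h]), Lv_L _⟩
    · exact ⟨Or.inl (L_mem_of_lt h), Lv_L _⟩
  -- `ν < δ`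
  have hνlt : ν < δ := by
    rcases hνδ.eq_or_lt with heq | h
    · exfalso
      subst heq
      have h1 : ab ∈ col M '' M := by rw [himg']; exact habX'
      obtain ⟨x, hxM, hxab⟩ := h1
      obtain ⟨a', k, ha'f, ha'X, ha'Z, hxa'⟩ := exists_fin hδ0 hδs hZX' (fun z hz => hz.1) hxM
      have ha'M : a' ∈ M := by
        obtain ⟨y, hyM, he⟩ := hM.finite_mem hX' hMne ha'f.finite (ha'Z.trans hZM)
        rw [← El_inj he]; exact hyM
      let g3 : ℕ → ZFSet.{0} := fun n => if n = 0 then a' else x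
      have hg3 : ∀ n, g3 n ∈ M := by
        intro n
        show (if n = 0 then a' else x) ∈ M
        split_ifs
        · exact ha'M
        · exact hxM
      have hc1 : FinLev k (col M a') := (T' (P := fun _ g => FinLev k (g 0)) inferInstance hg3).2 ha'f
      have hcX : col M a' ∈ X' := by
        have h : col M a' ∈ El (L ν) := by rw [← himg']; exact ⟨_, ha'M, rfl⟩
        exact h
      have hcd : ab ∈ dcl X' {col M a'} := by
        obtain ⟨_, θ, hθ⟩ := mem_dcl_single.1 hxa'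
        refine mem_dcl_single.2 ⟨habX', θ, ?_⟩
        have := (T' (P := fun X g => Dfs X θ (g 0) (g 1)) (FD.dfs θ) hg3).2 hθ
        rw [← hxab]
        exact this
      refine hmin' (col M a') k hc1 hcX ?_ hcd
      -- comparison
      have hcmem : ∀ y, y ∈ col M a' → (y ∈ zb) ∨ ∃ z ∈ pb, z ∈ a' ∧ col M z = y := by
        intro y hy
        obtain ⟨z, hz, hzM, rfl⟩ := mem_col.1 hy
        obtain ⟨hzL, h | h⟩ := ha'Z hz
        · left; rw [hfix z h hzL]; exact h
        · right; exact ⟨z, h, hz, rfl⟩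
      by_cases hS : ∃ z ∈ pb, ¬ (z ∈ a' ∧ col M z = z)
      · obtain ⟨z2, hz2, hmax⟩ := exists_max (s := {z | z ∈ pb ∧ ¬ (z ∈ a' ∧ col M z = z)})
          (hFin.finite.subset fun z hz => (hTop.1 z hz.1).1) hS (fun z hz => hpL z hz.1)
        obtain ⟨hz2p, hz2n⟩ := hz2
        have hz2a := hTop.1 z2 hz2p
        have hbig : ∀ y ∈ pb, z2 ∈ y → y ∈ a' ∧ col M y = y := by
          intro y hy hzy
          by_contra hcon
          rcases hmax y ⟨hy, hcon⟩ with h | h
          · exact ZFSet.mem_asymm hzy h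
          · rw [h] at hzy; exact ZFSet.mem_irrefl _ hzy
        refine ⟨z2, hz2a.1, ?_, ?_, ?_⟩
        · intro hmem
          rcases hcmem z2 hmem with h | ⟨z, hz, hza', he⟩
          · exact ZFSet.mem_asymm h hz2a.2
          · rcases (hle z hz).1 with h | h
            · rw [he] at h
              have := (hbig z hz h).2
              rw [he] at this
              rw [this] at h; exact ZFSet.mem_irrefl _ h
            · rw [he] at h
              subst h
              exact hz2n ⟨hza', he⟩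
        · intro y hy hzy
          rcases hcmem y hy with h | ⟨z, hz, hza', he⟩
          · exfalso
            -- `zb ∈ z2 ∈ y ∈ zb`
            have h1 : z2 ∈ zb := Lv_trans hzbL y h hzy
            exact ZFSet.mem_asymm h1 hz2a.2
          · have hzL : Lv z := hpL z hz
            have h2 : z2 ∈ z := by
              rcases (hle z hz).1 with h | h
              · rw [he] at h; exact Lv_trans hzL y h hzy
              · rw [he] at h; rw [← h]; exact hzy
            have h3 := (hbig z hz h2).2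
            rw [he] at h3
            rw [h3]; exact (hTop.1 z hz).1
        · intro y hy hzy
          have hyL : Lv y := hFin.1 y hy
          have h1 : zb ∈ y := Lv_trans hyL z2 hzy hz2a.2
          have hyp := hTop.2 y hy h1
          obtain ⟨h2, h3⟩ := hbig y hyp hzy
          rw [← h3]
          exact col_mem h2 (hZM ⟨hyL, Or.inr hyp⟩)
      · push Not at hS
        refine ⟨zb, hzab, ?_, ?_, ?_⟩
        · intro hmem
          rcases hcmem zb hmem with h | ⟨z, hz, hza', he⟩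
          · exact ZFSet.mem_irrefl _ h
          · have h1 := (hS z hz).2
            rw [he] at h1
            have h2 := (hTop.1 z hz).2
            rw [← h1] at h2
            exact ZFSet.mem_irrefl _ h2
        · intro y hy hzy
          rcases hcmem y hy with h | ⟨z, hz, hza', he⟩
          · exact absurd h (ZFSet.mem_asymm hzy)
          · have h1 := (hS z hz).2
            rw [he] at h1
            rw [h1]; exact (hTop.1 z hz).1
        · intro y hy hzy
          have hyp := hTop.2 y hy hzy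
          obtain ⟨h2, h3⟩ := hS y hyp
          rw [← h3]
          exact col_mem h2 (hZM ⟨hFin.1 y hy, Or.inr hyp⟩)
    · exact h
  -- the capturing in `X'`
  have hYX' : L ν ∈ X' := L_mem_of_lt hνlt
  have hpbM : pb ∈ M := by
    obtain ⟨y, hyM, he⟩ := hM.finite_mem hX' hMne
      (hFin.finite.subset fun z hz => (hTop.1 z hz).1 : (El pb).Finite)
      (fun z hz => hZM ⟨hpL z hz, Or.inr hz⟩)
    rw [← El_inj he]; exact hyM
  have hrY : col M pb ∈ L ν := by
    have : col M pb ∈ El (L ν) := by rw [← himg']; exact ⟨_, hpbM, rfl⟩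
    exact this
  have hrX' : col M pb ∈ X' := hX'.tr _ hYX' _ hrY
  have hCap' : ∀ φ, Cap φ m X' ab zb (L ν) (col M pb) := by
    intro φ p hp hpT b hb hbf hbz c hc hcu
    have hpp : p = pb := by
      ext y
      constructor
      · intro hy; exact hTop.2 y (hpT.1 y hy).1 (hpT.1 y hy).2
      · intro hy; exact hpT.2 y (hTop.1 y hy).1 (hTop.1 y hy).2
    subst hpp
    have hbM : b ∈ M := by
      obtain ⟨y, hyM, he⟩ := hM.finite_mem hX' hMne hbf.finite
        (fun z hz => hZM ⟨hbf.1 z hz, Or.inl (hbz z hz)⟩)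
      rw [← El_inj he]; exact hyM
    have hcM : c ∈ M := by
      obtain ⟨y, hyM, he⟩ := hM.finite_mem hX' hMne (s := El c)
        ((((hFin.finite.subset fun z hz => (hTop.1 z hz).1 : (El pb).Finite)).union
          hbf.finite).subset (by
            intro z hz
            have hz' : z ∈ c := hz
            rw [hcu, ZFSet.mem_union] at hz'
            exact hz'))
        (fun z hz => by
          have hz' : z ∈ c := hz
          rw [hcu, ZFSet.mem_union] at hz'
          rcases hz' with h | h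
          · exact hZM ⟨hpL z h, Or.inr h⟩
          · exact hZM ⟨hbf.1 z h, Or.inl (hbz z h)⟩)
      rw [← El_inj he]; exact hyM
    have hcc : col M c = col M pb ∪ b := by
      ext y
      rw [ZFSet.mem_union, mem_col, mem_col]
      constructor
      · rintro ⟨z, hz, hzM, rfl⟩
        rw [hcu, ZFSet.mem_union] at hz
        rcases hz with h | h
        · exact Or.inl ⟨z, h, hzM, rfl⟩
        · right; rw [hfix z (hbz z h) (hbf.1 z h)]; exact h
      · rintro (⟨z, hz, hzM, rfl⟩ | h)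
        · exact ⟨z, by rw [hcu, ZFSet.mem_union]; exact Or.inl hz, hzM, rfl⟩
        · exact ⟨y, by rw [hcu, ZFSet.mem_union]; exact Or.inr h,
            hZM ⟨hbf.1 y h, Or.inl (hbz y h)⟩, hfix y (hbz y h) (hbf.1 y h)⟩
    refine ⟨col M c, ?_, hcc, ?_⟩
    · have : col M c ∈ El (L ν) := by rw [← himg']; exact ⟨_, hcM, rfl⟩
      exact this
    · exact (hsat' φ (fun _ => c) (fun _ => hcM)).symm
  -- pull back
  have hYimg : L ν ∈ col N '' N := by rw [himg]; exact hYX'
  have hrimg : col M pb ∈ col N '' N := by rw [himg]; exact hrX'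
  obtain ⟨Y1, hY1N, hY1⟩ := hYimg
  obtain ⟨r1, hr1N, hr1⟩ := hrimg
  let g4 : ℕ → ZFSet.{0} := fun n => if n = 0 then a1 else if n = 1 then ζ1 else
    if n = 2 then Y1 else r1
  have hg4 : ∀ n, g4 n ∈ N := by
    intro n
    show (if n = 0 then a1 else if n = 1 then ζ1 else if n = 2 then Y1 else r1) ∈ N
    split_ifs
    · exact ha1N
    · exact hζ1N
    · exact hY1N
    · exact hr1N
  refine ⟨Y1, r1, hY1N, hr1N, ?_, fun φ => ?_⟩
  · refine (T (P := fun _ g => Good (El (g 2))) ?_ hg4).1 ?_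
    · exact FD.congr (P := fun X g => (∀ x, x ∈ g 2 → ∀ y, y ∈ x → y ∈ g 2) ∧
        (∃ x, x ∈ g 2 ∧ x = ∅) ∧
        (∀ x, x ∈ g 2 → ∀ y, y ∈ g 2 → ∃ z, z ∈ g 2 ∧ z = insert x y)) inferInstance
        (fun X g v _ => by
          constructor
          · intro h
            exact ⟨h.tr, ⟨∅, h.em, rfl⟩, fun x hx y hy => ⟨_, h.ins x hx y hy, rfl⟩⟩
          · rintro ⟨h1, ⟨x, h2, rfl⟩, h3⟩
            refine ⟨h1, h2, fun x hx y hy => ?_⟩
            obtain ⟨z, hz, rfl⟩ := h3 x hx y hy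
            exact hz)
    · show Good (El (col N Y1))
      rw [hY1]; exact hY
  · refine (T (P := fun X g => Cap φ m X (g 0) (g 1) (g 2) (g 3)) (FD.cap φ m) hg4).1 ?_
    show Cap φ m X' (col N a1) (col N ζ1) (col N Y1) (col N r1)
    rw [hY1, hr1]
    exact hCap' φ

end Pool.Agent.Solovay
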