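import Pool.Agent.Solovay.Closing
import Pool.Agent.Solovay.Core

/-! # All models have the same cardinality -/

set_option linter.unusedVariables false

namespace Pool.Agent.Solovay

open Function Cardinal

variable {τ : Vocab}

theorem PC_HH (M : Type) [Infinite M] : PC (HH M) := by
  intro u hu w hw
  have hg := good_HH M
  refine ⟨ZFSet.prod u w, HH.of_cov (fun y hy => ?_) ?_, fun a ha b hb => ?_⟩
  · obtain ⟨a, ha, b, hb, rfl⟩ := ZFSet.mem_prod.1 hy
    exact hg.pair (HH.trans hu ha) (HH.trans hw hb)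
  · obtain ⟨s, hs⟩ := HH.cov hu
    obtain ⟨t, ht⟩ := HH.cov hw
    have h1 : Cov (El (ZFSet.prod u w)) (Option (M × M)) := by
      refine ⟨fun o => o.elim ∅ (fun p => ZFSet.pair (s p.1) (t p.2)), fun y hy => ?_⟩
      obtain ⟨a, ha, b, hb, rfl⟩ := ZFSet.mem_prod.1 hy
      obtain ⟨m, rfl⟩ := hs a ha
      obtain ⟨m', rfl⟩ := ht b hb
      exact ⟨some (m, m'), rfl⟩
    exact h1.of_card card_opt_prod
  · exact ZFSet.mem_prod.2 ⟨a, ha, b, hb, rfl⟩

theorem SubC_HH (M : Type) [Infinite M] : SubC (HH M) := fun _ hu _ hw => HH.subset hu hw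

theorem fullFor_HH {M : Type} [Infinite M] {d : ZFSet.{0}} (hd : d ∈ HH M) : FullFor (HH M) d :=
  fullFor_of (good_HH M) (PC_HH M) (SubC_HH M) hd

theorem IsoC.strOK {B : Str τ} {d U : ZFSet.{0}} (h : IsoC B d U) : StrOK τ d U := by
  obtain ⟨f, hf⟩ := h
  refine ⟨?_, fun F x hx => ?_⟩
  · obtain ⟨m⟩ := B.ne
    intro h
    have := (hf.dom (f m)).2 ⟨m, rfl⟩
    rw [h] at this
    exact ZFSet.notMem_empty _ this
  · have hex : ∀ k : Fin (τ.arF F), ∃ m, f m = x k := fun k => (hf.dom _).1 (hx k k.2)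
    choose x' hx' using hex
    have he : (fun k : Fin (τ.arF F) => x k) = fun k => f (x' k) := by
      funext k; rw [hx' k]
    refine ⟨f (B.fn F x'), (hf.dom _).2 ⟨_, rfl⟩, ?_, fun y' hy' h => ?_⟩
    · rw [he]; exact (hf.fn F x' _).1 rfl
    · obtain ⟨m, rfl⟩ := (hf.dom y').1 hy'
      rw [he] at h
      rw [(hf.fn F x' m).2 h]

/-! ## Transfer of first-order definability, few variables -/

section

variable {Γ : NStr τ → Type 1} {C : SCx τ Γ}

theorem FD.toSD1 {P : Set ZFSet.{0} → ZFSet.{0} → Prop} (h : FD FCx.base (fun X g => P X (g 0)))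
    {x : ∀ B, Γ B → ZFSet.{0}} [hx : IsS C x] :
    SD C (fun B g => P (HH B.M) (x B g)) :=
  FD.toSD (P := fun X g => P X (g 0)) h (C := C) (fun _ => x) (fun _ => hx)

theorem FD.toSD2 {P : Set ZFSet.{0} → ZFSet.{0} → ZFSet.{0} → Prop}
    (h : FD FCx.base (fun X g => P X (g 0) (g 1)))
    {x y : ∀ B, Γ B → ZFSet.{0}} [hx : IsS C x] [hy : IsS C y] :
    SD C (fun B g => P (HH B.M) (x B g) (y B g)) :=
  FD.toSD (P := fun X g => P X (g 0) (g 1)) h (C := C) (fun n => match n with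
    | 0 => x
    | _ + 1 => y) (fun n => match n with
    | 0 => hx
    | _ + 1 => hy)

theorem FD.toSD3 {P : Set ZFSet.{0} → ZFSet.{0} → ZFSet.{0} → ZFSet.{0} → Prop}
    (h : FD FCx.base (fun X g => P X (g 0) (g 1) (g 2)))
    {x y z : ∀ B, Γ B → ZFSet.{0}} [hx : IsS C x] [hy : IsS C y] [hz : IsS C z] :
    SD C (fun B g => P (HH B.M) (x B g) (y B g) (z B g)) :=
  FD.toSD (P := fun X g => P X (g 0) (g 1) (g 2)) h (C := C) (fun n => match n with
    | 0 => x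
    | 1 => y
    | _ + 2 => z) (fun n => match n with
    | 0 => hx
    | 1 => hy
    | _ + 2 => hz)

theorem FD.toSD4 {P : Set ZFSet.{0} → ZFSet.{0} → ZFSet.{0} → ZFSet.{0} → ZFSet.{0} → Prop}
    (h : FD FCx.base (fun X g => P X (g 0) (g 1) (g 2) (g 3)))
    {x y z w : ∀ B, Γ B → ZFSet.{0}} [hx : IsS C x] [hy : IsS C y] [hz : IsS C z]
    [hw : IsS C w] :
    SD C (fun B g => P (HH B.M) (x B g) (y B g) (z B g) (w B g)) :=
  FD.toSD (P := fun X g => P X (g 0) (g 1) (g 2) (g 3)) h (C := C) (fun n => match n with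
    | 0 => x
    | 1 => y
    | 2 => z
    | _ + 3 => w) (fun n => match n with
    | 0 => hx
    | 1 => hy
    | 2 => hz
    | _ + 3 => hw)

instance SD.strOK {d U : ∀ B, Γ B → ZFSet.{0}} [hd : IsS C d] [hU : IsS C U] :
    SD C (fun B g => StrOK τ (d B g) (U B g)) :=
  FD.toSD2 (P := fun _ d U => StrOK τ d U) (FD.strOK inferInstance inferInstance)

instance SD.pcEl {Y : ∀ B, Γ B → ZFSet.{0}} [hY : IsS C Y] :
    SD C (fun B g => PC (El (Y B g))) :=
  FD.toSD1 (P := fun _ Y => PC (El Y)) (by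
    unfold PC
    simp only [mem_El]
    infer_instance)

instance SD.finLevS (n : ℕ) {x : ∀ B, Γ B → ZFSet.{0}} [hx : IsS C x] :
    SD C (fun B g => FinLev n (x B g)) :=
  FD.toSD1 (P := fun _ x => FinLev n x) inferInstance

instance SD.cxS {x y : ∀ B, Γ B → ZFSet.{0}} [hx : IsS C x] [hy : IsS C y] :
    SD C (fun B g => cx (x B g) (y B g)) :=
  FD.toSD2 (P := fun _ x y => cx x y) inferInstance

instance SD.dfsS (θ : FL) {x y : ∀ B, Γ B → ZFSet.{0}} [hx : IsS C x] [hy : IsS C y] :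
    SD C (fun B g => Dfs (HH B.M) θ (x B g) (y B g)) :=
  FD.toSD2 (P := fun X x y => Dfs X θ x y) (FD.dfs θ)

instance SD.dfsElS (θ : FL) {Y x y : ∀ B, Γ B → ZFSet.{0}} [hY : IsS C Y] [hx : IsS C x]
    [hy : IsS C y] : SD C (fun B g => Dfs (El (Y B g)) θ (x B g) (y B g)) :=
  FD.toSD3 (P := fun _ Y x y => Dfs (El Y) θ x y) (FD.dfsRel θ)

instance SD.eqUnionS {x y z : ∀ B, Γ B → ZFSet.{0}} [hx : IsS C x] [hy : IsS C y] [hz : IsS C z] :
    SD C (fun B g => x B g = y B g ∪ z B g) :=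
  FD.toSD3 (P := fun _ x y z => x = y ∪ z) inferInstance

instance SD.capS (φ : FL) (m : ℕ) {a ζ Y r : ∀ B, Γ B → ZFSet.{0}} [ha : IsS C a] [hζ : IsS C ζ]
    [hY : IsS C Y] [hr : IsS C r] :
    SD C (fun B g => Cap φ m (HH B.M) (a B g) (ζ B g) (Y B g) (r B g)) :=
  FD.toSD4 (P := fun X a ζ Y r => Cap φ m X a ζ Y r) (FD.cap φ m)

end

/-- there is a small structure satisfying `R` -/
def SmallModel (R : Set (SOF τ)) (S : Str τ) : Prop :=
  ∃ Y : ZFSet.{0}, Y ∈ HH S.M ∧ (PC (El Y) ∧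
    (∀ u : ZFSet.{0}, u ∈ Y → ∀ w : ZFSet.{0}, w ∈ HH S.M → w ⊆ u → w ∈ Y) ∧
    ∃ d : ZFSet.{0}, d ∈ Y ∧ ∃ U : ZFSet.{0}, U ∈ Y ∧ (StrOK τ d U ∧
      (Good (El Y) ∧ d ∈ Y ∧ HSR R Y d U)))

theorem SD.smallModel {R : Set (SOF τ)} (hR : RecursiveSet R) (hRs : ∀ φ ∈ R, φ.IsSentence) :
    SD SCx.base (fun B _ => SmallModel R B.S) := by
  have h1 : SD (((SCx.base.ext kS).ext kS).ext kS) (fun (B : NStr τ) p =>
    Good (El p.1.1.2) ∧ p.1.2 ∈ p.1.1.2 ∧ HSR R p.1.1.2 p.1.2 p.2) :=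
    SD.hsr hR hRs (C := ((SCx.base.ext kS).ext kS).ext kS) (Y := fun B p => p.1.1.2)
      (d := fun B p => p.1.2) (U := fun B p => p.2)
  unfold SmallModel
  infer_instance

theorem card_aux (hVL : VEqualsL) {T R : Set (SOF τ)} (hT : Complete T)
    (hRs : ∀ φ ∈ R, φ.IsSentence) (hR : RecursiveSet R)
    (hTR : ∀ B : Str τ, B.Models T ↔ B.Models R) (hinf : ∀ B : Str τ, B.Models T → Infinite B.M)
    {Bm B : Str τ} (hBm : Bm.Models T) (hB : B.Models T)
    (hmin : ∀ B : Str τ, B.Models T → #Bm.M ≤ #B.M) : ¬ #Bm.M < #B.M := by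
  intro hlt
  have := hinf Bm hBm
  have := hinf B hB
  -- `B` knows about a small model
  have h1 : SmallModel R B := by
    obtain ⟨d, U, hd, hU, hiso⟩ := exists_isoC Bm
    have he : El (L (gam Bm.M)) = HH Bm.M := (HH_eq hVL).symm
    refine ⟨L (gam Bm.M), level_mem_HH hVL hlt, ?_, ?_, d, ?_, U, ?_, hiso.strOK, ?_, ?_, ?_⟩
    · rw [he]; exact PC_HH _
    · intro u hu w _ hwu
      have h2 : w ∈ El (L (gam Bm.M)) := by
        rw [he]
        refine SubC_HH _ u ?_ w hwu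
        rw [← he]; exact hu
      exact h2
    · have h2 : d ∈ El (L (gam Bm.M)) := by rw [he]; exact hd
      exact h2
    · have h2 : U ∈ El (L (gam Bm.M)) := by rw [he]; exact hU
      exact h2
    · rw [he]; exact good_HH _
    · have h2 : d ∈ El (L (gam Bm.M)) := by rw [he]; exact hd
      exact h2
    · intro φ hφ
      rw [he]
      exact (hiso.hs (fullFor_HH hd) (hRs φ hφ)).1 ((hTR Bm).1 hBm φ hφ)
  have h2 : SmallModel R Bm :=
    transfer hT (SD.smallModel hR hRs) hB hBm inferInstance inferInstance h1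
  obtain ⟨Y, hY, hpc, hsub, d, hd, U, hU, hok, hgood, _, hhs⟩ := h2
  obtain ⟨B', hB'⟩ := hok.realize
  have hsubC : SubC (El Y) := fun u hu w hwu => hsub u hu w
    (HH.subset (HH.trans hY hu) hwu) hwu
  have hfull : FullFor (El Y) d := fullFor_of hgood hpc hsubC hd
  have hB'T : B'.Models T := (hTR B').2 fun φ hφ => (hB'.hs hfull (hRs φ hφ)).2 (hhs φ hφ)
  have hle := hmin B' hB'T
  obtain ⟨f, hf⟩ := hB'
  obtain ⟨s, hs⟩ := HH.cov hY
  -- an injection of the power set of `B'` into `Bm`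
  have hex : ∀ A : Set B'.M, ∃ m : Bm.M, s m = ZFSet.sep (fun z => ∃ a ∈ A, f a = z) d := by
    intro A
    exact hs _ (hsubC d hd _ (fun z hz => (ZFSet.mem_sep.1 hz).1))
  choose g hg using hex
  have hginj : Injective g := by
    intro A A' hAA
    have h3 : ZFSet.sep (fun z => ∃ a ∈ A, f a = z) d = ZFSet.sep (fun z => ∃ a ∈ A', f a = z) d := by
      rw [← hg, ← hg, hAA]
    ext a
    have h4 : f a ∈ ZFSet.sep (fun z => ∃ a ∈ A, f a = z) d ↔
        f a ∈ ZFSet.sep (fun z => ∃ a ∈ A', f a = z) d := by rw [h3]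
    rw [ZFSet.mem_sep, ZFSet.mem_sep] at h4
    have hfd : f a ∈ d := (hf.dom _).2 ⟨a, rfl⟩
    constructor
    · intro ha
      obtain ⟨_, a', ha', he⟩ := h4.1 ⟨hfd, a, ha, rfl⟩
      rw [← hf.inj he]; exact ha'
    · intro ha
      obtain ⟨_, a', ha', he⟩ := h4.2 ⟨hfd, a, ha, rfl⟩
      rw [← hf.inj he]; exact ha'
  have h3 : #(Set B'.M) ≤ #Bm.M := Cardinal.mk_le_of_injective hginj
  rw [Cardinal.mk_set] at h3
  exact absurd (h3.trans hle) (not_le.2 (Cardinal.cantor _))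

/-- all models have the same cardinality -/
theorem card_eq (hVL : VEqualsL) {T R : Set (SOF τ)} (hT : Complete T)
    (hRs : ∀ φ ∈ R, φ.IsSentence) (hR : RecursiveSet R)
    (hTR : ∀ B : Str τ, B.Models T ↔ B.Models R) (hinf : ∀ B : Str τ, B.Models T → Infinite B.M)
    {A B : Str τ} (hA : A.Models T) (hB : B.Models T) : #A.M = #B.M := by
  obtain ⟨_, ⟨Bm, hBm, rfl⟩, hmin⟩ := Cardinal.lt_wf.has_min
    {c : Cardinal.{0} | ∃ B : Str τ, B.Models T ∧ #B.M = c} ⟨_, A, hA, rfl⟩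
  have hmin' : ∀ B : Str τ, B.Models T → #Bm.M ≤ #B.M := fun B hB => not_lt.1 (hmin _ ⟨B, hB, rfl⟩)
  have key : ∀ B : Str τ, B.Models T → #B.M = #Bm.M := fun B hB =>
    le_antisymm (not_lt.1 (card_aux hVL hT hRs hR hTR hinf hBm hB hmin')) (hmin' B hB)
  rw [key A hA, key B hB]

end Pool.Agent.Solovay
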