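import Pool.Agent.Solovay.IsoSD

/-! # From definability in the base context to sentences -/

set_option linter.unusedVariables false

namespace Pool.Agent.Solovay

open Function Cardinal

variable {τ : Vocab}

namespace SOF

def imp (φ ψ : SOF τ) : SOF τ := .neg (.and φ (.neg ψ))
def ex (i : ℕ) (φ : SOF τ) : SOF τ := .neg (.all i (.neg φ))

/-- the atomic formula `X^3_0(x_i, x_j, x_k)` -/
def T3 (i j k : ℕ) : SOF τ := .app 3 0 ![i, j, k]
/-- the atomic formula `X^1_0(x_i)` -/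
def T1 (i : ℕ) : SOF τ := .app 1 0 ![i]

end SOF

open SOF

theorem sat_imp (B : Str τ) (φ ψ : SOF τ) (v V) :
    (imp φ ψ).Sat B v V ↔ (φ.Sat B v V → ψ.Sat B v V) := by
  simp only [imp, SOF.Sat]; tauto

theorem sat_ex (B : Str τ) (i : ℕ) (φ : SOF τ) (v V) :
    (SOF.ex i φ).Sat B v V ↔ ∃ a, φ.Sat B (update v i a) V := by
  simp only [SOF.ex, SOF.Sat]; push Not; rfl

theorem sat_T3 (B : Str τ) (i j k : ℕ) (v) (V : RelAsg B.M) :
    (T3 i j k : SOF τ).Sat B v V ↔ V 3 0 ![v i, v j, v k] := by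
  simp only [T3, SOF.Sat]
  have : (fun m => v ((![i, j, k] : Fin 3 → ℕ) m)) = ![v i, v j, v k] := by
    funext m; fin_cases m <;> rfl
  rw [this]

theorem sat_T1 (B : Str τ) (i : ℕ) (v) (V : RelAsg B.M) :
    (T1 i : SOF τ).Sat B v V ↔ V 1 0 ![v i] := by
  simp only [T1, SOF.Sat]
  have : (fun m => v ((![i] : Fin 1 → ℕ) m)) = ![v i] := by
    funext m; fin_cases m; rfl
  rw [this]

/-- the formula saying that `(x_0, X^3_0)` is a copy of the natural numbers with successor -/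
def omegaF : SOF τ :=
  .and (.all 1 (.all 2 (.all 3 (.all 4 (imp (T3 1 2 3) (T3 1 2 4))))))
  (.and (.all 1 (.all 2 (.all 3 (.all 4 (imp (T3 1 2 4) (imp (T3 1 3 4) (.eq 2 3)))))))
  (.and (.all 1 (.all 2 (.all 3 (.all 4 (imp (T3 1 3 4) (imp (T3 2 3 4) (.eq 1 2)))))))
  (.and (.all 1 (.all 3 (.neg (T3 1 0 3))))
  (.and (SOF.ex 1 (T3 0 1 1))
  (.and (.all 1 (.all 2 (imp (T3 1 2 2) (SOF.ex 3 (T3 2 3 3)))))
  (.allR 1 0 (imp (T1 0) (imp (.all 1 (.all 2 (imp (T1 1) (imp (T3 1 2 2) (T1 2)))))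
    (.all 1 (.all 2 (imp (T3 1 2 2) (T1 1))))))))))))

structure OmegaP {M : Type} (z : M) (T : Rel3 M) : Prop where
  a : ∀ x y w w', T x y w → T x y w'
  b : ∀ x y y' w, T x y w → T x y' w → y = y'
  c : ∀ x x' y w, T x y w → T x' y w → x = x'
  d : ∀ x w, ¬ T x z w
  e : ∃ y, T z y y
  e' : ∀ x y, T x y y → ∃ u, T y u u
  f : ∀ U : M → Prop, U z → (∀ x y, U x → T x y y → U y) → ∀ x y, T x y y → U x

theorem sat_omegaF (B : Str τ) (v) (V : RelAsg B.M) :
    (omegaF : SOF τ).Sat B v V ↔ OmegaP (v 0) (fun x y z => V 3 0 ![x, y, z]) := by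
  unfold omegaF
  simp only [SOF.Sat, sat_imp, sat_ex, sat_T3, sat_T1]
  simp only [ne_eq, not_false_eq_true, update_of_ne, update_self,
    Nat.reduceEqDiff, OfNat.zero_ne_ofNat, zero_ne_one,
    OfNat.ofNat_ne_one, OfNat.one_ne_ofNat]
  constructor
  · rintro ⟨h1, h2, h3, h4, h5, h6, h7⟩
    refine ⟨h1, fun x y y' w => h2 x y y' w, fun x x' y w => h3 x x' y w, h4, h5, h6, ?_⟩
    intro U h0 hs x y hxy
    have := h7 (fun f => U (f 0)) (by simpa using h0) (by
      intro a b ha hab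
      exact hs a b ha hab) x y hxy
    simpa using this
  · rintro ⟨h1, h2, h3, h4, h5, h6, h7⟩
    refine ⟨h1, fun x y y' w => h2 x y y' w, fun x x' y w => h3 x x' y w, h4, h5, h6, ?_⟩
    intro Q h0 hs x y hxy
    exact h7 (fun x => Q ![x]) h0 (fun a b ha hab => hs a b ha hab) x y hxy

theorem OmegaP.exists_nu {M : Type} {z : M} {T : Rel3 M} (h : OmegaP z T) :
    ∃ ν : ℕ → M, Injective ν ∧ ν 0 = z ∧ ∀ x y w, T x y w ↔ ∃ n, x = ν n ∧ y = ν (n + 1) := by
  -- elements with a successor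
  have hsucc : ∀ p : {x // ∃ y, T x y y}, ∃ q : {x // ∃ y, T x y y}, T p.1 q.1 q.1 := by
    rintro ⟨x, y, hxy⟩
    exact ⟨⟨y, h.e' x y hxy⟩, hxy⟩
  choose g hg using hsucc
  let ν' : ℕ → {x // ∃ y, T x y y} := fun n => Nat.rec ⟨z, h.e⟩ (fun _ p => g p) n
  have hν : ∀ n, T (ν' n).1 (ν' (n + 1)).1 (ν' (n + 1)).1 := fun n => hg _
  have hinj : ∀ n m, (ν' n).1 = (ν' m).1 → n = m := by
    intro n
    induction n with
    | zero =>
      intro m hm
      cases m with
      | zero => rfl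
      | succ m =>
        exfalso
        have h1 := hν m
        rw [← hm] at h1
        exact h.d _ _ h1
    | succ n ih =>
      intro m hm
      cases m with
      | zero =>
        exfalso
        have h1 := hν n
        rw [hm] at h1
        exact h.d _ _ h1
      | succ m =>
        have h1 := hν n
        have h2 := hν m
        rw [← hm] at h2
        rw [ih m (h.c _ _ _ _ h1 h2)]
  refine ⟨fun n => (ν' n).1, fun n m hnm => hinj n m hnm, rfl, fun x y w => ?_⟩
  constructor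
  · intro hxy
    have h1 : T x y y := h.a _ _ _ _ hxy
    have hx : ∃ n, x = (ν' n).1 := by
      refine h.f (fun x => ∃ n, x = (ν' n).1) ⟨0, rfl⟩ ?_ x y h1
      rintro a b ⟨n, rfl⟩ hab
      exact ⟨n + 1, h.b _ _ _ _ hab (h.a _ _ _ _ (hν n))⟩
    obtain ⟨n, rfl⟩ := hx
    exact ⟨n, rfl, h.b _ _ _ _ h1 (h.a _ _ _ _ (hν n))⟩
  · rintro ⟨n, rfl, rfl⟩
    exact h.a _ _ _ _ (hν n)

theorem NStr.omegaP (B : NStr τ) : OmegaP (B.ν 0) B.succR where
  a := fun x y w w' h => h
  b := by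
    rintro x y y' w ⟨n, rfl, rfl⟩ ⟨m, h1, rfl⟩
    rw [B.inj h1]
  c := by
    rintro x x' y w ⟨n, rfl, rfl⟩ ⟨m, rfl, h1⟩
    have := B.inj h1
    have : n = m := by omega
    rw [this]
  d := by
    rintro x w ⟨n, rfl, h1⟩
    have := B.inj h1
    omega
  e := ⟨B.ν 1, 0, rfl, rfl⟩
  e' := by
    rintro x y ⟨n, rfl, rfl⟩
    exact ⟨B.ν (n + 2), n + 1, rfl, rfl⟩
  f := by
    rintro U h0 hs x y ⟨n, rfl, -⟩
    induction n with
    | zero => exact h0
    | succ n ih => exact hs _ _ ih ⟨n, rfl, rfl⟩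

theorem omegaF_freeE : (omegaF : SOF τ).freeE ⊆ {0} := by
  intro i
  simp only [omegaF, SOF.freeE, imp, SOF.ex, T3, T1, Matrix.range_cons, Matrix.range_empty]
  simp
  omega

theorem omegaF_freeR : (omegaF : SOF τ).freeR ⊆ {(3, 0)} := by
  intro i
  simp only [omegaF, SOF.freeR, imp, SOF.ex, T3, T1]
  simp

/-- properties of infinite structures which are definable in the base context are expressed by
sentences -/
theorem exists_sentence {P : Str τ → Prop} (h : SD SCx.base (fun B _ => P B.S)) :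
    ∃ χ : SOF τ, χ.IsSentence ∧ ∀ S : Str τ, Infinite S.M → (S.Satisfies χ ↔ P S) := by
  obtain ⟨φ, h1, h2, hφ⟩ := h.out
  refine ⟨.allR 3 0 (.all 0 (imp omegaF φ)), ⟨?_, ?_⟩, fun S hS => ?_⟩
  · rw [Set.eq_empty_iff_forall_notMem]
    rintro i ⟨hi, hne⟩
    rcases hi with hi | hi
    · exact hne (omegaF_freeE hi)
    · have := h1 i hi
      simp only [SCx.base] at this
      exact hne (by show i = 0; omega)
  · rw [Set.eq_empty_iff_forall_notMem]
    rintro p ⟨hp, hne⟩
    rcases hp with hp | hp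
    · exact hne (omegaF_freeR hp)
    · have := h2 p hp
      simp only [SCx.base] at this
      exact hne (Prod.ext this.1 (by show p.2 = 0; omega))
  · have key : ∀ v (V : RelAsg S.M), (omegaF : SOF τ).Sat S v V → (φ.Sat S v V ↔ P S) := by
      intro v V hΩ
      rw [sat_omegaF] at hΩ
      obtain ⟨ν, hinj, h0, hT⟩ := hΩ.exists_nu
      let B : NStr τ := ⟨S, ν, hinj⟩
      symm
      refine hφ B ⟨⟩ v V ⟨h0.symm, ?_⟩
      funext x y w
      exact propext (hT x y w)
    constructor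
    · intro hsat
      let ν : ℕ → S.M := Infinite.natEmbedding S.M
      let B : NStr τ := ⟨S, ν, (Infinite.natEmbedding S.M).injective⟩
      obtain ⟨m⟩ := S.ne
      have h3 := hsat (fun _ => m) (fun _ _ _ => True) (fun f => B.succR (f 0) (f 1) (f 2)) (ν 0)
      rw [sat_imp] at h3
      have hΩ : (omegaF : SOF τ).Sat S (update (fun _ => m) 0 (ν 0))
          (update (fun _ _ _ => True) 3 (update (fun _ _ => True) 0
            (fun f => B.succR (f 0) (f 1) (f 2)))) := by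
        rw [sat_omegaF]
        have := B.omegaP
        simpa using this
      exact (key _ _ hΩ).1 (h3 hΩ)
    · intro hP v V Q a
      rw [sat_imp]
      intro hΩ
      exact (key _ _ hΩ).2 hP

/-- second-order equivalent infinite structures agree on definable properties -/
theorem transfer {T : Set (SOF τ)} (hT : Complete T) {P : Str τ → Prop}
    (h : SD SCx.base (fun B _ => P B.S)) {A B : Str τ} (hA : A.Models T) (hB : B.Models T)
    (hAi : Infinite A.M) (hBi : Infinite B.M) (hPA : P A) : P B := by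
  obtain ⟨χ, hχ, hs⟩ := exists_sentence h
  rcases hT.2 χ hχ with h1 | h1
  · exact (hs B hBi).1 (h1 B hB)
  · exfalso
    have h2 := h1 A hA
    have h3 := (hs A hAi).2 hPA
    obtain ⟨m⟩ := A.ne
    exact h2 (fun _ => m) (fun _ _ _ => True) (h3 _ _)

end Pool.Agent.Solovay
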