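import Pool.Agent.Solovay.Hull

/-! # Condensation -/

namespace Pool.Agent.Solovay

open Function

/-- transitive collapse of `N` -/
noncomputable def col (N : Set ZFSet.{0}) (x : ZFSet.{0}) : ZFSet.{0} :=
  open Classical in
  ZFSet.range fun y : {y // y ∈ ZFSet.sep (· ∈ N) x} => col N y.1
termination_by x
decreasing_by exact (ZFSet.mem_sep.1 y.2).1

theorem mem_col {N : Set ZFSet.{0}} {x z : ZFSet.{0}} :
    z ∈ col N x ↔ ∃ y, y ∈ x ∧ y ∈ N ∧ col N y = z := by
  rw [col, ZFSet.mem_range]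
  constructor
  · rintro ⟨⟨y, hy⟩, rfl⟩
    exact ⟨y, (ZFSet.mem_sep.1 hy).1, (ZFSet.mem_sep.1 hy).2, rfl⟩
  · rintro ⟨y, hy, hyN, rfl⟩
    exact ⟨⟨y, ZFSet.mem_sep.2 ⟨hy, hyN⟩⟩, rfl⟩

theorem col_mem {N : Set ZFSet.{0}} {x y : ZFSet.{0}} (hxy : x ∈ y) (hx : x ∈ N) :
    col N x ∈ col N y := mem_col.2 ⟨x, hxy, hx, rfl⟩

theorem col_empty (N : Set ZFSet.{0}) : col N ∅ = ∅ := by
  rw [ZFSet.eq_empty]
  intro y hy
  obtain ⟨z, hz, -⟩ := mem_col.1 hy
  exact ZFSet.notMem_empty _ hz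

theorem FL.bd_pos (φ : FL) : 0 < φ.bd := by
  induction φ with
  | mem i j => simp [FL.bd]
  | eq i j => simp [FL.bd]
  | lev i => simp [FL.bd]
  | neg φ ih => simpa [FL.bd] using ih
  | and φ ψ ih1 ih2 => simp only [FL.bd]; omega
  | all i φ ih => simp only [FL.bd]; omega

theorem def_iff {Y y : ZFSet.{0}} : y ∈ Def Y ↔ y = ∅ ∨ ∃ (ψ : Fm) (u : ℕ → ZFSet.{0}),
    (∀ n < ψ.toFL.bd, u n ∈ Y) ∧ IsSub ψ Y u y := by
  rw [mem_Def]
  constructor
  · rintro ⟨h1, h2 | ⟨ψ, v, hv, h2⟩⟩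
    · exact Or.inl h2
    · exact Or.inr ⟨ψ, v, fun n _ => hv n, h1, fun a ha => by rw [Fm.toFL_sat]; exact h2 a ha⟩
  · rintro (rfl | ⟨ψ, u, hu, h⟩)
    · exact ⟨ZFSet.empty_subset _, Or.inl rfl⟩
    · refine ⟨h.1, Or.inr ⟨ψ, fun n => if n < ψ.toFL.bd then u n else u 0, fun n => ?_, ?_⟩⟩
      · show (if n < ψ.toFL.bd then u n else u 0) ∈ Y
        split_ifs with hn
        · exact hu n hn
        · exact hu 0 (FL.bd_pos _)
      · intro a ha
        rw [h.2 a ha, ← Fm.toFL_sat]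
        refine FL.sat_congr _ _ _ _ fun i hi => ?_
        by_cases h0 : i = 0
        · subst h0; simp
        · rw [update_of_ne h0, update_of_ne h0, if_pos hi]

/-! ## Using elementarity -/

theorem Elem.ex {N X : Set ZFSet.{0}} (hN : Elem N X) (hX : Good X)
    {P : Set ZFSet.{0} → (ℕ → ZFSet.{0}) → ZFSet.{0} → Prop}
    (hP : FD FCx.base.ext (fun X p => P X p.1 p.2)) {g : ℕ → ZFSet.{0}} (hg : ∀ n, g n ∈ N)
    (h : ∃ y ∈ X, P X g y) : ∃ y ∈ N, P X g y := by
  obtain ⟨φ, w, hw, hφ⟩ := DP.of_FD hP hX hN.1 hg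
  obtain ⟨y, hy, hPy⟩ := h
  have h1 : FL.Sat X (.neg (.all 0 (.neg φ))) w := by
    simp only [FL.Sat]
    push Not
    exact ⟨y, hy, (hφ y hy).1 hPy⟩
  rw [← hN.2 _ w hw] at h1
  simp only [FL.Sat] at h1
  push Not at h1
  obtain ⟨z, hz, h2⟩ := h1
  refine ⟨z, hz, (hφ z (hN.1 hz)).2 ?_⟩
  rw [← hN.2 φ (update w 0 z) (fun n => ?_)]
  · exact h2
  · by_cases hn : n = 0
    · subst hn; simpa using hz
    · rw [update_of_ne hn]; exact hw n

theorem Elem.mem_unique {N X : Set ZFSet.{0}} (hN : Elem N X) (hX : Good X)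
    {P : Set ZFSet.{0} → (ℕ → ZFSet.{0}) → ZFSet.{0} → Prop}
    (hP : FD FCx.base.ext (fun X p => P X p.1 p.2)) {g : ℕ → ZFSet.{0}} (hg : ∀ n, g n ∈ N)
    {x : ZFSet.{0}} (hx : x ∈ X) (hPx : P X g x) (huniq : ∀ y ∈ X, P X g y → y = x) : x ∈ N := by
  obtain ⟨y, hy, hPy⟩ := hN.ex hX hP hg ⟨x, hx, hPx⟩
  rw [← huniq y (hN.1 hy) hPy]
  exact hy

section

variable {N X : Set ZFSet.{0}} (hN : Elem N X) (hX : Good X)

include hN hX

theorem col_inj : ∀ x ∈ N, ∀ y ∈ N, col N x = col N y → x = y := by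
  intro x
  induction x using ZFSet.inductionOn with
  | h x ih =>
    intro hx y hy hxy
    by_contra hne
    have h1 : ∃ z ∈ X, ¬ (z ∈ x ↔ z ∈ y) := by
      by_contra hcon
      push Not at hcon
      apply hne
      ext z
      constructor
      · intro hz; exact (hcon z (hX.tr x (hN.1 hx) z hz)).1 hz
      · intro hz; exact (hcon z (hX.tr y (hN.1 hy) z hz)).2 hz
    obtain ⟨z, hzN, hz⟩ := hN.ex hX (P := fun _ g z => ¬ (z ∈ g 0 ↔ z ∈ g 1)) inferInstance
      (g := fun n => if n = 0 then x else y) (fun n => by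
        show (if n = 0 then x else y) ∈ N
        split_ifs
        · exact hx
        · exact hy) (by simpa using h1)
    simp only [if_true, Nat.one_ne_zero, if_false] at hz
    apply hz
    constructor
    · intro hzx
      have := col_mem hzx hzN
      rw [hxy] at this
      obtain ⟨z', hz', hz'N, he⟩ := mem_col.1 this
      have := ih z hzx hzN z' hz'N he.symm
      rw [this]; exact hz'
    · intro hzy
      have := col_mem hzy hzN
      rw [← hxy] at this
      obtain ⟨z', hz', hz'N, he⟩ := mem_col.1 this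
      have := ih z' hz' hz'N z hzN he
      rw [← this]; exact hz'

theorem col_mem_iff {x y : ZFSet.{0}} (hx : x ∈ N) (hy : y ∈ N) :
    col N x ∈ col N y ↔ x ∈ y := by
  refine ⟨fun h => ?_, fun h => col_mem h hx⟩
  obtain ⟨z, hz, hzN, he⟩ := mem_col.1 h
  rw [← col_inj hN hX z hzN x hx he]
  exact hz

theorem sat_inter (ψ : FL) : ∀ (Y : ZFSet.{0}), Y ∈ N → ∀ u : ℕ → ZFSet.{0}, (∀ n, u n ∈ N) →
    (ψ.Sat {z | z ∈ Y ∧ z ∈ N} u ↔ ψ.Sat (El Y) u) := by
  induction ψ with
  | mem i j => intro Y _ u _; rfl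
  | eq i j => intro Y _ u _; rfl
  | lev i => intro Y _ u _; rfl
  | neg φ ih => intro Y hY u hu; simp only [FL.Sat]; rw [ih Y hY u hu]
  | and φ ψ ih1 ih2 => intro Y hY u hu; simp only [FL.Sat]; rw [ih1 Y hY u hu, ih2 Y hY u hu]
  | all i φ ih =>
    intro Y hY u hu
    have hupd : ∀ a ∈ N, ∀ n, update u i a n ∈ N := by
      intro a ha n
      by_cases hn : n = i
      · subst hn; simpa using ha
      · rw [update_of_ne hn]; exact hu n
    simp only [FL.Sat]
    constructor
    · intro h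
      by_contra hcon
      push Not at hcon
      obtain ⟨a, haY, ha⟩ := hcon
      have hFD : FD FCx.base.ext (fun _ p => p.2 ∈ p.1 0 ∧ ¬ φ.Sat (El (p.1 0))
          (fun n => if n = i then p.2 else p.1 (n + 1))) := by
        have := FD.satRel φ (C := FCx.base.ext) (fun p => p.1 0)
          (fun n p => if n = i then p.2 else p.1 (n + 1)) inferInstance (by
            intro n
            by_cases h : n = i
            · simp only [h, if_true]; infer_instance
            · simp only [h, if_false]; exact (IsV.base (n + 1)).wk)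
        infer_instance
      have e : ∀ a, (fun n => if n = i then a else
          (fun n : ℕ => if n = 0 then Y else u (n - 1)) (n + 1)) = update u i a := by
        intro a; funext n
        by_cases h : n = i
        · simp [h]
        · simp [h, update_of_ne h]
      obtain ⟨b, hbN, hb⟩ := hN.ex hX (P := fun _ g y => y ∈ g 0 ∧ ¬ φ.Sat (El (g 0))
          (fun n => if n = i then y else g (n + 1))) hFD
          (g := fun n => if n = 0 then Y else u (n - 1)) (fun n => by
            show (if n = 0 then Y else u (n - 1)) ∈ N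
            split_ifs
            · exact hY
            · exact hu _) ⟨a, hX.tr Y (hN.1 hY) a haY, by
              refine ⟨haY, ?_⟩
              rw [e]; exact ha⟩
      rw [e] at hb
      have hb1 : b ∈ Y := hb.1
      exact hb.2 ((ih Y hY _ (hupd b hbN)).1 (h b ⟨hb1, hbN⟩))
    · rintro h a ⟨haY, haN⟩
      exact (ih Y hY _ (hupd a haN)).2 (h a haY)

theorem sat_col (ψ : Fm) : ∀ (Y : ZFSet.{0}), Y ∈ N → ∀ u : ℕ → ZFSet.{0}, (∀ n, u n ∈ N) →
    (ψ.toFL.Sat (El (col N Y)) (fun n => col N (u n)) ↔ ψ.toFL.Sat {z | z ∈ Y ∧ z ∈ N} u) := by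
  induction ψ with
  | mem i j => intro Y _ u hu; exact col_mem_iff hN hX (hu i) (hu j)
  | eq i j =>
    intro Y _ u hu
    exact ⟨fun h => col_inj hN hX _ (hu i) _ (hu j) h, fun h => congrArg (col N) h⟩
  | neg φ ih => intro Y hY u hu; simp only [Fm.toFL, FL.Sat]; rw [ih Y hY u hu]
  | and φ ψ ih1 ih2 =>
    intro Y hY u hu; simp only [Fm.toFL, FL.Sat]; rw [ih1 Y hY u hu, ih2 Y hY u hu]
  | all i φ ih =>
    intro Y hY u hu
    have hupd : ∀ a ∈ N, ∀ n, update u i a n ∈ N := by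
      intro a ha n
      by_cases hn : n = i
      · subst hn; simpa using ha
      · rw [update_of_ne hn]; exact hu n
    have e : ∀ a, update (fun n => col N (u n)) i (col N a) = fun n => col N (update u i a n) := by
      intro a; funext n
      by_cases hn : n = i
      · subst hn; simp
      · rw [update_of_ne hn, update_of_ne hn]
    simp only [Fm.toFL, FL.Sat]
    constructor
    · rintro h a ⟨haY, haN⟩
      have := h (col N a) (col_mem haY haN)
      rw [e, ih Y hY _ (hupd a haN)] at this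
      exact this
    · intro h a' ha'
      obtain ⟨a, haY, haN, rfl⟩ := mem_col.1 ha'
      rw [e, ih Y hY _ (hupd a haN)]
      exact h a ⟨haY, haN⟩

theorem isSub_col {ψ : Fm} {Y y : ZFSet.{0}} {u : ℕ → ZFSet.{0}} (hY : Y ∈ N) (hy : y ∈ N)
    (hu : ∀ n, u n ∈ N) (h : IsSub ψ Y u y) :
    IsSub ψ (col N Y) (fun n => col N (u n)) (col N y) := by
  refine ⟨?_, ?_⟩
  · intro z hz
    obtain ⟨a, ha, haN, rfl⟩ := mem_col.1 hz
    exact col_mem (h.1 ha) haN
  · intro a' ha'
    obtain ⟨a, haY, haN, rfl⟩ := mem_col.1 ha'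
    have e : update (fun n => col N (u n)) 0 (col N a) = fun n => col N (update u 0 a n) := by
      funext n
      by_cases hn : n = 0
      · subst hn; simp
      · rw [update_of_ne hn, update_of_ne hn]
    have hupd : ∀ n, update u 0 a n ∈ N := by
      intro n
      by_cases hn : n = 0
      · subst hn; simpa using haN
      · rw [update_of_ne hn]; exact hu n
    rw [col_mem_iff hN hX haN hy, e, sat_col hN hX ψ Y hY _ hupd, sat_inter hN hX _ Y hY _ hupd]
    exact h.2 a haY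

theorem exists_params {ψ : Fm} {A x : ZFSet.{0}} (hA : A ∈ N) (hx : x ∈ N)
    (h : ∃ u : ℕ → ZFSet.{0}, (∀ n < ψ.toFL.bd, u n ∈ A) ∧ IsSub ψ A u x) :
    ∃ s : ℕ → ZFSet.{0}, (∀ n, s n ∈ N) ∧ (∀ n < ψ.toFL.bd, s n ∈ A) ∧ IsSub ψ A s x := by
  obtain ⟨u0, hu0, hsub0⟩ := h
  have key : ∀ m ≤ ψ.toFL.bd, ∃ s : ℕ → ZFSet.{0}, (∀ n, s n ∈ N) ∧
      CC X (.eq 0 1) ψ m (fun _ => x) s A := by
    intro m
    induction m with
    | zero =>
      intro _
      refine ⟨fun _ => x, fun _ => hx, fun n => if n < ψ.toFL.bd then u0 n else x, fun n => ?_,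
        fun n hn => absurd hn (by omega), fun n hn => ?_, x, hN.1 hx, ?_, ?_⟩
      · show (if n < ψ.toFL.bd then u0 n else x) ∈ X
        split_ifs with h
        · exact hX.tr A (hN.1 hA) _ (hu0 n h)
        · exact hN.1 hx
      · show (if n < ψ.toFL.bd then u0 n else x) ∈ A
        rw [if_pos hn]; exact hu0 n hn
      · simp [FL.Sat]
      · exact (IsSub.congr fun n hn => by rw [if_pos hn]).1 hsub0
    | succ m ihm =>
      intro hm
      obtain ⟨s, hsN, u, huX, hus, huA, y, hyX, hφy, hsy⟩ := ihm (by omega)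
      have hFD : FD FCx.base.ext (fun X p => CC X (.eq 0 1) ψ (m + 1) (fun _ => p.1 0)
          (fun n => if n = m then p.2 else p.1 (n + 2)) (p.1 1)) :=
        FD.cc (.eq 0 1) ψ (m + 1) hm (C := FCx.base.ext) (w := fun _ p => p.1 0)
          (s := fun n p => if n = m then p.2 else p.1 (n + 2)) (Y := fun p => p.1 1)
          (fun n => inferInstance) (fun n => by
            by_cases h : n = m
            · simp only [h, if_true]; infer_instance
            · simp only [h, if_false]; infer_instance) inferInstance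
      have e2 : ∀ z, (fun n : ℕ => if n = m then z else (fun n : ℕ => if n = 0 then x else
          if n = 1 then A else s (n - 2)) (n + 2)) = update s m z := by
        intro z; funext n
        by_cases h : n = m
        · simp [h]
        · simp [h, update_of_ne h]
      obtain ⟨z, hzN, hz⟩ := hN.ex hX (P := fun X g y => CC X (.eq 0 1) ψ (m + 1) (fun _ => g 0)
          (fun n => if n = m then y else g (n + 2)) (g 1)) hFD
          (g := fun n => if n = 0 then x else if n = 1 then A else s (n - 2)) (fun n => by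
            show (if n = 0 then x else if n = 1 then A else s (n - 2)) ∈ N
            split_ifs
            · exact hx
            · exact hA
            · exact hsN _) ⟨u m, huX m, by
              rw [e2]
              refine ⟨u, huX, fun n hn => ?_, huA, y, hyX, hφy, hsy⟩
              by_cases h : n = m
              · subst h; simp
              · rw [update_of_ne h]; exact hus n (by omega)⟩
      rw [e2] at hz
      refine ⟨update s m z, fun n => ?_, hz⟩
      by_cases hn : n = m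
      · subst hn; simpa using hzN
      · rw [update_of_ne hn]; exact hsN n
  obtain ⟨s, hsN, u, huX, hus, huA, y, hyX, hφy, hsy⟩ := key _ le_rfl
  have hyx : y = x := by simpa [FL.Sat] using hφy
  subst hyx
  refine ⟨s, hsN, fun n hn => ?_, (IsSub.congr hus).1 hsy⟩
  rw [← hus n hn]; exact huA n hn

end

section

variable {γ : Ordinal.{0}} (h0 : 0 < γ) (hs : ∀ α < γ, Order.succ α < γ)
  {N : Set ZFSet.{0}} (hN : Elem N (El (L γ))) (hne : N.Nonempty)

include h0 hs hN

theorem mem_col_level {Y z : ZFSet.{0}} (hY : Y ∈ N) (hl : Lv Y) :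
    z ∈ col N Y ↔ ∃ A, A ∈ N ∧ A ∈ Y ∧ Lv A ∧ z ∈ Def (col N A) := by
  have hX := good_L h0 hs
  obtain ⟨α, rfl⟩ := hl
  constructor
  · intro hz
    obtain ⟨x, hxY, hxN, rfl⟩ := mem_col.1 hz
    obtain ⟨β, hβ, hx⟩ := mem_L.1 hxY
    have hβX : L β ∈ El (L γ) := hX.tr _ (hN.1 hY) _ (L_mem_of_lt hβ)
    rcases def_iff.1 hx with rfl | ⟨ψ, u, hu, hsub⟩
    · obtain ⟨A, hAN, hA⟩ := hN.ex hX (P := fun _ g y => y ∈ g 0 ∧ Lv y) inferInstance
        (g := fun _ => L α) (fun _ => hY) ⟨L β, hβX, L_mem_of_lt hβ, Lv_L _⟩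
      refine ⟨A, hAN, hA.1, hA.2, ?_⟩
      rw [col_empty]; exact empty_mem_Def _
    · have hFD : FD FCx.base.ext (fun X p => p.2 ∈ p.1 0 ∧ Lv p.2 ∧ CC X (.eq 0 1) ψ 0
          (fun _ => p.1 1) (fun _ => p.1 1) p.2) := by
        have := FD.cc (.eq 0 1) ψ 0 (by omega) (C := FCx.base.ext) (w := fun _ p => p.1 1)
          (s := fun _ p => p.1 1) (Y := fun p => p.2) (fun n => inferInstance)
          (fun n => inferInstance) inferInstance
        infer_instance
      obtain ⟨A, hAN, hA⟩ := hN.ex hX (P := fun X g y => y ∈ g 0 ∧ Lv y ∧ CC X (.eq 0 1) ψ 0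
          (fun _ => g 1) (fun _ => g 1) y) hFD (g := fun n => if n = 0 then L α else x)
          (fun n => by
            show (if n = 0 then L α else x) ∈ N
            split_ifs
            · exact hY
            · exact hxN) ⟨L β, hβX, L_mem_of_lt hβ, Lv_L _, by
              refine ⟨fun n => if n < ψ.toFL.bd then u n else x, fun n => ?_,
                fun n hn => absurd hn (by omega), fun n hn => ?_, x, hN.1 hxN, ?_, ?_⟩
              · show (if n < ψ.toFL.bd then u n else x) ∈ El (L γ)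
                split_ifs with h
                · exact hX.tr _ hβX _ (hu n h)
                · exact hN.1 hxN
              · show (if n < ψ.toFL.bd then u n else x) ∈ L β
                rw [if_pos hn]; exact hu n hn
              · simp [FL.Sat]
              · exact (IsSub.congr fun n hn => by rw [if_pos hn]).1 hsub⟩
      obtain ⟨hAY, hAl, u', hu'X, -, hu'A, y, hyX, hy, hsub'⟩ := hA
      have hyx : y = x := by simpa [FL.Sat] using hy
      subst hyx
      have hAY' : A ∈ L α := by simpa using hAY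
      obtain ⟨s, hsN, hsA, hsub''⟩ := exists_params hN hX hAN hxN ⟨u', hu'A, hsub'⟩
      refine ⟨A, hAN, hAY', hAl, def_iff.2 (Or.inr ⟨ψ, fun n => col N (s n), fun n hn => ?_, ?_⟩)⟩
      · exact col_mem (hsA n hn) (hsN n)
      · exact isSub_col hN hX hAN hxN hsN hsub''
  · rintro ⟨A, hAN, hAY, ⟨β, rfl⟩, hz⟩
    have hβα : β < α := L_mem_L.1 hAY
    have hDef : ∀ x, x ∈ Def (L β) → x ∈ L α := fun x hx => mem_L.2 ⟨β, hβα, hx⟩
    rcases def_iff.1 hz with rfl | ⟨ψ, u', hu', hsub⟩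
    · have hEN : (∅ : ZFSet.{0}) ∈ N := hN.mem_unique hX (P := fun _ _ y => y = ∅) inferInstance
        (g := fun _ => L α) (fun _ => hY) hX.em rfl (fun y _ h => h)
      rw [← col_empty N]
      exact col_mem (hDef _ (empty_mem_Def _)) hEN
    · have hex : ∀ n, ∃ a, a ∈ L β ∧ a ∈ N ∧ (n < ψ.toFL.bd → col N a = u' n) := by
        intro n
        by_cases hn : n < ψ.toFL.bd
        · obtain ⟨a, ha, haN, hau⟩ := mem_col.1 (hu' n hn)
          exact ⟨a, ha, haN, fun _ => hau⟩
        · obtain ⟨a, ha, haN, hau⟩ := mem_col.1 (hu' 0 (FL.bd_pos _))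
          exact ⟨a, ha, haN, fun h => absurd h hn⟩
      choose u huA huN hu using hex
      let x : ZFSet.{0} := ZFSet.sep (fun a => ψ.toFL.Sat (El (L β)) (update u 0 a)) (L β)
      have hx : IsSub ψ (L β) u x :=
        ⟨fun a ha => (ZFSet.mem_sep.1 ha).1, fun a ha => by
          show a ∈ x ↔ _
          rw [ZFSet.mem_sep]; exact ⟨fun h => h.2, fun h => ⟨ha, h⟩⟩⟩
      have hxD : x ∈ Def (L β) := def_iff.2 (Or.inr ⟨ψ, u, fun n _ => huA n, hx⟩)
      have hxX : x ∈ El (L γ) := hX.tr _ (hN.1 hY) _ (hDef x hxD)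
      have hxN : x ∈ N := by
        have hFD : FD FCx.base.ext (fun _ p => IsSub ψ (p.1 0) (fun n => p.1 (n + 1)) p.2) :=
          FD.isSub ψ (C := FCx.base.ext) (Y := fun p => p.1 0) (u := fun n p => p.1 (n + 1))
            (y := fun p => p.2) inferInstance inferInstance (fun n _ => inferInstance)
        refine hN.mem_unique hX (P := fun _ g y => IsSub ψ (g 0) (fun n => g (n + 1)) y) hFD
          (g := fun n => if n = 0 then L β else u (n - 1)) (fun n => ?_) hxX ?_ ?_
        · show (if n = 0 then L β else u (n - 1)) ∈ N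
          split_ifs
          · exact hAN
          · exact huN _
        · simpa using hx
        · intro y _ hy
          have hy' : IsSub ψ (L β) u y := by simpa using hy
          exact hy'.unique hx
      have h1 := isSub_col hN hX hAN hxN huN hx
      have h2 : IsSub ψ (col N (L β)) (fun n => col N (u n)) z :=
        (IsSub.congr fun n hn => (hu n hn).symm).1 hsub
      rw [h2.unique h1]
      exact col_mem (hDef x hxD) hxN

theorem col_level : ∀ α : Ordinal.{0}, L α ∈ N → ∃ α' ≤ α, col N (L α) = L α' := by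
  intro α
  induction α using WellFoundedLT.induction with
  | ind α ih =>
    intro hα
    let S : Set Ordinal.{0} := {β' | ∃ A, A ∈ N ∧ A ∈ L α ∧ Lv A ∧ col N A = L β'}
    have hS : ∀ y, y ∈ col N (L α) ↔ ∃ β' ∈ S, y ∈ Def (L β') := by
      intro y
      rw [mem_col_level h0 hs hN hα (Lv_L α)]
      constructor
      · rintro ⟨A, hAN, hA, ⟨β, rfl⟩, hy⟩
        obtain ⟨β', hβ', he⟩ := ih β (L_mem_L.1 hA) hAN
        exact ⟨β', ⟨L β, hAN, hA, Lv_L _, he⟩, he ▸ hy⟩
      · rintro ⟨β', ⟨A, hAN, hA, hl, he⟩, hy⟩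
        exact ⟨A, hAN, hA, hl, he ▸ hy⟩
    obtain ⟨α', he, -, hmin⟩ := level_of_union hS
    refine ⟨α', hmin α ?_, he⟩
    rintro β' ⟨A, hAN, hA, ⟨β, rfl⟩, he'⟩
    obtain ⟨β'', hβ'', he''⟩ := ih β (L_mem_L.1 hA) hAN
    have : β' = β'' := L_inj.1 (he'.symm.trans he'')
    rw [this]
    exact hβ''.trans_lt (L_mem_L.1 hA)

theorem exists_level_above {x : ZFSet.{0}} (hx : x ∈ N) : ∃ B, B ∈ N ∧ Lv B ∧ x ∈ B := by
  have hX := good_L h0 hs
  have h1 : ∃ B ∈ El (L γ), Lv B ∧ x ∈ B := by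
    obtain ⟨β, hβ, hxβ⟩ := mem_L.1 (hN.1 hx)
    refine ⟨L (Order.succ β), L_mem_of_lt (hs β hβ), Lv_L _, ?_⟩
    rw [L_succ]; exact hxβ
  obtain ⟨B, hBN, hB⟩ := hN.ex hX (P := fun _ g y => Lv y ∧ g 0 ∈ y) inferInstance
    (g := fun _ => x) (fun _ => hx) h1
  exact ⟨B, hBN, hB⟩

theorem lv_of_col {x : ZFSet.{0}} (hx : x ∈ N) (hl : Lv (col N x)) : Lv x := by
  have hX := good_L h0 hs
  -- the least level containing `x`
  obtain ⟨γ0, hγ0, hxγ⟩ := mem_L.1 (hN.1 hx)
  let S : Set Ordinal.{0} := {η | x ∈ Def (L η)}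
  have hSne : S.Nonempty := ⟨γ0, hxγ⟩
  let η := sInf S
  have hη : x ∈ Def (L η) := csInf_mem (s := S) hSne
  have hηle : η ≤ γ0 := csInf_le' hxγ
  have hηmin : ∀ η', x ∈ Def (L η') → η ≤ η' := fun η' h => csInf_le' (s := S) h
  have hηγ : η < γ := hηle.trans_lt hγ0
  have hxA : x ∉ L η := by
    intro h
    obtain ⟨η', hη', h'⟩ := mem_L.1 h
    exact absurd (hηmin η' h') (not_le.2 hη')
  have hYX : L (Order.succ η) ∈ El (L γ) := L_mem_of_lt (hs η hηγ)
  have hAX : L η ∈ El (L γ) := L_mem_of_lt hηγ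
  have hxY : x ∈ L (Order.succ η) := by rw [L_succ]; exact hη
  have hYN : L (Order.succ η) ∈ N := by
    refine hN.mem_unique hX (P := fun _ g y => Lv y ∧ g 0 ∈ y ∧ ∀ z, z ∈ y → (Lv z → ¬ g 0 ∈ z))
      inferInstance (g := fun _ => x) (fun _ => hx) hYX ⟨Lv_L _, hxY, ?_⟩ ?_
    · rintro _ hz ⟨β, rfl⟩ hxz
      exact hxA (L_mono (Order.lt_succ_iff.1 (L_mem_L.1 hz)) hxz)
    · rintro _ _ ⟨⟨β, rfl⟩, h1, h2⟩
      rcases lt_trichotomy β (Order.succ η) with h | h | h
      · exact absurd (L_mono (Order.lt_succ_iff.1 h) h1) hxA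
      · rw [h]
      · exact absurd hxY (h2 _ (L_mem_of_lt h) (Lv_L _))
  have hAN : L η ∈ N := by
    refine hN.mem_unique hX (P := fun _ g y => Lv y ∧ y ∈ g 0 ∧
      ∀ z, z ∈ g 0 → (Lv z → (z ∈ y ∨ z = y)))
      inferInstance (g := fun _ => L (Order.succ η)) (fun _ => hYN) hAX
      ⟨Lv_L _, L_mem_of_lt (Order.lt_succ η), ?_⟩ ?_
    · rintro _ hz ⟨β, rfl⟩
      rcases (Order.lt_succ_iff.1 (L_mem_L.1 hz)).eq_or_lt with h | h
      · exact Or.inr (by rw [h])
      · exact Or.inl (L_mem_of_lt h)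
    · rintro _ _ ⟨⟨β, rfl⟩, h1, h2⟩
      rcases h2 (L η) (L_mem_of_lt (Order.lt_succ η)) (Lv_L _) with h | h
      · exact absurd (L_mem_L.1 h) (not_lt.2 (Order.lt_succ_iff.1 (L_mem_L.1 h1)))
      · exact h.symm
  obtain ⟨η', hη'le, heA⟩ := col_level h0 hs hN η hAN
  obtain ⟨β, hβ⟩ := hl
  have h1 : col N x ∈ col N (L (Order.succ η)) := col_mem hxY hx
  rw [mem_col_level h0 hs hN hYN (Lv_L _)] at h1
  obtain ⟨B, hBN, hBY, ⟨b, rfl⟩, hB⟩ := h1
  have h2 : col N x ∈ Def (L η') := by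
    rcases (Order.lt_succ_iff.1 (L_mem_L.1 hBY)).eq_or_lt with h | h
    · rw [h, heA] at hB; exact hB
    · have h3 : col N (L b) ∈ L η' := by
        rw [← heA]; exact col_mem (L_mem_of_lt h) hBN
      obtain ⟨b', -, heb⟩ := col_level h0 hs hN b hBN
      rw [heb] at h3 hB
      have h4 : b' < η' := L_mem_L.1 h3
      exact subset_Def (L_transitive η') (mem_L.2 ⟨b', h4, hB⟩)
  rw [hβ, ← L_succ] at h2
  have h3 : β ≤ η' := Order.lt_succ_iff.1 (L_mem_L.1 h2)
  have h4 : col N x ∉ L η' := by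
    rw [← heA, col_mem_iff hN hX hx hAN]; exact hxA
  rw [hβ] at h4
  have h5 : η' ≤ β := by
    by_contra hcon
    exact h4 (L_mem_of_lt (not_le.1 hcon))
  have h6 : col N x = col N (L η) := by
    rw [hβ, heA, le_antisymm h3 h5]
  rw [col_inj hN hX x hx (L η) hAN h6]
  exact Lv_L _

include hne

theorem condensation : ∃ δ ≤ γ, 0 < δ ∧ (∀ α < δ, Order.succ α < δ) ∧
    (col N '' N = El (L δ)) ∧
    (∀ (φ : FL) (v : ℕ → ZFSet.{0}), (∀ n, v n ∈ N) →
      (φ.Sat (El (L δ)) (fun n => col N (v n)) ↔ φ.Sat (El (L γ)) v)) := by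
  have hX := good_L h0 hs
  let T : Set Ordinal.{0} := {α' | ∃ A, A ∈ N ∧ Lv A ∧ col N A = L α'}
  have hTγ : ∀ α' ∈ T, α' < γ := by
    rintro α' ⟨A, hAN, ⟨α, rfl⟩, he⟩
    obtain ⟨α'', hle, he'⟩ := col_level h0 hs hN α hAN
    have : α' = α'' := L_inj.1 (he.symm.trans he')
    rw [this]
    exact hle.trans_lt (L_mem_L.1 (hN.1 hAN))
  let δ : Ordinal.{0} := sInf {δ | ∀ α' ∈ T, α' < δ}
  have hTδ : ∀ α' ∈ T, α' < δ := csInf_mem (s := {δ : Ordinal.{0} | ∀ α' ∈ T, α' < δ}) ⟨γ, hTγ⟩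
  have hmin : ∀ η, (∀ α' ∈ T, α' < η) → δ ≤ η := fun η hη => csInf_le' hη
  have hδγ : δ ≤ γ := hmin γ hTγ
  have hTbig : ∀ α < δ, ∃ α' ∈ T, α ≤ α' := by
    intro α hα
    by_contra hcon
    push Not at hcon
    exact absurd (hmin α hcon) (not_le.2 hα)
  have hTsucc : ∀ α' ∈ T, ∃ α'' ∈ T, α' < α'' ∧ ∃ B, B ∈ N ∧ col N B = L α'' := by
    rintro α' ⟨A, hAN, hA, he⟩
    obtain ⟨B, hBN, ⟨b, rfl⟩, hAB⟩ := exists_level_above h0 hs hN hAN
    obtain ⟨b', -, heb⟩ := col_level h0 hs hN b hBN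
    refine ⟨b', ⟨L b, hBN, Lv_L _, heb⟩, ?_, L b, hBN, heb⟩
    have := col_mem hAB hAN
    rw [he, heb] at this
    exact L_mem_L.1 this
  have hTne : ∃ α', α' ∈ T := by
    obtain ⟨x, hx⟩ := hne
    obtain ⟨B, hBN, ⟨b, rfl⟩, -⟩ := exists_level_above h0 hs hN hx
    obtain ⟨b', -, heb⟩ := col_level h0 hs hN b hBN
    exact ⟨b', L b, hBN, Lv_L _, heb⟩
  have hδ0 : 0 < δ := by
    obtain ⟨α', hα'⟩ := hTne
    exact (zero_le (a := α')).trans_lt (hTδ α' hα')
  have hδs : ∀ α < δ, Order.succ α < δ := by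
    intro α hα
    obtain ⟨α', hα', hle⟩ := hTbig α hα
    obtain ⟨α'', hα'', hlt, -⟩ := hTsucc α' hα'
    exact (Order.succ_le_of_lt (hle.trans_lt hlt)).trans_lt (hTδ α'' hα'')
  have himg : col N '' N = El (L δ) := by
    ext z
    constructor
    · rintro ⟨x, hx, rfl⟩
      obtain ⟨B, hBN, ⟨b, rfl⟩, hxB⟩ := exists_level_above h0 hs hN hx
      obtain ⟨b', -, heb⟩ := col_level h0 hs hN b hBN
      have h1 := col_mem hxB hx
      rw [heb] at h1
      exact L_mono (hTδ b' ⟨L b, hBN, Lv_L _, heb⟩).le h1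
    · intro hz
      obtain ⟨β, hβ, hz⟩ := mem_L.1 hz
      obtain ⟨α', hα', hle⟩ := hTbig β hβ
      obtain ⟨α'', hα'', hlt, B, hBN, heB⟩ := hTsucc α' hα'
      have h1 : z ∈ col N B := by
        rw [heB]
        exact mem_L.2 ⟨β, hle.trans_lt hlt, hz⟩
      obtain ⟨x, -, hxN, rfl⟩ := mem_col.1 h1
      exact ⟨x, hxN, rfl⟩
  refine ⟨δ, hδγ, hδ0, hδs, himg, ?_⟩
  have key : ∀ (φ : FL) (v : ℕ → ZFSet.{0}), (∀ n, v n ∈ N) →
      (φ.Sat (El (L δ)) (fun n => col N (v n)) ↔ φ.Sat N v) := by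
    intro φ
    induction φ with
    | mem i j => intro v hv; exact col_mem_iff hN hX (hv i) (hv j)
    | eq i j =>
      intro v hv
      exact ⟨fun h => col_inj hN hX _ (hv i) _ (hv j) h, fun h => congrArg (col N) h⟩
    | lev i =>
      intro v hv
      refine ⟨fun h => lv_of_col h0 hs hN (hv i) h, fun h => ?_⟩
      simp only [FL.Sat] at h ⊢
      obtain ⟨α, hα⟩ := h
      have := hv i
      rw [hα] at this ⊢
      obtain ⟨α', -, he⟩ := col_level h0 hs hN α this
      exact ⟨α', he⟩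
    | neg φ ih => intro v hv; simp only [FL.Sat]; rw [ih v hv]
    | and φ ψ ih1 ih2 => intro v hv; simp only [FL.Sat]; rw [ih1 v hv, ih2 v hv]
    | all i φ ih =>
      intro v hv
      have hupd : ∀ a ∈ N, ∀ n, update v i a n ∈ N := by
        intro a ha n
        by_cases hn : n = i
        · subst hn; simpa using ha
        · rw [update_of_ne hn]; exact hv n
      have e : ∀ a, update (fun n => col N (v n)) i (col N a) = fun n => col N (update v i a n) := by
        intro a; funext n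
        by_cases hn : n = i
        · subst hn; simp
        · rw [update_of_ne hn, update_of_ne hn]
      simp only [FL.Sat]
      constructor
      · intro h a ha
        have h1 : col N a ∈ El (L δ) := by rw [← himg]; exact ⟨a, ha, rfl⟩
        have := h _ h1
        rw [e, ih _ (hupd a ha)] at this
        exact this
      · intro h a' ha'
        rw [← himg] at ha'
        obtain ⟨a, ha, rfl⟩ := ha'
        rw [e, ih _ (hupd a ha)]
        exact h a ha
  intro φ v hv
  rw [key φ v hv, hN.2 φ v hv]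

end

end Pool.Agent.Solovay
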