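import Pool.Agent.Solovay.SSet

/-! # Second-order definability of `Def`, of the levels, and of first-order truth in `HH M` -/

set_option linter.unusedVariables false

namespace Pool.Agent.Solovay

open Function Cardinal

universe u w

theorem Fm.toFL_inj : Injective Fm.toFL := by
  intro φ
  induction φ with
  | mem i j => intro ψ h; cases ψ <;> simp_all [Fm.toFL]
  | eq i j => intro ψ h; cases ψ <;> simp_all [Fm.toFL]
  | neg φ ih =>
    intro ψ h
    cases ψ <;> simp [Fm.toFL] at h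
    rw [ih h]
  | and φ ψ ih1 ih2 =>
    intro χ h
    cases χ <;> simp [Fm.toFL] at h
    rw [ih1 h.1, ih2 h.2]
  | all i φ ih =>
    intro χ h
    cases χ <;> simp [Fm.toFL] at h
    rw [h.1, ih h.2]

instance : Countable Fm := Fm.toFL_inj.countable

instance : Nonempty Fm := ⟨.eq 0 0⟩

section asg

variable {M : Type}

/-- `s'` is an `i`-variant of `s` -/
def Vari (Val : M → ℕ → M → Prop) (i : ℕ) (s s' : M) : Prop :=
  ∀ j : ℕ, ¬ j = i → ∀ c : M, Val s' j c ↔ Val s j c

def Same (Val : M → ℕ → M → Prop) (s s' : M) : Prop :=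
  ∀ j : ℕ, ∀ c : M, Val s' j c ↔ Val s j c

/-- an update-closed family of assignments with values in `dec R y0` -/
def Asg (R : Rel3 M) (y0 : M) (Val : M → ℕ → M → Prop) : Prop :=
  (∀ s : M, ∀ i : ℕ, ∃ b : M, Val s i b ∧ R b y0 y0 ∧ ∀ b' : M, Val s i b' → b' = b) ∧
  (∀ s : M, ∀ i : ℕ, ∀ b : M, R b y0 y0 → ∃ s' : M, Val s' i b ∧ Vari Val i s s')

/-- two update-closed families of assignments -/
def Asg2 (R : Rel3 M) (y0 : M) (Val1 Val2 : M → ℕ → M → Prop) : Prop :=
  (∀ s : M, ∀ i : ℕ, ∃ b : M, Val1 s i b ∧ R b y0 y0 ∧ ∀ b' : M, Val1 s i b' → b' = b) ∧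
  (∀ s : M, ∀ i : ℕ, ∃ b : M, Val2 s i b ∧ R b y0 y0 ∧ ∀ b' : M, Val2 s i b' → b' = b) ∧
  (∀ s : M, ∀ i : ℕ, ∀ b : M, R b y0 y0 → ∃ s' : M, Val1 s' i b ∧ Vari Val1 i s s' ∧
    Same Val2 s s') ∧
  (∀ s : M, ∀ i : ℕ, ∀ b : M, R b y0 y0 → ∃ s' : M, Val2 s' i b ∧ Vari Val2 i s s' ∧
    Same Val1 s s')

/-- the function coded by a list of updates -/
def upd {K : Type} (b0 : K) (l : List (ℕ × K)) : ℕ → K :=
  l.foldr (fun p f => update f p.1 p.2) (fun _ => b0)

theorem exists_surj [Infinite M] {K : Type} [Nonempty K] (hK : #K ≤ #M) :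
    ∃ g : M → List (ℕ × K) × List (ℕ × K), Surjective g := by
  have h0 := Cardinal.aleph0_le_mk M
  have h1 : #(List (ℕ × K)) ≤ #M := by
    refine (Cardinal.mk_list_le_max _).trans (max_le h0 ?_)
    rw [Cardinal.mk_prod, Cardinal.lift_id, Cardinal.lift_id]
    exact Cardinal.mul_le_of_le h0 (Cardinal.mk_le_aleph0.trans h0) hK
  have h2 : #(List (ℕ × K) × List (ℕ × K)) ≤ #M := by
    rw [Cardinal.mk_prod, Cardinal.lift_id]
    exact Cardinal.mul_le_of_le h0 h1 h1
  obtain ⟨f⟩ := (Cardinal.le_def _ _).1 h2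
  exact ⟨_, Function.invFun_surjective f.injective⟩

theorem exists_asg2 [Infinite M] {R : Rel3 M} {y0 b0 : M} (hb : R b0 y0 y0) :
    ∃ Val1 Val2, Asg2 R y0 Val1 Val2 := by
  let K := {b // R b y0 y0}
  have : Nonempty K := ⟨⟨b0, hb⟩⟩
  obtain ⟨g, hg⟩ := exists_surj (M := M) (K := K) (Cardinal.mk_le_of_injective Subtype.val_injective)
  let k0 : K := ⟨b0, hb⟩
  refine ⟨fun s i b => (upd k0 (g s).1 i).1 = b, fun s i b => (upd k0 (g s).2 i).1 = b,
    fun s i => ⟨_, rfl, (upd k0 (g s).1 i).2, fun b' h => h.symm⟩,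
    fun s i => ⟨_, rfl, (upd k0 (g s).2 i).2, fun b' h => h.symm⟩, ?_, ?_⟩
  · intro s i b hb
    obtain ⟨s', hs'⟩ := hg ((i, ⟨b, hb⟩) :: (g s).1, (g s).2)
    refine ⟨s', ?_, ?_, ?_⟩
    · show (upd k0 (g s').1 i).1 = b
      rw [hs']; simp [upd]
    · intro j hj c
      show (upd k0 (g s').1 j).1 = c ↔ (upd k0 (g s).1 j).1 = c
      rw [hs']
      show ((update (upd k0 (g s).1) i ⟨b, hb⟩ j).1 = c) ↔ _
      rw [update_of_ne hj]
    · intro j c
      show (upd k0 (g s').2 j).1 = c ↔ (upd k0 (g s).2 j).1 = c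
      rw [hs']
  · intro s i b hb
    obtain ⟨s', hs'⟩ := hg ((g s).1, (i, ⟨b, hb⟩) :: (g s).2)
    refine ⟨s', ?_, ?_, ?_⟩
    · show (upd k0 (g s').2 i).1 = b
      rw [hs']; simp [upd]
    · intro j hj c
      show (upd k0 (g s').2 j).1 = c ↔ (upd k0 (g s).2 j).1 = c
      rw [hs']
      show ((update (upd k0 (g s).2) i ⟨b, hb⟩ j).1 = c) ↔ _
      rw [update_of_ne hj]
    · intro j c
      show (upd k0 (g s').1 j).1 = c ↔ (upd k0 (g s).1 j).1 = c
      rw [hs']

theorem Asg2.asg {R : Rel3 M} {y0 : M} {Val1 Val2 : M → ℕ → M → Prop}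
    (h : Asg2 R y0 Val1 Val2) : Asg R y0 Val1 := by
  refine ⟨h.1, fun s i b hb => ?_⟩
  obtain ⟨s', h1, h2, _⟩ := h.2.2.1 s i b hb
  exact ⟨s', h1, h2⟩

/-- closure of a family of sets of assignments under the first-order operations -/
def Cl (R : Rel3 M) (Val : M → ℕ → M → Prop) (W : M → M → Prop) : Prop :=
  (∀ i : ℕ, ∀ j : ℕ, ∃ w : M, ∀ s : M, W w s ↔ ∃ b : M, ∃ c : M, Val s i b ∧ Val s j c ∧
    dec R b ∈ dec R c) ∧
  (∀ i : ℕ, ∀ j : ℕ, ∃ w : M, ∀ s : M, W w s ↔ ∃ b : M, ∃ c : M, Val s i b ∧ Val s j c ∧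
    dec R b = dec R c) ∧
  (∀ w : M, ∃ w' : M, ∀ s : M, W w' s ↔ ¬ W w s) ∧
  (∀ w1 : M, ∀ w2 : M, ∃ w' : M, ∀ s : M, W w' s ↔ W w1 s ∧ W w2 s) ∧
  (∀ i : ℕ, ∀ w : M, ∃ w' : M, ∀ s : M, W w' s ↔ ∀ s' : M, Vari Val i s s' → W w s')

theorem def_char [Infinite M] {R : Rel3 M} {y0 : M} {Val : M → ℕ → M → Prop}
    (hR : WellFounded (fun x y => R x y y)) (hA : Asg R y0 Val) {y : ZFSet.{0}} :
    y ∈ Def (dec R y0) ↔ y ⊆ dec R y0 ∧ ∀ W : M → M → Prop, Cl R Val W → ∃ w : M, ∃ s : M,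
      ∀ s' : M, Vari Val 0 s s' → (W w s' ↔ ∃ b : M, Val s' 0 b ∧ dec R b ∈ y) := by
  choose val hval using fun s i => hA.1 s i
  have hv : ∀ s i b, Val s i b ↔ b = val s i :=
    fun s i b => ⟨fun h => (hval s i).2.2 b h, fun h => by rw [h]; exact (hval s i).1⟩
  let as : M → ℕ → ZFSet.{0} := fun s n => dec R (val s n)
  have has : ∀ s n, as s n ∈ dec R y0 := fun s n => (dec_mem hR).2 ⟨_, (hval s n).2.1, rfl⟩
  -- variants
  have hvar : ∀ i s s', Vari Val i s s' → as s' = update (as s) i (as s' i) := by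
    intro i s s' h
    funext j
    by_cases hj : j = i
    · subst hj; simp
    · rw [update_of_ne hj]
      have := (h j hj (val s j)).2 ((hv _ _ _).2 rfl)
      rw [hv] at this
      show dec R (val s' j) = dec R (val s j)
      rw [this]
  have hex : ∀ i s a, a ∈ dec R y0 → ∃ s', Vari Val i s s' ∧ as s' i = a := by
    intro i s a ha
    obtain ⟨b, hb, rfl⟩ := (dec_mem hR).1 ha
    obtain ⟨s', h1, h2⟩ := hA.2 s i b hb
    refine ⟨s', h2, ?_⟩
    rw [hv] at h1
    show dec R (val s' i) = dec R b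
    rw [h1]
  have hquant : ∀ (φ : Fm) i s, (Fm.all i φ).Sat (dec R y0) (as s) ↔
      ∀ s', Vari Val i s s' → φ.Sat (dec R y0) (as s') := by
    intro φ i s
    simp only [Fm.Sat]
    constructor
    · intro h s' hs'
      rw [hvar i s s' hs']
      exact h _ (has _ _)
    · intro h a ha
      obtain ⟨s', h1, h2⟩ := hex i s a ha
      have := h s' h1
      rw [hvar i s s' h1, h2] at this
      exact this
  rw [mem_Def]
  constructor
  · rintro ⟨hsub, hcase⟩
    refine ⟨hsub, fun W hW => ?_⟩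
    have key : ∀ φ : Fm, ∃ w, ∀ s, W w s ↔ φ.Sat (dec R y0) (as s) := by
      intro φ
      induction φ with
      | mem i j =>
        obtain ⟨w, hw⟩ := hW.1 i j
        refine ⟨w, fun s => ?_⟩
        rw [hw]
        simp only [hv, Fm.Sat]
        constructor
        · rintro ⟨b, c, rfl, rfl, h⟩; exact h
        · intro h; exact ⟨_, _, rfl, rfl, h⟩
      | eq i j =>
        obtain ⟨w, hw⟩ := hW.2.1 i j
        refine ⟨w, fun s => ?_⟩
        rw [hw]
        simp only [hv, Fm.Sat]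
        constructor
        · rintro ⟨b, c, rfl, rfl, h⟩; exact h
        · intro h; exact ⟨_, _, rfl, rfl, h⟩
      | neg φ ih =>
        obtain ⟨w, hw⟩ := ih
        obtain ⟨w', hw'⟩ := hW.2.2.1 w
        exact ⟨w', fun s => by rw [hw', hw]; rfl⟩
      | and φ ψ ih1 ih2 =>
        obtain ⟨w, hw⟩ := ih1
        obtain ⟨w2, hw2⟩ := ih2
        obtain ⟨w', hw'⟩ := hW.2.2.2.1 w w2
        exact ⟨w', fun s => by rw [hw', hw, hw2]; rfl⟩
      | all i φ ih =>
        obtain ⟨w, hw⟩ := ih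
        obtain ⟨w', hw'⟩ := hW.2.2.2.2 i w
        refine ⟨w', fun s => ?_⟩
        rw [hw', hquant]
        exact forall₂_congr fun s' _ => hw s'
    rcases hcase with rfl | ⟨φ, v, hvv, hφ⟩
    · obtain ⟨w, hw⟩ := key (.neg (.eq 0 0))
      obtain ⟨s0⟩ : Nonempty M := inferInstance
      refine ⟨w, s0, fun s' _ => ?_⟩
      rw [hw]
      simp [Fm.Sat]
    · obtain ⟨w, hw⟩ := key φ
      have hfin : ∀ m, ∃ s, ∀ n < m, as s n = v n := by
        intro m
        induction m with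
        | zero =>
          obtain ⟨s0⟩ : Nonempty M := inferInstance
          exact ⟨s0, fun n hn => absurd hn (by omega)⟩
        | succ m ih =>
          obtain ⟨s, hs⟩ := ih
          obtain ⟨s', h1, h2⟩ := hex m s (v m) (hvv m)
          refine ⟨s', fun n hn => ?_⟩
          rw [hvar m s s' h1]
          by_cases hnm : n = m
          · subst hnm; simp [h2]
          · rw [update_of_ne hnm]; exact hs n (by omega)
      obtain ⟨s, hs⟩ := hfin φ.toFL.bd
      refine ⟨w, s, fun s' hs' => ?_⟩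
      rw [hw, hvar 0 s s' hs']
      have h1 : φ.Sat (dec R y0) (update (as s) 0 (as s' 0)) ↔
          φ.Sat (dec R y0) (update v 0 (as s' 0)) := by
        rw [← Fm.toFL_sat, ← Fm.toFL_sat]
        refine FL.sat_congr _ _ _ _ fun i hi => ?_
        by_cases h0 : i = 0
        · subst h0; simp
        · rw [update_of_ne h0, update_of_ne h0, hs i hi]
      rw [h1, ← hφ _ (has _ _)]
      simp only [hv]
      constructor
      · intro h; exact ⟨_, rfl, h⟩
      · rintro ⟨b, rfl, h⟩; exact h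
  · rintro ⟨hsub, h⟩
    refine ⟨hsub, Or.inr ?_⟩
    obtain ⟨e, he⟩ : ∃ e : M → Fm, Surjective e := by
      have h1 : #Fm ≤ #M := Cardinal.mk_le_aleph0.trans (Cardinal.aleph0_le_mk M)
      obtain ⟨f⟩ := (Cardinal.le_def _ _).1 h1
      exact ⟨_, Function.invFun_surjective f.injective⟩
    obtain ⟨w, s, hws⟩ := h (fun w s => (e w).Sat (dec R y0) (as s)) (by
      refine ⟨?_, ?_, ?_, ?_, ?_⟩
      · intro i j
        obtain ⟨w, hw⟩ := he (.mem i j)
        refine ⟨w, fun s => ?_⟩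
        simp only [hw, hv, Fm.Sat]
        constructor
        · intro h; exact ⟨_, _, rfl, rfl, h⟩
        · rintro ⟨b, c, rfl, rfl, h⟩; exact h
      · intro i j
        obtain ⟨w, hw⟩ := he (.eq i j)
        refine ⟨w, fun s => ?_⟩
        simp only [hw, hv, Fm.Sat]
        constructor
        · intro h; exact ⟨_, _, rfl, rfl, h⟩
        · rintro ⟨b, c, rfl, rfl, h⟩; exact h
      · intro w
        obtain ⟨w', hw'⟩ := he (.neg (e w))
        exact ⟨w', fun s => by simp only [hw', Fm.Sat]⟩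
      · intro w1 w2
        obtain ⟨w', hw'⟩ := he (.and (e w1) (e w2))
        exact ⟨w', fun s => by simp only [hw', Fm.Sat]⟩
      · intro i w
        obtain ⟨w', hw'⟩ := he (.all i (e w))
        exact ⟨w', fun s => by simp only [hw']; exact hquant _ _ _⟩)
    refine ⟨e w, as s, has s, fun a ha => ?_⟩
    obtain ⟨s', h1, h2⟩ := hex 0 s a ha
    have h3 := hws s' h1
    simp only [hv] at h3
    rw [hvar 0 s s' h1, h2] at h3
    rw [h3]
    constructor
    · intro h; exact ⟨_, rfl, by rw [← h2] at h; exact h⟩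
    · rintro ⟨b, rfl, h⟩; rw [← h2]; exact h

end asg

variable {τ : Vocab} {Γ : NStr τ → Type u} {C : SCx τ Γ}

instance NStr.infinite (B : NStr τ) : Infinite B.M := Infinite.of_injective B.ν B.inj

set_option synthInstance.maxSize 100000 in
instance SD.defMem {x y : ∀ B, Γ B → ZFSet.{0}} [hx : IsS C x] [hy : IsS C y] :
    SD C (fun B g => y B g ∈ Def (x B g)) := by
  refine SD.congr (P := fun B g => y B g = ∅ ∨ (y B g ⊆ x B g ∧ ∃ R : Rel3 B.M, ∃ y0 : B.M,
    ∃ Val : B.M → ℕ → B.M → Prop, dec R y0 = x B g ∧ WellFounded (fun x y => R x y y) ∧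
    Asg R y0 Val ∧ ∀ W : B.M → B.M → Prop, Cl R Val W → ∃ w : B.M, ∃ s : B.M,
      ∀ s' : B.M, Vari Val 0 s s' → (W w s' ↔ ∃ b : B.M, Val s' 0 b ∧ dec R b ∈ y B g)))
    ?_ ?_
  · unfold Asg Cl Vari
    infer_instance
  · intro B g v V hv
    constructor
    · intro h
      by_cases h0 : y B g = ∅
      · exact Or.inl h0
      · refine Or.inr ⟨Def_subset h, ?_⟩
        obtain ⟨R, y0, hR, he⟩ := exists_dec (hx.mem_HH hv)
        have hne : ∃ b0, R b0 y0 y0 := by
          rcases ZFSet.eq_empty_or_nonempty (y B g) with h1 | ⟨z, hz⟩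
          · exact absurd h1 h0
          · have := Def_subset h hz
            rw [← he, dec_mem hR] at this
            obtain ⟨b, hb, _⟩ := this
            exact ⟨b, hb⟩
        obtain ⟨b0, hb0⟩ := hne
        obtain ⟨Val1, Val2, hA⟩ := exists_asg2 hb0
        rw [← he] at h
        exact ⟨R, y0, Val1, he, hR, hA.asg, ((def_char hR hA.asg).1 h).2⟩
    · rintro (h | ⟨hsub, R, y0, Val, he, hR, hA, hW⟩)
      · rw [h]; exact empty_mem_Def _
      · rw [← he] at hsub ⊢
        exact (def_char hR hA).2 ⟨hsub, hW⟩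

instance SD.levS {x : ∀ B, Γ B → ZFSet.{0}} [hx : IsS C x] : SD C (fun B g => Lv (x B g)) := by
  refine SD.congr (P := fun B g => ∃ S : ZFSet.{0}, S ∈ HH B.M ∧ (x B g ∈ S ∧
    ∀ Y : ZFSet.{0}, Y ∈ S → ∀ y : ZFSet.{0}, y ∈ HH B.M → (y ∈ Y ↔
      ∃ X : ZFSet.{0}, X ∈ S ∧ (X ∈ Y ∧ y ∈ Def X)))) inferInstance ?_
  intro B g v V hv
  have hgood := good_HH B.M
  constructor
  · rintro ⟨α, hα⟩
    have hxH : L α ∈ HH B.M := by rw [← hα]; exact hx.mem_HH hv
    rw [hα]
    refine ⟨ZFSet.sep Lv (insert (L α) (L α)), HH.sep (hgood.ins _ hxH _ hxH),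
      ZFSet.mem_sep.2 ⟨ZFSet.mem_insert _ _, Lv_L _⟩, ?_⟩
    intro Y hY y _
    obtain ⟨hY, β, rfl⟩ := ZFSet.mem_sep.1 hY
    have hβ : β ≤ α := by
      rcases ZFSet.mem_insert_iff.1 hY with h | h
      · exact (L_inj.1 h).le
      · exact (L_mem_L.1 h).le
    rw [mem_L]
    constructor
    · rintro ⟨β', hβ', hy⟩
      exact ⟨L β', ZFSet.mem_sep.2 ⟨ZFSet.mem_insert_of_mem _ (L_mem_of_lt (hβ'.trans_le hβ)),
        Lv_L _⟩, L_mem_of_lt hβ', hy⟩
    · rintro ⟨X, hXS, hXY, hy⟩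
      obtain ⟨_, β', rfl⟩ := ZFSet.mem_sep.1 hXS
      exact ⟨β', L_mem_L.1 hXY, hy⟩
  · rintro ⟨S, hS, hxS, h⟩
    have key : ∀ Y, Y ∈ S → Lv Y := by
      intro Y
      induction Y using ZFSet.inductionOn with
      | h Y ih =>
        intro hY
        have hYH : Y ∈ HH B.M := HH.trans hS hY
        obtain ⟨α, hα, -⟩ := level_of_union (Y := Y) (S := {β | L β ∈ S ∧ L β ∈ Y}) (by
          intro y
          constructor
          · intro hy
            obtain ⟨X, hXS, hXY, hyX⟩ := (h Y hY y (HH.trans hYH hy)).1 hy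
            obtain ⟨β, rfl⟩ := ih X hXY hXS
            exact ⟨β, ⟨hXS, hXY⟩, hyX⟩
          · rintro ⟨β, ⟨h1, h2⟩, hy⟩
            have hyH : y ∈ HH B.M := HH.subset (HH.trans hYH h2) (Def_subset hy)
            exact (h Y hY y hyH).2 ⟨L β, h1, h2, hy⟩)
        exact ⟨α, hα⟩
    exact key _ hxS

/-- first-order truth in `HH M` is second-order definable -/
theorem SD.satHH (φ : FL) : ∀ {Γ : NStr τ → Type 1} {C : SCx τ Γ}
    (x : ℕ → ∀ B, Γ B → ZFSet.{0}), (∀ n, IsS C (x n)) →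
    SD C (fun B g => φ.Sat (HH B.M) (fun n => x n B g)) := by
  induction φ with
  | mem i j => intro Γ C x hx; have := hx i; have := hx j; simp only [FL.Sat]; infer_instance
  | eq i j => intro Γ C x hx; have := hx i; have := hx j; simp only [FL.Sat]; infer_instance
  | lev i => intro Γ C x hx; have := hx i; simp only [FL.Sat]; infer_instance
  | neg φ ih => intro Γ C x hx; have := ih x hx; simp only [FL.Sat]; infer_instance
  | and φ ψ ih1 ih2 =>
    intro Γ C x hx; have := ih1 x hx; have := ih2 x hx; simp only [FL.Sat]; infer_instance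
  | all i φ ih =>
    intro Γ C x hx
    have h1 := ih (C := C.ext kS) (fun n B p => if n = i then p.2 else x n B p.1) (by
      intro n
      by_cases hn : n = i
      · simp only [hn, if_true]; infer_instance
      · simp only [hn, if_false]; have := hx n; infer_instance)
    have : SD (C.ext kS) (fun B p => φ.Sat (HH B.M) (update (fun n => x n B p.1) i p.2)) := by
      refine h1.congr fun B p v V _ => ?_
      have : (update (fun n => x n B p.1) i p.2) = fun n => if n = i then p.2 else x n B p.1 := by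
        funext n; simp [update_apply]
      rw [this]
    simp only [FL.Sat]
    infer_instance

/-- transfer of first-order definability over `HH M` -/
theorem FD.toSD {P : Set ZFSet.{0} → (ℕ → ZFSet.{0}) → Prop} (h : FD FCx.base P)
    {Γ : NStr τ → Type 1} {C : SCx τ Γ}
    (x : ℕ → ∀ B, Γ B → ZFSet.{0}) (hx : ∀ n, IsS C (x n)) :
    SD C (fun B g => P (HH B.M) (fun n => x n B g)) := by
  obtain ⟨φ, hφ⟩ := h.base_out
  refine (SD.satHH φ (C := C) (fun j => x (j / 2)) (fun n => hx (n / 2))).congr ?_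
  intro B g v V hv
  exact hφ (HH B.M) (good_HH B.M) (fun n => x n B g) (fun i => (hx i).mem_HH hv)

end Pool.Agent.Solovay
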