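import Mathlib

/-!
# Official definitions

The constructible hierarchy over `ZFSet.{0}`, full second-order logic over a finite vocabulary,
complete / recursively axiomatized / categorical second-order theories.
-/

namespace Pool.Agent.Solovay

open Function

/-! ## The constructible hierarchy -/

/-- First-order formulas of the language of set theory, with named variables `x_0, x_1, ...`. -/
inductive Fm : Type
  | mem (i j : ℕ) : Fm
  | eq (i j : ℕ) : Fm
  | neg (φ : Fm) : Fm
  | and (φ ψ : Fm) : Fm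
  | all (i : ℕ) (φ : Fm) : Fm

/-- Tarskian satisfaction of a first-order formula in the structure `(X, ∈)`. -/
def Fm.Sat (X : ZFSet.{0}) : Fm → (ℕ → ZFSet.{0}) → Prop
  | .mem i j, v => v i ∈ v j
  | .eq i j, v => v i = v j
  | .neg φ, v => ¬ φ.Sat X v
  | .and φ ψ, v => φ.Sat X v ∧ ψ.Sat X v
  | .all i φ, v => ∀ a ∈ X, φ.Sat X (update v i a)

/-- `y` is a subset of `X` first-order definable over `(X, ∈)` with parameters from `X`:
`y = {a ∈ X | (X, ∈) ⊨ φ[a, v 1, v 2, ...]}` for a formula `φ` and an assignment `v` into `X`.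
(The clause `y = ∅` only matters for `X = ∅`, where there is no assignment into `X`.) -/
def IsDefinable (X y : ZFSet.{0}) : Prop :=
  y ⊆ X ∧ (y = ∅ ∨ ∃ (φ : Fm) (v : ℕ → ZFSet.{0}), (∀ n, v n ∈ X) ∧
    ∀ a ∈ X, a ∈ y ↔ φ.Sat X (update v 0 a))

/-- The definable power set `Def X`. -/
noncomputable def Def (X : ZFSet.{0}) : ZFSet.{0} :=
  ZFSet.sep (IsDefinable X) (ZFSet.powerset X)

/-- The constructible hierarchy: `L α = ⋃_{β < α} Def (L β)`
(so `L 0 = ∅`, `L (α+1) = Def (L α)`, `L λ = ⋃_{β<λ} L β` at limits). -/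
noncomputable def L (α : Ordinal.{0}) : ZFSet.{0} :=
  ZFSet.iUnion fun β : Set.Iio α => Def (L β)
termination_by α
decreasing_by exact β.2

/-- The axiom of constructibility `V = L`. -/
def VEqualsL : Prop := ∀ x : ZFSet.{0}, ∃ α : Ordinal.{0}, x ∈ L α

/-! ## Second-order logic -/

/-- A finite vocabulary: finitely many relation and function symbols with their arities
(constants are function symbols of arity `0`). -/
structure Vocab where
  nR : ℕ
  arR : Fin nR → ℕ
  nF : ℕ
  arF : Fin nF → ℕ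

/-- A structure for the vocabulary `τ`. -/
structure Str (τ : Vocab) where
  /-- the domain -/
  M : Type
  ne : Nonempty M
  rel : (R : Fin τ.nR) → (Fin (τ.arR R) → M) → Prop
  fn : (f : Fin τ.nF) → (Fin (τ.arF f) → M) → M

/-- Isomorphism of structures. -/
def Iso {τ : Vocab} (A B : Str τ) : Prop :=
  ∃ e : A.M ≃ B.M, (∀ R x, A.rel R x ↔ B.rel R (e ∘ x)) ∧
    ∀ f x, e (A.fn f x) = B.fn f (e ∘ x)

/-- Second-order formulas: element variables `x_i` (`i : ℕ`) and, for every arity `n`, relation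
variables `X^n_j` (`j : ℕ`).  Atomic formulas are `x_i = x_j`, `R(x̄)`, `f(x̄) = x_i` and
`X^n_j(x̄)`. -/
inductive SOF (τ : Vocab) : Type
  | eq (i j : ℕ) : SOF τ
  | rel (R : Fin τ.nR) (x : Fin (τ.arR R) → ℕ) : SOF τ
  | fn (f : Fin τ.nF) (x : Fin (τ.arF f) → ℕ) (i : ℕ) : SOF τ
  | app (n j : ℕ) (x : Fin n → ℕ) : SOF τ
  | neg (φ : SOF τ) : SOF τ
  | and (φ ψ : SOF τ) : SOF τ
  | all (i : ℕ) (φ : SOF τ) : SOF τ
  | allR (n j : ℕ) (φ : SOF τ) : SOF τ

/-- Assignments of relations to the relation variables. -/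
abbrev RelAsg (M : Type) : Type := (n : ℕ) → ℕ → (Fin n → M) → Prop

variable {τ : Vocab}

/-- Satisfaction with full (standard) semantics. -/
def SOF.Sat (B : Str τ) : SOF τ → (ℕ → B.M) → RelAsg B.M → Prop
  | .eq i j, v, _ => v i = v j
  | .rel R x, v, _ => B.rel R (fun k => v (x k))
  | .fn f x i, v, _ => B.fn f (fun k => v (x k)) = v i
  | .app n j x, v, V => V n j (fun k => v (x k))
  | .neg φ, v, V => ¬ φ.Sat B v V
  | .and φ ψ, v, V => φ.Sat B v V ∧ ψ.Sat B v V
  | .all i φ, v, V => ∀ a : B.M, φ.Sat B (update v i a) V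
  | .allR n j φ, v, V => ∀ Q : (Fin n → B.M) → Prop, φ.Sat B v (update V n (update (V n) j Q))

/-- Free element variables. -/
def SOF.freeE : SOF τ → Set ℕ
  | .eq i j => {i, j}
  | .rel _ x => Set.range x
  | .fn _ x i => insert i (Set.range x)
  | .app _ _ x => Set.range x
  | .neg φ => φ.freeE
  | .and φ ψ => φ.freeE ∪ ψ.freeE
  | .all i φ => φ.freeE \ {i}
  | .allR _ _ φ => φ.freeE

/-- Free relation variables `(arity, index)`. -/
def SOF.freeR : SOF τ → Set (ℕ × ℕ)
  | .eq _ _ => ∅
  | .rel _ _ => ∅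
  | .fn _ _ _ => ∅
  | .app n j _ => {(n, j)}
  | .neg φ => φ.freeR
  | .and φ ψ => φ.freeR ∪ ψ.freeR
  | .all _ φ => φ.freeR
  | .allR n j φ => φ.freeR \ {(n, j)}

/-- Sentences: formulas without free variables. -/
def SOF.IsSentence (φ : SOF τ) : Prop := φ.freeE = ∅ ∧ φ.freeR = ∅

/-- The structure `B` satisfies the sentence `φ`. -/
def Str.Satisfies (B : Str τ) (φ : SOF τ) : Prop := ∀ v V, φ.Sat B v V

/-- `B` is a model of the set `T` of sentences. -/
def Str.Models (B : Str τ) (T : Set (SOF τ)) : Prop := ∀ φ ∈ T, B.Satisfies φ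

/-- Codes of finite sequences of natural numbers. -/
def lcode : List ℕ → ℕ
  | [] => 0
  | a :: l => Nat.pair a (lcode l) + 1

/-- Gödel numbers of second-order formulas. -/
def SOF.code : SOF τ → ℕ
  | .eq i j => Nat.pair 0 (Nat.pair i j)
  | .rel R x => Nat.pair 1 (Nat.pair R (lcode (List.ofFn x)))
  | .fn f x i => Nat.pair 2 (Nat.pair f (Nat.pair i (lcode (List.ofFn x))))
  | .app n j x => Nat.pair 3 (Nat.pair (Nat.pair n j) (lcode (List.ofFn x)))
  | .neg φ => Nat.pair 4 φ.code
  | .and φ ψ => Nat.pair 5 (Nat.pair φ.code ψ.code)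
  | .all i φ => Nat.pair 6 (Nat.pair i φ.code)
  | .allR n j φ => Nat.pair 7 (Nat.pair (Nat.pair n j) φ.code)

/-- A set of formulas is recursive if the set of Gödel numbers of its members is. -/
def RecursiveSet (R : Set (SOF τ)) : Prop := ComputablePred fun n : ℕ => n ∈ SOF.code '' R

/-- `T` is recursively axiomatized: it has the same models as some recursive set of sentences. -/
def RecursivelyAxiomatized (T : Set (SOF τ)) : Prop :=
  ∃ R : Set (SOF τ), (∀ φ ∈ R, φ.IsSentence) ∧ RecursiveSet R ∧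
    ∀ B : Str τ, B.Models T ↔ B.Models R

/-- `T` is complete: it has a model and decides every sentence of the vocabulary. -/
def Complete (T : Set (SOF τ)) : Prop :=
  (∃ B : Str τ, B.Models T) ∧ ∀ φ : SOF τ, φ.IsSentence →
    (∀ B : Str τ, B.Models T → B.Satisfies φ) ∨ (∀ B : Str τ, B.Models T → B.Satisfies (.neg φ))

/-- `T` is categorical: any two models are isomorphic. -/
def Categorical (T : Set (SOF τ)) : Prop :=
  ∀ A B : Str τ, A.Models T → B.Models T → Iso A B

end Pool.Agent.Solovay
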