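import Pool.Agent.Solovay.Lev

/-! # First-order definability in `(X, ∈, Lv)` -/

set_option linter.unusedVariables false

namespace Pool.Agent.Solovay

open Function

/-- first-order formulas in the language of set theory with a predicate for levels -/
inductive FL : Type
  | mem (i j : ℕ) : FL
  | eq (i j : ℕ) : FL
  | lev (i : ℕ) : FL
  | neg (φ : FL) : FL
  | and (φ ψ : FL) : FL
  | all (i : ℕ) (φ : FL) : FL

def FL.Sat (X : Set ZFSet.{0}) : FL → (ℕ → ZFSet.{0}) → Prop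
  | .mem i j, v => v i ∈ v j
  | .eq i j, v => v i = v j
  | .lev i, v => Lv (v i)
  | .neg φ, v => ¬ φ.Sat X v
  | .and φ ψ, v => φ.Sat X v ∧ ψ.Sat X v
  | .all i φ, v => ∀ a ∈ X, φ.Sat X (update v i a)

/-- the elements of a set, as a Lean set -/
def El (Y : ZFSet.{0}) : Set ZFSet.{0} := {z | z ∈ Y}

@[simp] theorem mem_El {Y z : ZFSet.{0}} : z ∈ El Y ↔ z ∈ Y := Iff.rfl

def Fm.toFL : Fm → FL
  | .mem i j => .mem i j
  | .eq i j => .eq i j
  | .neg φ => .neg φ.toFL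
  | .and φ ψ => .and φ.toFL ψ.toFL
  | .all i φ => .all i φ.toFL

theorem Fm.toFL_sat (X : ZFSet.{0}) (φ : Fm) : ∀ v, φ.toFL.Sat (El X) v ↔ φ.Sat X v := by
  induction φ with
  | mem i j => intro v; rfl
  | eq i j => intro v; rfl
  | neg φ ih => intro v; simp only [Fm.toFL, FL.Sat, Fm.Sat, ih]
  | and φ ψ ih1 ih2 => intro v; simp only [Fm.toFL, FL.Sat, Fm.Sat, ih1, ih2]
  | all i φ ih => intro v; simp only [Fm.toFL, FL.Sat, Fm.Sat, ih, mem_El]

/-- a bound for the names occurring in a formula -/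
def FL.bd : FL → ℕ
  | .mem i j => max i j + 1
  | .eq i j => max i j + 1
  | .lev i => i + 1
  | .neg φ => φ.bd
  | .and φ ψ => max φ.bd ψ.bd
  | .all i φ => max i φ.bd

theorem FL.sat_congr (X : Set ZFSet.{0}) (φ : FL) :
    ∀ v w : ℕ → ZFSet.{0}, (∀ i < φ.bd, v i = w i) → (φ.Sat X v ↔ φ.Sat X w) := by
  induction φ with
  | mem i j =>
    intro v w h
    simp only [FL.bd] at h
    simp only [FL.Sat]
    rw [h i (by omega), h j (by omega)]
  | eq i j =>
    intro v w h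
    simp only [FL.bd] at h
    simp only [FL.Sat]
    rw [h i (by omega), h j (by omega)]
  | lev i =>
    intro v w h
    simp only [FL.bd] at h
    simp only [FL.Sat]
    rw [h i (by omega)]
  | neg φ ih =>
    intro v w h
    simp only [FL.Sat]
    rw [ih v w h]
  | and φ ψ ih1 ih2 =>
    intro v w h
    simp only [FL.bd] at h
    simp only [FL.Sat]
    rw [ih1 v w (fun i hi => h i (by omega)), ih2 v w (fun i hi => h i (by omega))]
  | all i φ ih =>
    intro v w h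
    simp only [FL.bd] at h
    simp only [FL.Sat]
    refine forall₂_congr fun a _ => ih _ _ fun j hj => ?_
    by_cases hji : j = i
    · subst hji; simp
    · rw [update_of_ne hji, update_of_ne hji]; exact h j (by omega)

def FL.code : FL → ℕ
  | .mem i j => Nat.pair 0 (Nat.pair i j)
  | .eq i j => Nat.pair 1 (Nat.pair i j)
  | .lev i => Nat.pair 2 i
  | .neg φ => Nat.pair 3 φ.code
  | .and φ ψ => Nat.pair 4 (Nat.pair φ.code ψ.code)
  | .all i φ => Nat.pair 5 (Nat.pair i φ.code)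

theorem FL.code_inj : Injective FL.code := by
  intro φ
  induction φ with
  | mem i j => intro ψ h; cases ψ <;> simp_all [FL.code, Nat.pair_eq_pair]
  | eq i j => intro ψ h; cases ψ <;> simp_all [FL.code, Nat.pair_eq_pair]
  | lev i => intro ψ h; cases ψ <;> simp_all [FL.code, Nat.pair_eq_pair]
  | neg φ ih =>
    intro ψ h
    cases ψ <;> simp [FL.code, Nat.pair_eq_pair] at h
    rw [ih h]
  | and φ ψ ih1 ih2 =>
    intro χ h
    cases χ <;> simp [FL.code, Nat.pair_eq_pair] at h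
    rw [ih1 h.1, ih2 h.2]
  | all i φ ih =>
    intro χ h
    cases χ <;> simp [FL.code, Nat.pair_eq_pair] at h
    rw [h.1, ih h.2]

instance : Countable FL := FL.code_inj.countable

/-! ## Good domains -/

/-- transitive, containing `∅`, and closed under `insert` -/
structure Good (X : Set ZFSet.{0}) : Prop where
  tr : ∀ x ∈ X, ∀ y ∈ x, y ∈ X
  em : (∅ : ZFSet.{0}) ∈ X
  ins : ∀ x ∈ X, ∀ y ∈ X, (insert x y : ZFSet.{0}) ∈ X

theorem Good.single {X : Set ZFSet.{0}} (h : Good X) {x : ZFSet.{0}} (hx : x ∈ X) :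
    ({x} : ZFSet.{0}) ∈ X := by
  have := h.ins x hx ∅ h.em
  simpa using this

theorem Good.pr {X : Set ZFSet.{0}} (h : Good X) {x y : ZFSet.{0}} (hx : x ∈ X) (hy : y ∈ X) :
    ({x, y} : ZFSet.{0}) ∈ X := h.ins x hx _ (h.single hy)

theorem Good.pair {X : Set ZFSet.{0}} (h : Good X) {x y : ZFSet.{0}} (hx : x ∈ X) (hy : y ∈ X) :
    ZFSet.pair x y ∈ X := h.pr (h.single hx) (h.pr hx hy)

theorem Good.of_pair {X : Set ZFSet.{0}} (h : Good X) {x y : ZFSet.{0}} (hp : ZFSet.pair x y ∈ X) :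
    x ∈ X ∧ y ∈ X := by
  have h1 : ({x, y} : ZFSet.{0}) ∈ X := h.tr _ hp _ (by simp [ZFSet.pair])
  exact ⟨h.tr _ h1 _ (by simp), h.tr _ h1 _ (by simp)⟩

/-! ## Contexts -/

structure FCx (Γ : Type 1) where
  k : ℕ
  ok : Set ZFSet.{0} → Γ → (ℕ → ZFSet.{0}) → Prop
  congr : ∀ X g v w, (∀ i, v (2 * i + 1) = w (2 * i + 1)) → (∀ i < k, v (2 * i) = w (2 * i)) →
    ok X g v → ok X g w
  good : ∀ X g v, ok X g v → Good X

variable {Γ : Type 1}

def FCx.ext (C : FCx Γ) : FCx (Γ × ZFSet.{0}) where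
  k := C.k + 1
  ok X p v := C.ok X p.1 v ∧ v (2 * C.k) = p.2 ∧ p.2 ∈ X
  congr X p v w h1 h2 h := by
    refine ⟨C.congr X p.1 v w h1 (fun i hi => h2 i (by omega)) h.1, ?_, h.2.2⟩
    rw [← h2 C.k (by omega)]; exact h.2.1
  good X p v h := C.good X p.1 v h.1

class IsV (C : FCx Γ) (x : Γ → ZFSet.{0}) : Prop where
  out : ∃ i : ℕ, ((∃ j, i = 2 * j + 1) ∨ ∃ j < C.k, i = 2 * j) ∧
    ∀ X g v, C.ok X g v → v i = x g ∧ x g ∈ X

class FD (C : FCx Γ) (P : Set ZFSet.{0} → Γ → Prop) : Prop where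
  out : ∃ φ : FL, ∀ X g v, C.ok X g v → (P X g ↔ φ.Sat X v)

variable {C : FCx Γ}

instance IsV.new : IsV C.ext (fun p => p.2) :=
  ⟨2 * C.k, Or.inr ⟨C.k, by simp [FCx.ext], rfl⟩, fun X g v h => ⟨h.2.1, h.2.2⟩⟩

theorem IsV.wk {x : Γ → ZFSet.{0}} (h : IsV C x) : IsV C.ext (fun p => x p.1) := by
  obtain ⟨i, hi, hx⟩ := h.out
  refine ⟨i, ?_, fun X g v h => hx X g.1 v h.1⟩
  rcases hi with hi | ⟨j, hj, rfl⟩
  · exact Or.inl hi
  · exact Or.inr ⟨j, by simp only [FCx.ext]; omega, rfl⟩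

instance IsV.wk1 {x : Γ → ZFSet.{0}} [h : IsV C x] : IsV C.ext (fun p => x p.1) := h.wk
instance IsV.wk2 {x : Γ → ZFSet.{0}} [h : IsV C x] : IsV C.ext.ext (fun p => x p.1.1) := h.wk.wk
instance IsV.wk3 {x : Γ → ZFSet.{0}} [h : IsV C x] : IsV C.ext.ext.ext (fun p => x p.1.1.1) :=
  h.wk.wk.wk
instance IsV.wk4 {x : Γ → ZFSet.{0}} [h : IsV C x] :
    IsV C.ext.ext.ext.ext (fun p => x p.1.1.1.1) := h.wk.wk.wk.wk
instance IsV.wk5 {x : Γ → ZFSet.{0}} [h : IsV C x] :
    IsV C.ext.ext.ext.ext.ext (fun p => x p.1.1.1.1.1) := h.wk.wk.wk.wk.wk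
instance IsV.wk6 {x : Γ → ZFSet.{0}} [h : IsV C x] :
    IsV C.ext.ext.ext.ext.ext.ext (fun p => x p.1.1.1.1.1.1) := h.wk.wk.wk.wk.wk.wk
instance IsV.wk7 {x : Γ → ZFSet.{0}} [h : IsV C x] :
    IsV C.ext.ext.ext.ext.ext.ext.ext (fun p => x p.1.1.1.1.1.1.1) := h.wk.wk.wk.wk.wk.wk.wk
instance IsV.wk8 {x : Γ → ZFSet.{0}} [h : IsV C x] :
    IsV C.ext.ext.ext.ext.ext.ext.ext.ext (fun p => x p.1.1.1.1.1.1.1.1) :=
  h.wk.wk.wk.wk.wk.wk.wk.wk

theorem FD.congr {P Q : Set ZFSet.{0} → Γ → Prop} (hP : FD C P)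
    (h : ∀ X g v, C.ok X g v → (Q X g ↔ P X g)) : FD C Q := by
  obtain ⟨φ, hφ⟩ := hP.out
  exact ⟨φ, fun X g v hv => (h X g v hv).trans (hφ X g v hv)⟩

instance FD.not {P : Set ZFSet.{0} → Γ → Prop} [h : FD C P] : FD C (fun X g => ¬ P X g) := by
  obtain ⟨φ, hφ⟩ := h.out
  exact ⟨.neg φ, fun X g v hv => not_congr (hφ X g v hv)⟩

instance FD.and {P Q : Set ZFSet.{0} → Γ → Prop} [h : FD C P] [h' : FD C Q] :
    FD C (fun X g => P X g ∧ Q X g) := by
  obtain ⟨φ, hφ⟩ := h.out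
  obtain ⟨ψ, hψ⟩ := h'.out
  exact ⟨.and φ ψ, fun X g v hv => and_congr (hφ X g v hv) (hψ X g v hv)⟩

instance FD.or {P Q : Set ZFSet.{0} → Γ → Prop} [h : FD C P] [h' : FD C Q] :
    FD C (fun X g => P X g ∨ Q X g) :=
  FD.congr (P := fun X g => ¬ (¬ P X g ∧ ¬ Q X g)) inferInstance (fun X g v _ => by tauto)

instance FD.imp {P Q : Set ZFSet.{0} → Γ → Prop} [h : FD C P] [h' : FD C Q] :
    FD C (fun X g => P X g → Q X g) :=
  FD.congr (P := fun X g => ¬ (P X g ∧ ¬ Q X g)) inferInstance (fun X g v _ => by tauto)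

instance FD.iff {P Q : Set ZFSet.{0} → Γ → Prop} [h : FD C P] [h' : FD C Q] :
    FD C (fun X g => P X g ↔ Q X g) :=
  FD.congr (P := fun X g => (P X g → Q X g) ∧ (Q X g → P X g)) inferInstance
    (fun X g v _ => by tauto)

instance FD.all {Q : Set ZFSet.{0} → Γ → ZFSet.{0} → Prop}
    [h : FD C.ext (fun X p => Q X p.1 p.2)] : FD C (fun X g => ∀ x ∈ X, Q X g x) := by
  obtain ⟨φ, hφ⟩ := h.out
  refine ⟨.all (2 * C.k) φ, fun X g v hv => ?_⟩
  simp only [FL.Sat]
  refine forall₂_congr fun a ha => ?_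
  refine hφ X (g, a) (update v (2 * C.k) a) ⟨?_, by simp, ha⟩
  refine C.congr X g v _ (fun i => ?_) (fun i hi => ?_) hv
  · rw [update_of_ne (by omega)]
  · rw [update_of_ne (by omega)]

instance FD.ex {Q : Set ZFSet.{0} → Γ → ZFSet.{0} → Prop}
    [h : FD C.ext (fun X p => Q X p.1 p.2)] : FD C (fun X g => ∃ x, x ∈ X ∧ Q X g x) :=
  FD.congr (P := fun X g => ¬ ∀ x ∈ X, ¬ Q X g x) inferInstance (fun X g v _ => by push Not; rfl)

instance FD.mem {x y : Γ → ZFSet.{0}} [hx : IsV C x] [hy : IsV C y] :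
    FD C (fun _ g => x g ∈ y g) := by
  obtain ⟨i, -, hi⟩ := hx.out
  obtain ⟨j, -, hj⟩ := hy.out
  exact ⟨.mem i j, fun X g v hv => by simp only [FL.Sat]; rw [(hi X g v hv).1, (hj X g v hv).1]⟩

instance FD.eq {x y : Γ → ZFSet.{0}} [hx : IsV C x] [hy : IsV C y] :
    FD C (fun _ g => x g = y g) := by
  obtain ⟨i, -, hi⟩ := hx.out
  obtain ⟨j, -, hj⟩ := hy.out
  exact ⟨.eq i j, fun X g v hv => by simp only [FL.Sat]; rw [(hi X g v hv).1, (hj X g v hv).1]⟩

instance FD.lev {x : Γ → ZFSet.{0}} [hx : IsV C x] : FD C (fun _ g => Lv (x g)) := by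
  obtain ⟨i, -, hi⟩ := hx.out
  exact ⟨.lev i, fun X g v hv => by simp only [FL.Sat]; rw [(hi X g v hv).1]⟩

instance FD.const {p : Prop} : FD C (fun _ _ => p) := by
  by_cases hp : p
  · exact ⟨.eq 0 0, fun X g v hv => by simp [FL.Sat, hp]⟩
  · exact ⟨.neg (.eq 0 0), fun X g v hv => by simp [FL.Sat, hp]⟩

theorem FD.finall {ι : Type} [Finite ι] {P : ι → Set ZFSet.{0} → Γ → Prop}
    (h : ∀ i, FD C (P i)) : FD C (fun X g => ∀ i, P i X g) := by
  have key : ∀ s : Finset ι, FD C (fun X g => ∀ i ∈ s, P i X g) := by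
    classical
    intro s
    induction s using Finset.induction_on with
    | empty => exact FD.congr (P := fun _ _ => True) inferInstance (fun X g v _ => by simp)
    | insert a s ha ih =>
      exact FD.congr (P := fun X g => P a X g ∧ ∀ i ∈ s, P i X g) inferInstance
        (fun X g v _ => by simp)
  have := Fintype.ofFinite ι
  exact (key Finset.univ).congr (fun X g v _ => by simp)

/-- substitution of variables in a formula -/
theorem FD.sat (φ : FL) : ∀ {Γ : Type 1} {C : FCx Γ} (x : ℕ → Γ → ZFSet.{0}),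
    (∀ n, IsV C (x n)) → FD C (fun X g => φ.Sat X (fun n => x n g)) := by
  induction φ with
  | mem i j => intro Γ C x hx; have := hx i; have := hx j; simp only [FL.Sat]; infer_instance
  | eq i j => intro Γ C x hx; have := hx i; have := hx j; simp only [FL.Sat]; infer_instance
  | lev i => intro Γ C x hx; have := hx i; simp only [FL.Sat]; infer_instance
  | neg φ ih => intro Γ C x hx; have := ih x hx; simp only [FL.Sat]; infer_instance
  | and φ ψ ih1 ih2 =>
    intro Γ C x hx; have := ih1 x hx; have := ih2 x hx; simp only [FL.Sat]; infer_instance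
  | all i φ ih =>
    intro Γ C x hx
    have h1 := ih (C := C.ext) (fun n p => if n = i then p.2 else x n p.1) (by
      intro n
      by_cases hn : n = i
      · simp only [hn, if_true]; infer_instance
      · simp only [hn, if_false]; have := hx n; infer_instance)
    have : FD C.ext (fun X p => φ.Sat X (update (fun n => x n p.1) i p.2)) := by
      refine h1.congr fun X p v _ => ?_
      have : (update (fun n => x n p.1) i p.2) = fun n => if n = i then p.2 else x n p.1 := by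
        funext n; simp [update_apply]
      rw [this]
    simp only [FL.Sat]
    infer_instance

/-- relativized satisfaction -/
theorem FD.satRel (φ : FL) : ∀ {Γ : Type 1} {C : FCx Γ} (Y : Γ → ZFSet.{0})
    (x : ℕ → Γ → ZFSet.{0}), IsV C Y → (∀ n, IsV C (x n)) →
    FD C (fun _ g => φ.Sat (El (Y g)) (fun n => x n g)) := by
  induction φ with
  | mem i j => intro Γ C Y x hY hx; have := hx i; have := hx j; simp only [FL.Sat]; infer_instance
  | eq i j => intro Γ C Y x hY hx; have := hx i; have := hx j; simp only [FL.Sat]; infer_instance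
  | lev i => intro Γ C Y x hY hx; have := hx i; simp only [FL.Sat]; infer_instance
  | neg φ ih => intro Γ C Y x hY hx; have := ih Y x hY hx; simp only [FL.Sat]; infer_instance
  | and φ ψ ih1 ih2 =>
    intro Γ C Y x hY hx; have := ih1 Y x hY hx; have := ih2 Y x hY hx
    simp only [FL.Sat]; infer_instance
  | all i φ ih =>
    intro Γ C Y x hY hx
    have h1 := ih (C := C.ext) (fun p => Y p.1) (fun n p => if n = i then p.2 else x n p.1)
      inferInstance (by
      intro n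
      by_cases hn : n = i
      · simp only [hn, if_true]; infer_instance
      · simp only [hn, if_false]; have := hx n; infer_instance)
    have : FD C.ext (fun _ p => φ.Sat (El (Y p.1)) (update (fun n => x n p.1) i p.2)) := by
      refine h1.congr fun X p v _ => ?_
      have : (update (fun n => x n p.1) i p.2) = fun n => if n = i then p.2 else x n p.1 := by
        funext n; simp [update_apply]
      rw [this]
    have h2 : FD C (fun X g => ∀ a ∈ X, a ∈ Y g →
        φ.Sat (El (Y g)) (update (fun n => x n g) i a)) := inferInstance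
    refine h2.congr fun X g v hv => ?_
    simp only [FL.Sat, mem_El]
    obtain ⟨j, -, hj⟩ := hY.out
    exact ⟨fun h a _ ha => h a ha, fun h a ha => h a ((C.good X g v hv).tr _ (hj X g v hv).2 a ha) ha⟩

/-- bounded quantification -/
instance FD.ballv {Y : Γ → ZFSet.{0}} [hY : IsV C Y] {Q : Set ZFSet.{0} → Γ → ZFSet.{0} → Prop}
    [h : FD C.ext (fun X p => Q X p.1 p.2)] : FD C (fun X g => ∀ x, x ∈ Y g → Q X g x) := by
  have h2 : FD C (fun X g => ∀ a ∈ X, a ∈ Y g → Q X g a) := inferInstance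
  refine h2.congr fun X g v hv => ?_
  obtain ⟨j, -, hj⟩ := hY.out
  exact ⟨fun h a _ ha => h a ha, fun h a ha => h a ((C.good X g v hv).tr _ (hj X g v hv).2 a ha) ha⟩

instance FD.bexv {Y : Γ → ZFSet.{0}} [hY : IsV C Y] {Q : Set ZFSet.{0} → Γ → ZFSet.{0} → Prop}
    [h : FD C.ext (fun X p => Q X p.1 p.2)] : FD C (fun X g => ∃ x, x ∈ Y g ∧ Q X g x) := by
  have h2 : FD C (fun X g => ∃ a, a ∈ X ∧ a ∈ Y g ∧ Q X g a) := inferInstance
  refine h2.congr fun X g v hv => ?_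
  obtain ⟨j, -, hj⟩ := hY.out
  exact ⟨fun ⟨a, ha, h⟩ => ⟨a, (C.good X g v hv).tr _ (hj X g v hv).2 a ha, ha, h⟩,
    fun ⟨a, _, ha, h⟩ => ⟨a, ha, h⟩⟩

/-! ## The base context -/

/-- the context whose variables are `g 0, g 1, ...` -/
def FCx.base : FCx (ℕ → ZFSet.{0}) where
  k := 0
  ok X g v := Good X ∧ (∀ i, v (2 * i + 1) = g i) ∧ ∀ i, g i ∈ X
  congr X g v w h1 _ h := ⟨h.1, fun i => by rw [← h1]; exact h.2.1 i, h.2.2⟩
  good X g v h := h.1

instance IsV.base (i : ℕ) : IsV FCx.base (fun g => g i) :=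
  ⟨2 * i + 1, Or.inl ⟨i, rfl⟩, fun X g v h => ⟨h.2.1 i, h.2.2 i⟩⟩

instance IsV.base1 (i : ℕ) : IsV FCx.base.ext (fun p => p.1 i) := (IsV.base i).wk
instance IsV.base2 (i : ℕ) : IsV FCx.base.ext.ext (fun p => p.1.1 i) := (IsV.base1 i).wk
instance IsV.base3 (i : ℕ) : IsV FCx.base.ext.ext.ext (fun p => p.1.1.1 i) := (IsV.base2 i).wk
instance IsV.base4 (i : ℕ) : IsV FCx.base.ext.ext.ext.ext (fun p => p.1.1.1.1 i) :=
  (IsV.base3 i).wk
instance IsV.base5 (i : ℕ) : IsV FCx.base.ext.ext.ext.ext.ext (fun p => p.1.1.1.1.1 i) :=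
  (IsV.base4 i).wk
instance IsV.base6 (i : ℕ) : IsV FCx.base.ext.ext.ext.ext.ext.ext (fun p => p.1.1.1.1.1.1 i) :=
  (IsV.base5 i).wk

theorem FD.base_out {P : Set ZFSet.{0} → (ℕ → ZFSet.{0}) → Prop} (h : FD FCx.base P) :
    ∃ φ : FL, ∀ X, Good X → ∀ g : ℕ → ZFSet.{0}, (∀ i, g i ∈ X) →
      (P X g ↔ φ.Sat X (fun j => g (j / 2))) := by
  obtain ⟨φ, hφ⟩ := h.out
  refine ⟨φ, fun X hX g hg => hφ X g (fun j => g (j / 2)) ⟨hX, fun i => ?_, hg⟩⟩
  show g ((2 * i + 1) / 2) = g i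
  congr 1; omega

/-- composition of definability -/
theorem FD.comp {P : Set ZFSet.{0} → (ℕ → ZFSet.{0}) → Prop} (h : FD FCx.base P)
    (x : ℕ → Γ → ZFSet.{0}) (hx : ∀ n, IsV C (x n)) : FD C (fun X g => P X (fun n => x n g)) := by
  obtain ⟨φ, hφ⟩ := h.base_out
  refine (FD.sat φ (C := C) (fun j => x (j / 2)) (fun n => hx (n / 2))).congr ?_
  intro X g v hv
  exact hφ X (C.good X g v hv) (fun n => x n g) (fun i => by
    obtain ⟨j, -, hj⟩ := (hx i).out
    exact (hj X g v hv).2)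

end Pool.Agent.Solovay
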