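import Pool.Agent.Solovay.HH

/-! # Finite sets of levels -/

set_option linter.unusedVariables false

namespace Pool.Agent.Solovay

open Function

open Classical in
/-- the index of a level -/
noncomputable def lvo (z : ZFSet.{0}) : Ordinal.{0} := if h : Lv z then h.choose else 0

theorem lvo_spec {z : ZFSet.{0}} (h : Lv z) : z = L (lvo z) := by
  unfold lvo; rw [dif_pos h]; exact h.choose_spec

theorem lvo_lt {y z : ZFSet.{0}} (hy : Lv y) (hz : Lv z) : lvo y < lvo z ↔ y ∈ z := by
  conv_rhs => rw [lvo_spec hy, lvo_spec hz]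
  rw [L_mem_L]

theorem mem_or_of_le {y z : ZFSet.{0}} (hy : Lv y) (hz : Lv z) (h : lvo y ≤ lvo z) :
    y ∈ z ∨ y = z := by
  rcases h.eq_or_lt with h | h
  · right; rw [lvo_spec hy, lvo_spec hz, h]
  · left; exact (lvo_lt hy hz).1 h

theorem exists_max {s : Set ZFSet.{0}} (hs : s.Finite) (hne : s.Nonempty) (hl : ∀ z ∈ s, Lv z) :
    ∃ z ∈ s, ∀ y ∈ s, y ∈ z ∨ y = z := by
  obtain ⟨z, hz, h⟩ := Set.exists_max_image s lvo hs hne
  exact ⟨z, hz, fun y hy => mem_or_of_le (hl y hy) (hl z hz) (h y hy)⟩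

theorem finLev_of {a : ZFSet.{0}} (hf : (El a).Finite) (hl : ∀ z ∈ a, Lv z) :
    ∃ n, FinLev n a := ⟨(El a).ncard, hl, by rw [hf.cast_ncard_eq]⟩

section

variable {γ : Ordinal.{0}} (h0 : 0 < γ) (hs : ∀ α < γ, Order.succ α < γ)

include h0 hs

/-- the elements of a finite set of levels belong to every elementary substructure containing it -/
theorem elem_fin_subset {N : Set ZFSet.{0}} (hN : Elem N (El (L γ))) (n : ℕ) :
    ∀ a ∈ N, FinLev n a → El a ⊆ N := by
  have hX := good_L h0 hs
  induction n with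
  | zero =>
    intro a _ ha z hz
    rw [FinLev.zero] at ha
    subst ha
    exact absurd hz (ZFSet.notMem_empty _)
  | succ n ih =>
    intro a haN ha
    have haX := hN.1 haN
    have hfin := ha.finite
    have hne : (El a).Nonempty := by
      rw [← Set.encard_ne_zero, ha.2]; simp
    obtain ⟨z, hz, hmax⟩ := exists_max hfin hne ha.1
    have hzX : z ∈ El (L γ) := hX.tr a haX z hz
    have hzN : z ∈ N := by
      refine hN.mem_unique hX (P := fun _ g y => y ∈ g 0 ∧ ∀ w, w ∈ g 0 → (w ∈ y ∨ w = y))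
        inferInstance (g := fun _ => a) (fun _ => haN) hzX ⟨hz, hmax⟩ ?_
      rintro y _ ⟨h1, h2⟩
      rcases h2 z hz with h | h
      · rcases hmax y h1 with h' | h'
        · exact absurd h (ZFSet.mem_asymm h')
        · exact h'
      · exact h.symm
    obtain ⟨a', ha'X, he⟩ := hX.finite_mem (s := El a \ {z}) (hfin.subset Set.sdiff_subset)
      (Set.sdiff_subset.trans (El_sub hX haX))
    have hins : a = insert z a' := by
      apply El_inj
      rw [El_insert, he, Set.insert_sdiff_singleton, Set.insert_eq_of_mem hz]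
    have hna : z ∉ a' := by
      intro h
      have : z ∈ El a' := h
      rw [he] at this
      exact this.2 rfl
    have ha'N : a' ∈ N := by
      refine hN.mem_unique hX (P := fun _ g y => g 0 = insert (g 1) y ∧ ¬ g 1 ∈ y)
        inferInstance (g := fun i => if i = 0 then a else z) (fun i => ?_) ha'X ?_ ?_
      · show (if i = 0 then a else z) ∈ N
        split_ifs
        · exact haN
        · exact hzN
      · simp only [if_true, Nat.one_ne_zero, if_false]; exact ⟨hins, hna⟩
      · rintro y _ ⟨h1, h2⟩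
        simp only [if_true, Nat.one_ne_zero, if_false] at h1 h2
        ext w
        have h3 : w ∈ (insert z y : ZFSet.{0}) ↔ w ∈ (insert z a' : ZFSet.{0}) := by
          rw [← h1, ← hins]
        rw [ZFSet.mem_insert_iff, ZFSet.mem_insert_iff] at h3
        constructor
        · intro hw
          rcases h3.1 (Or.inr hw) with rfl | h4
          · exact absurd hw h2
          · exact h4
        · intro hw
          rcases h3.2 (Or.inr hw) with rfl | h4
          · exact absurd hw hna
          · exact h4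
    have hfin' : FinLev n a' := by
      obtain ⟨m, hm⟩ := finLev_of (a := a') (by rw [he]; exact hfin.subset Set.sdiff_subset)
        (fun w hw => ha.1 w (by rw [hins]; exact ZFSet.mem_insert_of_mem _ hw))
      have h5 : FinLev (m + 1) a := (FinLev.succ hX haX).2
        ⟨z, hz, a', ha'X, hm, ha.1 z hz, hna, hins⟩
      have h6 : ((m + 1 : ℕ) : ℕ∞) = ((n + 1 : ℕ) : ℕ∞) := by rw [← h5.2, ← ha.2]
      have h7 : m + 1 = n + 1 := by exact_mod_cast h6
      have h8 : m = n := by omega
      rw [← h8]; exact hm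
    intro w hw
    have hw' : w ∈ a := hw
    rw [hins, ZFSet.mem_insert_iff] at hw'
    rcases hw' with rfl | hw'
    · exact hzN
    · exact ih a' ha'N hfin' hw'

/-- an elementary substructure containing all levels is everything -/
theorem elem_all {N : Set ZFSet.{0}} (hN : Elem N (El (L γ))) (hlev : ∀ α < γ, L α ∈ N) :
    El (L γ) ⊆ N := by
  have hX := good_L h0 hs
  have key : ∀ β < γ, ∀ x ∈ Def (L β), x ∈ N := by
    intro β
    induction β using WellFoundedLT.induction with
    | ind β ih =>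
      intro hβ x hx
      have hxX : x ∈ El (L γ) := mem_L.2 ⟨β, hβ, hx⟩
      rcases def_iff.1 hx with rfl | ⟨ψ, u, hu, hsub⟩
      · exact hN.mem_unique hX (P := fun _ _ y => y = ∅) inferInstance (g := fun _ => L β)
          (fun _ => hlev β hβ) hxX rfl (fun y _ h => h)
      · have huN : ∀ n < ψ.toFL.bd, u n ∈ N := by
          intro n hn
          obtain ⟨β', hβ', h⟩ := mem_L.1 (hu n hn)
          exact ih β' hβ' (hβ'.trans hβ) _ h
        let u' : ℕ → ZFSet.{0} := fun n => if n < ψ.toFL.bd then u n else L β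
        have hsub' : IsSub ψ (L β) u' x := (IsSub.congr fun n hn => by simp only [u', if_pos hn]).1 hsub
        have hFD : FD FCx.base.ext (fun _ p => IsSub ψ (p.1 0) (fun n => p.1 (n + 1)) p.2) :=
          FD.isSub ψ (C := FCx.base.ext) (Y := fun p => p.1 0) (u := fun n p => p.1 (n + 1))
            (y := fun p => p.2) inferInstance inferInstance (fun n _ => inferInstance)
        refine hN.mem_unique hX (P := fun _ g y => IsSub ψ (g 0) (fun n => g (n + 1)) y) hFD
          (g := fun n => if n = 0 then L β else u' (n - 1)) (fun n => ?_) hxX ?_ ?_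
        · show (if n = 0 then L β else u' (n - 1)) ∈ N
          split_ifs
          · exact hlev β hβ
          · show (if n - 1 < ψ.toFL.bd then u (n - 1) else L β) ∈ N
            split_ifs with h
            · exact huN _ h
            · exact hlev β hβ
        · simpa using hsub'
        · intro y _ hy
          have hy' : IsSub ψ (L β) u' y := by simpa using hy
          exact hy'.unique hsub'
  intro x hx
  obtain ⟨β, hβ, hx⟩ := mem_L.1 hx
  exact key β hβ x hx

/-- if every element of `Z` is a level, every element definable from `Z` is definable from a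
finite subset of `Z`. -/
theorem exists_fin {Z : Set ZFSet.{0}} (hZX : Z ⊆ El (L γ)) (hZl : ∀ z ∈ Z, Lv z)
    {x : ZFSet.{0}} (hx : x ∈ dcl (El (L γ)) Z) :
    ∃ a n, FinLev n a ∧ a ∈ El (L γ) ∧ El a ⊆ Z ∧ x ∈ dcl (El (L γ)) {a} := by
  have hX := good_L h0 hs
  obtain ⟨hxX, φ, w, hw, hφ⟩ := hx
  let D : Set ZFSet.{0} := w '' {n | n < φ.bd}
  have hD : D.Finite := (Set.finite_lt_nat _).image _
  have hDZ : D ⊆ Z := by rintro _ ⟨n, _, rfl⟩; exact hw n
  obtain ⟨a, haX, he⟩ := hX.finite_mem hD (hDZ.trans hZX)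
  obtain ⟨n, hn⟩ := finLev_of (a := a) (by rw [he]; exact hD) (fun z hz => by
    have : z ∈ El a := hz
    rw [he] at this
    exact hZl z (hDZ this))
  have hsing : ({a} : Set ZFSet.{0}) ⊆ El (L γ) := by
    rintro _ rfl; exact haX
  have hN := elem_dcl h0 hs hsing ⟨a, rfl⟩
  have haN : a ∈ dcl (El (L γ)) {a} := subset_dcl hX hsing rfl
  have hEN := elem_fin_subset h0 hs hN n a haN hn
  refine ⟨a, n, hn, haX, by rw [he]; exact hDZ, ?_⟩
  apply dcl_dcl hX hsing ⟨a, rfl⟩
  refine ⟨hxX, φ, fun n => if n < φ.bd then w n else a, fun n => ?_, fun y hy => ?_⟩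
  · show (if n < φ.bd then w n else a) ∈ _
    split_ifs with h
    · apply hEN
      rw [he]; exact ⟨n, h, rfl⟩
    · exact haN
  · rw [hφ y hy]
    refine φ.sat_congr _ _ _ fun i hi => ?_
    by_cases h : i = 0
    · subst h; simp
    · rw [update_of_ne h, update_of_ne h, if_pos hi]

theorem exists_fin_all {x : ZFSet.{0}} (hx : x ∈ El (L γ)) :
    ∃ a n, FinLev n a ∧ a ∈ El (L γ) ∧ x ∈ dcl (El (L γ)) {a} := by
  have hX := good_L h0 hs
  let Z : Set ZFSet.{0} := {z | ∃ α < γ, z = L α}
  have hZX : Z ⊆ El (L γ) := by rintro _ ⟨α, hα, rfl⟩; exact L_mem_of_lt hα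
  have hZne : Z.Nonempty := ⟨L 0, 0, h0, rfl⟩
  have hN := elem_dcl h0 hs hZX hZne
  have h1 := elem_all h0 hs hN (fun α hα => subset_dcl hX hZX ⟨α, hα, rfl⟩)
  obtain ⟨a, n, h2, h3, _, h4⟩ := exists_fin h0 hs hZX (fun z hz => by
    obtain ⟨α, _, rfl⟩ := hz; exact Lv_L _) (h1 hx)
  exact ⟨a, n, h2, h3, h4⟩

end

/-! ## The colexicographic ordering -/

theorem cx_trichotomy {a c : ZFSet.{0}} {n m : ℕ} (ha : FinLev n a) (hc : FinLev m c) :
    cx a c ∨ a = c ∨ cx c a := by
  by_cases he : a = c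
  · exact Or.inr (Or.inl he)
  let s : Set ZFSet.{0} := {z | ¬ (z ∈ a ↔ z ∈ c)}
  have hsf : s.Finite := (ha.finite.union hc.finite).subset (by
    intro z hz
    simp only [s, Set.mem_setOf_eq] at hz
    simp only [Set.mem_union, mem_El]
    tauto)
  have hne : s.Nonempty := by
    by_contra hcon
    rw [Set.not_nonempty_iff_eq_empty] at hcon
    apply he
    ext z
    by_contra hz
    have : z ∈ s := hz
    rw [hcon] at this
    exact this
  obtain ⟨z, hz, hmax⟩ := exists_max hsf hne (by
    intro z hz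
    simp only [s, Set.mem_setOf_eq] at hz
    by_cases h : z ∈ a
    · exact ha.1 z h
    · exact hc.1 z (by tauto))
  have key : ∀ y, z ∈ y → (y ∈ a ↔ y ∈ c) := by
    intro y hzy
    by_contra hy
    rcases hmax y hy with h | h
    · exact ZFSet.mem_asymm hzy h
    · rw [h] at hzy; exact ZFSet.mem_irrefl _ hzy
  simp only [s, Set.mem_setOf_eq] at hz
  by_cases h : z ∈ a
  · right; right
    exact ⟨z, h, by tauto, fun y hy hzy => (key y hzy).2 hy, fun y hy hzy => (key y hzy).1 hy⟩
  · left
    exact ⟨z, by tauto, h, fun y hy hzy => (key y hzy).1 hy, fun y hy hzy => (key y hzy).2 hy⟩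

theorem cx_asymm {a c : ZFSet.{0}} {n m : ℕ} (ha : FinLev n a) (hc : FinLev m c)
    (h : cx a c) : ¬ cx c a := by
  rintro ⟨z', hz'a, hz'c, h1', h2'⟩
  obtain ⟨z, hzc, hza, h1, h2⟩ := h
  rcases Lv_mem_or (hc.1 z hzc) (ha.1 z' hz'a) with h | h | h
  · exact hz'c (h1 z' hz'a h)
  · subst h; exact hz'c hzc
  · exact hza (h1' z hzc h)

theorem exists_cx_min {A : Set ZFSet.{0}} (hA : A.Nonempty) (hfin : ∀ a ∈ A, ∃ n, FinLev n a) :
    ∃ a ∈ A, ∀ c ∈ A, ¬ cx c a := by
  classical
  -- the characteristic functions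
  have hex : ∀ a : ZFSet.{0}, ∃ f : Ordinal.{0} →₀ ℕ, (∃ n, FinLev n a) →
      ∀ β, f β = if L β ∈ a then 1 else 0 := by
    intro a
    by_cases h : ∃ n, FinLev n a
    · obtain ⟨n, hn⟩ := h
      have hfs : {β : Ordinal.{0} | L β ∈ a}.Finite := by
        refine Set.Finite.of_finite_image (f := L) (hn.finite.subset ?_) ?_
        · rintro _ ⟨β, hβ, rfl⟩; exact hβ
        · intro β _ β' _ h; exact L_inj.1 h
      refine ⟨Finsupp.onFinset hfs.toFinset (fun β => if L β ∈ a then 1 else 0) ?_, fun _ β => rfl⟩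
      intro β hβ
      rw [Set.Finite.mem_toFinset]
      by_contra hcon
      exact hβ (if_neg hcon)
    · exact ⟨0, fun h' => absurd h' h⟩
  choose F hF using hex
  have hwf : WellFounded (Finsupp.Lex (fun α β : Ordinal.{0} => α > β) (fun m n : ℕ => m < n)) :=
    Finsupp.Lex.wellFounded' (fun n => Nat.not_lt_zero n) (wellFounded_lt) (wellFounded_lt)
  obtain ⟨f, ⟨a, haA, rfl⟩, hmin⟩ := hwf.has_min (F '' A) (hA.image F)
  refine ⟨a, haA, fun c hcA hca => hmin (F c) ⟨c, hcA, rfl⟩ ?_⟩
  obtain ⟨z, hza, hzc, h1, h2⟩ := hca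
  obtain ⟨n, hn⟩ := hfin a haA
  obtain ⟨β, rfl⟩ := hn.1 z hza
  refine ⟨β, fun δ hδ => ?_, ?_⟩
  · rw [hF a (hfin a haA), hF c (hfin c hcA)]
    have h3 : L β ∈ L δ := L_mem_of_lt hδ
    by_cases h : L δ ∈ a
    · rw [if_pos h, if_pos (h2 _ h h3)]
    · rw [if_neg h, if_neg (fun h' => h (h1 _ h' h3))]
  · rw [hF a (hfin a haA), hF c (hfin c hcA), if_pos hza, if_neg hzc]
    exact Nat.zero_lt_one

end Pool.Agent.Solovay
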