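import Pool.Agent.Solovay.Cond

/-! # The sets of hereditary cardinality at most `#M` -/

namespace Pool.Agent.Solovay

open Function Cardinal

/-- `A` is covered by an `M`-indexed family -/
def Cov (A : Set ZFSet.{0}) (M : Type) : Prop := ∃ s : M → ZFSet.{0}, ∀ y ∈ A, ∃ m, s m = y

theorem Cov.mono {A B : Set ZFSet.{0}} {M : Type} (h : Cov B M) (hAB : A ⊆ B) : Cov A M := by
  obtain ⟨s, hs⟩ := h
  exact ⟨s, fun y hy => hs y (hAB hy)⟩

theorem Cov.of_card {A : Set ZFSet.{0}} {K M : Type} (h : Cov A K) (hK : #K ≤ #M) : Cov A M := by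
  obtain ⟨s, hs⟩ := h
  obtain ⟨f⟩ := Cardinal.le_def K M |>.1 hK
  classical
  refine ⟨fun m => if h : ∃ k, f k = m then s h.choose else ∅, fun y hy => ?_⟩
  obtain ⟨k, rfl⟩ := hs y hy
  refine ⟨f k, ?_⟩
  have h : ∃ k', f k' = f k := ⟨k, rfl⟩
  show (if h : ∃ k', f k' = f k then s h.choose else ∅) = s k
  rw [dif_pos h]
  congr 1
  exact f.injective h.choose_spec

theorem Cov.image {A : Set ZFSet.{0}} {M : Type} (h : Cov A M) (f : ZFSet.{0} → ZFSet.{0}) :
    Cov (f '' A) M := by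
  obtain ⟨s, hs⟩ := h
  refine ⟨fun m => f (s m), ?_⟩
  rintro _ ⟨y, hy, rfl⟩
  obtain ⟨m, rfl⟩ := hs y hy
  exact ⟨m, rfl⟩

section inf

variable {M : Type} [Infinite M]

theorem card_FL_list : #(FL × List M) ≤ #M := by
  rw [Cardinal.mk_prod, Cardinal.lift_id, Cardinal.lift_id]
  refine Cardinal.mul_le_of_le (Cardinal.aleph0_le_mk M) ?_ ?_
  · exact (Cardinal.mk_le_aleph0 (α := FL)).trans (Cardinal.aleph0_le_mk M)
  · exact (Cardinal.mk_list_eq_mk M).le

theorem card_opt_prod : #(Option (M × M)) ≤ #M := by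
  rw [Cardinal.mk_option, Cardinal.mk_prod, Cardinal.lift_id]
  have h := Cardinal.aleph0_le_mk M
  rw [Cardinal.mul_eq_self h]
  exact (Cardinal.add_one_eq h).le

theorem Cov.of_FL_list {A : Set ZFSet.{0}} (h : Cov A (FL × List M)) : Cov A M :=
  h.of_card card_FL_list

/-- an assignment coded by a list -/
noncomputable def asg (s : M → ZFSet.{0}) (l : List M) : ℕ → ZFSet.{0} :=
  fun n => (l.map s).getD n ∅

omit [Infinite M] in
theorem exists_asg {s : M → ZFSet.{0}} {A : Set ZFSet.{0}} (hs : ∀ y ∈ A, ∃ m, s m = y)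
    {w : ℕ → ZFSet.{0}} {b : ℕ} (hw : ∀ n < b, w n ∈ A) :
    ∃ l : List M, ∀ n < b, asg s l n = w n := by
  have hex : ∀ i : Fin b, ∃ m, s m = w i := fun i => hs _ (hw i i.2)
  choose m hm using hex
  refine ⟨List.ofFn m, fun n hn => ?_⟩
  unfold asg
  rw [List.getD_eq_getElem?_getD, List.map_ofFn, List.getElem?_ofFn]
  simp [hn, hm]

theorem Cov.dcl {X Z : Set ZFSet.{0}} (h : Cov Z M) : Cov (dcl X Z) M := by
  obtain ⟨s, hs⟩ := h
  apply Cov.of_FL_list
  classical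
  refine ⟨fun p => if h : ∃ x, x ∈ X ∧ ∀ y ∈ X, (y = x ↔ p.1.Sat X (update (asg s p.2) 0 y)) then
    h.choose else ∅, ?_⟩
  rintro x ⟨hxX, φ, w, hw, hφ⟩
  obtain ⟨l, hl⟩ := exists_asg hs (b := φ.bd) (fun n _ => hw n)
  have key : ∀ y, φ.Sat X (update w 0 y) ↔ φ.Sat X (update (asg s l) 0 y) := by
    intro y
    refine φ.sat_congr X _ _ fun i hi => ?_
    by_cases h0 : i = 0
    · subst h0; simp
    · rw [update_of_ne h0, update_of_ne h0, hl i hi]
  have h : ∃ x, x ∈ X ∧ ∀ y ∈ X, (y = x ↔ φ.Sat X (update (asg s l) 0 y)) :=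
    ⟨x, hxX, fun y hy => (hφ y hy).trans (key y)⟩
  refine ⟨(φ, l), ?_⟩
  show (if h : ∃ x, x ∈ X ∧ ∀ y ∈ X, (y = x ↔ φ.Sat X (update (asg s l) 0 y)) then
    h.choose else ∅) = x
  rw [dif_pos h]
  have h1 := h.choose_spec
  exact ((hφ _ h1.1).2 ((key _).2 ((h1.2 _ h1.1).1 rfl)))

theorem Cov.def {Y : ZFSet.{0}} (h : Cov (El Y) M) : Cov (El (Def Y)) M := by
  obtain ⟨s, hs⟩ := h
  apply Cov.of_FL_list
  classical
  refine ⟨fun p => ZFSet.sep (fun a => p.1.Sat (El Y) (update (asg s p.2) 0 a)) Y, ?_⟩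
  intro y hy
  rcases def_iff.1 hy with rfl | ⟨ψ, u, hu, hsub⟩
  · refine ⟨(.neg (.eq 0 0), []), ?_⟩
    ext a
    simp [FL.Sat]
  · obtain ⟨l, hl⟩ := exists_asg hs (b := ψ.toFL.bd) hu
    refine ⟨(ψ.toFL, l), ?_⟩
    ext a
    rw [ZFSet.mem_sep]
    have key : ψ.toFL.Sat (El Y) (update (asg s l) 0 a) ↔ ψ.toFL.Sat (El Y) (update u 0 a) := by
      refine FL.sat_congr _ _ _ _ fun i hi => ?_
      by_cases h0 : i = 0
      · subst h0; simp
      · rw [update_of_ne h0, update_of_ne h0, hl i hi]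
    constructor
    · rintro ⟨ha, h⟩; exact (hsub.2 a ha).2 (key.1 h)
    · intro ha; exact ⟨hsub.1 ha, key.2 ((hsub.2 a (hsub.1 ha)).1 ha)⟩

omit [Infinite M] in
/-- the levels which are too big -/
theorem not_cov_big (M : Type) : ¬ Cov (El (L (Order.succ #M).ord)) M := by
  rintro ⟨s, hs⟩
  have hex : ∀ β : Set.Iio (Order.succ #M).ord, ∃ m, s m = L β.1 :=
    fun β => hs _ (L_mem_of_lt β.2)
  choose f hf using hex
  have hinj : Injective f := by
    intro a b hab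
    have h1 : L a.1 = L b.1 := by rw [← hf, ← hf, hab]
    exact Subtype.ext (L_inj.1 h1)
  have h1 := Cardinal.lift_mk_le_lift_mk_of_injective hinj
  rw [Cardinal.mk_Iio_ordinal, Cardinal.card_ord, Cardinal.lift_lift, Cardinal.lift_le] at h1
  exact absurd h1 (not_le.2 (Order.lt_succ _))

/-- the first level which is not covered by `M` -/
noncomputable def gam (M : Type) : Ordinal.{0} := sInf {α : Ordinal.{0} | ¬ Cov (El (L α)) M}

omit [Infinite M] in
theorem lt_gam (M : Type) {α : Ordinal.{0}} : α < gam M ↔ Cov (El (L α)) M := by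
  have hne : {α : Ordinal.{0} | ¬ Cov (El (L α)) M}.Nonempty := ⟨_, not_cov_big M⟩
  constructor
  · intro h
    by_contra hcon
    exact absurd (csInf_le' (s := {α : Ordinal.{0} | ¬ Cov (El (L α)) M}) hcon) (not_le.2 h)
  · intro h
    by_contra hcon
    have h1 : ¬ Cov (El (L (gam M))) M := csInf_mem hne
    exact h1 (h.mono fun x hx => L_mono (not_lt.1 hcon) hx)

omit [Infinite M] in
theorem gam_le (M : Type) : gam M ≤ (Order.succ #M).ord := by
  by_contra hcon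
  exact not_cov_big M ((lt_gam M).1 (not_le.1 hcon))

omit [Infinite M] in
theorem gam_pos (M : Type) : 0 < gam M := by
  rw [lt_gam, L_zero]
  exact ⟨fun _ => ∅, fun y hy => absurd hy (ZFSet.notMem_empty _)⟩

theorem gam_succ (M : Type) [Infinite M] : ∀ α < gam M, Order.succ α < gam M := by
  intro α hα
  rw [lt_gam] at hα ⊢
  rw [L_succ]
  exact hα.def

/-- sets whose transitive closure is covered by `M` -/
def HH (M : Type) : Set ZFSet.{0} := {x | ∃ t : ZFSet.{0}, t.IsTransitive ∧ x ∈ t ∧ Cov (El t) M}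

omit [Infinite M] in
theorem HH.trans {x y : ZFSet.{0}} (hx : x ∈ HH M) (hy : y ∈ x) : y ∈ HH M := by
  obtain ⟨t, ht, hxt, hc⟩ := hx
  exact ⟨t, ht, ht x hxt hy, hc⟩

theorem HH.of_cov {x : ZFSet.{0}} (hx : ∀ y ∈ x, y ∈ HH M) (hc : Cov (El x) M) : x ∈ HH M := by
  classical
  obtain ⟨s, hs⟩ := hc
  have hex : ∀ m, ∃ t : ZFSet.{0}, t.IsTransitive ∧ (s m ∈ x → s m ∈ t) ∧ Cov (El t) M := by
    intro m
    by_cases h : s m ∈ x
    · obtain ⟨t, ht, hxt, hc⟩ := hx _ h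
      exact ⟨t, ht, fun _ => hxt, hc⟩
    · exact ⟨∅, ZFSet.isTransitive_empty, fun h' => absurd h' h, ⟨fun _ => ∅, fun y hy =>
        absurd hy (ZFSet.notMem_empty _)⟩⟩
  choose T hT1 hT2 hT3 using hex
  choose r hr using hT3
  refine ⟨insert x (ZFSet.iUnion T), ?_, ZFSet.mem_insert _ _, ?_⟩
  · intro y hy z hz
    apply ZFSet.mem_insert_of_mem
    rcases ZFSet.mem_insert_iff.1 hy with rfl | hy
    · obtain ⟨m, rfl⟩ := hs z hz
      exact ZFSet.mem_iUnion.2 ⟨m, hT2 m hz⟩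
    · obtain ⟨m, hm⟩ := ZFSet.mem_iUnion.1 hy
      exact ZFSet.mem_iUnion.2 ⟨m, hT1 m y hm hz⟩
  · have : Cov (El (insert x (ZFSet.iUnion T))) (Option (M × M)) := by
      refine ⟨fun o => o.elim x (fun p => r p.1 p.2), fun y hy => ?_⟩
      rcases ZFSet.mem_insert_iff.1 hy with rfl | hy
      · exact ⟨none, rfl⟩
      · obtain ⟨m, hm⟩ := ZFSet.mem_iUnion.1 hy
        obtain ⟨m', hm'⟩ := hr m y hm
        exact ⟨some (m, m'), hm'⟩
    exact this.of_card card_opt_prod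

theorem HH.subset {x y : ZFSet.{0}} (hy : y ∈ HH M) (hxy : x ⊆ y) : x ∈ HH M := by
  refine HH.of_cov (fun z hz => HH.trans hy (hxy hz)) ?_
  obtain ⟨t, ht, hyt, hc⟩ := hy
  exact hc.mono fun z hz => ht y hyt (hxy hz)

theorem HH.sep {p : ZFSet.{0} → Prop} {y : ZFSet.{0}} (hy : y ∈ HH M) : ZFSet.sep p y ∈ HH M :=
  HH.subset hy (fun _ h => (ZFSet.mem_sep.1 h).1)

omit [Infinite M] in
theorem HH.cov {x : ZFSet.{0}} (hx : x ∈ HH M) : Cov (El x) M := by
  obtain ⟨t, ht, hyt, hc⟩ := hx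
  exact hc.mono fun z hz => ht x hyt hz

theorem good_HH (M : Type) [Infinite M] : Good (HH M) where
  tr x hx y hy := HH.trans hx hy
  em := HH.of_cov (fun y hy => absurd hy (ZFSet.notMem_empty _)) ⟨fun _ => ∅, fun y hy =>
        absurd hy (ZFSet.notMem_empty _)⟩
  ins x hx y hy := by
    refine HH.of_cov (fun z hz => ?_) ?_
    · rcases ZFSet.mem_insert_iff.1 hz with rfl | hz
      · exact hx
      · exact HH.trans hy hz
    · obtain ⟨s, hs⟩ := HH.cov hy
      have h1 : Cov (El (insert x y)) (Option (M × M)) := by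
        refine ⟨fun o => o.elim x (fun p => s p.1), fun z hz => ?_⟩
        rcases ZFSet.mem_insert_iff.1 hz with rfl | hz
        · exact ⟨none, rfl⟩
        · obtain ⟨m, hm⟩ := hs z hz
          exact ⟨some (m, m), hm⟩
      exact h1.of_card card_opt_prod

/-- the collapse is the identity on transitive subsets -/
theorem col_id {N : Set ZFSet.{0}} {t : ZFSet.{0}} (ht : t.IsTransitive) (htN : El t ⊆ N) :
    ∀ x, x ∈ t → col N x = x := by
  intro x
  induction x using ZFSet.inductionOn with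
  | h x ih =>
    intro hx
    ext z
    rw [mem_col]
    constructor
    · rintro ⟨y, hyx, _, rfl⟩
      rw [ih y hyx (ht x hx hyx)]; exact hyx
    · intro hz
      exact ⟨z, hz, htN (ht x hx hz), ih z hz (ht x hx hz)⟩

theorem HH_eq (hVL : VEqualsL) : HH M = El (L (gam M)) := by
  ext x
  constructor
  · rintro ⟨t, ht, hxt, hc⟩
    obtain ⟨θ, hθ⟩ := hVL t
    -- a limit level containing `t` as a subset
    let γ' : Ordinal.{0} := θ + Ordinal.omega0
    have hθ' : θ < γ' := lt_add_of_pos_right _ Ordinal.omega0_pos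
    have h0 : 0 < γ' := (zero_le (a := θ)).trans_lt hθ'
    have hlim : Order.IsSuccLimit γ' := Ordinal.isSuccLimit_add θ Ordinal.isSuccLimit_omega0
    have hs : ∀ α < γ', Order.succ α < γ' := fun α hα => hlim.succ_lt hα
    have htX : El t ⊆ El (L γ') := fun y hy => L_mono hθ'.le (L_trans_mem hθ hy)
    have hN := elem_dcl h0 hs htX ⟨x, hxt⟩
    have hX := good_L h0 hs
    have htN : El t ⊆ dcl (El (L γ')) (El t) := subset_dcl hX htX
    obtain ⟨δ, -, hδ0, hδs, himg, -⟩ := condensation h0 hs hN ⟨x, htN hxt⟩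
    have hcov : Cov (El (L δ)) M := by
      rw [← himg]
      exact (Cov.dcl hc).image _
    have hδγ : δ < gam M := (lt_gam M).2 hcov
    have hxδ : x ∈ El (L δ) := by
      rw [← himg]
      exact ⟨x, htN hxt, col_id ht htN x hxt⟩
    exact L_mono hδγ.le hxδ
  · intro hx
    obtain ⟨β, hβ, hx⟩ := mem_L.1 hx
    rw [← L_succ] at hx
    exact ⟨_, L_transitive _, hx, (lt_gam M).1 (gam_succ M β hβ)⟩

theorem HH_congr {M M' : Type} (h : #M = #M') : HH M = HH M' := by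
  have key : ∀ A, Cov A M ↔ Cov A M' := fun A => ⟨fun h' => h'.of_card h.le, fun h' => h'.of_card h.ge⟩
  unfold HH
  simp only [key]

/-- the level `L (gam M₀)` is in `HH M₁` if `#M₀ < #M₁` -/
theorem level_mem_HH (hVL : VEqualsL) {M₀ M₁ : Type} [Infinite M₀] [Infinite M₁]
    (h : #M₀ < #M₁) : L (gam M₀) ∈ HH M₁ := by
  have hM : (Order.succ #M₀) ≤ #M₁ := Order.succ_le_of_lt h
  refine HH.of_cov (fun y hy => ?_) ?_
  · have hy' : y ∈ HH M₀ := by rw [HH_eq hVL]; exact hy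
    obtain ⟨t, ht, hyt, hc⟩ := hy'
    exact ⟨t, ht, hyt, hc.of_card h.le⟩
  · have hcard : #(Set.Iio (gam M₀)) ≤ Cardinal.lift.{1} #M₁ := by
      rw [Cardinal.mk_Iio_ordinal, Cardinal.lift_le]
      refine (Ordinal.card_le_card (gam_le M₀)).trans ?_
      rw [Cardinal.card_ord]; exact hM
    rw [← Cardinal.lift_id'.{0, 1} #(Set.Iio (gam M₀)), Cardinal.lift_mk_le'] at hcard
    obtain ⟨f⟩ := hcard
    have hex : ∀ m₁ : M₁, ∃ s : M₀ → ZFSet.{0}, ∀ β : Set.Iio (gam M₀), f β = m₁ →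
        ∀ y ∈ El (L β.1), ∃ m, s m = y := by
      intro m₁
      by_cases h : ∃ β, f β = m₁
      · obtain ⟨β, hβ⟩ := h
        obtain ⟨s, hs⟩ := (lt_gam M₀).1 β.2
        refine ⟨s, fun β' hβ' => ?_⟩
        have : β' = β := f.injective (hβ'.trans hβ.symm)
        subst this; exact hs
      · exact ⟨fun _ => ∅, fun β hβ => absurd ⟨β, hβ⟩ h⟩
    choose s hs using hex
    have h1 : Cov (El (L (gam M₀))) (M₁ × M₀) := by
      refine ⟨fun p => s p.1 p.2, fun y hy => ?_⟩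
      obtain ⟨β, hβ, hy⟩ := mem_L.1 hy
      rw [← L_succ] at hy
      obtain ⟨m, hm⟩ := hs _ ⟨Order.succ β, gam_succ M₀ β hβ⟩ rfl y hy
      exact ⟨(_, m), hm⟩
    refine h1.of_card ?_
    rw [Cardinal.mk_prod, Cardinal.lift_id, Cardinal.lift_id]
    exact Cardinal.mul_le_of_le (Cardinal.aleph0_le_mk M₁) le_rfl h.le

end inf

end Pool.Agent.Solovay
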