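import Pool.Agent.Solovay.Henkin

/-! # Second-order definability of: all sentences of `R` hold in the Henkin sense -/

set_option linter.unusedVariables false

namespace Pool.Agent.Solovay

open Function Cardinal

universe u w

variable {τ : Vocab}

/-! ## Injectivity of the coding -/

theorem lcode_inj : ∀ {l m : List ℕ}, lcode l = lcode m → l = m
  | [], [], _ => rfl
  | [], _ :: _, h => by simp [lcode] at h
  | _ :: _, [], h => by simp [lcode] at h
  | a :: l, b :: m, h => by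
    simp only [lcode, Nat.add_right_cancel_iff, Nat.pair_eq_pair] at h
    rw [h.1, lcode_inj h.2]

theorem SOF.code_inj : Injective (SOF.code (τ := τ)) := by
  intro φ
  induction φ with
  | eq i j => intro ψ h; cases ψ <;> simp_all [SOF.code, Nat.pair_eq_pair]
  | rel R x =>
    intro ψ h
    cases ψ <;> simp [SOF.code, Nat.pair_eq_pair] at h
    obtain ⟨h1, h2⟩ := h
    have h1 := Fin.ext h1
    subst h1
    have := List.ofFn_injective (lcode_inj h2)
    rw [this]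
  | fn f x i =>
    intro ψ h
    cases ψ <;> simp [SOF.code, Nat.pair_eq_pair] at h
    obtain ⟨h1, h2, h3⟩ := h
    have h1 := Fin.ext h1
    subst h1
    have := List.ofFn_injective (lcode_inj h3)
    rw [this, h2]
  | app n j x =>
    intro ψ h
    cases ψ <;> simp [SOF.code, Nat.pair_eq_pair] at h
    obtain ⟨⟨h1, h2⟩, h3⟩ := h
    subst h1
    have := List.ofFn_injective (lcode_inj h3)
    rw [this, h2]
  | neg φ ih =>
    intro ψ h
    cases ψ <;> simp [SOF.code, Nat.pair_eq_pair] at h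
    rw [ih h]
  | and φ ψ ih1 ih2 =>
    intro χ h
    cases χ <;> simp [SOF.code, Nat.pair_eq_pair] at h
    rw [ih1 h.1, ih2 h.2]
  | all i φ ih =>
    intro χ h
    cases χ <;> simp [SOF.code, Nat.pair_eq_pair] at h
    rw [h.1, ih h.2]
  | allR n j φ ih =>
    intro χ h
    cases χ <;> simp [SOF.code, Nat.pair_eq_pair] at h
    obtain ⟨⟨h1, h2⟩, h3⟩ := h
    rw [h1, h2, ih h3]

/-! ## The internal satisfaction class -/

section sat

variable {M : Type}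

def TupOK (R : Rel3 M) (y0 : M) (Val1 : M → ℕ → M → Prop) (Tp : ℕ → M → M → Prop) : Prop :=
  ∀ l : ℕ, ∀ s : M, ∀ b : M, R b y0 y0 → (Tp l s b ↔ (l = 0 ∧ dec R b = ∅) ∨
    ∃ i : ℕ, ∃ l' : ℕ, ∃ p : ℕ, p = Nat.pair i l' ∧ l = p + 1 ∧ ∃ c : M, ∃ c' : M,
      Val1 s i c ∧ R c' y0 y0 ∧ Tp l' s c' ∧ dec R b = ZFSet.pair (dec R c) (dec R c'))

def SatOK (τ : Vocab) (R : Rel3 M) (y0 : M) (Val1 Val2 : M → ℕ → M → Prop) (Tp : ℕ → M → M → Prop)
    (Dom : ℕ → Prop) (St : ℕ → M → Prop) (d U : ZFSet.{0}) : Prop :=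
  (∀ c : ℕ, ∀ i : ℕ, ∀ j : ℕ, ∀ p : ℕ, Dom c → p = Nat.pair i j → c = Nat.pair 0 p →
    ∀ s : M, (St c s ↔ ∃ b : M, ∃ b' : M, Val1 s i b ∧ Val1 s j b' ∧ dec R b = dec R b')) ∧
  (∀ R' : Fin τ.nR, ∀ c : ℕ, ∀ l : ℕ, ∀ p : ℕ, Dom c → p = Nat.pair R' l → c = Nat.pair 1 p →
    ∀ s : M, (St c s ↔ ∃ b : M, Tp l s b ∧ R b y0 y0 ∧ ZFSet.pair (numS R') (dec R b) ∈ U)) ∧
  (∀ F : Fin τ.nF, ∀ c : ℕ, ∀ i : ℕ, ∀ l : ℕ, ∀ q : ℕ, ∀ p : ℕ, Dom c → q = Nat.pair i l →
    p = Nat.pair F q → c = Nat.pair 2 p →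
    ∀ s : M, (St c s ↔ ∃ b : M, ∃ b' : M, Tp l s b ∧ R b y0 y0 ∧ Val1 s i b' ∧
      ZFSet.pair (numS (τ.nR + F)) (ZFSet.pair (dec R b') (dec R b)) ∈ U)) ∧
  (∀ c : ℕ, ∀ q : ℕ, ∀ l : ℕ, ∀ p : ℕ, Dom c → p = Nat.pair q l → c = Nat.pair 3 p →
    ∀ s : M, (St c s ↔ ∃ b : M, ∃ b' : M, Tp l s b ∧ R b y0 y0 ∧ Val2 s q b' ∧
      dec R b ∈ dec R b')) ∧
  (∀ c : ℕ, ∀ c' : ℕ, Dom c → c = Nat.pair 4 c' → Dom c' ∧ ∀ s : M, (St c s ↔ ¬ St c' s)) ∧
  (∀ c : ℕ, ∀ c1 : ℕ, ∀ c2 : ℕ, ∀ p : ℕ, Dom c → p = Nat.pair c1 c2 → c = Nat.pair 5 p →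
    Dom c1 ∧ Dom c2 ∧ ∀ s : M, (St c s ↔ St c1 s ∧ St c2 s)) ∧
  (∀ c : ℕ, ∀ i : ℕ, ∀ c' : ℕ, ∀ p : ℕ, Dom c → p = Nat.pair i c' → c = Nat.pair 6 p →
    Dom c' ∧ ∀ s : M, (St c s ↔ ∀ s' : M, Vari Val1 i s s' → Same Val2 s s' →
      ∀ b : M, Val1 s' i b → dec R b ∈ d → St c' s')) ∧
  (∀ c : ℕ, ∀ q : ℕ, ∀ c' : ℕ, ∀ p : ℕ, Dom c → p = Nat.pair q c' → c = Nat.pair 7 p →
    Dom c' ∧ ∀ s : M, (St c s ↔ ∀ s' : M, Vari Val2 q s s' → Same Val1 s s' → St c' s'))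

variable {R : Rel3 M} {y0 : M} {Val1 Val2 : M → ℕ → M → Prop}
  (hR : WellFounded (fun x y => R x y y)) (hA : Asg2 R y0 Val1 Val2)
  (hgood : Good (El (dec R y0)))

/-- the values of the assignments -/
theorem exists_val (hA : Asg2 R y0 Val1 Val2) : ∃ val1 val2 : M → ℕ → M,
    (∀ s i b, Val1 s i b ↔ b = val1 s i) ∧ (∀ s i b, Val2 s i b ↔ b = val2 s i) ∧
    (∀ s i, R (val1 s i) y0 y0) ∧ (∀ s i, R (val2 s i) y0 y0) := by
  choose val1 h1 using fun s i => hA.1 s i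
  choose val2 h2 using fun s i => hA.2.1 s i
  exact ⟨val1, val2, fun s i b => ⟨fun h => (h1 s i).2.2 b h, fun h => by rw [h]; exact (h1 s i).1⟩,
    fun s i b => ⟨fun h => (h2 s i).2.2 b h, fun h => by rw [h]; exact (h2 s i).1⟩,
    fun s i => (h1 s i).2.1, fun s i => (h2 s i).2.1⟩

variable {val1 val2 : M → ℕ → M} (hv1 : ∀ s i b, Val1 s i b ↔ b = val1 s i)
  (hv2 : ∀ s i b, Val2 s i b ↔ b = val2 s i) (hc1 : ∀ s i, R (val1 s i) y0 y0)
  (hc2 : ∀ s i, R (val2 s i) y0 y0)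

/-- the two assignments given by `s` -/
noncomputable def as1 (R : Rel3 M) (val1 : M → ℕ → M) (s : M) : ℕ → ZFSet.{0} :=
  fun n => dec R (val1 s n)

noncomputable def as2 (R : Rel3 M) (val2 : M → ℕ → M) (s : M) : ℕ → ℕ → ZFSet.{0} :=
  fun n j => dec R (val2 s (Nat.pair n j))

include hR hc1 in
theorem as1_mem (s : M) (n : ℕ) : as1 R val1 s n ∈ dec R y0 :=
  (dec_mem hR).2 ⟨_, hc1 s n, rfl⟩

include hv1 in
theorem vari1 {i : ℕ} {s s' : M} (h : Vari Val1 i s s') :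
    as1 R val1 s' = update (as1 R val1 s) i (as1 R val1 s' i) := by
  funext j
  by_cases hj : j = i
  · subst hj; simp
  · rw [update_of_ne hj]
    have := (h j hj (val1 s j)).2 ((hv1 _ _ _).2 rfl)
    rw [hv1] at this
    show dec R (val1 s' j) = dec R (val1 s j)
    rw [this]

include hv1 in
theorem same1 {s s' : M} (h : Same Val1 s s') : as1 R val1 s' = as1 R val1 s := by
  funext j
  have := (h j (val1 s j)).2 ((hv1 _ _ _).2 rfl)
  rw [hv1] at this
  show dec R (val1 s' j) = dec R (val1 s j)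
  rw [this]

include hv2 in
theorem same2 {s s' : M} (h : Same Val2 s s') : as2 R val2 s' = as2 R val2 s := by
  funext n j
  have := (h (Nat.pair n j) (val2 s (Nat.pair n j))).2 ((hv2 _ _ _).2 rfl)
  rw [hv2] at this
  show dec R (val2 s' (Nat.pair n j)) = dec R (val2 s (Nat.pair n j))
  rw [this]

include hv2 in
theorem vari2 {n j : ℕ} {s s' : M} (h : Vari Val2 (Nat.pair n j) s s') :
    as2 R val2 s' = update (as2 R val2 s) n (update (as2 R val2 s n) j (as2 R val2 s' n j)) := by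
  funext n' j'
  have h3 : ¬ Nat.pair n' j' = Nat.pair n j → as2 R val2 s' n' j' = as2 R val2 s n' j' := by
    intro hne
    have := (h _ hne (val2 s (Nat.pair n' j'))).2 ((hv2 _ _ _).2 rfl)
    rw [hv2] at this
    show dec R (val2 s' (Nat.pair n' j')) = dec R (val2 s (Nat.pair n' j'))
    rw [this]
  by_cases hn : n' = n
  · subst hn
    rw [update_self]
    by_cases hj : j' = j
    · subst hj; rw [update_self]
    · rw [update_of_ne hj]
      exact h3 (fun h => hj (Nat.pair_eq_pair.1 h).2)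
  · rw [update_of_ne hn]
    exact h3 (fun h => hn (Nat.pair_eq_pair.1 h).1)

include hR hA hv1 hv2 in
theorem quant1 (d U : ZFSet.{0}) (hdY : ∀ a ∈ d, a ∈ dec R y0) (φ : SOF τ) (i : ℕ) (s : M) :
    HS (El (dec R y0)) d U (.all i φ) (as1 R val1 s) (as2 R val2 s) ↔
    ∀ s' : M, Vari Val1 i s s' → Same Val2 s s' → ∀ b : M, Val1 s' i b → dec R b ∈ d →
      HS (El (dec R y0)) d U φ (as1 R val1 s') (as2 R val2 s') := by
  simp only [HS]
  constructor
  · intro h s' h1 h2 b hb hbd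
    rw [vari1 hv1 h1, same2 hv2 h2]
    rw [hv1] at hb
    subst hb
    exact h _ hbd
  · intro h a ha
    obtain ⟨b, hb, rfl⟩ := (dec_mem hR).1 (hdY a ha)
    obtain ⟨s', h1, h2, h3⟩ := hA.2.2.1 s i b hb
    have := h s' h2 h3 b h1 ha
    rw [vari1 hv1 h2, same2 hv2 h3] at this
    rw [hv1] at h1
    have h4 : as1 R val1 s' i = dec R b := by rw [h1]; rfl
    rw [h4] at this
    exact this

include hR hA hv1 hv2 hc2 in
theorem quant2 (d U : ZFSet.{0}) (φ : SOF τ) (n j : ℕ) (s : M) :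
    HS (El (dec R y0)) d U (.allR n j φ) (as1 R val1 s) (as2 R val2 s) ↔
    ∀ s' : M, Vari Val2 (Nat.pair n j) s s' → Same Val1 s s' →
      HS (El (dec R y0)) d U φ (as1 R val1 s') (as2 R val2 s') := by
  simp only [HS]
  constructor
  · intro h s' h1 h2
    rw [vari2 hv2 h1, same1 hv1 h2]
    exact h _ ((dec_mem hR).2 ⟨_, hc2 s' _, rfl⟩)
  · intro h a ha
    obtain ⟨b, hb, rfl⟩ := (dec_mem hR).1 ha
    obtain ⟨s', h1, h2, h3⟩ := hA.2.2.2 s (Nat.pair n j) b hb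
    have := h s' h2 h3
    rw [vari2 hv2 h2, same1 hv1 h3] at this
    rw [hv2] at h1
    have h4 : as2 R val2 s' n j = dec R b := by rw [h1]; rfl
    rw [h4] at this
    exact this

include hR hv1 hc1 hgood in
theorem tupOK_iff {Tp : ℕ → M → M → Prop} (hT : TupOK R y0 Val1 Tp) (s : M) :
    ∀ (xs : List ℕ) (b : M), R b y0 y0 → (Tp (lcode xs) s b ↔
      dec R b = tup (xs.map (as1 R val1 s))) := by
  intro xs
  induction xs with
  | nil =>
    intro b hb
    rw [hT _ s b hb]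
    simp [lcode, tup]
  | cons i xs ih =>
    intro b hb
    rw [hT _ s b hb]
    constructor
    · rintro (⟨h, _⟩ | ⟨i', l', p, hp, hl, c, c', h1, h2, h3, h4⟩)
      · simp [lcode] at h
      · subst hp
        simp only [lcode, Nat.add_right_cancel_iff, Nat.pair_eq_pair] at hl
        obtain ⟨rfl, rfl⟩ := hl
        rw [ih c' h2] at h3
        rw [hv1] at h1
        subst h1
        rw [h4, h3]
        rfl
    · intro h
      right
      have hmem : tup (xs.map (as1 R val1 s)) ∈ dec R y0 := by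
        refine hgood.tup fun x hx => ?_
        obtain ⟨n, _, rfl⟩ := List.mem_map.1 hx
        exact as1_mem hR hc1 s n
      obtain ⟨c', hc', he⟩ := (dec_mem hR).1 hmem
      exact ⟨i, lcode xs, _, rfl, rfl, val1 s i, c', (hv1 _ _ _).2 rfl, hc', (ih c' hc').2 he, by
        rw [h, he]; rfl⟩

include hR hA hv1 hv2 hc1 hc2 hgood in
theorem satOK_iff {Tp : ℕ → M → M → Prop} {Dom : ℕ → Prop} {St : ℕ → M → Prop} {d U : ZFSet.{0}}
    (hd : d ∈ dec R y0) (hT : TupOK R y0 Val1 Tp)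
    (hS : SatOK τ R y0 Val1 Val2 Tp Dom St d U) (φ : SOF τ) :
    Dom φ.code → ∀ s, (St φ.code s ↔
      HS (El (dec R y0)) d U φ (as1 R val1 s) (as2 R val2 s)) := by
  have hdY : ∀ a ∈ d, a ∈ dec R y0 := fun a ha => hgood.tr d hd a ha
  have hcode : ∀ (s : M) (xs : List ℕ), ∃ b, R b y0 y0 ∧ dec R b = tup (xs.map (as1 R val1 s)) := by
    intro s xs
    have hmem : tup (xs.map (as1 R val1 s)) ∈ dec R y0 := by
      refine hgood.tup fun x hx => ?_
      obtain ⟨n, _, rfl⟩ := List.mem_map.1 hx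
      exact as1_mem hR hc1 s n
    obtain ⟨c', hc', he⟩ := (dec_mem hR).1 hmem
    exact ⟨c', hc', he⟩
  have hT' := tupOK_iff hR hgood hv1 hc1 hT
  induction φ with
  | eq i j =>
    intro hD s
    rw [hS.1 _ i j _ hD rfl rfl]
    simp only [hv1, HS]
    constructor
    · rintro ⟨b, b', rfl, rfl, h⟩; exact h
    · intro h; exact ⟨_, _, rfl, rfl, h⟩
  | rel R' x =>
    intro hD s
    rw [hS.2.1 R' _ _ _ hD rfl rfl]
    simp only [HS]
    have e : (List.ofFn fun k => as1 R val1 s (x k)) = (List.ofFn x).map (as1 R val1 s) := by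
      rw [List.map_ofFn]; rfl
    rw [e]
    constructor
    · rintro ⟨b, h1, h2, h3⟩
      rw [hT' s _ b h2] at h1
      rw [h1] at h3; exact h3
    · intro h
      obtain ⟨b, hb, he⟩ := hcode s (List.ofFn x)
      exact ⟨b, (hT' s _ b hb).2 he, hb, by rw [he]; exact h⟩
  | fn F x i =>
    intro hD s
    rw [hS.2.2.1 F _ i _ _ _ hD rfl rfl rfl]
    simp only [HS]
    have e : (List.ofFn fun k => as1 R val1 s (x k)) = (List.ofFn x).map (as1 R val1 s) := by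
      rw [List.map_ofFn]; rfl
    rw [e]
    constructor
    · rintro ⟨b, b', h1, h2, h3, h4⟩
      rw [hT' s _ b h2] at h1
      rw [hv1] at h3
      subst h3
      rw [h1] at h4; exact h4
    · intro h
      obtain ⟨b, hb, he⟩ := hcode s (List.ofFn x)
      exact ⟨b, val1 s i, (hT' s _ b hb).2 he, hb, (hv1 _ _ _).2 rfl, by rw [he]; exact h⟩
  | app n j x =>
    intro hD s
    rw [hS.2.2.2.1 _ _ _ _ hD rfl rfl]
    simp only [HS]
    have e : (List.ofFn fun k => as1 R val1 s (x k)) = (List.ofFn x).map (as1 R val1 s) := by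
      rw [List.map_ofFn]; rfl
    rw [e]
    constructor
    · rintro ⟨b, b', h1, h2, h3, h4⟩
      rw [hT' s _ b h2] at h1
      rw [hv2] at h3
      subst h3
      rw [h1] at h4; exact h4
    · intro h
      obtain ⟨b, hb, he⟩ := hcode s (List.ofFn x)
      exact ⟨b, val2 s (Nat.pair n j), (hT' s _ b hb).2 he, hb, (hv2 _ _ _).2 rfl, by
        rw [he]; exact h⟩
  | neg φ ih =>
    intro hD s
    obtain ⟨h1, h2⟩ := hS.2.2.2.2.1 _ _ hD rfl
    rw [h2, ih h1]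
    rfl
  | and φ ψ ih1 ih2 =>
    intro hD s
    obtain ⟨h1, h1', h2⟩ := hS.2.2.2.2.2.1 _ _ _ _ hD rfl rfl
    rw [h2, ih1 h1, ih2 h1']
    rfl
  | all i φ ih =>
    intro hD s
    obtain ⟨h1, h2⟩ := hS.2.2.2.2.2.2.1 _ _ _ _ hD rfl rfl
    rw [h2, quant1 hR hA hv1 hv2 d U hdY]
    exact forall_congr' fun s' => by rw [ih h1]
  | allR n j φ ih =>
    intro hD s
    obtain ⟨h1, h2⟩ := hS.2.2.2.2.2.2.2 _ _ _ _ hD rfl rfl
    rw [h2, quant2 hR hA hv1 hv2 hc2 d U]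
    exact forall_congr' fun s' => by rw [ih h1]

include hR hA hv1 hv2 hc1 hc2 hgood in
theorem exists_sat {d U : ZFSet.{0}} (hd : d ∈ dec R y0) :
    ∃ (Tp : ℕ → M → M → Prop) (Dom : ℕ → Prop) (St : ℕ → M → Prop),
      TupOK R y0 Val1 Tp ∧ SatOK τ R y0 Val1 Val2 Tp Dom St d U ∧
      ∀ φ : SOF τ, Dom φ.code ∧ ∀ s, (St φ.code s ↔
        HS (El (dec R y0)) d U φ (as1 R val1 s) (as2 R val2 s)) := by
  have hdY : ∀ a ∈ d, a ∈ dec R y0 := fun a ha => hgood.tr d hd a ha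
  have hcode : ∀ (s : M) (xs : List ℕ), ∃ b, R b y0 y0 ∧ dec R b = tup (xs.map (as1 R val1 s)) := by
    intro s xs
    have hmem : tup (xs.map (as1 R val1 s)) ∈ dec R y0 := by
      refine hgood.tup fun x hx => ?_
      obtain ⟨n, _, rfl⟩ := List.mem_map.1 hx
      exact as1_mem hR hc1 s n
    obtain ⟨c', hc', he⟩ := (dec_mem hR).1 hmem
    exact ⟨c', hc', he⟩
  let Tp : ℕ → M → M → Prop := fun l s b => ∃ xs, lcode xs = l ∧ dec R b = tup (xs.map (as1 R val1 s))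
  let Dom : ℕ → Prop := fun c => ∃ φ : SOF τ, φ.code = c
  let St : ℕ → M → Prop := fun c s => ∃ φ : SOF τ, φ.code = c ∧
    HS (El (dec R y0)) d U φ (as1 R val1 s) (as2 R val2 s)
  have hTp : ∀ xs s b, Tp (lcode xs) s b ↔ dec R b = tup (xs.map (as1 R val1 s)) := by
    intro xs s b
    constructor
    · rintro ⟨xs', h, h'⟩; rw [lcode_inj h] at h'; exact h'
    · intro h; exact ⟨xs, rfl, h⟩
  have hSt : ∀ (φ : SOF τ) s, St φ.code s ↔
      HS (El (dec R y0)) d U φ (as1 R val1 s) (as2 R val2 s) := by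
    intro φ s
    constructor
    · rintro ⟨φ', h, h'⟩; rw [SOF.code_inj h] at h'; exact h'
    · intro h; exact ⟨φ, rfl, h⟩
  refine ⟨Tp, Dom, St, ?_, ?_, fun φ => ⟨⟨φ, rfl⟩, hSt φ⟩⟩
  · intro l s b hb
    constructor
    · rintro ⟨xs, rfl, h⟩
      cases xs with
      | nil => exact Or.inl ⟨rfl, h⟩
      | cons i xs =>
        obtain ⟨c', hc', he⟩ := hcode s xs
        exact Or.inr ⟨i, lcode xs, _, rfl, rfl, val1 s i, c', (hv1 _ _ _).2 rfl, hc',
          (hTp _ _ _).2 he, by rw [h, he]; rfl⟩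
    · rintro (⟨rfl, h⟩ | ⟨i, l', p, rfl, rfl, c, c', h1, h2, ⟨xs, rfl, h3⟩, h4⟩)
      · exact ⟨[], rfl, h⟩
      · rw [hv1] at h1
        subst h1
        exact ⟨i :: xs, rfl, by rw [h4, h3]; rfl⟩
  · refine ⟨?_, ?_, ?_, ?_, ?_, ?_, ?_, ?_⟩
    · rintro c i j p ⟨φ, rfl⟩ rfl hc s
      have hφ : φ = .eq i j := SOF.code_inj (by rw [hc]; rfl)
      subst hφ
      rw [hSt]
      simp only [hv1, HS]
      constructor
      · intro h; exact ⟨_, _, rfl, rfl, h⟩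
      · rintro ⟨b, b', rfl, rfl, h⟩; exact h
    · rintro R' c l p ⟨φ, rfl⟩ rfl hc s
      have hφ : ∃ x, φ = .rel R' x ∧ l = lcode (List.ofFn x) := by
        cases φ <;> simp [SOF.code, Nat.pair_eq_pair] at hc
        obtain ⟨h1, h2⟩ := hc
        have h1 := Fin.ext h1
        subst h1
        exact ⟨_, rfl, h2.symm⟩
      obtain ⟨x, rfl, rfl⟩ := hφ
      rw [hSt]
      simp only [hTp, HS]
      have e : (List.ofFn fun k => as1 R val1 s (x k)) = (List.ofFn x).map (as1 R val1 s) := by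
        rw [List.map_ofFn]; rfl
      rw [e]
      constructor
      · intro h
        obtain ⟨b, hb, he⟩ := hcode s (List.ofFn x)
        exact ⟨b, he, hb, by rw [he]; exact h⟩
      · rintro ⟨b, h1, h2, h3⟩
        rw [h1] at h3; exact h3
    · rintro F c i l q p ⟨φ, rfl⟩ rfl rfl hc s
      have hφ : ∃ x, φ = .fn F x i ∧ l = lcode (List.ofFn x) := by
        cases φ <;> simp [SOF.code, Nat.pair_eq_pair] at hc
        obtain ⟨h1, h2, h3⟩ := hc
        have h1 := Fin.ext h1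
        subst h1
        exact ⟨_, by rw [h2], h3.symm⟩
      obtain ⟨x, rfl, rfl⟩ := hφ
      rw [hSt]
      simp only [hTp, HS, hv1]
      have e : (List.ofFn fun k => as1 R val1 s (x k)) = (List.ofFn x).map (as1 R val1 s) := by
        rw [List.map_ofFn]; rfl
      rw [e]
      constructor
      · intro h
        obtain ⟨b, hb, he⟩ := hcode s (List.ofFn x)
        exact ⟨b, _, he, hb, rfl, by rw [he]; exact h⟩
      · rintro ⟨b, _, h1, h2, rfl, h3⟩
        rw [h1] at h3; exact h3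
    · rintro c q l p ⟨φ, rfl⟩ rfl hc s
      have hφ : ∃ n j x, φ = .app n j x ∧ q = Nat.pair n j ∧ l = lcode (List.ofFn x) := by
        cases φ <;> simp [SOF.code, Nat.pair_eq_pair] at hc
        obtain ⟨h1, h2⟩ := hc
        exact ⟨_, _, _, rfl, h1.symm, h2.symm⟩
      obtain ⟨n, j, x, rfl, rfl, rfl⟩ := hφ
      rw [hSt]
      simp only [hTp, HS, hv2]
      have e : (List.ofFn fun k => as1 R val1 s (x k)) = (List.ofFn x).map (as1 R val1 s) := by
        rw [List.map_ofFn]; rfl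
      rw [e]
      constructor
      · intro h
        obtain ⟨b, hb, he⟩ := hcode s (List.ofFn x)
        exact ⟨b, _, he, hb, rfl, by rw [he]; exact h⟩
      · rintro ⟨b, _, h1, h2, rfl, h3⟩
        rw [h1] at h3; exact h3
    · rintro c c' ⟨φ, rfl⟩ hc
      have hφ : ∃ ψ, φ = .neg ψ ∧ c' = ψ.code := by
        cases φ <;> simp [SOF.code, Nat.pair_eq_pair] at hc
        exact ⟨_, rfl, hc.symm⟩
      obtain ⟨ψ, rfl, rfl⟩ := hφ
      exact ⟨⟨ψ, rfl⟩, fun s => by rw [hSt, hSt]; rfl⟩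
    · rintro c c1 c2 p ⟨φ, rfl⟩ rfl hc
      have hφ : ∃ ψ χ, φ = .and ψ χ ∧ c1 = ψ.code ∧ c2 = χ.code := by
        cases φ <;> simp [SOF.code, Nat.pair_eq_pair] at hc
        exact ⟨_, _, rfl, hc.1.symm, hc.2.symm⟩
      obtain ⟨ψ, χ, rfl, rfl, rfl⟩ := hφ
      exact ⟨⟨ψ, rfl⟩, ⟨χ, rfl⟩, fun s => by rw [hSt, hSt, hSt]; rfl⟩
    · rintro c i c' p ⟨φ, rfl⟩ rfl hc
      have hφ : ∃ ψ, φ = .all i ψ ∧ c' = ψ.code := by
        cases φ <;> simp [SOF.code, Nat.pair_eq_pair] at hc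
        exact ⟨_, by rw [hc.1], hc.2.symm⟩
      obtain ⟨ψ, rfl, rfl⟩ := hφ
      refine ⟨⟨ψ, rfl⟩, fun s => ?_⟩
      rw [hSt, quant1 hR hA hv1 hv2 d U hdY]
      exact forall_congr' fun s' => by rw [hSt]
    · rintro c q c' p ⟨φ, rfl⟩ rfl hc
      have hφ : ∃ n j ψ, φ = .allR n j ψ ∧ q = Nat.pair n j ∧ c' = ψ.code := by
        cases φ <;> simp [SOF.code, Nat.pair_eq_pair] at hc
        exact ⟨_, _, _, rfl, hc.1.symm, hc.2.symm⟩
      obtain ⟨n, j, ψ, rfl, rfl, rfl⟩ := hφ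
      refine ⟨⟨ψ, rfl⟩, fun s => ?_⟩
      rw [hSt, quant2 hR hA hv1 hv2 hc2 d U]
      exact forall_congr' fun s' => by rw [hSt]

end sat

/-! ## Definability -/

theorem FD.goodEl {Γ : Type 1} {C : FCx Γ} {Y : Γ → ZFSet.{0}} [hY : IsV C Y] :
    FD C (fun _ g => Good (El (Y g))) :=
  FD.congr (P := fun X g => (∀ x, x ∈ Y g → ∀ y, y ∈ x → y ∈ Y g) ∧ (∃ x, x ∈ Y g ∧ x = ∅) ∧
    (∀ x, x ∈ Y g → ∀ y, y ∈ Y g → ∃ z, z ∈ Y g ∧ z = insert x y)) inferInstance
    (fun X g v _ => by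
      constructor
      · intro h
        exact ⟨h.tr, ⟨∅, h.em, rfl⟩, fun x hx y hy => ⟨_, h.ins x hx y hy, rfl⟩⟩
      · rintro ⟨h1, ⟨x, h2, rfl⟩, h3⟩
        refine ⟨h1, h2, fun x hx y hy => ?_⟩
        obtain ⟨z, hz, rfl⟩ := h3 x hx y hy
        exact hz)

variable {Γ : NStr τ → Type 1} {C : SCx τ Γ}

instance SD.eqPairS {x y z : ∀ B, Γ B → ZFSet.{0}} [hx : IsS C x] [hy : IsS C y] [hz : IsS C z] :
    SD C (fun B g => z B g = ZFSet.pair (x B g) (y B g)) :=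
  FD.toSD (P := fun _ g => g 0 = ZFSet.pair (g 1) (g 2)) inferInstance
    (C := C) (fun n => match n with
      | 0 => z
      | 1 => x
      | _ => y) (fun n => match n with
      | 0 => hz
      | 1 => hx
      | (n + 2) => hy)

instance SD.goodEl {Y : ∀ B, Γ B → ZFSet.{0}} [hY : IsS C Y] : SD C (fun B g => Good (El (Y B g))) :=
  FD.toSD (P := fun _ g => Good (El (g 0))) FD.goodEl (C := C) (fun _ => Y) (fun _ => hY)

instance SD.eqNumS (n : ℕ) {x : ∀ B, Γ B → ZFSet.{0}} [hx : IsS C x] :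
    SD C (fun B g => x B g = numS n) :=
  FD.toSD (P := fun _ g => g 0 = numS n) inferInstance (C := C) (fun _ => x) (fun _ => hx)

instance SD.pairNumMem (n : ℕ) {x U : ∀ B, Γ B → ZFSet.{0}} [hx : IsS C x] [hU : IsS C U] :
    SD C (fun B g => ZFSet.pair (numS n) (x B g) ∈ U B g) :=
  SD.congr (P := fun B g => ∃ z : ZFSet.{0}, z ∈ U B g ∧ ∃ a : ZFSet.{0}, a ∈ HH B.M ∧
    (a = numS n ∧ z = ZFSet.pair a (x B g))) inferInstance
    (fun B g v V _ => by
      constructor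
      · intro h; exact ⟨_, h, _, (good_HH B.M).numS n, rfl, rfl⟩
      · rintro ⟨z, h, a, _, rfl, rfl⟩; exact h)

instance SD.pairPairNumMem (n : ℕ) {x y U : ∀ B, Γ B → ZFSet.{0}} [hx : IsS C x] [hy : IsS C y]
    [hU : IsS C U] :
    SD C (fun B g => ZFSet.pair (numS n) (ZFSet.pair (x B g) (y B g)) ∈ U B g) :=
  SD.congr (P := fun B g => ∃ z : ZFSet.{0}, z ∈ HH B.M ∧ (z = ZFSet.pair (x B g) (y B g) ∧
    ZFSet.pair (numS n) z ∈ U B g)) inferInstance
    (fun B g v V hv => by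
      constructor
      · intro h; exact ⟨_, (good_HH B.M).pair (hx.mem_HH hv) (hy.mem_HH hv), rfl, h⟩
      · rintro ⟨z, _, rfl, h⟩; exact h)

instance SD.eqPairC (n : ℕ) {x y : ∀ B, Γ B → ℕ} [hx : IsN C x] [hy : IsN C y] :
    SD C (fun B g => y B g = Nat.pair n (x B g)) :=
  SD.congr (P := fun B g => ∃ t : ℕ, t = n ∧ y B g = Nat.pair t (x B g)) inferInstance
    (fun B g v V _ => by
      constructor
      · intro h; exact ⟨_, rfl, h⟩
      · rintro ⟨_, rfl, h⟩; exact h)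

/-- all sentences of `R` hold, in the Henkin sense over `Y`, in the structure coded by `(d, U)` -/
def HSR (R : Set (SOF τ)) (Y d U : ZFSet.{0}) : Prop := ∀ φ ∈ R, HSs (El Y) d U φ

section inst

set_option synthInstance.maxSize 100000

variable {E T D S V1 V2 : ∀ B : NStr τ, Γ B → Rel3 B.M} {y0 : ∀ B : NStr τ, Γ B → B.M}
  [IsR C E] [IsR C T] [IsR C D] [IsR C S] [IsR C V1] [IsR C V2] [IsE C y0]

instance SD.vari {i : ∀ B, Γ B → ℕ} {s s' : ∀ B : NStr τ, Γ B → B.M} [IsN C i] [IsE C s]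
    [IsE C s'] : SD C (fun B g => Vari (fun a n b => V1 B g a (B.ν n) b) (i B g) (s B g) (s' B g)) := by
  unfold Vari; infer_instance

instance SD.same {s s' : ∀ B : NStr τ, Γ B → B.M} [IsE C s]
    [IsE C s'] : SD C (fun B g => Same (fun a n b => V1 B g a (B.ν n) b) (s B g) (s' B g)) := by
  unfold Same; infer_instance

instance SD.asg2 : SD C (fun B g => Asg2 (E B g) (y0 B g) (fun s i b => V1 B g s (B.ν i) b)
    (fun s i b => V2 B g s (B.ν i) b)) := by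
  unfold Asg2; infer_instance

instance SD.tupOK : SD C (fun B g => TupOK (E B g) (y0 B g) (fun s i b => V1 B g s (B.ν i) b)
    (fun l s b => T B g (B.ν l) s b)) := by
  unfold TupOK; infer_instance

instance SD.satOK {d U : ∀ B, Γ B → ZFSet.{0}} [IsS C d] [IsS C U] :
    SD C (fun B g => SatOK τ (E B g) (y0 B g) (fun s i b => V1 B g s (B.ν i) b)
    (fun s i b => V2 B g s (B.ν i) b) (fun l s b => T B g (B.ν l) s b)
    (fun c => D B g (B.ν c) (B.ν c) (B.ν c)) (fun c s => S B g (B.ν c) s s) (d B g) (U B g)) := by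
  unfold SatOK
  refine @SD.and _ _ _ _ _ ?_ (@SD.and _ _ _ _ _ ?_ (@SD.and _ _ _ _ _ ?_ (@SD.and _ _ _ _ _ ?_
    (@SD.and _ _ _ _ _ ?_ (@SD.and _ _ _ _ _ ?_ (@SD.and _ _ _ _ _ ?_ ?_))))))
  · infer_instance
  · refine SD.finall fun R' => ?_
    infer_instance
  · refine SD.finall fun F => ?_
    infer_instance
  · infer_instance
  · infer_instance
  · infer_instance
  · infer_instance
  · infer_instance

end inst

set_option synthInstance.maxSize 100000 in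
theorem SD.hsr {R : Set (SOF τ)} (hR : RecursiveSet R) (hRs : ∀ φ ∈ R, φ.IsSentence)
    {Y d U : ∀ B, Γ B → ZFSet.{0}} [hY : IsS C Y] [hd : IsS C d] [hU : IsS C U] :
    SD C (fun B g => Good (El (Y B g)) ∧ d B g ∈ Y B g ∧ HSR R (Y B g) (d B g) (U B g)) := by
  refine SD.congr (P := fun B g => Good (El (Y B g)) ∧ d B g ∈ Y B g ∧ ∃ E : Rel3 B.M,
    ∃ y0 : B.M, ∃ Val1 : B.M → ℕ → B.M → Prop, ∃ Val2 : B.M → ℕ → B.M → Prop,
    ∃ Tp : ℕ → B.M → B.M → Prop, ∃ Dom : ℕ → Prop, ∃ St : ℕ → B.M → Prop,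
    dec E y0 = Y B g ∧ WellFounded (fun x y => E x y y) ∧ Asg2 E y0 Val1 Val2 ∧
    TupOK E y0 Val1 Tp ∧ SatOK τ E y0 Val1 Val2 Tp Dom St (d B g) (U B g) ∧
    ∀ c : ℕ, c ∈ SOF.code '' R → Dom c ∧ ∀ s : B.M, St c s) ?_ ?_
  · have h1 : SD ((((((((C.ext kR).ext kE).ext kR).ext kR).ext kR).ext kR).ext kR).ext kN)
        (fun B p => p.2 ∈ SOF.code '' R) :=
      SD.computable (C := ((((((((C.ext kR).ext kE).ext kR).ext kR).ext kR).ext kR).ext kR).ext kN))
        hR (x := fun B p => p.2)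
    infer_instance
  · intro B g v V hv
    refine and_congr_right fun hgood => and_congr_right fun hdY => ?_
    constructor
    · intro h
      obtain ⟨E, y0, hE, he⟩ := exists_dec (hY.mem_HH hv)
      rw [← he] at hgood hdY
      obtain ⟨b0, hb0, -⟩ := (dec_mem hE).1 hgood.em
      obtain ⟨Val1, Val2, hA⟩ := exists_asg2 hb0
      obtain ⟨val1, val2, hv1, hv2, hc1, hc2⟩ := exists_val hA
      obtain ⟨Tp, Dom, St, h1, h2, h3⟩ :=
        exists_sat (τ := τ) (U := U B g) hE hA hgood hv1 hv2 hc1 hc2 hdY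
      refine ⟨E, y0, Val1, Val2, Tp, Dom, St, he, hE, hA, h1, h2, ?_⟩
      rintro _ ⟨φ, hφ, rfl⟩
      refine ⟨(h3 φ).1, fun s => ?_⟩
      rw [(h3 φ).2]
      have h4 := h φ hφ
      rw [← he] at h4
      refine (HS.congr _ _ _ _ _ _ _ _ (fun i hi => ?_) (fun n j hnj => ?_)).1 h4
      · rw [(hRs φ hφ).1] at hi; exact absurd hi (Set.notMem_empty _)
      · rw [(hRs φ hφ).2] at hnj; exact absurd hnj (Set.notMem_empty _)
    · rintro ⟨E, y0, Val1, Val2, Tp, Dom, St, he, hE, hA, h1, h2, h3⟩ φ hφ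
      rw [← he] at hgood hdY ⊢
      obtain ⟨val1, val2, hv1, hv2, hc1, hc2⟩ := exists_val hA
      obtain ⟨h4, h5⟩ := h3 _ ⟨φ, hφ, rfl⟩
      obtain ⟨s⟩ := B.S.ne
      have h6 := (satOK_iff hE hA hgood hv1 hv2 hc1 hc2 hdY h1 h2 φ h4 s).1 (h5 s)
      refine (HS.congr _ _ _ _ _ _ _ _ (fun i hi => ?_) (fun n j hnj => ?_)).1 h6
      · rw [(hRs φ hφ).1] at hi; exact absurd hi (Set.notMem_empty _)
      · rw [(hRs φ hφ).2] at hnj; exact absurd hnj (Set.notMem_empty _)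

end Pool.Agent.Solovay
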