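import Pool.Agent.Solovay.DefSD

/-! # Structures coded by sets, and Henkin semantics -/

set_option linter.unusedVariables false

namespace Pool.Agent.Solovay

open Function Cardinal

universe u w

variable {τ : Vocab}

/-- Henkin satisfaction: domain `d`, the relations and graphs of functions are coded in `U`, the
relation variables range over the elements of `X`. -/
def HS (X : Set ZFSet.{0}) (d U : ZFSet.{0}) :
    SOF τ → (ℕ → ZFSet.{0}) → (ℕ → ℕ → ZFSet.{0}) → Prop
  | .eq i j, v, _ => v i = v j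
  | .rel R x, v, _ => tup (numS R :: List.ofFn fun k => v (x k)) ∈ U
  | .fn f x i, v, _ => tup (numS (τ.nR + f) :: v i :: List.ofFn fun k => v (x k)) ∈ U
  | .app n j x, v, V => tup (List.ofFn fun k => v (x k)) ∈ V n j
  | .neg φ, v, V => ¬ HS X d U φ v V
  | .and φ ψ, v, V => HS X d U φ v V ∧ HS X d U ψ v V
  | .all i φ, v, V => ∀ a ∈ d, HS X d U φ (update v i a) V
  | .allR n j φ, v, V => ∀ z ∈ X, HS X d U φ v (update V n (update (V n) j z))

theorem HS.congr (X : Set ZFSet.{0}) (d U : ZFSet.{0}) (φ : SOF τ) :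
    ∀ v v' V V', (∀ i ∈ φ.freeE, v i = v' i) → (∀ n j, (n, j) ∈ φ.freeR → V n j = V' n j) →
      (HS X d U φ v V ↔ HS X d U φ v' V') := by
  induction φ with
  | eq i j =>
    intro v v' V V' h1 _
    simp only [HS]; rw [h1 i (by simp [SOF.freeE]), h1 j (by simp [SOF.freeE])]
  | rel R x =>
    intro v v' V V' h1 _
    simp only [HS]
    have : (fun k => v (x k)) = fun k => v' (x k) := by
      funext k; exact h1 _ ⟨k, rfl⟩
    rw [this]
  | fn f x i =>
    intro v v' V V' h1 _
    simp only [HS]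
    have : (fun k => v (x k)) = fun k => v' (x k) := by
      funext k; exact h1 _ (Or.inr ⟨k, rfl⟩)
    rw [this, h1 i (Or.inl rfl)]
  | app n j x =>
    intro v v' V V' h1 h2
    simp only [HS]
    have : (fun k => v (x k)) = fun k => v' (x k) := by
      funext k; exact h1 _ ⟨k, rfl⟩
    rw [this, h2 n j rfl]
  | neg φ ih => intro v v' V V' h1 h2; simp only [HS]; rw [ih v v' V V' h1 h2]
  | and φ ψ ih1 ih2 =>
    intro v v' V V' h1 h2
    simp only [HS]
    rw [ih1 v v' V V' (fun i hi => h1 i (Or.inl hi)) (fun n j h => h2 n j (Or.inl h)),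
      ih2 v v' V V' (fun i hi => h1 i (Or.inr hi)) (fun n j h => h2 n j (Or.inr h))]
  | all i φ ih =>
    intro v v' V V' h1 h2
    simp only [HS]
    refine forall₂_congr fun a _ => ih _ _ _ _ (fun j hj => ?_) h2
    by_cases hji : j = i
    · subst hji; simp
    · rw [update_of_ne hji, update_of_ne hji]; exact h1 j ⟨hj, hji⟩
  | allR n j φ ih =>
    intro v v' V V' h1 h2
    simp only [HS]
    refine forall₂_congr fun a _ => ih _ _ _ _ h1 (fun m k hmk => ?_)
    by_cases hm : m = n
    · subst hm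
      rw [update_self, update_self]
      by_cases hk : k = j
      · subst hk; simp
      · rw [update_of_ne hk, update_of_ne hk]
        exact h2 _ _ ⟨hmk, fun h => hk (Prod.mk.inj h).2⟩
    · rw [update_of_ne hm, update_of_ne hm]
      exact h2 _ _ ⟨hmk, fun h => hm (Prod.mk.inj h).1⟩

theorem SOF.sat_congr (B : Str τ) (φ : SOF τ) :
    ∀ v v' V V', (∀ i ∈ φ.freeE, v i = v' i) → (∀ n j, (n, j) ∈ φ.freeR → V n j = V' n j) →
      (φ.Sat B v V ↔ φ.Sat B v' V') := by
  induction φ with
  | eq i j =>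
    intro v v' V V' h1 _
    simp only [SOF.Sat]; rw [h1 i (by simp [SOF.freeE]), h1 j (by simp [SOF.freeE])]
  | rel R x =>
    intro v v' V V' h1 _
    simp only [SOF.Sat]
    have : (fun k => v (x k)) = fun k => v' (x k) := by
      funext k; exact h1 _ ⟨k, rfl⟩
    rw [this]
  | fn f x i =>
    intro v v' V V' h1 _
    simp only [SOF.Sat]
    have : (fun k => v (x k)) = fun k => v' (x k) := by
      funext k; exact h1 _ (Or.inr ⟨k, rfl⟩)
    rw [this, h1 i (Or.inl rfl)]
  | app n j x =>
    intro v v' V V' h1 h2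
    simp only [SOF.Sat]
    have : (fun k => v (x k)) = fun k => v' (x k) := by
      funext k; exact h1 _ ⟨k, rfl⟩
    rw [this, h2 n j rfl]
  | neg φ ih => intro v v' V V' h1 h2; simp only [SOF.Sat]; rw [ih v v' V V' h1 h2]
  | and φ ψ ih1 ih2 =>
    intro v v' V V' h1 h2
    simp only [SOF.Sat]
    rw [ih1 v v' V V' (fun i hi => h1 i (Or.inl hi)) (fun n j h => h2 n j (Or.inl h)),
      ih2 v v' V V' (fun i hi => h1 i (Or.inr hi)) (fun n j h => h2 n j (Or.inr h))]
  | all i φ ih =>
    intro v v' V V' h1 h2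
    simp only [SOF.Sat]
    refine forall_congr' fun a => ih _ _ _ _ (fun j hj => ?_) h2
    by_cases hji : j = i
    · subst hji; simp
    · rw [update_of_ne hji, update_of_ne hji]; exact h1 j ⟨hj, hji⟩
  | allR n j φ ih =>
    intro v v' V V' h1 h2
    simp only [SOF.Sat]
    refine forall_congr' fun a => ih _ _ _ _ h1 (fun m k hmk => ?_)
    by_cases hm : m = n
    · subst hm
      rw [update_self, update_self]
      by_cases hk : k = j
      · subst hk; simp
      · rw [update_of_ne hk, update_of_ne hk]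
        exact h2 _ _ ⟨hmk, fun h => hk (Prod.mk.inj h).2⟩
    · rw [update_of_ne hm, update_of_ne hm]
      exact h2 _ _ ⟨hmk, fun h => hm (Prod.mk.inj h).1⟩

/-! ## First-order definability of Henkin satisfaction -/

theorem Good.numS {X : Set ZFSet.{0}} (h : Good X) (n : ℕ) : numS n ∈ X := by
  induction n with
  | zero => exact h.em
  | succ n ih => exact h.ins _ ih _ ih

section FD

variable {Γ : Type 1} {C : FCx Γ}

theorem FD.tupNumMem (n : ℕ) (xs : List (Γ → ZFSet.{0})) (hxs : ∀ x ∈ xs, IsV C x)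
    (z : Γ → ZFSet.{0}) (hz : IsV C z) :
    FD C (fun _ g => tup (Solovay.numS n :: xs.map (fun x => x g)) ∈ z g) := by
  have h := FD.tupMem (C := C.ext) ((fun p => p.2) :: xs.map (fun x => fun p => x p.1)) (by
    intro x hx
    rcases List.mem_cons.1 hx with rfl | hx
    · exact inferInstance
    · obtain ⟨y, hy, rfl⟩ := List.mem_map.1 hx
      exact (hxs y hy).wk) (fun p => z p.1) inferInstance
  have h1 : FD C.ext (fun _ p => tup (p.2 :: xs.map (fun x => x p.1)) ∈ z p.1) :=
    h.congr (fun X p v hv => by rw [List.map_cons, List.map_map]; rfl)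
  refine FD.congr (P := fun X g => ∃ a, a ∈ X ∧ (a = Solovay.numS n ∧
    tup (a :: xs.map (fun x => x g)) ∈ z g)) inferInstance (fun X g v hv => ?_)
  constructor
  · intro h; exact ⟨_, (C.good X g v hv).numS n, rfl, h⟩
  · rintro ⟨_, _, rfl, h⟩; exact h

theorem FD.hs (φ : SOF τ) : ∀ {Γ : Type 1} {C : FCx Γ} (d U : Γ → ZFSet.{0})
    (v : ℕ → Γ → ZFSet.{0}) (V : ℕ → ℕ → Γ → ZFSet.{0}), IsV C d → IsV C U → (∀ n, IsV C (v n)) →
    (∀ n j, IsV C (V n j)) →
    FD C (fun X g => HS X (d g) (U g) φ (fun n => v n g) (fun n j => V n j g)) := by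
  induction φ with
  | eq i j =>
    intro Γ C d U v V hd hU hv hV; have := hv i; have := hv j; simp only [HS]; infer_instance
  | rel R x =>
    intro Γ C d U v V hd hU hv hV
    simp only [HS]
    refine (FD.tupNumMem R (List.ofFn fun k => v (x k)) (by
      intro y hy
      obtain ⟨k, rfl⟩ := (List.mem_ofFn' _ _).1 hy
      exact hv _) U hU).congr ?_
    intro X g v' _
    rw [List.map_ofFn]; rfl
  | fn f x i =>
    intro Γ C d U v V hd hU hv hV
    simp only [HS]
    refine (FD.tupNumMem (τ.nR + f) (v i :: List.ofFn fun k => v (x k)) (by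
      intro y hy
      rcases List.mem_cons.1 hy with rfl | hy
      · exact hv i
      · obtain ⟨k, rfl⟩ := (List.mem_ofFn' _ _).1 hy
        exact hv _) U hU).congr ?_
    intro X g v' _
    rw [List.map_cons, List.map_ofFn]; rfl
  | app n j x =>
    intro Γ C d U v V hd hU hv hV
    simp only [HS]
    refine (FD.tupMem (List.ofFn fun k => v (x k)) (by
      intro y hy
      obtain ⟨k, rfl⟩ := (List.mem_ofFn' _ _).1 hy
      exact hv _) (V n j) (hV n j)).congr ?_
    intro X g v' _
    rw [List.map_ofFn]; rfl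
  | neg φ ih =>
    intro Γ C d U v V hd hU hv hV; have := ih d U v V hd hU hv hV; simp only [HS]; infer_instance
  | and φ ψ ih1 ih2 =>
    intro Γ C d U v V hd hU hv hV
    have := ih1 d U v V hd hU hv hV; have := ih2 d U v V hd hU hv hV
    simp only [HS]; infer_instance
  | all i φ ih =>
    intro Γ C d U v V hd hU hv hV
    have h1 := ih (C := C.ext) (fun p => d p.1) (fun p => U p.1)
      (fun n p => if n = i then p.2 else v n p.1) (fun n j p => V n j p.1) inferInstance
      inferInstance (by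
        intro n
        by_cases hn : n = i
        · simp only [hn, if_true]; infer_instance
        · simp only [hn, if_false]; exact (hv n).wk) (fun n j => (hV n j).wk)
    have : FD C.ext (fun X p => HS X (d p.1) (U p.1) φ (update (fun n => v n p.1) i p.2)
        (fun n j => V n j p.1)) := by
      refine h1.congr fun X p v' _ => ?_
      have : (update (fun n => v n p.1) i p.2) = fun n => if n = i then p.2 else v n p.1 := by
        funext n; simp [update_apply]
      rw [this]
    simp only [HS]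
    exact FD.ballv
  | allR n j φ ih =>
    intro Γ C d U v V hd hU hv hV
    have h1 := ih (C := C.ext) (fun p => d p.1) (fun p => U p.1)
      (fun n p => v n p.1) (fun n' j' p => if n' = n ∧ j' = j then p.2 else V n' j' p.1)
      inferInstance inferInstance (fun n => (hv n).wk) (by
        intro n' j'
        by_cases hn : n' = n ∧ j' = j
        · simp only [hn, and_self, if_true]; infer_instance
        · simp only [hn, if_false]; exact (hV _ _).wk)
    have : FD C.ext (fun X p => HS X (d p.1) (U p.1) φ (fun n => v n p.1)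
        (update (fun n j => V n j p.1) n (update (fun j => V n j p.1) j p.2))) := by
      refine h1.congr fun X p v' _ => ?_
      have : (update (fun n j => V n j p.1) n (update (fun j => V n j p.1) j p.2)) =
          fun n' j' => if n' = n ∧ j' = j then p.2 else V n' j' p.1 := by
        funext n' j'
        by_cases hn : n' = n
        · subst hn
          rw [update_self]
          by_cases hj : j' = j
          · subst hj; simp
          · simp [hj]
        · simp [hn]
      rw [this]
    simp only [HS]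
    infer_instance

/-- the functions coded in `U` are total -/
def FunOK (d U : ZFSet.{0}) (a b : ℕ) : Prop :=
  ∀ x : ℕ → ZFSet.{0}, (∀ n < b, x n ∈ d) → ∃ y, y ∈ d ∧
    (tup (numS a :: y :: List.ofFn fun k : Fin b => x k) ∈ U ∧
      ∀ y', y' ∈ d → (tup (numS a :: y' :: List.ofFn fun k : Fin b => x k) ∈ U → y' = y))

theorem FD.funOK (a b : ℕ) {d U : Γ → ZFSet.{0}} (hd : IsV C d) (hU : IsV C U) :
    FD C (fun _ g => FunOK (d g) (U g) a b) := by
  have hG : FD C (fun X g => ∃ x : ℕ → ZFSet.{0}, (∀ n, x n ∈ X) ∧ ((∀ n < b, x n ∈ d g) ∧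
      ¬ ∃ y, y ∈ d g ∧ (tup (numS a :: y :: List.ofFn fun k : Fin b => x k) ∈ U g ∧
      ∀ y', y' ∈ d g → (tup (numS a :: y' :: List.ofFn fun k : Fin b => x k) ∈ U g → y' = y)))) := by
    refine FD.exN b ?_ ?_
    · intro X g u u' huu
      have : (fun k : Fin b => u k) = fun k : Fin b => u' k := by
        funext k; exact huu k k.2
      rw [this]
      refine and_congr (forall₂_congr fun n hn => by rw [huu n hn]) Iff.rfl
    · have h1 : FD (C.extN b) (fun _ p => ∀ n < b, p.2 n ∈ d p.1) :=
        FD.finlt _ fun n hn => by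
          have := IsV.newN (C := C) (b := b) (n := n) hn
          have := hd.wkN (b := b)
          exact FD.mem
      have h2 : FD ((C.extN b).ext.ext) (fun _ p =>
          tup (numS a :: p.2 :: List.ofFn fun k : Fin b => p.1.1.2 k) ∈ U p.1.1.1) := by
        refine (FD.tupNumMem (C := (C.extN b).ext.ext) a ((fun p => p.2) ::
          List.ofFn fun k : Fin b => fun p => p.1.1.2 k) (by
            intro y hy
            rcases List.mem_cons.1 hy with rfl | hy
            · infer_instance
            · obtain ⟨k, rfl⟩ := (List.mem_ofFn' _ _).1 hy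
              exact (IsV.newN (C := C) (b := b) (n := k) k.2).wk.wk) (fun p => U p.1.1.1)
            (hU.wkN.wk.wk)).congr ?_
        intro X g v' _
        rw [List.map_cons, List.map_ofFn]; rfl
      have h3 : FD ((C.extN b).ext) (fun _ p =>
          tup (numS a :: p.2 :: List.ofFn fun k : Fin b => p.1.2 k) ∈ U p.1.1) := by
        refine (FD.tupNumMem (C := (C.extN b).ext) a ((fun p => p.2) ::
          List.ofFn fun k : Fin b => fun p => p.1.2 k) (by
            intro y hy
            rcases List.mem_cons.1 hy with rfl | hy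
            · infer_instance
            · obtain ⟨k, rfl⟩ := (List.mem_ofFn' _ _).1 hy
              exact (IsV.newN (C := C) (b := b) (n := k) k.2).wk) (fun p => U p.1.1)
            (hU.wkN.wk)).congr ?_
        intro X g v' _
        rw [List.map_cons, List.map_ofFn]; rfl
      have := hd.wkN (b := b)
      have := (hd.wkN (b := b)).wk
      infer_instance
  have h2 : FD C (fun X g => ¬ ∃ x : ℕ → ZFSet.{0}, (∀ n, x n ∈ X) ∧ ((∀ n < b, x n ∈ d g) ∧
      ¬ ∃ y, y ∈ d g ∧ (tup (numS a :: y :: List.ofFn fun k : Fin b => x k) ∈ U g ∧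
      ∀ y', y' ∈ d g → (tup (numS a :: y' :: List.ofFn fun k : Fin b => x k) ∈ U g → y' = y)))) :=
    inferInstance
  refine h2.congr fun X g v hv => ?_
  have hg := C.good X g v hv
  constructor
  · rintro h ⟨x, _, h1, h2⟩
    exact h2 (h x h1)
  · intro h x hx
    by_contra hcon
    apply h
    refine ⟨fun n => if n < b then x n else ∅, fun n => ?_, fun n hn => ?_, ?_⟩
    · show (if n < b then x n else ∅) ∈ X
      split_ifs with hn
      · exact hg.tr _ (hd.memX hv) _ (hx n hn)
      · exact hg.em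
    · show (if n < b then x n else ∅) ∈ d g
      rw [if_pos hn]; exact hx n hn
    · have : (fun k : Fin b => if (k : ℕ) < b then x k else ∅) = fun k : Fin b => x k := by
        funext k; rw [if_pos k.2]
      rw [this]
      exact hcon

/-- `(d, U)` codes a structure -/
def StrOK (τ : Vocab) (d U : ZFSet.{0}) : Prop :=
  ¬ d = ∅ ∧ ∀ F : Fin τ.nF, FunOK d U (τ.nR + F) (τ.arF F)

theorem FD.strOK {d U : Γ → ZFSet.{0}} (hd : IsV C d) (hU : IsV C U) :
    FD C (fun _ g => StrOK τ (d g) (U g)) := by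
  have h1 : FD C (fun _ g => ∀ F : Fin τ.nF, FunOK (d g) (U g) (τ.nR + F) (τ.arF F)) :=
    FD.finall fun F => FD.funOK _ _ hd hU
  unfold StrOK
  infer_instance

end FD

/-! ## Coding structures -/

/-- `f` is an isomorphism of `B` with the structure coded by `(d, U)` -/
structure Codes (B : Str τ) (d U : ZFSet.{0}) (f : B.M → ZFSet.{0}) : Prop where
  inj : Injective f
  dom : ∀ z, z ∈ d ↔ ∃ m, f m = z
  rel : ∀ (R : Fin τ.nR) x, B.rel R x ↔ tup (numS R :: List.ofFn fun k => f (x k)) ∈ U
  fn : ∀ (F : Fin τ.nF) x m, B.fn F x = m ↔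
    tup (numS (τ.nR + F) :: f m :: List.ofFn fun k => f (x k)) ∈ U

def IsoC (B : Str τ) (d U : ZFSet.{0}) : Prop := ∃ f, Codes B d U f

theorem Codes.iso {A B : Str τ} {d U : ZFSet.{0}} {f : A.M → ZFSet.{0}} {g : B.M → ZFSet.{0}}
    (hf : Codes A d U f) (hg : Codes B d U g) : Iso A B := by
  have h1 : ∀ a, ∃ b, g b = f a := fun a => (hg.dom _).1 ((hf.dom _).2 ⟨a, rfl⟩)
  have h2 : ∀ b, ∃ a, f a = g b := fun b => (hf.dom _).1 ((hg.dom _).2 ⟨b, rfl⟩)
  choose e he using h1
  choose e' he' using h2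
  have hfg : ∀ a, g (e a) = f a := he
  refine ⟨⟨e, e', fun a => hf.inj (by rw [he', he]), fun b => hg.inj (by rw [he, he'])⟩, ?_, ?_⟩
  · intro R x
    rw [hf.rel, hg.rel]
    simp only [Equiv.coe_fn_mk, comp_apply, hfg]
  · intro F x
    symm
    rw [Equiv.coe_fn_mk, hg.fn, hfg]
    have h3 := (hf.fn F x _).1 rfl
    simpa only [Equiv.coe_fn_mk, comp_apply, hfg] using h3

theorem IsoC.iso {A B : Str τ} {d U : ZFSet.{0}} (hA : IsoC A d U) (hB : IsoC B d U) : Iso A B := by
  obtain ⟨f, hf⟩ := hA
  obtain ⟨g, hg⟩ := hB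
  exact hf.iso hg

/-- `X` contains a code for every relation on `d` -/
def FullFor (X : Set ZFSet.{0}) (d : ZFSet.{0}) : Prop :=
  ∀ (n : ℕ) (p : ZFSet.{0} → Prop), ∃ z ∈ X, ∀ l : List ZFSet.{0}, l.length = n → (∀ a ∈ l, a ∈ d) →
    (tup l ∈ z ↔ p (tup l))

/-- closed under products (up to supersets) -/
def PC (X : Set ZFSet.{0}) : Prop :=
  ∀ u ∈ X, ∀ w ∈ X, ∃ z, z ∈ X ∧ ∀ a, a ∈ u → ∀ b, b ∈ w → ZFSet.pair a b ∈ z

/-- closed under subsets of elements -/
def SubC (X : Set ZFSet.{0}) : Prop := ∀ u ∈ X, ∀ w : ZFSet.{0}, w ⊆ u → w ∈ X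

theorem fullFor_of {X : Set ZFSet.{0}} (hX : Good X) (h1 : PC X) (h2 : SubC X) {d : ZFSet.{0}}
    (hd : d ∈ X) : FullFor X d := by
  have key : ∀ n : ℕ, ∃ z ∈ X, ∀ l : List ZFSet.{0}, l.length = n → (∀ a ∈ l, a ∈ d) →
      tup l ∈ z := by
    intro n
    induction n with
    | zero =>
      refine ⟨{∅}, hX.single hX.em, fun l hl _ => ?_⟩
      rw [List.length_eq_zero_iff.1 hl]
      simp [tup]
    | succ n ih =>
      obtain ⟨z, hz, h⟩ := ih
      obtain ⟨z', hz', h'⟩ := h1 d hd z hz
      refine ⟨z', hz', fun l hl hld => ?_⟩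
      cases l with
      | nil => simp at hl
      | cons a l =>
        exact h' a (hld a (by simp)) _ (h l (by simpa using hl) fun b hb => hld b (by simp [hb]))
  intro n p
  obtain ⟨z, hz, h⟩ := key n
  refine ⟨ZFSet.sep p z, h2 z hz _ (fun _ h => (ZFSet.mem_sep.1 h).1), fun l hl hld => ?_⟩
  rw [ZFSet.mem_sep]
  exact ⟨fun h => h.2, fun h' => ⟨h l hl hld, h'⟩⟩

theorem Codes.hs {B : Str τ} {d U : ZFSet.{0}} {f : B.M → ZFSet.{0}} (hf : Codes B d U f)
    {X : Set ZFSet.{0}} (hX : FullFor X d) (φ : SOF τ) : ∀ (v : ℕ → B.M) (V : RelAsg B.M)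
    (V' : ℕ → ℕ → ZFSet.{0}), (∀ n j (x : Fin n → B.M), V n j x ↔
      tup (List.ofFn fun k => f (x k)) ∈ V' n j) →
    (φ.Sat B v V ↔ HS X d U φ (fun n => f (v n)) V') := by
  induction φ with
  | eq i j => intro v V V' _; simp only [SOF.Sat, HS]; exact hf.inj.eq_iff.symm
  | rel R x => intro v V V' _; simp only [SOF.Sat, HS]; exact hf.rel _ _
  | fn F x i => intro v V V' _; simp only [SOF.Sat, HS]; exact hf.fn _ _ _
  | app n j x => intro v V V' h; simp only [SOF.Sat, HS]; exact h _ _ _
  | neg φ ih => intro v V V' h; simp only [SOF.Sat, HS]; rw [ih v V V' h]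
  | and φ ψ ih1 ih2 => intro v V V' h; simp only [SOF.Sat, HS]; rw [ih1 v V V' h, ih2 v V V' h]
  | all i φ ih =>
    intro v V V' h
    simp only [SOF.Sat, HS]
    have e : ∀ a, (fun n => f (update v i a n)) = update (fun n => f (v n)) i (f a) := by
      intro a; funext n
      by_cases hn : n = i
      · subst hn; simp
      · rw [update_of_ne hn, update_of_ne hn]
    constructor
    · intro hall z hz
      obtain ⟨a, rfl⟩ := (hf.dom z).1 hz
      rw [← e, ← ih _ V V' h]
      exact hall a
    · intro hall a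
      rw [ih _ V V' h, e]
      exact hall _ ((hf.dom _).2 ⟨a, rfl⟩)
  | allR n j φ ih =>
    intro v V V' h
    simp only [SOF.Sat, HS]
    have hup : ∀ (Q : (Fin n → B.M) → Prop) (z : ZFSet.{0}),
        (∀ x, Q x ↔ tup (List.ofFn fun k => f (x k)) ∈ z) →
        ∀ n' j' (x : Fin n' → B.M), (update V n (update (V n) j Q)) n' j' x ↔
          tup (List.ofFn fun k => f (x k)) ∈ (update V' n (update (V' n) j z)) n' j' := by
      intro Q z hQz n' j' x
      by_cases hn : n' = n
      · subst hn
        rw [update_self, update_self]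
        by_cases hj : j' = j
        · subst hj; rw [update_self, update_self]; exact hQz x
        · rw [update_of_ne hj, update_of_ne hj]; exact h _ _ _
      · rw [update_of_ne hn, update_of_ne hn]; exact h _ _ _
    constructor
    · intro hall z hz
      exact (ih v _ _ (hup (fun x => tup (List.ofFn fun k => f (x k)) ∈ z) z
        (fun x => Iff.rfl))).1 (hall _)
    · intro hall Q
      obtain ⟨z, hzX, hz⟩ := hX n (fun t => ∃ x, t = tup (List.ofFn fun k => f (x k)) ∧ Q x)
      refine (ih v _ _ (hup Q z fun x => ?_)).2 (hall z hzX)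
      rw [hz _ (by simp) (by
        intro a ha
        obtain ⟨k, rfl⟩ := (List.mem_ofFn' _ _).1 ha
        exact (hf.dom _).2 ⟨_, rfl⟩)]
      constructor
      · intro hQ; exact ⟨x, rfl, hQ⟩
      · rintro ⟨x', he, hQ⟩
        have h1 := List.ofFn_injective (tup_inj he)
        have h2 : x = x' := by
          funext k; exact hf.inj (congrFun h1 k)
        rw [h2]; exact hQ

/-- truth of a sentence in the Henkin sense (the assignments are irrelevant) -/
def HSs (X : Set ZFSet.{0}) (d U : ZFSet.{0}) (φ : SOF τ) : Prop :=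
  HS X d U φ (fun _ => d) (fun _ _ => d)

theorem IsoC.hs {B : Str τ} {d U : ZFSet.{0}} (hf : IsoC B d U)
    {X : Set ZFSet.{0}} (hX : FullFor X d) {φ : SOF τ} (hφ : φ.IsSentence) :
    B.Satisfies φ ↔ HSs X d U φ := by
  obtain ⟨f, hf⟩ := hf
  obtain ⟨m⟩ := B.ne
  have key : ∀ v V, φ.Sat B v V ↔ HSs X d U φ := by
    intro v V
    have h1 : φ.Sat B v V ↔ φ.Sat B v (fun n j x => tup (List.ofFn fun k => f (x k)) ∈ d) :=
      SOF.sat_congr _ _ _ _ _ _ (fun i _ => rfl) (fun n j h => by
        rw [hφ.2] at h; exact absurd h (Set.notMem_empty _))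
    rw [h1, hf.hs hX φ v _ (fun _ _ => d) (fun _ _ _ => Iff.rfl)]
    refine HS.congr _ _ _ _ _ _ _ _ (fun i hi => ?_) (fun _ _ _ => rfl)
    rw [hφ.1] at hi; exact absurd hi (Set.notMem_empty _)
  constructor
  · intro h; exact (key (fun _ => m) (fun _ _ _ => True)).1 (h _ _)
  · intro h v V; exact (key v V).2 h

/-- every coded structure is realized by a structure in `Type` -/
theorem StrOK.realize {d U : ZFSet.{0}} (h : StrOK τ d U) : ∃ B : Str τ, IsoC B d U := by
  classical
  let K := {y // y ∈ d}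
  have hsm : Small.{0} K := ZFSet.small_coe d
  let M : Type := Shrink.{0} K
  let f : M → ZFSet.{0} := fun m => ((equivShrink K).symm m).1
  have hfd : ∀ m, f m ∈ d := fun m => ((equivShrink K).symm m).2
  have hfinj : Injective f := fun a b hab => (equivShrink K).symm.injective (Subtype.ext hab)
  have hfsurj : ∀ z ∈ d, ∃ m, f m = z := fun z hz => ⟨equivShrink K ⟨z, hz⟩, by
    show ((equivShrink K).symm (equivShrink K ⟨z, hz⟩)).1 = z
    rw [Equiv.symm_apply_apply]⟩
  have hne : Nonempty M := by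
    rcases ZFSet.eq_empty_or_nonempty d with h0 | ⟨z, hz⟩
    · exact absurd h0 h.1
    · obtain ⟨m, _⟩ := hfsurj z hz; exact ⟨m⟩
  have hfun : ∀ (F : Fin τ.nF) (x : Fin (τ.arF F) → M), ∃ m : M, ∀ m', m = m' ↔
      tup (numS (τ.nR + F) :: f m' :: List.ofFn fun k => f (x k)) ∈ U := by
    intro F x
    obtain ⟨m0⟩ := hne
    obtain ⟨y, hy, h1, h2⟩ := h.2 F (fun n => if hn : n < τ.arF F then f (x ⟨n, hn⟩) else f m0)
      (fun n hn => by rw [dif_pos hn]; exact hfd _)
    have e : (fun k : Fin (τ.arF F) => if hn : (k : ℕ) < τ.arF F then f (x ⟨k, hn⟩) else f m0) =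
        fun k => f (x k) := by
      funext k; rw [dif_pos k.2]
    rw [e] at h1
    simp only [e] at h2
    obtain ⟨m, rfl⟩ := hfsurj y hy
    refine ⟨m, fun m' => ⟨fun h => h ▸ h1, fun h => (hfinj (h2 _ (hfd m') h)).symm⟩⟩
  choose fn hfn using hfun
  refine ⟨⟨M, hne, fun R x => tup (numS R :: List.ofFn fun k => f (x k)) ∈ U, fn⟩, f, hfinj,
    fun z => ⟨hfsurj z, ?_⟩, fun R x => Iff.rfl, fun F x m => hfn F x m⟩
  rintro ⟨m, rfl⟩; exact hfd m

/-- every infinite structure is coded in `HH M` -/
theorem exists_isoC (B : Str τ) [Infinite B.M] : ∃ d U : ZFSet.{0}, d ∈ HH B.M ∧ U ∈ HH B.M ∧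
    IsoC B d U := by
  classical
  have hgood := good_HH B.M
  let R : Rel3 B.M := fun x y _ => WellOrderingRel x y
  have hwf : WellFounded (fun x y => R x y y) := WellOrderingRel.isWellOrder.wf
  have hinj : Injective (dec R) := by
    intro a b hab
    rcases trichotomous_of (WellOrderingRel (α := B.M)) a b with h | h | h
    · have : dec R a ∈ dec R b := (dec_mem hwf).2 ⟨a, h, rfl⟩
      rw [hab] at this; exact absurd this (ZFSet.mem_irrefl _)
    · exact h
    · have : dec R b ∈ dec R a := (dec_mem hwf).2 ⟨b, h, rfl⟩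
      rw [hab] at this; exact absurd this (ZFSet.mem_irrefl _)
  let f := dec R
  have hfH : ∀ m, f m ∈ HH B.M := fun m => dec_mem_HH R m
  let T : ZFSet.{0} := ZFSet.range fun p : ℕ × List B.M => tup (numS p.1 :: p.2.map f)
  have hTH : T ∈ HH B.M := by
    refine HH.of_cov (fun y hy => ?_) ?_
    · obtain ⟨p, rfl⟩ := ZFSet.mem_range.1 hy
      refine hgood.tup fun x hx => ?_
      rcases List.mem_cons.1 hx with rfl | hx
      · exact hgood.numS _
      · obtain ⟨m, _, rfl⟩ := List.mem_map.1 hx
        exact hfH m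
    · have h1 : Cov (El T) (ℕ × List B.M) := by
        refine ⟨fun p => tup (numS p.1 :: p.2.map f), fun y hy => ?_⟩
        obtain ⟨p, rfl⟩ := ZFSet.mem_range.1 hy
        exact ⟨p, rfl⟩
      refine h1.of_card ?_
      rw [Cardinal.mk_prod, Cardinal.lift_id, Cardinal.lift_id]
      exact Cardinal.mul_le_of_le (Cardinal.aleph0_le_mk _)
        (Cardinal.mk_le_aleph0.trans (Cardinal.aleph0_le_mk _)) (Cardinal.mk_list_eq_mk _).le
  let p : ZFSet.{0} → Prop := fun z => (∃ (R : Fin τ.nR) (x : _), B.rel R x ∧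
      z = tup (numS R :: List.ofFn fun k => f (x k))) ∨
    (∃ (F : Fin τ.nF) (x : _), z = tup (numS (τ.nR + F) :: f (B.fn F x) ::
      List.ofFn fun k => f (x k)))
  refine ⟨ZFSet.range f, ZFSet.sep p T, HH.of_cov (fun y hy => ?_) ⟨f, fun y hy => ?_⟩,
    HH.sep hTH, f, hinj, fun z => ZFSet.mem_range, fun R x => ?_, fun F x m => ?_⟩
  · obtain ⟨m, rfl⟩ := ZFSet.mem_range.1 hy; exact hfH m
  · obtain ⟨m, rfl⟩ := ZFSet.mem_range.1 hy; exact ⟨m, rfl⟩
  · rw [ZFSet.mem_sep]
    constructor
    · intro h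
      refine ⟨ZFSet.mem_range.2 ⟨(R, List.ofFn x), ?_⟩, Or.inl ⟨R, x, h, rfl⟩⟩
      rw [List.map_ofFn]; rfl
    · rintro ⟨_, ⟨R', x', h, he⟩ | ⟨F, x', he⟩⟩
      · have h1 := tup_inj he
        obtain ⟨h2, h3⟩ := List.cons_eq_cons.1 h1
        have h4 : R = R' := Fin.ext (numS_inj.1 h2)
        subst h4
        have h5 := List.ofFn_injective h3
        have h6 : x = x' := by funext k; exact hinj (congrFun h5 k)
        rw [h6]; exact h
      · have h1 := tup_inj he
        obtain ⟨h2, h3⟩ := List.cons_eq_cons.1 h1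
        have h4 := numS_inj.1 h2
        have := R.2
        omega
  · rw [ZFSet.mem_sep]
    constructor
    · intro h
      refine ⟨ZFSet.mem_range.2 ⟨(τ.nR + F, m :: List.ofFn x), ?_⟩, Or.inr ⟨F, x, by rw [h]⟩⟩
      rw [List.map_cons, List.map_ofFn]; rfl
    · rintro ⟨_, ⟨R', x', h, he⟩ | ⟨F', x', he⟩⟩
      · have h1 := tup_inj he
        obtain ⟨h2, h3⟩ := List.cons_eq_cons.1 h1
        have h4 := numS_inj.1 h2
        have := R'.2
        omega
      · have h1 := tup_inj he
        obtain ⟨h2, h3⟩ := List.cons_eq_cons.1 h1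
        obtain ⟨h3, h3'⟩ := List.cons_eq_cons.1 h3
        have h4 : F = F' := Fin.ext (by have := numS_inj.1 h2; omega)
        subst h4
        have h5 := List.ofFn_injective h3'
        have h6 : x = x' := by funext k; exact hinj (congrFun h5 k)
        rw [h6]; exact (hinj h3).symm

end Pool.Agent.Solovay
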