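import Pool.Agent.Solovay.SetFD

/-! # Definable closure; it is an elementary substructure of a limit level -/

namespace Pool.Agent.Solovay

open Function

/-- predicates on `X` definable with parameters in `Z` -/
def DP (X Z : Set ZFSet.{0}) (P : ZFSet.{0} → Prop) : Prop :=
  ∃ (φ : FL) (w : ℕ → ZFSet.{0}), (∀ n, w n ∈ Z) ∧ ∀ y ∈ X, P y ↔ φ.Sat X (update w 0 y)

/-- definable closure of `Z` in `(X, ∈, Lv)` -/
def dcl (X Z : Set ZFSet.{0}) : Set ZFSet.{0} := {x | x ∈ X ∧ DP X Z (fun y => y = x)}

theorem DP.congr {X Z : Set ZFSet.{0}} {P Q : ZFSet.{0} → Prop} (h : DP X Z P)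
    (hPQ : ∀ y ∈ X, Q y ↔ P y) : DP X Z Q := by
  obtain ⟨φ, w, hw, h⟩ := h
  exact ⟨φ, w, hw, fun y hy => (hPQ y hy).trans (h y hy)⟩

theorem DP.mono {X Z Z' : Set ZFSet.{0}} {P : ZFSet.{0} → Prop} (h : DP X Z P) (hZ : Z ⊆ Z') :
    DP X Z' P := by
  obtain ⟨φ, w, hw, h⟩ := h
  exact ⟨φ, w, fun n => hZ (hw n), h⟩

theorem DP.of_FD {P : Set ZFSet.{0} → (ℕ → ZFSet.{0}) → ZFSet.{0} → Prop}
    (h : FD FCx.base.ext (fun X p => P X p.1 p.2)) {X Z : Set ZFSet.{0}} (hX : Good X)
    (hZ : Z ⊆ X) {g : ℕ → ZFSet.{0}} (hg : ∀ n, g n ∈ Z) : DP X Z (P X g) := by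
  obtain ⟨φ, hφ⟩ := h.out
  refine ⟨φ, fun j => g (j / 2), fun n => hg _, fun y hy => ?_⟩
  refine hφ X (g, y) (update (fun j => g (j / 2)) 0 y) ⟨⟨hX, fun i => ?_, fun i => hZ (hg i)⟩, ?_, hy⟩
  · rw [update_of_ne (by omega)]
    show g ((2 * i + 1) / 2) = g i
    congr 1; omega
  · simp [FCx.base]

theorem dcl_mono {X Z Z' : Set ZFSet.{0}} (h : Z ⊆ Z') : dcl X Z ⊆ dcl X Z' :=
  fun _ hx => ⟨hx.1, hx.2.mono h⟩

theorem dcl_sub {X Z : Set ZFSet.{0}} : dcl X Z ⊆ X := fun _ hx => hx.1

theorem subset_dcl {X Z : Set ZFSet.{0}} (hX : Good X) (hZ : Z ⊆ X) : Z ⊆ dcl X Z := by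
  intro z hz
  refine ⟨hZ hz, ?_⟩
  exact DP.of_FD (P := fun _ g y => y = g 0) inferInstance hX hZ (g := fun _ => z) (fun _ => hz)

theorem mem_dcl_of {X Z : Set ZFSet.{0}} {P : ZFSet.{0} → Prop} (h : DP X Z P) {x : ZFSet.{0}}
    (hx : x ∈ X) (hP : ∀ y ∈ X, P y ↔ y = x) : x ∈ dcl X Z :=
  ⟨hx, h.congr fun y hy => (hP y hy).symm⟩

theorem DP.elim_finite {X Z : Set ZFSet.{0}} (hX : Good X) (hZ : Z ⊆ X) (hne : Z.Nonempty)
    {D : Set ZFSet.{0}} (hD : D.Finite) (hDd : D ⊆ dcl X Z) :
    ∀ P : ZFSet.{0} → Prop, DP X (Z ∪ D) P → DP X Z P := by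
  induction D, hD using Set.Finite.induction_on with
  | empty => intro P h; simpa using h
  | insert hd hfin ih =>
    rename_i d D'
    intro P h
    have hD' : D' ⊆ dcl X Z := fun x hx => hDd (Set.mem_insert_of_mem _ hx)
    obtain ⟨φ, w, hw, hφ⟩ := h
    obtain ⟨hdX, φd, wd, hwd, hφd⟩ := hDd (Set.mem_insert d D')
    obtain ⟨z0, hz0⟩ := hne
    classical
    refine ih hD' P ?_
    let g : ℕ → ZFSet.{0} := fun n => if n % 2 = 0 then (if w (n / 2) = d then z0 else w (n / 2))
      else wd (n / 2)
    have hg : ∀ n, g n ∈ Z ∪ D' := by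
      intro n
      simp only [g]
      split_ifs with h1 h2
      · exact Or.inl hz0
      · rcases hw (n / 2) with h3 | h3
        · exact Or.inl h3
        · exact Or.inr (h3.resolve_left h2)
      · exact Or.inl (hwd _)
    have hFD : FD FCx.base.ext (fun X p => ∃ u, u ∈ X ∧
        (φd.Sat X (fun n => if n = 0 then u else p.1 (2 * n + 1)) ∧
          φ.Sat X (fun n => if n = 0 then p.2 else if w n = d then u else p.1 (2 * n)))) := by
      have h1 : FD FCx.base.ext.ext (fun X p => φd.Sat X (fun n => if n = 0 then p.2 else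
          p.1.1 (2 * n + 1))) :=
        FD.sat φd (C := FCx.base.ext.ext) (fun n p => if n = 0 then p.2 else p.1.1 (2 * n + 1)) (by
          intro n
          by_cases h : n = 0
          · simp only [h, if_true]; infer_instance
          · simp only [h, if_false]; exact (IsV.base (2 * n + 1)).wk.wk)
      have h2 : FD FCx.base.ext.ext (fun X p => φ.Sat X (fun n => if n = 0 then p.1.2 else
          if w n = d then p.2 else p.1.1 (2 * n))) :=
        FD.sat φ (C := FCx.base.ext.ext) (fun n p => if n = 0 then p.1.2 else if w n = d then p.2 else p.1.1 (2 * n)) (by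
          intro n
          by_cases h : n = 0
          · simp only [h, if_true]; infer_instance
          · simp only [h, if_false]
            by_cases h' : w n = d
            · simp only [h', if_true]; infer_instance
            · simp only [h', if_false]; exact (IsV.base (2 * n)).wk.wk)
      infer_instance
    refine (DP.of_FD (P := fun X g y => ∃ u, u ∈ X ∧
        (φd.Sat X (fun n => if n = 0 then u else g (2 * n + 1)) ∧
          φ.Sat X (fun n => if n = 0 then y else if w n = d then u else g (2 * n)))) hFD hX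
        (Set.union_subset hZ (hD'.trans dcl_sub)) hg).congr ?_
    intro y hy
    have e1 : ∀ u, (fun n => if n = 0 then u else g (2 * n + 1)) = update wd 0 u := by
      intro u; funext n
      by_cases h : n = 0
      · simp [h]
      · have h5 : (2 * n + 1) / 2 = n := by omega
        have h6 : (2 * n + 1) % 2 ≠ 0 := by omega
        simp only [g, if_neg h, if_neg h6, h5, update_of_ne h]
    have e2 : (fun n => if n = 0 then y else if w n = d then d else g (2 * n)) = update w 0 y := by
      funext n
      by_cases h : n = 0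
      · simp [h]
      · have h5 : (2 * n) / 2 = n := by omega
        have h6 : (2 * n) % 2 = 0 := by omega
        simp only [g, if_neg h, h6, h5, update_of_ne h, if_true]
        by_cases h7 : w n = d
        · simp [h7]
        · simp [h7]
    rw [hφ y hy]
    constructor
    · intro h
      refine ⟨d, hdX, ?_, ?_⟩
      · rw [e1]; exact (hφd d hdX).1 rfl
      · rw [e2]; exact h
    · rintro ⟨u, hu, h1, h2⟩
      rw [e1] at h1
      have : u = d := (hφd u hu).2 h1
      subst this
      rw [e2] at h2
      exact h2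

theorem DP.of_dcl {X Z : Set ZFSet.{0}} (hX : Good X) (hZ : Z ⊆ X) (hne : Z.Nonempty)
    {P : ZFSet.{0} → Prop} (h : DP X (dcl X Z) P) : DP X Z P := by
  obtain ⟨φ, w, hw, hφ⟩ := h
  obtain ⟨z0, hz0⟩ := hne
  classical
  let D : Set ZFSet.{0} := w '' {n | n < φ.bd}
  have hD : D.Finite := (Set.finite_lt_nat _).image _
  refine DP.elim_finite hX hZ ⟨z0, hz0⟩ hD (by rintro _ ⟨n, _, rfl⟩; exact hw n) P ?_
  refine ⟨φ, fun n => if n < φ.bd then w n else z0, fun n => ?_, fun y hy => ?_⟩
  · show (if n < φ.bd then w n else z0) ∈ Z ∪ D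
    split_ifs with h
    · exact Or.inr ⟨n, h, rfl⟩
    · exact Or.inl hz0
  · rw [hφ y hy]
    refine φ.sat_congr X _ _ fun i hi => ?_
    by_cases h : i = 0
    · subst h; simp
    · rw [update_of_ne h, update_of_ne h, if_pos hi]

theorem dcl_dcl {X Z : Set ZFSet.{0}} (hX : Good X) (hZ : Z ⊆ X) (hne : Z.Nonempty) :
    dcl X (dcl X Z) ⊆ dcl X Z := fun _ hx => ⟨hx.1, DP.of_dcl hX hZ hne hx.2⟩

/-! ## Quantification over finitely many coordinates of an infinite tuple -/

variable {Γ : Type 1} {C : FCx Γ}

def FCx.extN (C : FCx Γ) (b : ℕ) : FCx (Γ × (ℕ → ZFSet.{0})) where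
  k := C.k + b
  ok X p v := C.ok X p.1 v ∧ (∀ n < b, v (2 * (C.k + n)) = p.2 n) ∧ ∀ n, p.2 n ∈ X
  congr X p v w h1 h2 h := by
    refine ⟨C.congr X p.1 v w h1 (fun i hi => h2 i (by omega)) h.1, fun n hn => ?_, h.2.2⟩
    rw [← h2 (C.k + n) (by omega)]; exact h.2.1 n hn
  good X p v h := C.good X p.1 v h.1

theorem IsV.newN {b n : ℕ} (hn : n < b) : IsV (C.extN b) (fun p => p.2 n) :=
  ⟨2 * (C.k + n), Or.inr ⟨C.k + n, by simp only [FCx.extN]; omega, rfl⟩,
    fun X g v h => ⟨h.2.1 n hn, h.2.2 n⟩⟩

theorem IsV.wkN {b : ℕ} {x : Γ → ZFSet.{0}} (h : IsV C x) : IsV (C.extN b) (fun p => x p.1) := by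
  obtain ⟨i, hi, hx⟩ := h.out
  refine ⟨i, ?_, fun X g v h => hx X g.1 v h.1⟩
  rcases hi with hi | ⟨j, hj, rfl⟩
  · exact Or.inl hi
  · exact Or.inr ⟨j, by simp only [FCx.extN]; omega, rfl⟩

theorem FD.exN (b : ℕ) : ∀ {Q : Set ZFSet.{0} → Γ → (ℕ → ZFSet.{0}) → Prop},
    (∀ X g u u', (∀ n < b, u n = u' n) → (Q X g u ↔ Q X g u')) →
    FD (C.extN b) (fun X p => Q X p.1 p.2) →
    FD C (fun X g => ∃ u : ℕ → ZFSet.{0}, (∀ n, u n ∈ X) ∧ Q X g u) := by
  induction b with
  | zero =>
    intro Q hQ h
    obtain ⟨φ, hφ⟩ := h.out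
    refine ⟨φ, fun X g v hv => ?_⟩
    have hg := C.good X g v hv
    rw [← hφ X (g, fun _ => ∅) v ⟨hv, fun n hn => absurd hn (by omega), fun _ => hg.em⟩]
    constructor
    · rintro ⟨u, _, h⟩
      exact (hQ X g u _ (fun n hn => absurd hn (by omega))).1 h
    · intro h; exact ⟨_, fun _ => hg.em, h⟩
  | succ b ih =>
    intro Q hQ h
    obtain ⟨φ, hφ⟩ := h.out
    have h1 : FD (C.extN b) (fun X p => ∃ a ∈ X, Q X p.1 (update p.2 b a)) := by
      refine ⟨.neg (.all (2 * (C.k + b)) (.neg φ)), fun X p v hv => ?_⟩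
      simp only [FL.Sat]
      push Not
      refine exists_congr fun a => and_congr_right fun ha => ?_
      refine hφ X (p.1, update p.2 b a) (update v (2 * (C.k + b)) a) ⟨?_, fun n hn => ?_, fun n => ?_⟩
      · refine C.congr X p.1 v _ (fun i => ?_) (fun i hi => ?_) hv.1
        · rw [update_of_ne (by omega)]
        · rw [update_of_ne (by omega)]
      · by_cases hnb : n = b
        · subst hnb; simp
        · show update v (2 * (C.k + b)) a (2 * (C.k + n)) = update p.2 b a n
          rw [update_of_ne (by omega), update_of_ne hnb]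
          exact hv.2.1 n (by omega)
      · by_cases hnb : n = b
        · subst hnb; simpa using ha
        · show update p.2 b a n ∈ X
          rw [update_of_ne hnb]; exact hv.2.2 n
    have h2 := ih (Q := fun X g u => ∃ a ∈ X, Q X g (update u b a)) (by
      intro X g u u' huu
      refine exists_congr fun a => and_congr_right fun ha => hQ X g _ _ fun n hn => ?_
      by_cases hnb : n = b
      · subst hnb; simp
      · rw [update_of_ne hnb, update_of_ne hnb]; exact huu n (by omega)) h1
    refine h2.congr fun X g v hv => ?_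
    constructor
    · rintro ⟨u, hu, h⟩
      exact ⟨u, hu, u b, hu b, by rw [update_eq_self]; exact h⟩
    · rintro ⟨u, hu, a, ha, h⟩
      refine ⟨update u b a, fun n => ?_, h⟩
      by_cases hnb : n = b
      · subst hnb; simpa using ha
      · rw [update_of_ne hnb]; exact hu n

/-! ## The hull argument -/

/-- `y` is the subset of `Y` defined by `ψ` with parameters `u` -/
def IsSub (ψ : Fm) (Y : ZFSet.{0}) (u : ℕ → ZFSet.{0}) (y : ZFSet.{0}) : Prop :=
  y ⊆ Y ∧ ∀ a, a ∈ Y → (a ∈ y ↔ ψ.toFL.Sat (El Y) (update u 0 a))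

theorem IsSub.congr {ψ : Fm} {Y y : ZFSet.{0}} {u u' : ℕ → ZFSet.{0}}
    (h : ∀ n < ψ.toFL.bd, u n = u' n) : IsSub ψ Y u y ↔ IsSub ψ Y u' y := by
  unfold IsSub
  refine and_congr_right fun _ => forall₂_congr fun a ha => iff_congr Iff.rfl ?_
  refine FL.sat_congr _ _ _ _ fun i hi => ?_
  by_cases h0 : i = 0
  · subst h0; simp
  · rw [update_of_ne h0, update_of_ne h0]; exact h i hi

theorem IsSub.unique {ψ : Fm} {Y y y' : ZFSet.{0}} {u : ℕ → ZFSet.{0}} (h : IsSub ψ Y u y)
    (h' : IsSub ψ Y u y') : y = y' := by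
  ext a
  constructor
  · intro ha
    have := h.1 ha
    rw [h'.2 a this, ← h.2 a this]; exact ha
  · intro ha
    have := h'.1 ha
    rw [h.2 a this, ← h'.2 a this]; exact ha

theorem FD.isSub (ψ : Fm) {Y y : Γ → ZFSet.{0}} {u : ℕ → Γ → ZFSet.{0}} (hY : IsV C Y)
    (hy : IsV C y) (hu : ∀ n < ψ.toFL.bd, IsV C (u n)) :
    FD C (fun _ g => IsSub ψ (Y g) (fun n => u n g) (y g)) := by
  have h1 : FD C.ext (fun _ p => ψ.toFL.Sat (El (Y p.1))
      (fun n => if n = 0 then p.2 else if n < ψ.toFL.bd then u n p.1 else Y p.1)) :=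
    FD.satRel ψ.toFL (C := C.ext) (fun p => Y p.1)
      (fun n p => if n = 0 then p.2 else if n < ψ.toFL.bd then u n p.1 else Y p.1)
      inferInstance (by
        intro n
        by_cases h : n = 0
        · simp only [h, if_true]; infer_instance
        · simp only [h, if_false]
          by_cases h' : n < ψ.toFL.bd
          · simp only [h', if_true]; exact (hu n h').wk
          · simp only [h', if_false]; infer_instance)
  have h2 : FD C.ext (fun _ p => ψ.toFL.Sat (El (Y p.1)) (update (fun n => u n p.1) 0 p.2)) := by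
    refine h1.congr fun X p v _ => FL.sat_congr _ _ _ _ fun i hi => ?_
    by_cases h0 : i = 0
    · subst h0; simp
    · rw [update_of_ne h0]; simp [h0, hi]
  unfold IsSub
  infer_instance

/-- the auxiliary predicate of the hull argument -/
def CC (X : Set ZFSet.{0}) (φ : FL) (ψ : Fm) (m : ℕ) (w s : ℕ → ZFSet.{0}) (Y : ZFSet.{0}) : Prop :=
  ∃ u : ℕ → ZFSet.{0}, (∀ n, u n ∈ X) ∧ ((∀ n < m, u n = s n) ∧ (∀ n < ψ.toFL.bd, u n ∈ Y) ∧
    ∃ y, y ∈ X ∧ (φ.Sat X (update w 0 y) ∧ IsSub ψ Y u y))

theorem FD.finlt {P : ℕ → Set ZFSet.{0} → Γ → Prop} (m : ℕ) (h : ∀ n < m, FD C (P n)) :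
    FD C (fun X g => ∀ n < m, P n X g) := by
  have := FD.finall (ι := Fin m) (P := fun i => P i.1) (fun i => h i.1 i.2)
  refine this.congr fun X g v _ => ⟨fun h i => h i.1 i.2, fun h n hn => h ⟨n, hn⟩⟩

theorem FD.cc (φ : FL) (ψ : Fm) (m : ℕ) (hm : m ≤ ψ.toFL.bd) {w s : ℕ → Γ → ZFSet.{0}}
    {Y : Γ → ZFSet.{0}} (hw : ∀ n, IsV C (w n)) (hs : ∀ n, IsV C (s n)) (hY : IsV C Y) :
    FD C (fun X g => CC X φ ψ m (fun n => w n g) (fun n => s n g) (Y g)) := by
  unfold CC
  refine FD.exN ψ.toFL.bd (Q := fun X g u => (∀ n < m, u n = s n g) ∧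
    (∀ n < ψ.toFL.bd, u n ∈ Y g) ∧
    ∃ y, y ∈ X ∧ (φ.Sat X (update (fun n => w n g) 0 y) ∧ IsSub ψ (Y g) u y)) ?_ ?_
  · intro X g u u' huu
    refine and_congr (forall₂_congr fun n hn => by rw [huu n (by omega)])
      (and_congr (forall₂_congr fun n hn => by rw [huu n hn]) ?_)
    refine exists_congr fun y => and_congr_right fun _ => and_congr_right fun _ =>
      IsSub.congr huu
  · have h1 : FD (C.extN ψ.toFL.bd) (fun _ p => ∀ n < m, p.2 n = s n p.1) :=
      FD.finlt m fun n hn => by
        have := IsV.newN (C := C) (b := ψ.toFL.bd) (n := n) (by omega)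
        have := (hs n).wkN (b := ψ.toFL.bd)
        exact FD.eq
    have h2 : FD (C.extN ψ.toFL.bd) (fun _ p => ∀ n < ψ.toFL.bd, p.2 n ∈ Y p.1) :=
      FD.finlt _ fun n hn => by
        have := IsV.newN (C := C) (b := ψ.toFL.bd) (n := n) hn
        have := hY.wkN (b := ψ.toFL.bd)
        exact FD.mem
    have h3 : FD (C.extN ψ.toFL.bd).ext (fun X p => φ.Sat X (fun n => if n = 0 then p.2 else
        w n p.1.1)) :=
      FD.sat φ (C := (C.extN ψ.toFL.bd).ext) (fun n p => if n = 0 then p.2 else w n p.1.1) (by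
        intro n
        by_cases h : n = 0
        · simp only [h, if_true]; infer_instance
        · simp only [h, if_false]; exact (hw n).wkN.wk)
    have h3' : FD (C.extN ψ.toFL.bd).ext (fun X p => φ.Sat X (update (fun n => w n p.1.1) 0 p.2)) := by
      refine h3.congr fun X p v _ => ?_
      have : update (fun n => w n p.1.1) 0 p.2 = fun n => if n = 0 then p.2 else w n p.1.1 := by
        funext n; simp [update_apply]
      rw [this]
    have h4 : FD (C.extN ψ.toFL.bd).ext (fun _ p => IsSub ψ (Y p.1.1) (fun n => p.1.2 n) p.2) :=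
      FD.isSub ψ (C := (C.extN ψ.toFL.bd).ext) (Y := fun p => Y p.1.1) (u := fun n p => p.1.2 n) (y := fun p => p.2)
        hY.wkN.wk inferInstance (fun n hn => (IsV.newN (C := C) (b := ψ.toFL.bd) (n := n) hn).wk)
    have h4' : FD (C.extN ψ.toFL.bd).ext (fun _ p => IsSub ψ (Y p.1.1) p.1.2 p.2) := h4
    infer_instance

/-- limit levels are good -/
theorem good_L {γ : Ordinal.{0}} (h0 : 0 < γ) (hs : ∀ α < γ, Order.succ α < γ) :
    Good (El (L γ)) where
  tr x hx y hy := L_trans_mem hx hy
  em := by
    refine mem_L.2 ⟨0, h0, empty_mem_Def _⟩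
  ins x hx y hy := by
    obtain ⟨α, hα, hx⟩ := mem_L.1 hx
    obtain ⟨β, hβ, hy⟩ := mem_L.1 hy
    have hx' : x ∈ L (Order.succ (max α β)) := by
      rw [← L_succ] at hx; exact L_mono (Order.succ_le_succ (le_max_left _ _)) hx
    have hy' : y ∈ L (Order.succ (max α β)) := by
      rw [← L_succ] at hy; exact L_mono (Order.succ_le_succ (le_max_right _ _)) hy
    refine mem_L.2 ⟨Order.succ (max α β), hs _ (max_lt hα hβ), mem_Def.2 ⟨?_, Or.inr ?_⟩⟩
    · intro z hz
      rcases ZFSet.mem_insert_iff.1 hz with rfl | hz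
      · exact hx'
      · exact L_trans_mem hy' hz
    · refine ⟨.neg (.and (.neg (.eq 0 1)) (.neg (.mem 0 2))), fun n => if n = 1 then x else y,
        fun n => ?_, fun a ha => ?_⟩
      · show (if n = 1 then x else y) ∈ _
        split_ifs
        · exact hx'
        · exact hy'
      · simp [Fm.Sat, ZFSet.mem_insert_iff]
        tauto

theorem exists_subset_level {γ : Ordinal.{0}} {X : Set ZFSet.{0}} (hX : X = El (L γ))
    {y : ZFSet.{0}} (hy : y ∈ X) : ∃ β < γ, y ∈ Def (L β) := by
  subst hX; exact mem_L.1 hy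

/-- definably closed subsets of a limit level satisfy the Tarski-Vaught criterion -/
theorem witness {γ : Ordinal.{0}} (h0 : 0 < γ) (hs : ∀ α < γ, Order.succ α < γ)
    {N : Set ZFSet.{0}} (hNX : N ⊆ El (L γ)) (hne : N.Nonempty)
    (hcl : dcl (El (L γ)) N ⊆ N) {P : ZFSet.{0} → Prop} (hP : DP (El (L γ)) N P)
    (hex : ∃ y ∈ El (L γ), P y) : ∃ y ∈ N, P y := by
  have hX := good_L h0 hs
  obtain ⟨n0, hn0⟩ := hne
  set X := El (L γ) with hXdef
  obtain ⟨y0, hy0, hPy0⟩ := hex
  obtain ⟨β, hβγ, hyβ⟩ := mem_L.1 hy0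
  have key : ∀ β < γ, ∀ P : ZFSet.{0} → Prop, DP X N P → (∃ y ∈ Def (L β), P y) →
      ∃ y ∈ N, P y := by
    intro β
    induction β using WellFoundedLT.induction with
    | ind β ih =>
      intro hβ P hP ⟨y0, hy0, hPy0⟩
      have hy0X : y0 ∈ X := mem_L.2 ⟨β, hβ, hy0⟩
      obtain ⟨φ, w, hw, hφ⟩ := hP
      obtain ⟨hsub, hcase⟩ := mem_Def.1 hy0
      rcases hcase with rfl | ⟨ψ, v, hv, hψ⟩
      · refine ⟨∅, hcl (mem_dcl_of (DP.of_FD (P := fun _ _ y => y = ∅) inferInstance hX hNX
          (g := fun _ => n0) (fun _ => hn0)) hy0X (fun y _ => Iff.rfl)), hPy0⟩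
      · -- the least level with a witness
        have hC0 : CC X φ ψ 0 w (fun _ => n0) (L β) := by
          refine ⟨v, fun n => ?_, fun n hn => absurd hn (by omega), fun n _ => hv n, y0, hy0X,
            (hφ y0 hy0X).1 hPy0, hsub, fun a ha => ?_⟩
          · exact L_mono hβ.le (hv n)
          · rw [Fm.toFL_sat]; exact hψ a ha
        let S : Set Ordinal.{0} := {β' | CC X φ ψ 0 w (fun _ => n0) (L β')}
        have hSne : S.Nonempty := ⟨β, hC0⟩
        let β1 := sInf S
        have hβ1 : CC X φ ψ 0 w (fun _ => n0) (L β1) := csInf_mem hSne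
        have hβ1le : β1 ≤ β := csInf_le' hC0
        have hβ1min : ∀ β' < β1, ¬ CC X φ ψ 0 w (fun _ => n0) (L β') :=
          fun β' h h' => absurd (csInf_le' (s := S) h') (not_le.2 h)
        have hβ1γ : β1 < γ := hβ1le.trans_lt hβ
        have hYX : L β1 ∈ X := L_mem_of_lt hβ1γ
        have hYN : L β1 ∈ N := by
          apply hcl
          have hFD : FD FCx.base.ext (fun X p => Lv p.2 ∧
              (CC X φ ψ 0 (fun n => p.1 (2 * n)) (fun n => p.1 (2 * n + 1)) p.2 ∧
              ∀ Y', Y' ∈ p.2 → (Lv Y' → ¬ CC X φ ψ 0 (fun n => p.1 (2 * n))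
                (fun n => p.1 (2 * n + 1)) Y'))) := by
            have h1 : FD FCx.base.ext (fun X p => CC X φ ψ 0 (fun n => p.1 (2 * n))
              (fun n => p.1 (2 * n + 1)) p.2) :=
              FD.cc φ ψ 0 (by omega) (C := FCx.base.ext) (w := fun n p => p.1 (2 * n)) (s := fun n p => p.1 (2 * n + 1))
                (Y := fun p => p.2) (fun n => (IsV.base (2 * n)).wk)
                (fun n => (IsV.base (2 * n + 1)).wk) inferInstance
            have h2 : FD FCx.base.ext.ext (fun X p => CC X φ ψ 0 (fun n => p.1.1 (2 * n))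
              (fun n => p.1.1 (2 * n + 1)) p.2) :=
              FD.cc φ ψ 0 (by omega) (C := FCx.base.ext.ext) (w := fun n p => p.1.1 (2 * n))
                (s := fun n p => p.1.1 (2 * n + 1))
                (Y := fun p => p.2) (fun n => (IsV.base (2 * n)).wk.wk)
                (fun n => (IsV.base (2 * n + 1)).wk.wk) inferInstance
            infer_instance
          refine mem_dcl_of (DP.of_FD (P := fun X g y => Lv y ∧
              (CC X φ ψ 0 (fun n => g (2 * n)) (fun n => g (2 * n + 1)) y ∧
              ∀ Y', Y' ∈ y → (Lv Y' → ¬ CC X φ ψ 0 (fun n => g (2 * n))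
                (fun n => g (2 * n + 1)) Y'))) hFD hX hNX
              (g := fun n => if n % 2 = 0 then w (n / 2) else n0) (fun n => ?_)) hYX ?_
          · show (if n % 2 = 0 then w (n / 2) else n0) ∈ N
            split_ifs
            · exact hw _
            · exact hn0
          · have e1 : (fun n : ℕ => (fun n => if n % 2 = 0 then w (n / 2) else n0) (2 * n)) = w := by
              funext n
              have h5 : (2 * n) / 2 = n := by omega
              have h6 : (2 * n) % 2 = 0 := by omega
              simp only [h6, h5, if_true]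
            have e2 : (fun n : ℕ => (fun n => if n % 2 = 0 then w (n / 2) else n0) (2 * n + 1)) =
                fun _ => n0 := by
              funext n
              have h6 : (2 * n + 1) % 2 ≠ 0 := by omega
              simp only [if_neg h6]
            rw [e1, e2]
            intro y hy
            constructor
            · rintro ⟨⟨β', rfl⟩, h1, h2⟩
              rcases lt_trichotomy β' β1 with h | h | h
              · exact absurd h1 (hβ1min β' h)
              · rw [h]
              · exact absurd hβ1 (h2 _ (L_mem_of_lt h) (Lv_L _))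
            · rintro rfl
              refine ⟨Lv_L _, hβ1, ?_⟩
              rintro _ hmem ⟨β', rfl⟩
              exact hβ1min β' (L_mem_L.1 hmem)
        -- find the parameters one after the other
        have hpar : ∀ m ≤ ψ.toFL.bd, ∃ s : ℕ → ZFSet.{0}, (∀ n, s n ∈ N) ∧
            CC X φ ψ m w s (L β1) := by
          intro m
          induction m with
          | zero =>
            intro _
            exact ⟨fun _ => n0, fun _ => hn0, hβ1⟩
          | succ m ihm =>
            intro hm
            obtain ⟨s, hsN, hCs⟩ := ihm (by omega)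
            obtain ⟨u, huX, hus, huY, y, hyX, hφy, hsy⟩ := hCs
            have hz0 : u m ∈ L β1 := huY m (by omega)
            obtain ⟨β', hβ', hz0'⟩ := mem_L.1 hz0
            have hDPm : DP X N (fun z => z ∈ L β1 ∧ CC X φ ψ (m + 1) w (update s m z) (L β1)) := by
              have hFD : FD FCx.base.ext (fun X p => p.2 ∈ p.1 0 ∧
                  CC X φ ψ (m + 1) (fun n => p.1 (2 * n + 1))
                    (fun n => if n = m then p.2 else p.1 (2 * n + 2)) (p.1 0)) := by
                have h1 : FD FCx.base.ext (fun X p => CC X φ ψ (m + 1) (fun n => p.1 (2 * n + 1))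
                    (fun n => if n = m then p.2 else p.1 (2 * n + 2)) (p.1 0)) :=
                  FD.cc φ ψ (m + 1) hm (C := FCx.base.ext) (w := fun n p => p.1 (2 * n + 1))
                    (s := fun n p => if n = m then p.2 else p.1 (2 * n + 2))
                    (Y := fun p => p.1 0) (fun n => (IsV.base (2 * n + 1)).wk)
                    (fun n => by
                      by_cases h : n = m
                      · simp only [h, if_true]; infer_instance
                      · simp only [h, if_false]; exact (IsV.base (2 * n + 2)).wk)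
                    (IsV.base 0).wk
                have h2 : IsV FCx.base.ext (fun p => p.1 0) := (IsV.base 0).wk
                infer_instance
              refine (DP.of_FD (P := fun X g y => y ∈ g 0 ∧
                  CC X φ ψ (m + 1) (fun n => g (2 * n + 1))
                    (fun n => if n = m then y else g (2 * n + 2)) (g 0)) hFD hX hNX
                  (g := fun n => if n = 0 then L β1 else if n % 2 = 1 then w (n / 2) else
                    s (n / 2 - 1)) (fun n => ?_)).congr ?_
              · show (if n = 0 then L β1 else if n % 2 = 1 then w (n / 2) else s (n / 2 - 1)) ∈ N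
                split_ifs
                · exact hYN
                · exact hw _
                · exact hsN _
              · intro z hz
                have e1 : (fun n : ℕ => (fun n => if n = 0 then L β1 else
                    if n % 2 = 1 then w (n / 2) else s (n / 2 - 1)) (2 * n + 1)) = w := by
                  funext n
                  have h5 : (2 * n + 1) / 2 = n := by omega
                  have h6 : (2 * n + 1) % 2 = 1 := by omega
                  have h7 : 2 * n + 1 ≠ 0 := by omega
                  simp only [h6, h5, if_true, if_neg h7]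
                have e2 : (fun n : ℕ => if n = m then z else (fun n => if n = 0 then L β1 else
                    if n % 2 = 1 then w (n / 2) else s (n / 2 - 1)) (2 * n + 2)) =
                    update s m z := by
                  funext n
                  by_cases h : n = m
                  · simp [h]
                  · have h5 : (2 * n + 2) / 2 - 1 = n := by omega
                    have h6 : (2 * n + 2) % 2 ≠ 1 := by omega
                    have h7 : 2 * n + 2 ≠ 0 := by omega
                    simp only [if_neg h, if_neg h6, h5, if_neg h7, update_of_ne h]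
                rw [e1, e2]
                simp
            obtain ⟨z, hzN, hzY, hCz⟩ := ih β' (hβ'.trans_le hβ1le) (hβ'.trans hβ1γ) _ hDPm
              ⟨u m, hz0', hz0, u, huX, fun n hn => by
                by_cases h : n = m
                · subst h; simp
                · rw [update_of_ne h]; exact hus n (by omega), huY, y, hyX, hφy, hsy⟩
            refine ⟨update s m z, fun n => ?_, hCz⟩
            by_cases h : n = m
            · subst h; simpa using hzN
            · rw [update_of_ne h]; exact hsN n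
        obtain ⟨s, hsN, u, huX, hus, huY, y, hyX, hφy, hsy⟩ := hpar _ le_rfl
        have hsy' : IsSub ψ (L β1) s y := (IsSub.congr hus).1 hsy
        refine ⟨y, hcl ?_, (hφ y hyX).2 hφy⟩
        have hFD : FD FCx.base.ext (fun _ p => IsSub ψ (p.1 0) (fun n => p.1 (n + 1)) p.2) :=
          FD.isSub ψ (C := FCx.base.ext) (Y := fun p => p.1 0) (u := fun n p => p.1 (n + 1)) (y := fun p => p.2)
            (IsV.base 0).wk inferInstance (fun n _ => (IsV.base (n + 1)).wk)
        refine mem_dcl_of (DP.of_FD (P := fun _ g y => IsSub ψ (g 0) (fun n => g (n + 1)) y) hFD hX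
          hNX (g := fun n => if n = 0 then L β1 else s (n - 1)) (fun n => ?_)) hyX ?_
        · show (if n = 0 then L β1 else s (n - 1)) ∈ N
          split_ifs
          · exact hYN
          · exact hsN _
        · intro z hz
          simp only [if_true, Nat.add_sub_cancel, Nat.succ_ne_zero, if_false]
          exact ⟨fun h => h.unique hsy', fun h => h ▸ hsy'⟩
  exact key β hβγ P hP ⟨y0, hyβ, hPy0⟩

/-- elementary substructures -/
def Elem (N X : Set ZFSet.{0}) : Prop :=
  N ⊆ X ∧ ∀ (φ : FL) (v : ℕ → ZFSet.{0}), (∀ n, v n ∈ N) → (φ.Sat N v ↔ φ.Sat X v)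

theorem elem_of_closed {γ : Ordinal.{0}} (h0 : 0 < γ) (hs : ∀ α < γ, Order.succ α < γ)
    {N : Set ZFSet.{0}} (hNX : N ⊆ El (L γ)) (hne : N.Nonempty)
    (hcl : dcl (El (L γ)) N ⊆ N) : Elem N (El (L γ)) := by
  refine ⟨hNX, fun φ => ?_⟩
  have hX := good_L h0 hs
  induction φ with
  | mem i j => intro v _; rfl
  | eq i j => intro v _; rfl
  | lev i => intro v _; rfl
  | neg φ ih => intro v hv; simp only [FL.Sat]; rw [ih v hv]
  | and φ ψ ih1 ih2 => intro v hv; simp only [FL.Sat]; rw [ih1 v hv, ih2 v hv]
  | all i φ ih =>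
    intro v hv
    simp only [FL.Sat]
    constructor
    · intro h
      by_contra hcon
      push Not at hcon
      have hDP : DP (El (L γ)) N (fun a => ¬ φ.Sat (El (L γ)) (update v i a)) := by
        have h1 : FD FCx.base.ext (fun X p => φ.Sat X (fun n => if n = i then p.2 else p.1 n)) :=
          FD.sat φ (C := FCx.base.ext) (fun n p => if n = i then p.2 else p.1 n) (by
            intro n
            by_cases h : n = i
            · simp only [h, if_true]; infer_instance
            · simp only [h, if_false]; exact (IsV.base n).wk)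
        refine (DP.of_FD (P := fun X g y => ¬ φ.Sat X (fun n => if n = i then y else g n))
          inferInstance hX hNX (g := v) hv).congr fun y hy => ?_
        have : update v i y = fun n => if n = i then y else v n := by
          funext n; simp [update_apply]
        rw [this]
      obtain ⟨a, haN, ha⟩ := witness h0 hs hNX hne hcl hDP hcon
      refine ha ((ih _ fun n => ?_).1 (h a haN))
      by_cases hn : n = i
      · subst hn; simpa using haN
      · rw [update_of_ne hn]; exact hv n
    · intro h a ha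
      refine (ih _ fun n => ?_).2 (h a (hNX ha))
      by_cases hn : n = i
      · subst hn; simpa using ha
      · rw [update_of_ne hn]; exact hv n

theorem elem_dcl {γ : Ordinal.{0}} (h0 : 0 < γ) (hs : ∀ α < γ, Order.succ α < γ)
    {Z : Set ZFSet.{0}} (hZX : Z ⊆ El (L γ)) (hne : Z.Nonempty) :
    Elem (dcl (El (L γ)) Z) (El (L γ)) := by
  have hX := good_L h0 hs
  refine elem_of_closed h0 hs dcl_sub ?_ (dcl_dcl hX hZX hne)
  obtain ⟨z, hz⟩ := hne
  exact ⟨z, subset_dcl hX hZX hz⟩

end Pool.Agent.Solovay
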