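import Pool.Agent.Solovay.HSR

/-! # Second-order definability of: being isomorphic to the coded structure -/

set_option linter.unusedVariables false

namespace Pool.Agent.Solovay

open Function Cardinal

universe u w

variable {τ : Vocab}

section comap

variable {Γ Γ' : NStr τ → Type u} {C : SCx τ Γ} {C' : SCx τ Γ'}

theorem SD.comap {P : ∀ B, Γ B → Prop} (h : SD C P) (m : ∀ B, Γ' B → Γ B) (hk : C.k ≤ C'.k)
    (hl : C.l ≤ C'.l) (hok : ∀ B p v V, C'.ok B p v V → C.ok B (m B p) v V) :
    SD C' (fun B p => P B (m B p)) := by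
  obtain ⟨φ, h1, h2, hφ⟩ := h.out
  exact ⟨φ, fun i hi => (h1 i hi).trans_le hk, fun p hp => ⟨(h2 p hp).1, (h2 p hp).2.trans_le hl⟩,
    fun B g v V hv => hφ B (m B g) v V (hok B g v _ hv)⟩

end comap

/-- tuples of elements -/
def kT (n : ℕ) : Kd τ (fun B => Fin n → B.M) where
  a := n
  b := 0
  cod _ x v _ := ∀ i : Fin n, v i = x i
  congr _ x v v' V V' h1 _ h := fun i => by rw [← h1 i i.2]; exact h i

section

variable {Γ : NStr τ → Type u} {C : SCx τ Γ}

theorem IsE.newT {n : ℕ} (k : Fin n) : IsE (C.ext (kT n)) (fun B p => p.2 k) :=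
  ⟨C.k + k, by simp only [SCx.ext, kT]; omega, fun B g v V h => h.2 k⟩

theorem SD.allT (n : ℕ) : ∀ {Γ : NStr τ → Type u} {C : SCx τ Γ}
    {Q : ∀ B : NStr τ, Γ B → (Fin n → B.M) → Prop}
    (h : SD (C.ext (kT n)) (fun B p => Q B p.1 p.2)),
    SD C (fun B g => ∀ x : Fin n → B.M, Q B g x) := by
  induction n with
  | zero =>
    intro Γ C Q h
    have h1 : SD C (fun B g => Q B g Fin.elim0) :=
      h.comap (C' := C) (fun B g => (g, Fin.elim0)) (by simp [SCx.ext, kT]) (by simp [SCx.ext, kT])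
        (fun B p v V hv => ⟨hv, fun i => i.elim0⟩)
    refine h1.congr fun B g v V _ => ?_
    constructor
    · intro h; exact h _
    · intro h x
      have : x = Fin.elim0 := by funext i; exact i.elim0
      rw [this]; exact h
  | succ n ih =>
    intro Γ C Q h
    have h1 : SD ((C.ext kE).ext (kT n)) (fun B p => Q B p.1.1 (Fin.cons p.1.2 p.2)) :=
      h.comap (C' := (C.ext kE).ext (kT n)) (fun B p => (p.1.1, Fin.cons p.1.2 p.2))
        (by simp only [SCx.ext, kT, kE]; omega) (by simp [SCx.ext, kT, kE])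
        (fun B p v V hv => ⟨hv.1.1, fun i => by
          refine Fin.cases ?_ (fun j => ?_) i
          · simpa [kE] using hv.1.2
          · have := hv.2 j
            simp only [SCx.ext, kE] at this
            simp only [Fin.val_succ, Fin.cons_succ]
            rw [← this]
            congr 1
            omega⟩)
    have h2 : SD (C.ext kE) (fun B p => ∀ x : Fin n → B.M, Q B p.1 (Fin.cons p.2 x)) := ih h1
    have h3 : SD C (fun B g => ∀ a : B.M, ∀ x : Fin n → B.M, Q B g (Fin.cons a x)) := inferInstance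
    refine h3.congr fun B g v V _ => ?_
    constructor
    · intro h a x; exact h _
    · intro h x
      have := h (x 0) (fun i => x i.succ)
      have e : (Fin.cons (x 0) (fun i => x i.succ) : Fin (n + 1) → B.M) = x := by
        funext i; refine Fin.cases rfl (fun j => rfl) i
      rw [e] at this; exact this

end

variable {Γ : NStr τ → Type 1} {C : SCx τ Γ}

theorem SD.tupMem (n : ℕ) (a : ℕ) {E : ∀ B : NStr τ, Γ B → Rel3 B.M} (hE : IsR C E)
    {y : Fin n → ∀ B : NStr τ, Γ B → B.M} (hy : ∀ k, IsE C (y k)) {U : ∀ B, Γ B → ZFSet.{0}}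
    (hU : IsS C U) :
    SD C (fun B g => tup (numS a :: List.ofFn fun k => dec (E B g) (y k B g)) ∈ U B g) := by
  have h1 : FD FCx.base (fun _ g => tup (numS a :: List.ofFn fun k : Fin n => g (k + 1)) ∈ g 0) := by
    refine (FD.tupNumMem (C := FCx.base) a (List.ofFn fun k : Fin n => fun g : ℕ → ZFSet.{0} =>
      g (k + 1)) (by
        intro y hy
        obtain ⟨k, rfl⟩ := (List.mem_ofFn' _ _).1 hy
        infer_instance) (fun g => g 0) inferInstance).congr ?_
    intro X g v' _
    rw [List.map_ofFn]; rfl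
  have h2 := h1.toSD (C := C) (fun i => if h : i = 0 then U else
    if h' : i - 1 < n then fun B g => dec (E B g) (y ⟨i - 1, h'⟩ B g) else U) (by
      intro i
      by_cases h : i = 0
      · simp only [h, dif_pos]; exact hU
      · simp only [h, dif_neg, not_false_eq_true]
        by_cases h' : i - 1 < n
        · simp only [h', dif_pos]
          have := hy ⟨i - 1, h'⟩
          infer_instance
        · simp only [h', dif_neg, not_false_eq_true]; exact hU)
  refine h2.congr fun B g v V _ => ?_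
  have e : (List.ofFn fun k : Fin n => (if h : (k : ℕ) + 1 = 0 then U else
    if h' : (k : ℕ) + 1 - 1 < n then fun B g => dec (E B g) (y ⟨k + 1 - 1, h'⟩ B g) else U) B g) =
    List.ofFn fun k : Fin n => dec (E B g) (y k B g) := by
    congr 1
    funext k
    rw [dif_neg (by omega), dif_pos (by omega)]
    rfl
  rw [e]
  simp

theorem SD.tupMem' (n : ℕ) (a : ℕ) {E : ∀ B : NStr τ, Γ B → Rel3 B.M} (hE : IsR C E)
    {y : Fin n → ∀ B : NStr τ, Γ B → B.M} (hy : ∀ k, IsE C (y k)) {z : ∀ B : NStr τ, Γ B → B.M}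
    (hz : IsE C z) {U : ∀ B, Γ B → ZFSet.{0}} (hU : IsS C U) :
    SD C (fun B g => tup (numS a :: dec (E B g) (z B g) ::
      List.ofFn fun k => dec (E B g) (y k B g)) ∈ U B g) := by
  refine (SD.tupMem (n + 1) a hE (y := Fin.cons z y) (by
    intro k
    refine Fin.cases ?_ (fun j => ?_) k
    · exact hz
    · exact hy j) hU).congr ?_
  intro B g v V _
  rw [List.ofFn_succ]
  rfl

/-- being isomorphic to the coded structure is second-order definable -/
theorem SD.isoC {d U : ∀ B, Γ B → ZFSet.{0}} [hd : IsS C d] [hU : IsS C U] :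
    SD C (fun B g => IsoC B.S (d B g) (U B g)) := by
  refine SD.congr (P := fun B g => ∃ E : Rel3 B.M, ∃ h : B.M → B.M → Prop,
    WellFounded (fun x y => E x y y) ∧
    (∀ m : B.M, ∃ b : B.M, h m b ∧ ∀ b' : B.M, h m b' → b' = b) ∧
    (∀ m : B.M, ∀ m' : B.M, ∀ b : B.M, ∀ b' : B.M, h m b → h m' b' → dec E b = dec E b' → m = m') ∧
    (∀ m : B.M, ∀ b : B.M, h m b → dec E b ∈ d B g) ∧
    (∀ z : ZFSet.{0}, z ∈ d B g → ∃ m : B.M, ∃ b : B.M, h m b ∧ dec E b = z) ∧
    (∀ R : Fin τ.nR, ∀ x : Fin (τ.arR R) → B.M, ∀ y : Fin (τ.arR R) → B.M,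
      (∀ k, h (x k) (y k)) → (B.S.rel R x ↔
        tup (numS R :: List.ofFn fun k => dec E (y k)) ∈ U B g)) ∧
    (∀ F : Fin τ.nF, ∀ x : Fin (τ.arF F) → B.M, ∀ y : Fin (τ.arF F) → B.M,
      (∀ k, h (x k) (y k)) → ∀ m : B.M, ∀ b : B.M, h m b → (B.S.fn F x = m ↔
        tup (numS (τ.nR + F) :: dec E b :: List.ofFn fun k => dec E (y k)) ∈ U B g))) ?_ ?_
  · have h1 : SD ((C.ext kR).ext kR) (fun B p => ∀ R : Fin τ.nR, ∀ x : Fin (τ.arR R) → B.M,
        ∀ y : Fin (τ.arR R) → B.M, (∀ k, p.2 (x k) (y k) (y k)) → (B.S.rel R x ↔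
        tup (numS R :: List.ofFn fun k => dec p.1.2 (y k)) ∈ U B p.1.1)) := by
      refine SD.finall fun R => SD.allT _ (SD.allT _ ?_)
      have hx : ∀ k, IsE ((((C.ext kR).ext kR).ext (kT (τ.arR R))).ext (kT (τ.arR R)))
        (fun B p => p.1.2 k) := fun k => (IsE.newT k).wk _
      have hy : ∀ k, IsE ((((C.ext kR).ext kR).ext (kT (τ.arR R))).ext (kT (τ.arR R)))
        (fun B p => p.2 k) := fun k => IsE.newT k
      have h2 : SD ((((C.ext kR).ext kR).ext (kT (τ.arR R))).ext (kT (τ.arR R)))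
        (fun B p => ∀ k, p.1.1.2 (p.1.2 k) (p.2 k) (p.2 k)) := SD.finall fun k => by
          have := hx k
          have := hy k
          infer_instance
      have h3 : SD ((((C.ext kR).ext kR).ext (kT (τ.arR R))).ext (kT (τ.arR R)))
        (fun B p => B.S.rel R p.1.2) := SD.symR R hx
      have h4 : SD ((((C.ext kR).ext kR).ext (kT (τ.arR R))).ext (kT (τ.arR R)))
        (fun B p => tup (numS R :: List.ofFn fun k => dec p.1.1.1.2 (p.2 k)) ∈ U B p.1.1.1.1) :=
        SD.tupMem (C := ((((C.ext kR).ext kR).ext (kT (τ.arR R))).ext (kT (τ.arR R)))) _ _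
          (E := fun B p => p.1.1.1.2) inferInstance hy (U := fun B p => U B p.1.1.1.1) inferInstance
      infer_instance
    have h2 : SD ((C.ext kR).ext kR) (fun B p => ∀ F : Fin τ.nF, ∀ x : Fin (τ.arF F) → B.M,
        ∀ y : Fin (τ.arF F) → B.M, (∀ k, p.2 (x k) (y k) (y k)) → ∀ m : B.M, ∀ b : B.M,
        p.2 m b b → (B.S.fn F x = m ↔
        tup (numS (τ.nR + F) :: dec p.1.2 b :: List.ofFn fun k => dec p.1.2 (y k)) ∈ U B p.1.1)) := by
      refine SD.finall fun R => SD.allT _ (SD.allT _ ?_)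
      have hx : ∀ k, IsE ((((C.ext kR).ext kR).ext (kT (τ.arF R))).ext (kT (τ.arF R)))
        (fun B p => p.1.2 k) := fun k => (IsE.newT k).wk _
      have hy : ∀ k, IsE ((((C.ext kR).ext kR).ext (kT (τ.arF R))).ext (kT (τ.arF R)))
        (fun B p => p.2 k) := fun k => IsE.newT k
      have h2 : SD ((((C.ext kR).ext kR).ext (kT (τ.arF R))).ext (kT (τ.arF R)))
        (fun B p => ∀ k, p.1.1.2 (p.1.2 k) (p.2 k) (p.2 k)) := SD.finall fun k => by
          have := hx k
          have := hy k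
          infer_instance
      have h3 : SD ((((((C.ext kR).ext kR).ext (kT (τ.arF R))).ext (kT (τ.arF R))).ext kE).ext kE)
        (fun B p => B.S.fn R p.1.1.1.2 = p.1.2) :=
        SD.symF R (fun k => ((hx k).wk kE).wk kE) inferInstance
      have h4 : SD ((((((C.ext kR).ext kR).ext (kT (τ.arF R))).ext (kT (τ.arF R))).ext kE).ext kE)
        (fun B p => tup (numS (τ.nR + R) :: dec p.1.1.1.1.1.2 p.2 ::
          List.ofFn fun k => dec p.1.1.1.1.1.2 (p.1.1.2 k)) ∈ U B p.1.1.1.1.1.1) :=
        SD.tupMem' (C := ((((((C.ext kR).ext kR).ext (kT (τ.arF R))).ext (kT (τ.arF R))).ext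
          kE).ext kE)) _ _ (E := fun B p => p.1.1.1.1.1.2) inferInstance
          (fun k => ((hy k).wk kE).wk kE) (z := fun B p => p.2) inferInstance
          (U := fun B p => U B p.1.1.1.1.1.1) inferInstance
      infer_instance
    infer_instance
  · intro B g v V hv
    constructor
    · rintro ⟨f, hf⟩
      obtain ⟨t, ht, hdt, hc⟩ := hd.mem_HH hv
      obtain ⟨E, hE, hEt⟩ := exists_code ht hc
      have hex : ∀ m, ∃ b, dec E b = f m := fun m => hEt _ (ht _ hdt ((hf.dom _).2 ⟨m, rfl⟩))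
      choose b hb using hex
      have he : ∀ {n : ℕ} (x y : Fin n → B.M), (∀ k, y k = b (x k)) →
          (fun k => dec E (y k)) = fun k => f (x k) := by
        intro n x y h; funext k; rw [h k, hb]
      refine ⟨E, fun m c => c = b m, hE, fun m => ⟨b m, rfl, fun b' h => h⟩, ?_, ?_, ?_, ?_, ?_⟩
      · rintro m m' _ _ rfl rfl h
        rw [hb, hb] at h; exact hf.inj h
      · rintro m _ rfl
        rw [hb]; exact (hf.dom _).2 ⟨m, rfl⟩
      · intro z hz
        obtain ⟨m, rfl⟩ := (hf.dom z).1 hz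
        exact ⟨m, _, rfl, hb m⟩
      · intro R x y hxy
        rw [he x y hxy]; exact hf.rel R x
      · rintro F x y hxy m _ rfl
        rw [he x y hxy, hb]; exact hf.fn F x m
    · rintro ⟨E, h, hE, h1, h2, h3, h4, h5, h6⟩
      choose b hb using h1
      have hhb : ∀ m c, h m c ↔ c = b m := fun m c => ⟨(hb m).2 c, fun e => e ▸ (hb m).1⟩
      refine ⟨fun m => dec E (b m), fun m m' e => h2 m m' _ _ (hb m).1 (hb m').1 e, fun z => ?_,
        fun R x => h5 R x (fun k => b (x k)) (fun k => (hb _).1),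
        fun F x m => h6 F x (fun k => b (x k)) (fun k => (hb _).1) m _ (hb m).1⟩
      constructor
      · intro hz
        obtain ⟨m, c, hmc, rfl⟩ := h4 z hz
        rw [hhb] at hmc
        exact ⟨m, by rw [hmc]⟩
      · rintro ⟨m, rfl⟩; exact h3 m _ (hb m).1

end Pool.Agent.Solovay
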