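import Pool.Agent.Solovay.Defs

/-! # Basic facts on the hierarchy `L` -/

namespace Pool.Agent.Solovay

open Function

theorem mem_Def {X y : ZFSet.{0}} : y ∈ Def X ↔ IsDefinable X y := by
  unfold Def
  rw [ZFSet.mem_sep, ZFSet.mem_powerset]
  exact ⟨fun h => h.2, fun h => ⟨h.1, h⟩⟩

theorem mem_L {α : Ordinal.{0}} {x : ZFSet.{0}} : x ∈ L α ↔ ∃ β < α, x ∈ Def (L β) := by
  rw [L, ZFSet.mem_iUnion]
  constructor
  · rintro ⟨⟨β, hβ⟩, h⟩; exact ⟨β, hβ, h⟩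
  · rintro ⟨β, hβ, h⟩; exact ⟨⟨β, hβ⟩, h⟩

theorem L_mono {α β : Ordinal.{0}} (h : β ≤ α) : L β ⊆ L α := by
  intro x hx
  rw [mem_L] at hx ⊢
  obtain ⟨γ, hγ, hx⟩ := hx
  exact ⟨γ, hγ.trans_le h, hx⟩

theorem empty_mem_Def (X : ZFSet.{0}) : ∅ ∈ Def X :=
  mem_Def.2 ⟨ZFSet.empty_subset _, Or.inl rfl⟩

theorem self_mem_Def (X : ZFSet.{0}) : X ∈ Def X := by
  refine mem_Def.2 ⟨fun x hx => hx, ?_⟩
  rcases ZFSet.eq_empty_or_nonempty X with h | ⟨a, ha⟩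
  · exact Or.inl h
  · exact Or.inr ⟨.eq 0 0, fun _ => a, fun _ => ha, fun b hb => by simp [Fm.Sat, hb]⟩

theorem Def_subset {X y : ZFSet.{0}} (h : y ∈ Def X) : y ⊆ X := (mem_Def.1 h).1

theorem subset_Def {X : ZFSet.{0}} (hX : X.IsTransitive) : X ⊆ Def X := by
  intro y hy
  refine mem_Def.2 ⟨hX y hy, Or.inr ⟨.mem 0 1, fun _ => y, fun _ => hy, fun b hb => ?_⟩⟩
  simp [Fm.Sat]

theorem L_transitive (α : Ordinal.{0}) : (L α).IsTransitive := by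
  induction α using WellFoundedLT.induction with
  | ind α ih =>
    intro x hx y hy
    obtain ⟨β, hβ, hx⟩ := mem_L.1 hx
    have hy' : y ∈ L β := Def_subset hx hy
    exact mem_L.2 ⟨β, hβ, subset_Def (ih β hβ) hy'⟩

theorem L_trans_mem {α : Ordinal.{0}} {x y : ZFSet.{0}} (hx : x ∈ L α) (hy : y ∈ x) : y ∈ L α :=
  L_transitive α x hx hy

theorem L_mem_of_lt {α β : Ordinal.{0}} (h : β < α) : L β ∈ L α :=
  mem_L.2 ⟨β, h, self_mem_Def _⟩

theorem L_mem_L {α β : Ordinal.{0}} : L β ∈ L α ↔ β < α := by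
  refine ⟨fun h => ?_, L_mem_of_lt⟩
  by_contra hlt
  exact ZFSet.mem_irrefl _ (L_mono (not_lt.1 hlt) h)

theorem L_inj {α β : Ordinal.{0}} : L α = L β ↔ α = β := by
  refine ⟨fun h => ?_, fun h => h ▸ rfl⟩
  rcases lt_trichotomy α β with h' | h' | h'
  · exact absurd (L_mem_of_lt h') (h ▸ ZFSet.mem_irrefl _)
  · exact h'
  · exact absurd (L_mem_of_lt h') (h ▸ ZFSet.mem_irrefl _)

theorem L_succ (α : Ordinal.{0}) : L (Order.succ α) = Def (L α) := by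
  ext x
  rw [mem_L]
  constructor
  · rintro ⟨β, hβ, hx⟩
    rcases (Order.lt_succ_iff.1 hβ).eq_or_lt with rfl | h
    · exact hx
    · exact subset_Def (L_transitive α) (mem_L.2 ⟨β, h, hx⟩)
  · intro hx
    exact ⟨α, Order.lt_succ α, hx⟩

theorem L_zero : L 0 = ∅ := by
  rw [ZFSet.eq_empty]
  intro y hy
  obtain ⟨β, hβ, -⟩ := mem_L.1 hy
  exact absurd hβ (not_lt.2 (zero_le (a := β)))

/-- being a level of the constructible hierarchy -/
def Lv (x : ZFSet.{0}) : Prop := ∃ α, x = L α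

theorem Lv_L (α : Ordinal.{0}) : Lv (L α) := ⟨α, rfl⟩

/-- A set which is a union of `Def (L β)`, `β ∈ S`, is a level. -/
theorem level_of_union {Y : ZFSet.{0}} {S : Set Ordinal.{0}}
    (h : ∀ y, y ∈ Y ↔ ∃ β ∈ S, y ∈ Def (L β)) :
    ∃ α, Y = L α ∧ (∀ β ∈ S, β < α) ∧ ∀ γ, (∀ β ∈ S, β < γ) → α ≤ γ := by
  have hb : ∃ γ : Ordinal.{0}, ∀ β ∈ S, β < γ := by
    have hs : Small.{0} S := by
      let f : S → {y // y ∈ Y} := fun β => ⟨L β.1, (h _).2 ⟨β.1, β.2, self_mem_Def _⟩⟩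
      have hf : Injective f := by
        intro a b hab
        have : L a.1 = L b.1 := congrArg Subtype.val hab
        exact Subtype.ext (L_inj.1 this)
      have : Small.{0} {y // y ∈ Y} := ZFSet.small_coe Y
      exact small_of_injective hf
    obtain ⟨γ, hγ⟩ := Ordinal.bddAbove_of_small (s := S)
    exact ⟨Order.succ γ, fun β hβ => Order.lt_succ_iff.2 (hγ hβ)⟩
  let α : Ordinal.{0} := sInf {γ : Ordinal.{0} | ∀ β ∈ S, β < γ}
  have hα : ∀ β ∈ S, β < α := csInf_mem (s := {γ : Ordinal.{0} | ∀ β ∈ S, β < γ}) hb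
  have hmin : ∀ γ, (∀ β ∈ S, β < γ) → α ≤ γ := fun γ hγ => csInf_le' hγ
  refine ⟨α, ?_, hα, hmin⟩
  ext y
  rw [h]
  constructor
  · rintro ⟨β, hβ, hy⟩
    exact mem_L.2 ⟨β, hα β hβ, hy⟩
  · intro hy
    obtain ⟨β, hβ, hy⟩ := mem_L.1 hy
    have : ∃ β' ∈ S, β ≤ β' := by
      by_contra hcon
      push Not at hcon
      exact absurd (hmin β hcon) (not_le.2 hβ)
    obtain ⟨β', hβ', hle⟩ := this
    refine ⟨β', hβ', ?_⟩
    rw [← L_succ] at hy ⊢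
    exact L_mono (Order.succ_le_succ hle) hy

theorem Lv_trans {Y : ZFSet.{0}} (hY : Lv Y) : Y.IsTransitive := by
  obtain ⟨α, rfl⟩ := hY; exact L_transitive α

theorem Lv_mem_or {A B : ZFSet.{0}} (hA : Lv A) (hB : Lv B) : A ∈ B ∨ A = B ∨ B ∈ A := by
  obtain ⟨α, rfl⟩ := hA
  obtain ⟨β, rfl⟩ := hB
  rcases lt_trichotomy α β with h | h | h
  · exact Or.inl (L_mem_of_lt h)
  · exact Or.inr (Or.inl (h ▸ rfl))
  · exact Or.inr (Or.inr (L_mem_of_lt h))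

end Pool.Agent.Solovay
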