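import Pool.Agent.Solovay.Card

/-! # The main argument -/

set_option linter.unusedVariables false

namespace Pool.Agent.Solovay

open Function Cardinal

variable {τ : Vocab}

/-- `θ` defines from `c` a code of a structure satisfying `ρ` (in the sense of `X`) -/
def WW (X : Set ZFSet.{0}) (θ : FL) (c : ZFSet.{0}) (ρ : SOF τ) : Prop :=
  ∃ x, x ∈ X ∧ (Dfs X θ c x ∧ ∃ d, d ∈ X ∧ ∃ U, U ∈ X ∧
    (x = ZFSet.pair d U ∧ StrOK τ d U ∧ HSs X d U ρ))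

theorem FD.ww (θ : FL) (ρ : SOF τ) {Γ : Type 1} {C : FCx Γ} {c : Γ → ZFSet.{0}} [hc : IsV C c] :
    FD C (fun X g => WW X θ (c g) ρ) := by
  have h1 : FD C.ext (fun X p => Dfs X θ (c p.1) p.2) := FD.dfs θ (C := C.ext)
  have h2 : FD C.ext.ext.ext (fun X p => StrOK τ p.1.2 p.2) :=
    FD.strOK (C := C.ext.ext.ext) (d := fun p => p.1.2) (U := fun p => p.2) inferInstance
      inferInstance
  have h3 : FD C.ext.ext.ext (fun X p => HSs X p.1.2 p.2 ρ) :=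
    FD.hs ρ (C := C.ext.ext.ext) (fun p => p.1.2) (fun p => p.2) (fun _ p => p.1.2)
      (fun _ _ p => p.1.2) inferInstance inferInstance (fun _ => inferInstance)
      (fun _ _ => inferInstance)
  unfold WW
  infer_instance

theorem exists_ww (θ : FL) (ρ : SOF τ) : ∃ φ : FL, ∀ X, Good X → ∀ c ∈ X,
    (WW X θ c ρ ↔ φ.Sat X (fun _ => c)) := by
  obtain ⟨φ, hφ⟩ := (FD.ww θ ρ (C := FCx.base) (c := fun g => g 0)).base_out
  exact ⟨φ, fun X hX c hc => hφ X hX (fun _ => c) (fun _ => hc)⟩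

/-- `θ` defines from `a` a code of `S` -/
def QQ (θ : FL) (S : Str τ) (a : ZFSet.{0}) : Prop :=
  ∃ d : ZFSet.{0}, d ∈ HH S.M ∧ ∃ U : ZFSet.{0}, U ∈ HH S.M ∧ ∃ x : ZFSet.{0}, x ∈ HH S.M ∧
    (x = ZFSet.pair d U ∧ Dfs (HH S.M) θ a x ∧ IsoC S d U)

def Lst (θ : FL) (n : ℕ) (S : Str τ) (a : ZFSet.{0}) : Prop :=
  FinLev n a ∧ QQ θ S a ∧ ∀ c : ZFSet.{0}, c ∈ HH S.M → cx c a → FinLev n c → ¬ QQ θ S c

theorem Lst.unique {θ : FL} {n : ℕ} {S : Str τ} {a a' : ZFSet.{0}} (h : Lst θ n S a)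
    (h' : Lst θ n S a') (ha : a ∈ HH S.M) (ha' : a' ∈ HH S.M) : a = a' := by
  rcases cx_trichotomy h.1 h'.1 with h1 | h1 | h1
  · exact absurd h.2.1 (h'.2.2 a ha h1 h.1)
  · exact h1
  · exact absurd h'.2.1 (h.2.2 a' ha' h1 h'.1)

section

variable {Γ : NStr τ → Type 1} {C : SCx τ Γ}

instance SD.qq (θ : FL) {a : ∀ B, Γ B → ZFSet.{0}} [ha : IsS C a] :
    SD C (fun B g => QQ θ B.S (a B g)) := by
  have h1 : SD (((C.ext kS).ext kS).ext kS) (fun B p => IsoC B.S p.1.1.2 p.1.2) :=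
    SD.isoC (C := ((C.ext kS).ext kS).ext kS) (d := fun B p => p.1.1.2) (U := fun B p => p.1.2)
  have h2 : SD (((C.ext kS).ext kS).ext kS) (fun B p => Dfs (HH B.M) θ (a B p.1.1.1) p.2) :=
    SD.dfsS (C := ((C.ext kS).ext kS).ext kS) θ (x := fun B p => a B p.1.1.1) (y := fun B p => p.2)
  unfold QQ
  infer_instance

instance SD.lst (θ : FL) (n : ℕ) {a : ∀ B, Γ B → ZFSet.{0}} [ha : IsS C a] :
    SD C (fun B g => Lst θ n B.S (a B g)) := by
  have h1 : SD (C.ext kS) (fun B p => QQ θ B.S p.2) := SD.qq (C := C.ext kS) θ (a := fun B p => p.2)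
  unfold Lst
  infer_instance

end

/-- transfer of properties of the least code -/
theorem transferLst {T : Set (SOF τ)} (hT : Complete T) {A B : Str τ} (hA : A.Models T)
    (hB : B.Models T) (hAi : Infinite A.M) (hBi : Infinite B.M) {θ : FL} {n : ℕ} {a b : ZFSet.{0}}
    (ha : a ∈ HH A.M) (hb : b ∈ HH B.M) (hLa : Lst θ n A a) (hLb : Lst θ n B b)
    (Q : Str τ → ZFSet.{0} → Prop) (hQ : SD ((SCx.base (τ := τ)).ext kS) (fun B p => Q B.S p.2))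
    (h : Q A a) : Q B b := by
  have h1 : SD ((SCx.base (τ := τ)).ext kS) (fun B p => Lst θ n B.S p.2) :=
    SD.lst (C := (SCx.base (τ := τ)).ext kS) θ n (a := fun B p => p.2)
  have h2 : SD (SCx.base (τ := τ)) (fun B _ => ∃ a : ZFSet.{0}, a ∈ HH B.M ∧
      (Lst θ n B.S a ∧ Q B.S a)) := inferInstance
  obtain ⟨b', hb', hL, hQb⟩ := transfer hT (P := fun S => ∃ a : ZFSet.{0}, a ∈ HH S.M ∧
      (Lst θ n S a ∧ Q S a)) h2 hA hB hAi hBi ⟨a, ha, hLa, h⟩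
  rw [hLb.unique hL hb hb']; exact hQb

/-- the reflecting statement -/
def Theta (R : Set (SOF τ)) (s1 s2 s3 θ : FL) (m : ℕ) (S : Str τ) (a : ZFSet.{0}) : Prop :=
  ∃ ζ : ZFSet.{0}, ζ ∈ HH S.M ∧ ∃ Y : ZFSet.{0}, Y ∈ HH S.M ∧ ∃ r : ZFSet.{0}, r ∈ HH S.M ∧
    (Dfs (HH S.M) s1 a ζ ∧ Dfs (HH S.M) s2 a Y ∧ Dfs (HH S.M) s3 a r ∧
    ∃ b : ZFSet.{0}, b ∈ HH S.M ∧ (FinLev m b ∧ (∀ u : ZFSet.{0}, u ∈ b → u ∈ ζ) ∧
    ∃ c' : ZFSet.{0}, c' ∈ Y ∧ (c' = r ∪ b ∧ ∃ x : ZFSet.{0}, x ∈ Y ∧ (Dfs (El Y) θ c' x ∧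
    ∃ d : ZFSet.{0}, d ∈ Y ∧ ∃ U : ZFSet.{0}, U ∈ Y ∧ (x = ZFSet.pair d U ∧ StrOK τ d U ∧
      (Good (El Y) ∧ d ∈ Y ∧ HSR R Y d U))))))

theorem SD.theta {R : Set (SOF τ)} (hR : RecursiveSet R) (hRs : ∀ φ ∈ R, φ.IsSentence)
    (s1 s2 s3 θ : FL) (m : ℕ) :
    SD ((SCx.base (τ := τ)).ext kS) (fun B p => Theta R s1 s2 s3 θ m B.S p.2) := by
  have h1 : SD (((((((((SCx.base (τ := τ)).ext kS).ext kS).ext kS).ext kS).ext kS).ext kS).ext
      kS).ext kS |>.ext kS) (fun (B : NStr τ) p =>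
      Good (El p.1.1.1.1.1.1.2) ∧ p.1.2 ∈ p.1.1.1.1.1.1.2 ∧ HSR R p.1.1.1.1.1.1.2 p.1.2 p.2) :=
    SD.hsr hR hRs (C := ((((((((SCx.base (τ := τ)).ext kS).ext kS).ext kS).ext kS).ext kS).ext kS).ext
      kS).ext kS |>.ext kS) (Y := fun B p => p.1.1.1.1.1.1.2)
      (d := fun B p => p.1.2) (U := fun B p => p.2)
  have h2 : SD ((((SCx.base (τ := τ)).ext kS).ext kS).ext kS |>.ext kS) (fun (B : NStr τ) p =>
      Dfs (HH B.M) s1 p.1.1.1.2 p.1.1.2) :=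
    SD.dfsS (C := (((SCx.base (τ := τ)).ext kS).ext kS).ext kS |>.ext kS) s1
      (x := fun B p => p.1.1.1.2) (y := fun B p => p.1.1.2)
  have h3 : SD ((((SCx.base (τ := τ)).ext kS).ext kS).ext kS |>.ext kS) (fun (B : NStr τ) p =>
      Dfs (HH B.M) s2 p.1.1.1.2 p.1.2) :=
    SD.dfsS (C := (((SCx.base (τ := τ)).ext kS).ext kS).ext kS |>.ext kS) s2
      (x := fun B p => p.1.1.1.2) (y := fun B p => p.1.2)
  have h4 : SD ((((SCx.base (τ := τ)).ext kS).ext kS).ext kS |>.ext kS) (fun (B : NStr τ) p =>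
      Dfs (HH B.M) s3 p.1.1.1.2 p.2) :=
    SD.dfsS (C := (((SCx.base (τ := τ)).ext kS).ext kS).ext kS |>.ext kS) s3
      (x := fun B p => p.1.1.1.2) (y := fun B p => p.2)
  have h5 : SD ((((((SCx.base (τ := τ)).ext kS).ext kS).ext kS |>.ext kS).ext kS).ext kS |>.ext kS)
      (fun (B : NStr τ) p => Dfs (El p.1.1.1.1.2) θ p.1.2 p.2) :=
    SD.dfsElS (C := (((((SCx.base (τ := τ)).ext kS).ext kS).ext kS |>.ext kS).ext kS).ext kS |>.ext kS)
      θ (Y := fun B p => p.1.1.1.1.2) (x := fun B p => p.1.2) (y := fun B p => p.2)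
  unfold Theta
  infer_instance

theorem Good.mem_of_finite {X : Set ZFSet.{0}} (hX : Good X) {c : ZFSet.{0}} (hc : (El c).Finite)
    (hcX : El c ⊆ X) : c ∈ X := by
  obtain ⟨y, hy, he⟩ := hX.finite_mem hc hcX
  rw [← El_inj he]; exact hy

/-- a trivial sentence -/
def rho0 : SOF τ := .all 0 (.eq 0 0)

theorem rho0_sentence : (rho0 : SOF τ).IsSentence := by
  refine ⟨?_, rfl⟩
  simp [rho0, SOF.freeE]

theorem rho0_sat (B : Str τ) : B.Satisfies rho0 := fun v V a => rfl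

theorem WW.all {X : Set ZFSet.{0}} {θ : FL} {c : ZFSet.{0}} {S : Set (SOF τ)}
    (h0 : WW X θ c (rho0 : SOF τ)) (h : ∀ ρ ∈ S, WW X θ c ρ) :
    ∃ x, x ∈ X ∧ (Dfs X θ c x ∧ ∃ d, d ∈ X ∧ ∃ U, U ∈ X ∧
      (x = ZFSet.pair d U ∧ StrOK τ d U ∧ ∀ ρ ∈ S, HSs X d U ρ)) := by
  obtain ⟨x, hx, hdx, d, hd, U, hU, rfl, hok, _⟩ := h0
  refine ⟨_, hx, hdx, d, hd, U, hU, rfl, hok, fun ρ hρ => ?_⟩
  obtain ⟨x', hx', hdx', d', hd', U', hU', rfl, hok', hh⟩ := h ρ hρ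
  obtain ⟨rfl, rfl⟩ := ZFSet.pair_inj.1 (hdx.unique hdx' hx)
  exact hh

theorem main_inf (hVL : VEqualsL) {T R : Set (SOF τ)} (hT : Complete T)
    (hRs : ∀ φ ∈ R, φ.IsSentence) (hR : RecursiveSet R)
    (hTR : ∀ B : Str τ, B.Models T ↔ B.Models R) (hinf : ∀ B : Str τ, B.Models T → Infinite B.M) :
    Categorical T := by
  obtain ⟨A0, hA0⟩ := hT.1
  have hA0i := hinf A0 hA0
  obtain ⟨γ, hγ⟩ : ∃ γ, γ = gam A0.M := ⟨_, rfl⟩
  have h0 : 0 < γ := hγ ▸ gam_pos _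
  have hs : ∀ α < γ, Order.succ α < γ := hγ ▸ gam_succ _
  have hHH : ∀ B : Str τ, B.Models T → HH B.M = El (L γ) := fun B hB => by
    have := hinf B hB
    rw [HH_congr (card_eq hVL hT hRs hR hTR hinf hB hA0), HH_eq hVL, hγ]
  have hX := good_L h0 hs
  obtain ⟨X, hXdef⟩ : ∃ X, X = El (L γ) := ⟨_, rfl⟩
  rw [← hXdef] at hHH hX
  have hSub : SubC X := by rw [← hHH A0 hA0]; exact SubC_HH _
  have hFull : ∀ d ∈ X, FullFor X d := by
    intro d hd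
    rw [← hHH A0 hA0] at hd ⊢
    exact fullFor_HH hd
  -- the codes
  let AA : Set ZFSet.{0} := {a | (∃ n, FinLev n a) ∧ a ∈ X ∧ ∃ d U, ZFSet.pair d U ∈ dcl X {a} ∧
    ∃ B : Str τ, B.Models T ∧ IsoC B d U}
  have hne : AA.Nonempty := by
    obtain ⟨d, U, hd, hU, hiso⟩ := exists_isoC A0
    rw [hHH A0 hA0] at hd hU
    have hp := hX.pair hd hU
    rw [hXdef] at hp
    obtain ⟨a, n, h1, h2, h3⟩ := exists_fin_all h0 hs hp
    rw [← hXdef] at h2 h3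
    exact ⟨a, ⟨n, h1⟩, h2, d, U, h3, A0, hA0, hiso⟩
  obtain ⟨a0, ha0, hmin⟩ := exists_cx_min hne (fun a ha => ha.1)
  obtain ⟨⟨n0, hn0⟩, ha0X, d0, U0, hdef0, B0, hB0, hiso0⟩ := ha0
  have hall : ∀ B, B.Models T → IsoC B d0 U0 := by
    intro B1 hB1
    by_contra hno
    have hB0i := hinf B0 hB0
    have hB1i := hinf B1 hB1
    have hH0 := hHH B0 hB0
    have hH1 := hHH B1 hB1
    obtain ⟨hx0X, θ, hθ⟩ := mem_dcl_single.1 hdef0
    obtain ⟨hd0X, hU0X⟩ := hX.of_pair hx0X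
    -- `a0` is the least code
    have hL0 : Lst θ n0 B0 a0 := by
      refine ⟨hn0, ?_, ?_⟩
      · unfold QQ
        rw [hH0]
        exact ⟨d0, hd0X, U0, hU0X, _, hx0X, rfl, hθ, hiso0⟩
      · unfold QQ
        rw [hH0]
        rintro c hc hcx hcn ⟨d, hd, U, hU, x, hx, rfl, hdf, hiso⟩
        exact hmin c ⟨⟨n0, hcn⟩, hc, d, U, mem_dcl_single.2 ⟨hx, θ, hdf⟩, B0, hB0, hiso⟩ hcx
    have hP : SD (SCx.base (τ := τ)) (fun B _ => ∃ a : ZFSet.{0}, a ∈ HH B.M ∧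
        Lst θ n0 B.S a) := by
      have h1 : SD ((SCx.base (τ := τ)).ext kS) (fun B p => Lst θ n0 B.S p.2) :=
        SD.lst (C := (SCx.base (τ := τ)).ext kS) θ n0 (a := fun B p => p.2)
      infer_instance
    obtain ⟨a1, ha1, hL1⟩ := transfer hT (P := fun S => ∃ a : ZFSet.{0}, a ∈ HH S.M ∧ Lst θ n0 S a)
      hP hB0 hB1 hB0i hB1i ⟨a0, by rw [hH0]; exact ha0X, hL0⟩
    have ha1X : a1 ∈ X := by rw [← hH1]; exact ha1
    have ha0' : a0 ∈ HH B0.M := by rw [hH0]; exact ha0X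
    have T01 := fun (Q : Str τ → ZFSet.{0} → Prop) hQ =>
      transferLst hT hB0 hB1 hB0i hB1i ha0' ha1 hL0 hL1 Q hQ
    have T10 := fun (Q : Str τ → ZFSet.{0} → Prop) hQ =>
      transferLst hT hB1 hB0 hB1i hB0i ha1 ha0' hL1 hL0 Q hQ
    -- minimality
    have hmin1 : ∀ c m, FinLev m c → c ∈ X → cx c a1 → a1 ∉ dcl X {c} := by
      intro c m hc hcX hcx hmem
      obtain ⟨_, θ', hθ'⟩ := mem_dcl_single.1 hmem
      have h1 := T01 (fun S a => ∀ c : ZFSet.{0}, c ∈ HH S.M → FinLev m c → cx c a →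
        ¬ Dfs (HH S.M) θ' c a) (by
          have h1 : SD (((SCx.base (τ := τ)).ext kS).ext kS) (fun B p =>
              Dfs (HH B.M) θ' p.2 p.1.2) :=
            SD.dfsS (C := ((SCx.base (τ := τ)).ext kS).ext kS) θ' (x := fun B p => p.2)
              (y := fun B p => p.1.2)
          infer_instance) (by
          rw [hH0]
          intro c hc hcm hcx hdf
          refine hmin c ⟨⟨m, hcm⟩, hc, d0, U0, ?_, B0, hB0, hiso0⟩ hcx
          have hcX : ({c} : Set ZFSet.{0}) ⊆ X := by rintro _ rfl; exact hc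
          refine dcl_dcl hX hcX ⟨c, rfl⟩ (dcl_mono ?_ hdef0)
          rintro _ rfl
          exact mem_dcl_single.2 ⟨ha0X, θ', hdf⟩)
      rw [hH1] at h1
      exact h1 c hcX hc hcx hθ'
    -- the comparison of `a0` and `a1`
    obtain ⟨d1, hd1, U1, hU1, x1, hx1, rfl, hdf1, hiso1⟩ := hL1.2.1
    rw [hH1] at hdf1 hx1
    have hne01 : ¬ a0 = a1 := by
      rintro rfl
      obtain ⟨rfl, rfl⟩ := ZFSet.pair_inj.1 (hdf1.unique hθ hx1)
      exact hno hiso1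
    have hn10 : ¬ cx a1 a0 := hmin a1 ⟨⟨n0, hL1.1⟩, ha1X, d1, U1, mem_dcl_single.2 ⟨hx1, θ, hdf1⟩,
      B1, hB1, hiso1⟩
    have hcx : cx a0 a1 := by
      rcases cx_trichotomy hn0 hL1.1 with h | h | h
      · exact h
      · exact absurd h hne01
      · exact absurd h hn10
    obtain ⟨ζ, hζ1, hζ0, hab, hba⟩ := hcx
    have hζL : Lv ζ := hL1.1.1 ζ hζ1
    let y1 : ZFSet.{0} := ZFSet.sep (fun y => y ∈ ζ) a0
    have hy1 : ∀ y, y ∈ y1 ↔ y ∈ a0 ∧ y ∈ ζ := fun y => ZFSet.mem_sep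
    have hy1X : y1 ∈ X := hSub a0 ha0X y1 (fun y hy => ((hy1 y).1 hy).1)
    obtain ⟨m, hm⟩ := finLev_of (a := y1) (hn0.finite.subset fun y hy => ((hy1 y).1 hy).1)
      (fun y hy => hn0.1 y ((hy1 y).1 hy).1)
    have htri : ∀ y, y ∈ a0 → y ∈ ζ ∨ ζ ∈ y := by
      intro y hy
      rcases Lv_mem_or (hn0.1 y hy) hζL with h | h | h
      · exact Or.inl h
      · subst h; exact absurd hy hζ0
      · exact Or.inr h
    have hz : ∃ z, z ∈ ζ ∧ Lv z := by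
      by_contra hcon
      have h1 : El a0 ⊆ El a1 := by
        intro y hy
        rcases htri y hy with h | h
        · exact absurd ⟨y, h, hn0.1 y hy⟩ hcon
        · exact hab y hy h
      have h2 : El a0 ⊂ El a1 := ⟨h1, fun h => hζ0 (h hζ1)⟩
      have h3 := hn0.finite.encard_lt_encard h2
      rw [hn0.2, hL1.1.2] at h3
      exact lt_irrefl _ h3
    -- the core lemma
    have hcore := core h0 hs hL1.1 (by rw [← hXdef]; exact ha1X) (by rw [← hXdef]; exact hmin1)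
      hζ1 hz m
    rw [← hXdef] at hcore
    obtain ⟨Y, r, hY, hr, hYg, hCap⟩ := hcore
    have hζd : ζ ∈ dcl X {a1} := by
      have hsing : ({a1} : Set ZFSet.{0}) ⊆ X := by rintro _ rfl; exact ha1X
      have h1 := subset_dcl hX hsing rfl
      rw [hXdef] at hsing h1 ⊢
      exact elem_fin_subset h0 hs (elem_dcl h0 hs hsing ⟨a1, rfl⟩) n0 a1 h1 hL1.1 hζ1
    obtain ⟨hζX, s1, hs1⟩ := mem_dcl_single.1 hζd
    obtain ⟨hYX, s2, hs2⟩ := mem_dcl_single.1 hY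
    obtain ⟨hrX, s3, hs3⟩ := mem_dcl_single.1 hr
    let p1 : ZFSet.{0} := ZFSet.sep (fun y => ζ ∈ y) a1
    have hp1 : IsTop ζ a1 p1 :=
      ⟨fun y hy => ZFSet.mem_sep.1 hy, fun y h1 h2 => ZFSet.mem_sep.2 ⟨h1, h2⟩⟩
    have hp1X : p1 ∈ X := hSub a1 ha1X p1 (fun y hy => (hp1.1 y hy).1)
    have ha0u : a0 = p1 ∪ y1 := by
      ext y
      rw [ZFSet.mem_union]
      constructor
      · intro hy
        rcases htri y hy with h | h
        · exact Or.inr ((hy1 y).2 ⟨hy, h⟩)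
        · exact Or.inl (hp1.2 y (hab y hy h) h)
      · rintro (h | h)
        · exact hba y (hp1.1 y h).1 (hp1.1 y h).2
        · exact ((hy1 y).1 h).1
    have hWY : ∀ ρ : SOF τ, ρ.IsSentence → B0.Satisfies ρ →
        (r ∪ y1 ∈ Y ∧ WW (El Y) θ (r ∪ y1) ρ) := by
      intro ρ hρ hsat
      have hW : WW X θ a0 ρ := ⟨_, hx0X, hθ, d0, hd0X, U0, hU0X, rfl, hiso0.strOK,
        (hiso0.hs (hFull d0 hd0X) hρ).1 hsat⟩
      obtain ⟨φ, hφ⟩ := exists_ww θ ρ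
      obtain ⟨c', hc', rfl, hiff⟩ := hCap φ p1 hp1X hp1 y1 hy1X hm (fun u hu => ((hy1 u).1 hu).2)
        a0 ha0X ha0u
      exact ⟨hc', (hφ (El Y) hYg _ hc').2 (hiff.1 ((hφ X hX a0 ha0X).1 hW))⟩
    have hTh1 : Theta R s1 s2 s3 θ m B1 a1 := by
      obtain ⟨hcY, hW0⟩ := hWY rho0 rho0_sentence (rho0_sat B0)
      obtain ⟨x, hx, hdx, d, hd, U, hU, hxe, hok, hall⟩ := hW0.all (S := R)
        (fun ρ hρ => (hWY ρ (hRs ρ hρ) ((hTR B0).1 hB0 ρ hρ)).2)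
      unfold Theta
      rw [hH1]
      exact ⟨ζ, hζX, Y, hYX, r, hrX, hs1, hs2, hs3, y1, hy1X, hm, fun u hu => ((hy1 u).1 hu).2,
        _, hcY, rfl, x, hx, hdx, d, hd, U, hU, hxe, hok, hYg, hd, hall⟩
    have hTh0 : Theta R s1 s2 s3 θ m B0 a0 := T10 _ (SD.theta hR hRs s1 s2 s3 θ m) hTh1
    unfold Theta at hTh0
    rw [hH0] at hTh0
    obtain ⟨ζ', hζ'X, Y', hY'X, r', hr'X, hs1', hs2', hs3', b, hbX, hbm, hbζ, c', hc'Y, rfl,
      x, hx, hdx, d, hd, U, hU, hxe, hok, hYg', _, hhs⟩ := hTh0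
    have hCap' : ∀ φ, Cap φ m X a0 ζ' Y' r' := by
      intro φ
      have h1 := T10 (fun S a => ∀ ζ : ZFSet.{0}, ζ ∈ HH S.M → ∀ Y : ZFSet.{0}, Y ∈ HH S.M →
        ∀ r : ZFSet.{0}, r ∈ HH S.M → Dfs (HH S.M) s1 a ζ → Dfs (HH S.M) s2 a Y →
        Dfs (HH S.M) s3 a r → Cap φ m (HH S.M) a ζ Y r) (by
          have h1 : SD ((((SCx.base (τ := τ)).ext kS).ext kS).ext kS |>.ext kS) (fun B p =>
              Dfs (HH B.M) s1 p.1.1.1.2 p.1.1.2) :=
            SD.dfsS (C := (((SCx.base (τ := τ)).ext kS).ext kS).ext kS |>.ext kS) s1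
              (x := fun B p => p.1.1.1.2) (y := fun B p => p.1.1.2)
          have h2 : SD ((((SCx.base (τ := τ)).ext kS).ext kS).ext kS |>.ext kS) (fun B p =>
              Dfs (HH B.M) s2 p.1.1.1.2 p.1.2) :=
            SD.dfsS (C := (((SCx.base (τ := τ)).ext kS).ext kS).ext kS |>.ext kS) s2
              (x := fun B p => p.1.1.1.2) (y := fun B p => p.1.2)
          have h3 : SD ((((SCx.base (τ := τ)).ext kS).ext kS).ext kS |>.ext kS) (fun B p =>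
              Dfs (HH B.M) s3 p.1.1.1.2 p.2) :=
            SD.dfsS (C := (((SCx.base (τ := τ)).ext kS).ext kS).ext kS |>.ext kS) s3
              (x := fun B p => p.1.1.1.2) (y := fun B p => p.2)
          have h4 : SD ((((SCx.base (τ := τ)).ext kS).ext kS).ext kS |>.ext kS) (fun B p =>
              Cap φ m (HH B.M) p.1.1.1.2 p.1.1.2 p.1.2 p.2) :=
            SD.capS (C := (((SCx.base (τ := τ)).ext kS).ext kS).ext kS |>.ext kS) φ m
              (a := fun B p => p.1.1.1.2) (ζ := fun B p => p.1.1.2) (Y := fun B p => p.1.2)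
              (r := fun B p => p.2)
          infer_instance) (by
          rw [hH1]
          intro ζ'' h1 Y'' h2 r'' h3 e1 e2 e3
          rw [e1.unique hs1 h1, e2.unique hs2 h2, e3.unique hs3 h3]
          exact hCap φ)
      rw [hH0] at h1
      exact h1 ζ' hζ'X Y' hY'X r' hr'X hs1' hs2' hs3'
    have hζ'a : ζ' ∈ a0 := by
      have h1 := T10 (fun S a => ∀ ζ : ZFSet.{0}, ζ ∈ HH S.M → Dfs (HH S.M) s1 a ζ → ζ ∈ a) (by
          have h1 : SD (((SCx.base (τ := τ)).ext kS).ext kS) (fun B p =>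
              Dfs (HH B.M) s1 p.1.2 p.2) :=
            SD.dfsS (C := ((SCx.base (τ := τ)).ext kS).ext kS) s1 (x := fun B p => p.1.2)
              (y := fun B p => p.2)
          infer_instance) (by
          rw [hH1]
          intro ζ'' h1 e1
          rw [e1.unique hs1 h1]
          exact hζ1)
      rw [hH0] at h1
      exact h1 ζ' hζ'X hs1'
    -- the smaller code
    let p0 : ZFSet.{0} := ZFSet.sep (fun y => ζ' ∈ y) a0
    have hp0 : IsTop ζ' a0 p0 :=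
      ⟨fun y hy => ZFSet.mem_sep.1 hy, fun y h1 h2 => ZFSet.mem_sep.2 ⟨h1, h2⟩⟩
    have hp0X : p0 ∈ X := hSub a0 ha0X p0 (fun y hy => (hp0.1 y hy).1)
    have hc0f : (El (p0 ∪ b)).Finite := by
      refine (hn0.finite.union hbm.finite).subset fun y hy => ?_
      have hy' : y ∈ p0 ∪ b := hy
      rw [ZFSet.mem_union] at hy'
      rcases hy' with h | h
      · exact Or.inl (hp0.1 y h).1
      · exact Or.inr h
    have hc0X : p0 ∪ b ∈ X := by
      refine hX.mem_of_finite hc0f fun y hy => ?_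
      have hy' : y ∈ p0 ∪ b := hy
      rw [ZFSet.mem_union] at hy'
      rcases hy' with h | h
      · exact hX.tr _ hp0X _ h
      · exact hX.tr _ hbX _ h
    have hc0L : ∀ y ∈ p0 ∪ b, Lv y := by
      intro y hy
      rw [ZFSet.mem_union] at hy
      rcases hy with h | h
      · exact hn0.1 y (hp0.1 y h).1
      · exact hbm.1 y h
    obtain ⟨k, hk⟩ := finLev_of hc0f hc0L
    have hcx0 : cx (p0 ∪ b) a0 := by
      refine ⟨ζ', hζ'a, ?_, ?_, ?_⟩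
      · rw [ZFSet.mem_union]
        rintro (h | h)
        · exact ZFSet.mem_irrefl _ (hp0.1 _ h).2
        · exact ZFSet.mem_irrefl _ (hbζ _ h)
      · intro y hy hζy
        rw [ZFSet.mem_union] at hy
        rcases hy with h | h
        · exact (hp0.1 y h).1
        · exact absurd (hbζ y h) (ZFSet.mem_asymm hζy)
      · intro y hy hζy
        rw [ZFSet.mem_union]
        exact Or.inl (hp0.2 y hy hζy)
    have hWX : ∀ ρ : SOF τ, HSs (El Y') d U ρ → WW X θ (p0 ∪ b) ρ := by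
      intro ρ hρ
      have hW : WW (El Y') θ (r' ∪ b) ρ := ⟨x, hx, hdx, d, hd, U, hU, hxe, hok, hρ⟩
      obtain ⟨φ, hφ⟩ := exists_ww θ ρ
      obtain ⟨c'', hc'', rfl, hiff⟩ := hCap' φ p0 hp0X hp0 b hbX hbm hbζ _ hc0X rfl
      exact (hφ X hX _ hc0X).2 (hiff.2 ((hφ (El Y') hYg' _ hc'').1 hW))
    have hrho0 : HSs (El Y') d U (rho0 : SOF τ) := fun a _ => rfl
    obtain ⟨x', hx', hdx', d', hd', U', hU', rfl, hok', hall'⟩ :=
      (hWX rho0 hrho0).all (S := R) (fun ρ hρ => hWX ρ (hhs ρ hρ))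
    obtain ⟨B', hB'⟩ := hok'.realize
    have hB'T : B'.Models T := (hTR B').2 fun φ hφ =>
      (hB'.hs (hFull d' hd') (hRs φ hφ)).2 (hall' φ hφ)
    exact hmin (p0 ∪ b) ⟨⟨k, hk⟩, hc0X, d', U', mem_dcl_single.2 ⟨hx', θ, hdx'⟩, B', hB'T, hB'⟩ hcx0
  intro A B hA hB
  exact (hall A hA).iso (hall B hB)

end Pool.Agent.Solovay
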