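import Pool.Agent.Solovay.HH

/-! # Second-order definability: contexts and closure properties -/

namespace Pool.Agent.Solovay

open Function

universe u w

variable {τ : Vocab}

/-- a structure together with a copy of the natural numbers -/
structure NStr (τ : Vocab) where
  S : Str τ
  ν : ℕ → S.M
  inj : Injective ν

abbrev NStr.M (B : NStr τ) : Type := B.S.M

abbrev Rel3 (M : Type) : Type := M → M → M → Prop

/-- the graph of the successor on the copy of the natural numbers -/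
def NStr.succR (B : NStr τ) : Rel3 B.M := fun x y _ => ∃ n, x = B.ν n ∧ y = B.ν (n + 1)

/-- contexts -/
structure SCx (τ : Vocab) (Γ : NStr τ → Type u) where
  k : ℕ
  l : ℕ
  ok : ∀ B : NStr τ, Γ B → (ℕ → B.M) → (ℕ → Rel3 B.M) → Prop
  congr : ∀ B g v v' V V', (∀ i < k, v i = v' i) → (∀ j < l, V j = V' j) →
    ok B g v V → ok B g v' V'
  k0 : 0 < k
  l0 : 0 < l
  z : ∀ B g v V, ok B g v V → v 0 = B.ν 0
  s : ∀ B g v V, ok B g v V → V 0 = B.succR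

/-- kinds of variables -/
structure Kd (τ : Vocab) (A : NStr τ → Type w) where
  a : ℕ
  b : ℕ
  cod : ∀ B : NStr τ, A B → (ℕ → B.M) → (ℕ → Rel3 B.M) → Prop
  congr : ∀ B x v v' V V', (∀ i < a, v i = v' i) → (∀ j < b, V j = V' j) →
    cod B x v V → cod B x v' V'

variable {Γ : NStr τ → Type u} {A : NStr τ → Type w}

def SCx.ext (C : SCx τ Γ) (K : Kd τ A) : SCx τ (fun B => Γ B × A B) where
  k := C.k + K.a
  l := C.l + K.b
  ok B p v V := C.ok B p.1 v V ∧ K.cod B p.2 (fun i => v (C.k + i)) (fun j => V (C.l + j))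
  congr B p v v' V V' h1 h2 h := by
    refine ⟨C.congr B p.1 v v' V V' (fun i hi => h1 i (by omega)) (fun j hj => h2 j (by omega)) h.1,
      K.congr B p.2 _ _ _ _ (fun i hi => h1 _ (by omega)) (fun j hj => h2 _ (by omega)) h.2⟩
  k0 := by have := C.k0; omega
  l0 := by have := C.l0; omega
  z B p v V h := C.z B p.1 v V h.1
  s B p v V h := C.s B p.1 v V h.1

/-- element variables -/
def kE : Kd τ (fun B => B.M) where
  a := 1
  b := 0
  cod _ x v _ := v 0 = x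
  congr _ x v v' V V' h1 _ h := by rw [← h1 0 (by omega)]; exact h

/-- relation variables -/
def kR : Kd τ (fun B => Rel3 B.M) where
  a := 0
  b := 1
  cod _ x _ V := V 0 = x
  congr _ x v v' V V' _ h2 h := by rw [← h2 0 (by omega)]; exact h

/-- number variables -/
def kN : Kd τ (fun _ => ℕ) where
  a := 1
  b := 0
  cod B n v _ := v 0 = B.ν n
  congr _ x v v' V V' h1 _ h := by rw [← h1 0 (by omega)]; exact h

/-- the set coded by a point of a relation -/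
noncomputable def decW {M : Type} (E : M → M → Prop) (h : WellFounded E) : M → ZFSet.{0} :=
  h.fix fun x ih => ZFSet.range fun y : {y // E y x} => ih y.1 y.2

open Classical in
/-- the set coded by a point of a relation (`∅` if the relation is not well-founded) -/
noncomputable def dec {M : Type} (R : Rel3 M) (a : M) : ZFSet.{0} :=
  if h : WellFounded (fun x y => R x y y) then decW _ h a else ∅

/-- set variables -/
noncomputable def kS : Kd τ (fun _ => ZFSet.{0}) where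
  a := 1
  b := 1
  cod _ x v V := dec (V 0) (v 0) = x
  congr _ x v v' V V' h1 h2 h := by rw [← h1 0 (by omega), ← h2 0 (by omega)]; exact h

class IsE (C : SCx τ Γ) (x : ∀ B, Γ B → B.M) : Prop where
  out : ∃ i < C.k, ∀ B g v V, C.ok B g v V → v i = x B g

class IsR (C : SCx τ Γ) (R : ∀ B : NStr τ, Γ B → Rel3 B.M) : Prop where
  out : ∃ j < C.l, ∀ B g v V, C.ok B g v V → V j = R B g

class IsN (C : SCx τ Γ) (n : ∀ B, Γ B → ℕ) : Prop where
  out : ∃ i < C.k, ∀ B g v V, C.ok B g v V → v i = B.ν (n B g)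

class IsS (C : SCx τ Γ) (x : ∀ B, Γ B → ZFSet.{0}) : Prop where
  out : ∃ i < C.k, ∃ j < C.l, ∀ B g v V, C.ok B g v V → dec (V j) (v i) = x B g

variable {C : SCx τ Γ}

instance IsE.new : IsE (C.ext kE) (fun _ p => p.2) :=
  ⟨C.k, by simp [SCx.ext, kE], fun _ _ _ _ h => h.2⟩

instance IsR.new : IsR (C.ext kR) (fun _ p => p.2) :=
  ⟨C.l, by simp [SCx.ext, kR], fun _ _ _ _ h => h.2⟩

instance IsN.new : IsN (C.ext kN) (fun _ p => p.2) :=
  ⟨C.k, by simp [SCx.ext, kN], fun _ _ _ _ h => h.2⟩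

instance IsS.new : IsS (C.ext kS) (fun _ p => p.2) :=
  ⟨C.k, by simp [SCx.ext, kS], C.l, by simp [SCx.ext, kS], fun _ _ _ _ h => h.2⟩

instance IsE.ofN {n : ∀ B, Γ B → ℕ} [h : IsN C n] : IsE C (fun B g => B.ν (n B g)) := ⟨h.out⟩

instance IsE.zero : IsE C (fun B _ => B.ν 0) := ⟨0, C.k0, C.z⟩

instance IsN.zero : IsN C (fun _ _ => 0) := ⟨0, C.k0, C.z⟩

instance IsR.succ : IsR C (fun B _ => B.succR) := ⟨0, C.l0, C.s⟩

instance IsS.dec {R : ∀ B, Γ B → Rel3 B.M} {a : ∀ B, Γ B → B.M} [hR : IsR C R] [ha : IsE C a] :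
    IsS C (fun B g => dec (R B g) (a B g)) := by
  obtain ⟨j, hj, hR⟩ := hR.out
  obtain ⟨i, hi, ha⟩ := ha.out
  exact ⟨i, hi, j, hj, fun B g v V h => by rw [hR B g v V h, ha B g v V h]⟩

theorem IsE.wk {x : ∀ B, Γ B → B.M} (h : IsE C x) (K : Kd τ A) :
    IsE (C.ext K) (fun B p => x B p.1) := by
  obtain ⟨i, hi, hx⟩ := h.out
  exact ⟨i, by simp only [SCx.ext]; omega, fun B p v V h => hx B p.1 v V h.1⟩

theorem IsR.wk {x : ∀ B, Γ B → Rel3 B.M} (h : IsR C x) (K : Kd τ A) :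
    IsR (C.ext K) (fun B p => x B p.1) := by
  obtain ⟨i, hi, hx⟩ := h.out
  exact ⟨i, by simp only [SCx.ext]; omega, fun B p v V h => hx B p.1 v V h.1⟩

theorem IsN.wk {x : ∀ B, Γ B → ℕ} (h : IsN C x) (K : Kd τ A) :
    IsN (C.ext K) (fun B p => x B p.1) := by
  obtain ⟨i, hi, hx⟩ := h.out
  exact ⟨i, by simp only [SCx.ext]; omega, fun B p v V h => hx B p.1 v V h.1⟩

theorem IsS.wk {x : ∀ B, Γ B → ZFSet.{0}} (h : IsS C x) (K : Kd τ A) :
    IsS (C.ext K) (fun B p => x B p.1) := by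
  obtain ⟨i, hi, j, hj, hx⟩ := h.out
  exact ⟨i, by simp only [SCx.ext]; omega, j, by simp only [SCx.ext]; omega,
    fun B p v V h => hx B p.1 v V h.1⟩

universe w1 w2 w3 w4 w5 w6 w7 w8 w9 w10 w11 w12 w13 w14 w15 w16

variable {A1 : NStr τ → Type w1} {K1 : Kd τ A1}
variable {A2 : NStr τ → Type w2} {K2 : Kd τ A2}
variable {A3 : NStr τ → Type w3} {K3 : Kd τ A3}
variable {A4 : NStr τ → Type w4} {K4 : Kd τ A4}
variable {A5 : NStr τ → Type w5} {K5 : Kd τ A5}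
variable {A6 : NStr τ → Type w6} {K6 : Kd τ A6}
variable {A7 : NStr τ → Type w7} {K7 : Kd τ A7}
variable {A8 : NStr τ → Type w8} {K8 : Kd τ A8}
variable {A9 : NStr τ → Type w9} {K9 : Kd τ A9}
variable {A10 : NStr τ → Type w10} {K10 : Kd τ A10}
variable {A11 : NStr τ → Type w11} {K11 : Kd τ A11}
variable {A12 : NStr τ → Type w12} {K12 : Kd τ A12}
variable {A13 : NStr τ → Type w13} {K13 : Kd τ A13}
variable {A14 : NStr τ → Type w14} {K14 : Kd τ A14}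
variable {A15 : NStr τ → Type w15} {K15 : Kd τ A15}
variable {A16 : NStr τ → Type w16} {K16 : Kd τ A16}

instance IsE.wk1 {x : ∀ B, Γ B → B.M} [h : IsE C x] :
    IsE (C.ext K1) (fun B p => x B p.1) :=
  (h.wk K1)

instance IsE.wk2 {x : ∀ B, Γ B → B.M} [h : IsE C x] :
    IsE ((C.ext K1).ext K2) (fun B p => x B p.1.1) :=
  ((h.wk K1).wk K2)

instance IsE.wk3 {x : ∀ B, Γ B → B.M} [h : IsE C x] :
    IsE (((C.ext K1).ext K2).ext K3) (fun B p => x B p.1.1.1) :=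
  (((h.wk K1).wk K2).wk K3)

instance IsE.wk4 {x : ∀ B, Γ B → B.M} [h : IsE C x] :
    IsE ((((C.ext K1).ext K2).ext K3).ext K4) (fun B p => x B p.1.1.1.1) :=
  ((((h.wk K1).wk K2).wk K3).wk K4)

instance IsE.wk5 {x : ∀ B, Γ B → B.M} [h : IsE C x] :
    IsE (((((C.ext K1).ext K2).ext K3).ext K4).ext K5) (fun B p => x B p.1.1.1.1.1) :=
  (((((h.wk K1).wk K2).wk K3).wk K4).wk K5)

instance IsE.wk6 {x : ∀ B, Γ B → B.M} [h : IsE C x] :
    IsE ((((((C.ext K1).ext K2).ext K3).ext K4).ext K5).ext K6) (fun B p => x B p.1.1.1.1.1.1) :=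
  ((((((h.wk K1).wk K2).wk K3).wk K4).wk K5).wk K6)

instance IsE.wk7 {x : ∀ B, Γ B → B.M} [h : IsE C x] :
    IsE (((((((C.ext K1).ext K2).ext K3).ext K4).ext K5).ext K6).ext K7) (fun B p => x B p.1.1.1.1.1.1.1) :=
  (((((((h.wk K1).wk K2).wk K3).wk K4).wk K5).wk K6).wk K7)

instance IsE.wk8 {x : ∀ B, Γ B → B.M} [h : IsE C x] :
    IsE ((((((((C.ext K1).ext K2).ext K3).ext K4).ext K5).ext K6).ext K7).ext K8) (fun B p => x B p.1.1.1.1.1.1.1.1) :=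
  ((((((((h.wk K1).wk K2).wk K3).wk K4).wk K5).wk K6).wk K7).wk K8)

instance IsE.wk9 {x : ∀ B, Γ B → B.M} [h : IsE C x] :
    IsE (((((((((C.ext K1).ext K2).ext K3).ext K4).ext K5).ext K6).ext K7).ext K8).ext K9) (fun B p => x B p.1.1.1.1.1.1.1.1.1) :=
  (((((((((h.wk K1).wk K2).wk K3).wk K4).wk K5).wk K6).wk K7).wk K8).wk K9)

instance IsE.wk10 {x : ∀ B, Γ B → B.M} [h : IsE C x] :
    IsE ((((((((((C.ext K1).ext K2).ext K3).ext K4).ext K5).ext K6).ext K7).ext K8).ext K9).ext K10) (fun B p => x B p.1.1.1.1.1.1.1.1.1.1) :=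
  ((((((((((h.wk K1).wk K2).wk K3).wk K4).wk K5).wk K6).wk K7).wk K8).wk K9).wk K10)

instance IsE.wk11 {x : ∀ B, Γ B → B.M} [h : IsE C x] :
    IsE (((((((((((C.ext K1).ext K2).ext K3).ext K4).ext K5).ext K6).ext K7).ext K8).ext K9).ext K10).ext K11) (fun B p => x B p.1.1.1.1.1.1.1.1.1.1.1) :=
  (((((((((((h.wk K1).wk K2).wk K3).wk K4).wk K5).wk K6).wk K7).wk K8).wk K9).wk K10).wk K11)

instance IsE.wk12 {x : ∀ B, Γ B → B.M} [h : IsE C x] :
    IsE ((((((((((((C.ext K1).ext K2).ext K3).ext K4).ext K5).ext K6).ext K7).ext K8).ext K9).ext K10).ext K11).ext K12) (fun B p => x B p.1.1.1.1.1.1.1.1.1.1.1.1) :=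
  ((((((((((((h.wk K1).wk K2).wk K3).wk K4).wk K5).wk K6).wk K7).wk K8).wk K9).wk K10).wk K11).wk K12)

instance IsE.wk13 {x : ∀ B, Γ B → B.M} [h : IsE C x] :
    IsE (((((((((((((C.ext K1).ext K2).ext K3).ext K4).ext K5).ext K6).ext K7).ext K8).ext K9).ext K10).ext K11).ext K12).ext K13) (fun B p => x B p.1.1.1.1.1.1.1.1.1.1.1.1.1) :=
  (((((((((((((h.wk K1).wk K2).wk K3).wk K4).wk K5).wk K6).wk K7).wk K8).wk K9).wk K10).wk K11).wk K12).wk K13)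

instance IsE.wk14 {x : ∀ B, Γ B → B.M} [h : IsE C x] :
    IsE ((((((((((((((C.ext K1).ext K2).ext K3).ext K4).ext K5).ext K6).ext K7).ext K8).ext K9).ext K10).ext K11).ext K12).ext K13).ext K14) (fun B p => x B p.1.1.1.1.1.1.1.1.1.1.1.1.1.1) :=
  ((((((((((((((h.wk K1).wk K2).wk K3).wk K4).wk K5).wk K6).wk K7).wk K8).wk K9).wk K10).wk K11).wk K12).wk K13).wk K14)

instance IsE.wk15 {x : ∀ B, Γ B → B.M} [h : IsE C x] :
    IsE (((((((((((((((C.ext K1).ext K2).ext K3).ext K4).ext K5).ext K6).ext K7).ext K8).ext K9).ext K10).ext K11).ext K12).ext K13).ext K14).ext K15) (fun B p => x B p.1.1.1.1.1.1.1.1.1.1.1.1.1.1.1) :=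
  (((((((((((((((h.wk K1).wk K2).wk K3).wk K4).wk K5).wk K6).wk K7).wk K8).wk K9).wk K10).wk K11).wk K12).wk K13).wk K14).wk K15)

instance IsE.wk16 {x : ∀ B, Γ B → B.M} [h : IsE C x] :
    IsE ((((((((((((((((C.ext K1).ext K2).ext K3).ext K4).ext K5).ext K6).ext K7).ext K8).ext K9).ext K10).ext K11).ext K12).ext K13).ext K14).ext K15).ext K16) (fun B p => x B p.1.1.1.1.1.1.1.1.1.1.1.1.1.1.1.1) :=
  ((((((((((((((((h.wk K1).wk K2).wk K3).wk K4).wk K5).wk K6).wk K7).wk K8).wk K9).wk K10).wk K11).wk K12).wk K13).wk K14).wk K15).wk K16)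

instance IsR.wk1 {x : ∀ B, Γ B → Rel3 B.M} [h : IsR C x] :
    IsR (C.ext K1) (fun B p => x B p.1) :=
  (h.wk K1)

instance IsR.wk2 {x : ∀ B, Γ B → Rel3 B.M} [h : IsR C x] :
    IsR ((C.ext K1).ext K2) (fun B p => x B p.1.1) :=
  ((h.wk K1).wk K2)

instance IsR.wk3 {x : ∀ B, Γ B → Rel3 B.M} [h : IsR C x] :
    IsR (((C.ext K1).ext K2).ext K3) (fun B p => x B p.1.1.1) :=
  (((h.wk K1).wk K2).wk K3)

instance IsR.wk4 {x : ∀ B, Γ B → Rel3 B.M} [h : IsR C x] :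
    IsR ((((C.ext K1).ext K2).ext K3).ext K4) (fun B p => x B p.1.1.1.1) :=
  ((((h.wk K1).wk K2).wk K3).wk K4)

instance IsR.wk5 {x : ∀ B, Γ B → Rel3 B.M} [h : IsR C x] :
    IsR (((((C.ext K1).ext K2).ext K3).ext K4).ext K5) (fun B p => x B p.1.1.1.1.1) :=
  (((((h.wk K1).wk K2).wk K3).wk K4).wk K5)

instance IsR.wk6 {x : ∀ B, Γ B → Rel3 B.M} [h : IsR C x] :
    IsR ((((((C.ext K1).ext K2).ext K3).ext K4).ext K5).ext K6) (fun B p => x B p.1.1.1.1.1.1) :=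
  ((((((h.wk K1).wk K2).wk K3).wk K4).wk K5).wk K6)

instance IsR.wk7 {x : ∀ B, Γ B → Rel3 B.M} [h : IsR C x] :
    IsR (((((((C.ext K1).ext K2).ext K3).ext K4).ext K5).ext K6).ext K7) (fun B p => x B p.1.1.1.1.1.1.1) :=
  (((((((h.wk K1).wk K2).wk K3).wk K4).wk K5).wk K6).wk K7)

instance IsR.wk8 {x : ∀ B, Γ B → Rel3 B.M} [h : IsR C x] :
    IsR ((((((((C.ext K1).ext K2).ext K3).ext K4).ext K5).ext K6).ext K7).ext K8) (fun B p => x B p.1.1.1.1.1.1.1.1) :=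
  ((((((((h.wk K1).wk K2).wk K3).wk K4).wk K5).wk K6).wk K7).wk K8)

instance IsR.wk9 {x : ∀ B, Γ B → Rel3 B.M} [h : IsR C x] :
    IsR (((((((((C.ext K1).ext K2).ext K3).ext K4).ext K5).ext K6).ext K7).ext K8).ext K9) (fun B p => x B p.1.1.1.1.1.1.1.1.1) :=
  (((((((((h.wk K1).wk K2).wk K3).wk K4).wk K5).wk K6).wk K7).wk K8).wk K9)

instance IsR.wk10 {x : ∀ B, Γ B → Rel3 B.M} [h : IsR C x] :
    IsR ((((((((((C.ext K1).ext K2).ext K3).ext K4).ext K5).ext K6).ext K7).ext K8).ext K9).ext K10) (fun B p => x B p.1.1.1.1.1.1.1.1.1.1) :=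
  ((((((((((h.wk K1).wk K2).wk K3).wk K4).wk K5).wk K6).wk K7).wk K8).wk K9).wk K10)

instance IsR.wk11 {x : ∀ B, Γ B → Rel3 B.M} [h : IsR C x] :
    IsR (((((((((((C.ext K1).ext K2).ext K3).ext K4).ext K5).ext K6).ext K7).ext K8).ext K9).ext K10).ext K11) (fun B p => x B p.1.1.1.1.1.1.1.1.1.1.1) :=
  (((((((((((h.wk K1).wk K2).wk K3).wk K4).wk K5).wk K6).wk K7).wk K8).wk K9).wk K10).wk K11)

instance IsR.wk12 {x : ∀ B, Γ B → Rel3 B.M} [h : IsR C x] :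
    IsR ((((((((((((C.ext K1).ext K2).ext K3).ext K4).ext K5).ext K6).ext K7).ext K8).ext K9).ext K10).ext K11).ext K12) (fun B p => x B p.1.1.1.1.1.1.1.1.1.1.1.1) :=
  ((((((((((((h.wk K1).wk K2).wk K3).wk K4).wk K5).wk K6).wk K7).wk K8).wk K9).wk K10).wk K11).wk K12)

instance IsR.wk13 {x : ∀ B, Γ B → Rel3 B.M} [h : IsR C x] :
    IsR (((((((((((((C.ext K1).ext K2).ext K3).ext K4).ext K5).ext K6).ext K7).ext K8).ext K9).ext K10).ext K11).ext K12).ext K13) (fun B p => x B p.1.1.1.1.1.1.1.1.1.1.1.1.1) :=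
  (((((((((((((h.wk K1).wk K2).wk K3).wk K4).wk K5).wk K6).wk K7).wk K8).wk K9).wk K10).wk K11).wk K12).wk K13)

instance IsR.wk14 {x : ∀ B, Γ B → Rel3 B.M} [h : IsR C x] :
    IsR ((((((((((((((C.ext K1).ext K2).ext K3).ext K4).ext K5).ext K6).ext K7).ext K8).ext K9).ext K10).ext K11).ext K12).ext K13).ext K14) (fun B p => x B p.1.1.1.1.1.1.1.1.1.1.1.1.1.1) :=
  ((((((((((((((h.wk K1).wk K2).wk K3).wk K4).wk K5).wk K6).wk K7).wk K8).wk K9).wk K10).wk K11).wk K12).wk K13).wk K14)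

instance IsR.wk15 {x : ∀ B, Γ B → Rel3 B.M} [h : IsR C x] :
    IsR (((((((((((((((C.ext K1).ext K2).ext K3).ext K4).ext K5).ext K6).ext K7).ext K8).ext K9).ext K10).ext K11).ext K12).ext K13).ext K14).ext K15) (fun B p => x B p.1.1.1.1.1.1.1.1.1.1.1.1.1.1.1) :=
  (((((((((((((((h.wk K1).wk K2).wk K3).wk K4).wk K5).wk K6).wk K7).wk K8).wk K9).wk K10).wk K11).wk K12).wk K13).wk K14).wk K15)

instance IsR.wk16 {x : ∀ B, Γ B → Rel3 B.M} [h : IsR C x] :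
    IsR ((((((((((((((((C.ext K1).ext K2).ext K3).ext K4).ext K5).ext K6).ext K7).ext K8).ext K9).ext K10).ext K11).ext K12).ext K13).ext K14).ext K15).ext K16) (fun B p => x B p.1.1.1.1.1.1.1.1.1.1.1.1.1.1.1.1) :=
  ((((((((((((((((h.wk K1).wk K2).wk K3).wk K4).wk K5).wk K6).wk K7).wk K8).wk K9).wk K10).wk K11).wk K12).wk K13).wk K14).wk K15).wk K16)

instance IsN.wk1 {x : ∀ B, Γ B → ℕ} [h : IsN C x] :
    IsN (C.ext K1) (fun B p => x B p.1) :=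
  (h.wk K1)

instance IsN.wk2 {x : ∀ B, Γ B → ℕ} [h : IsN C x] :
    IsN ((C.ext K1).ext K2) (fun B p => x B p.1.1) :=
  ((h.wk K1).wk K2)

instance IsN.wk3 {x : ∀ B, Γ B → ℕ} [h : IsN C x] :
    IsN (((C.ext K1).ext K2).ext K3) (fun B p => x B p.1.1.1) :=
  (((h.wk K1).wk K2).wk K3)

instance IsN.wk4 {x : ∀ B, Γ B → ℕ} [h : IsN C x] :
    IsN ((((C.ext K1).ext K2).ext K3).ext K4) (fun B p => x B p.1.1.1.1) :=
  ((((h.wk K1).wk K2).wk K3).wk K4)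

instance IsN.wk5 {x : ∀ B, Γ B → ℕ} [h : IsN C x] :
    IsN (((((C.ext K1).ext K2).ext K3).ext K4).ext K5) (fun B p => x B p.1.1.1.1.1) :=
  (((((h.wk K1).wk K2).wk K3).wk K4).wk K5)

instance IsN.wk6 {x : ∀ B, Γ B → ℕ} [h : IsN C x] :
    IsN ((((((C.ext K1).ext K2).ext K3).ext K4).ext K5).ext K6) (fun B p => x B p.1.1.1.1.1.1) :=
  ((((((h.wk K1).wk K2).wk K3).wk K4).wk K5).wk K6)

instance IsN.wk7 {x : ∀ B, Γ B → ℕ} [h : IsN C x] :
    IsN (((((((C.ext K1).ext K2).ext K3).ext K4).ext K5).ext K6).ext K7) (fun B p => x B p.1.1.1.1.1.1.1) :=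
  (((((((h.wk K1).wk K2).wk K3).wk K4).wk K5).wk K6).wk K7)

instance IsN.wk8 {x : ∀ B, Γ B → ℕ} [h : IsN C x] :
    IsN ((((((((C.ext K1).ext K2).ext K3).ext K4).ext K5).ext K6).ext K7).ext K8) (fun B p => x B p.1.1.1.1.1.1.1.1) :=
  ((((((((h.wk K1).wk K2).wk K3).wk K4).wk K5).wk K6).wk K7).wk K8)

instance IsN.wk9 {x : ∀ B, Γ B → ℕ} [h : IsN C x] :
    IsN (((((((((C.ext K1).ext K2).ext K3).ext K4).ext K5).ext K6).ext K7).ext K8).ext K9) (fun B p => x B p.1.1.1.1.1.1.1.1.1) :=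
  (((((((((h.wk K1).wk K2).wk K3).wk K4).wk K5).wk K6).wk K7).wk K8).wk K9)

instance IsN.wk10 {x : ∀ B, Γ B → ℕ} [h : IsN C x] :
    IsN ((((((((((C.ext K1).ext K2).ext K3).ext K4).ext K5).ext K6).ext K7).ext K8).ext K9).ext K10) (fun B p => x B p.1.1.1.1.1.1.1.1.1.1) :=
  ((((((((((h.wk K1).wk K2).wk K3).wk K4).wk K5).wk K6).wk K7).wk K8).wk K9).wk K10)

instance IsN.wk11 {x : ∀ B, Γ B → ℕ} [h : IsN C x] :
    IsN (((((((((((C.ext K1).ext K2).ext K3).ext K4).ext K5).ext K6).ext K7).ext K8).ext K9).ext K10).ext K11) (fun B p => x B p.1.1.1.1.1.1.1.1.1.1.1) :=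
  (((((((((((h.wk K1).wk K2).wk K3).wk K4).wk K5).wk K6).wk K7).wk K8).wk K9).wk K10).wk K11)

instance IsN.wk12 {x : ∀ B, Γ B → ℕ} [h : IsN C x] :
    IsN ((((((((((((C.ext K1).ext K2).ext K3).ext K4).ext K5).ext K6).ext K7).ext K8).ext K9).ext K10).ext K11).ext K12) (fun B p => x B p.1.1.1.1.1.1.1.1.1.1.1.1) :=
  ((((((((((((h.wk K1).wk K2).wk K3).wk K4).wk K5).wk K6).wk K7).wk K8).wk K9).wk K10).wk K11).wk K12)

instance IsN.wk13 {x : ∀ B, Γ B → ℕ} [h : IsN C x] :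
    IsN (((((((((((((C.ext K1).ext K2).ext K3).ext K4).ext K5).ext K6).ext K7).ext K8).ext K9).ext K10).ext K11).ext K12).ext K13) (fun B p => x B p.1.1.1.1.1.1.1.1.1.1.1.1.1) :=
  (((((((((((((h.wk K1).wk K2).wk K3).wk K4).wk K5).wk K6).wk K7).wk K8).wk K9).wk K10).wk K11).wk K12).wk K13)

instance IsN.wk14 {x : ∀ B, Γ B → ℕ} [h : IsN C x] :
    IsN ((((((((((((((C.ext K1).ext K2).ext K3).ext K4).ext K5).ext K6).ext K7).ext K8).ext K9).ext K10).ext K11).ext K12).ext K13).ext K14) (fun B p => x B p.1.1.1.1.1.1.1.1.1.1.1.1.1.1) :=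
  ((((((((((((((h.wk K1).wk K2).wk K3).wk K4).wk K5).wk K6).wk K7).wk K8).wk K9).wk K10).wk K11).wk K12).wk K13).wk K14)

instance IsN.wk15 {x : ∀ B, Γ B → ℕ} [h : IsN C x] :
    IsN (((((((((((((((C.ext K1).ext K2).ext K3).ext K4).ext K5).ext K6).ext K7).ext K8).ext K9).ext K10).ext K11).ext K12).ext K13).ext K14).ext K15) (fun B p => x B p.1.1.1.1.1.1.1.1.1.1.1.1.1.1.1) :=
  (((((((((((((((h.wk K1).wk K2).wk K3).wk K4).wk K5).wk K6).wk K7).wk K8).wk K9).wk K10).wk K11).wk K12).wk K13).wk K14).wk K15)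

instance IsN.wk16 {x : ∀ B, Γ B → ℕ} [h : IsN C x] :
    IsN ((((((((((((((((C.ext K1).ext K2).ext K3).ext K4).ext K5).ext K6).ext K7).ext K8).ext K9).ext K10).ext K11).ext K12).ext K13).ext K14).ext K15).ext K16) (fun B p => x B p.1.1.1.1.1.1.1.1.1.1.1.1.1.1.1.1) :=
  ((((((((((((((((h.wk K1).wk K2).wk K3).wk K4).wk K5).wk K6).wk K7).wk K8).wk K9).wk K10).wk K11).wk K12).wk K13).wk K14).wk K15).wk K16)

instance IsS.wk1 {x : ∀ B, Γ B → ZFSet.{0}} [h : IsS C x] :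
    IsS (C.ext K1) (fun B p => x B p.1) :=
  (h.wk K1)

instance IsS.wk2 {x : ∀ B, Γ B → ZFSet.{0}} [h : IsS C x] :
    IsS ((C.ext K1).ext K2) (fun B p => x B p.1.1) :=
  ((h.wk K1).wk K2)

instance IsS.wk3 {x : ∀ B, Γ B → ZFSet.{0}} [h : IsS C x] :
    IsS (((C.ext K1).ext K2).ext K3) (fun B p => x B p.1.1.1) :=
  (((h.wk K1).wk K2).wk K3)

instance IsS.wk4 {x : ∀ B, Γ B → ZFSet.{0}} [h : IsS C x] :
    IsS ((((C.ext K1).ext K2).ext K3).ext K4) (fun B p => x B p.1.1.1.1) :=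
  ((((h.wk K1).wk K2).wk K3).wk K4)

instance IsS.wk5 {x : ∀ B, Γ B → ZFSet.{0}} [h : IsS C x] :
    IsS (((((C.ext K1).ext K2).ext K3).ext K4).ext K5) (fun B p => x B p.1.1.1.1.1) :=
  (((((h.wk K1).wk K2).wk K3).wk K4).wk K5)

instance IsS.wk6 {x : ∀ B, Γ B → ZFSet.{0}} [h : IsS C x] :
    IsS ((((((C.ext K1).ext K2).ext K3).ext K4).ext K5).ext K6) (fun B p => x B p.1.1.1.1.1.1) :=
  ((((((h.wk K1).wk K2).wk K3).wk K4).wk K5).wk K6)

instance IsS.wk7 {x : ∀ B, Γ B → ZFSet.{0}} [h : IsS C x] :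
    IsS (((((((C.ext K1).ext K2).ext K3).ext K4).ext K5).ext K6).ext K7) (fun B p => x B p.1.1.1.1.1.1.1) :=
  (((((((h.wk K1).wk K2).wk K3).wk K4).wk K5).wk K6).wk K7)

instance IsS.wk8 {x : ∀ B, Γ B → ZFSet.{0}} [h : IsS C x] :
    IsS ((((((((C.ext K1).ext K2).ext K3).ext K4).ext K5).ext K6).ext K7).ext K8) (fun B p => x B p.1.1.1.1.1.1.1.1) :=
  ((((((((h.wk K1).wk K2).wk K3).wk K4).wk K5).wk K6).wk K7).wk K8)

instance IsS.wk9 {x : ∀ B, Γ B → ZFSet.{0}} [h : IsS C x] :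
    IsS (((((((((C.ext K1).ext K2).ext K3).ext K4).ext K5).ext K6).ext K7).ext K8).ext K9) (fun B p => x B p.1.1.1.1.1.1.1.1.1) :=
  (((((((((h.wk K1).wk K2).wk K3).wk K4).wk K5).wk K6).wk K7).wk K8).wk K9)

instance IsS.wk10 {x : ∀ B, Γ B → ZFSet.{0}} [h : IsS C x] :
    IsS ((((((((((C.ext K1).ext K2).ext K3).ext K4).ext K5).ext K6).ext K7).ext K8).ext K9).ext K10) (fun B p => x B p.1.1.1.1.1.1.1.1.1.1) :=
  ((((((((((h.wk K1).wk K2).wk K3).wk K4).wk K5).wk K6).wk K7).wk K8).wk K9).wk K10)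

instance IsS.wk11 {x : ∀ B, Γ B → ZFSet.{0}} [h : IsS C x] :
    IsS (((((((((((C.ext K1).ext K2).ext K3).ext K4).ext K5).ext K6).ext K7).ext K8).ext K9).ext K10).ext K11) (fun B p => x B p.1.1.1.1.1.1.1.1.1.1.1) :=
  (((((((((((h.wk K1).wk K2).wk K3).wk K4).wk K5).wk K6).wk K7).wk K8).wk K9).wk K10).wk K11)

instance IsS.wk12 {x : ∀ B, Γ B → ZFSet.{0}} [h : IsS C x] :
    IsS ((((((((((((C.ext K1).ext K2).ext K3).ext K4).ext K5).ext K6).ext K7).ext K8).ext K9).ext K10).ext K11).ext K12) (fun B p => x B p.1.1.1.1.1.1.1.1.1.1.1.1) :=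
  ((((((((((((h.wk K1).wk K2).wk K3).wk K4).wk K5).wk K6).wk K7).wk K8).wk K9).wk K10).wk K11).wk K12)

instance IsS.wk13 {x : ∀ B, Γ B → ZFSet.{0}} [h : IsS C x] :
    IsS (((((((((((((C.ext K1).ext K2).ext K3).ext K4).ext K5).ext K6).ext K7).ext K8).ext K9).ext K10).ext K11).ext K12).ext K13) (fun B p => x B p.1.1.1.1.1.1.1.1.1.1.1.1.1) :=
  (((((((((((((h.wk K1).wk K2).wk K3).wk K4).wk K5).wk K6).wk K7).wk K8).wk K9).wk K10).wk K11).wk K12).wk K13)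

instance IsS.wk14 {x : ∀ B, Γ B → ZFSet.{0}} [h : IsS C x] :
    IsS ((((((((((((((C.ext K1).ext K2).ext K3).ext K4).ext K5).ext K6).ext K7).ext K8).ext K9).ext K10).ext K11).ext K12).ext K13).ext K14) (fun B p => x B p.1.1.1.1.1.1.1.1.1.1.1.1.1.1) :=
  ((((((((((((((h.wk K1).wk K2).wk K3).wk K4).wk K5).wk K6).wk K7).wk K8).wk K9).wk K10).wk K11).wk K12).wk K13).wk K14)

instance IsS.wk15 {x : ∀ B, Γ B → ZFSet.{0}} [h : IsS C x] :
    IsS (((((((((((((((C.ext K1).ext K2).ext K3).ext K4).ext K5).ext K6).ext K7).ext K8).ext K9).ext K10).ext K11).ext K12).ext K13).ext K14).ext K15) (fun B p => x B p.1.1.1.1.1.1.1.1.1.1.1.1.1.1.1) :=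
  (((((((((((((((h.wk K1).wk K2).wk K3).wk K4).wk K5).wk K6).wk K7).wk K8).wk K9).wk K10).wk K11).wk K12).wk K13).wk K14).wk K15)

instance IsS.wk16 {x : ∀ B, Γ B → ZFSet.{0}} [h : IsS C x] :
    IsS ((((((((((((((((C.ext K1).ext K2).ext K3).ext K4).ext K5).ext K6).ext K7).ext K8).ext K9).ext K10).ext K11).ext K12).ext K13).ext K14).ext K15).ext K16) (fun B p => x B p.1.1.1.1.1.1.1.1.1.1.1.1.1.1.1.1) :=
  ((((((((((((((((h.wk K1).wk K2).wk K3).wk K4).wk K5).wk K6).wk K7).wk K8).wk K9).wk K10).wk K11).wk K12).wk K13).wk K14).wk K15).wk K16)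

end Pool.Agent.Solovay
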