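import Pool.Agent.Solovay.SCx

/-! # Second-order definability: the class `SD` -/

set_option linter.unusedVariables false

namespace Pool.Agent.Solovay

open Function

universe u w

variable {τ : Vocab}

/-- the ternary relation variables -/
def und {M : Type} (V : RelAsg M) : ℕ → Rel3 M := fun j x y z => V 3 j ![x, y, z]

theorem und_update {M : Type} (V : RelAsg M) (l : ℕ) (Q : (Fin 3 → M) → Prop) :
    und (update V 3 (update (V 3) l Q)) = update (und V) l (fun x y z => Q ![x, y, z]) := by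
  funext j x y z
  unfold und
  by_cases h : j = l
  · subst h; simp
  · simp [update_of_ne h]

variable {Γ : NStr τ → Type u} {A : NStr τ → Type w}

class SD (C : SCx τ Γ) (P : ∀ B, Γ B → Prop) : Prop where
  out : ∃ φ : SOF τ, (∀ i ∈ φ.freeE, i < C.k) ∧ (∀ p ∈ φ.freeR, p.1 = 3 ∧ p.2 < C.l) ∧
    ∀ (B : NStr τ) g v (V : RelAsg B.M), C.ok B g v (und V) → (P B g ↔ φ.Sat B.S v V)

variable {C : SCx τ Γ}

theorem SD.congr {P Q : ∀ B, Γ B → Prop} (hP : SD C P)
    (h : ∀ B g v V, C.ok B g v V → (Q B g ↔ P B g)) : SD C Q := by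
  obtain ⟨φ, h1, h2, hφ⟩ := hP.out
  exact ⟨φ, h1, h2, fun B g v V hv => (h B g v _ hv).trans (hφ B g v V hv)⟩

instance SD.not {P : ∀ B, Γ B → Prop} [h : SD C P] : SD C (fun B g => ¬ P B g) := by
  obtain ⟨φ, h1, h2, hφ⟩ := h.out
  exact ⟨.neg φ, h1, h2, fun B g v V hv => not_congr (hφ B g v V hv)⟩

instance SD.and {P Q : ∀ B, Γ B → Prop} [h : SD C P] [h' : SD C Q] :
    SD C (fun B g => P B g ∧ Q B g) := by
  obtain ⟨φ, h1, h2, hφ⟩ := h.out
  obtain ⟨ψ, h1', h2', hψ⟩ := h'.out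
  refine ⟨.and φ ψ, fun i hi => ?_, fun p hp => ?_, fun B g v V hv =>
    and_congr (hφ B g v V hv) (hψ B g v V hv)⟩
  · exact hi.elim (h1 i) (h1' i)
  · exact hp.elim (h2 p) (h2' p)

instance SD.or {P Q : ∀ B, Γ B → Prop} [h : SD C P] [h' : SD C Q] :
    SD C (fun B g => P B g ∨ Q B g) :=
  SD.congr (P := fun B g => ¬ (¬ P B g ∧ ¬ Q B g)) inferInstance (fun B g v V _ => by tauto)

instance SD.imp {P Q : ∀ B, Γ B → Prop} [h : SD C P] [h' : SD C Q] :
    SD C (fun B g => P B g → Q B g) :=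
  SD.congr (P := fun B g => ¬ (P B g ∧ ¬ Q B g)) inferInstance (fun B g v V _ => by tauto)

instance SD.iff {P Q : ∀ B, Γ B → Prop} [h : SD C P] [h' : SD C Q] :
    SD C (fun B g => P B g ↔ Q B g) :=
  SD.congr (P := fun B g => (P B g → Q B g) ∧ (Q B g → P B g)) inferInstance
    (fun B g v V _ => by tauto)

instance SD.const {p : Prop} : SD C (fun _ _ => p) := by
  by_cases hp : p
  · refine ⟨.eq 0 0, fun i hi => ?_, fun p hp => absurd hp (Set.notMem_empty _),
      fun B g v V hv => by simp [SOF.Sat, hp]⟩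
    have : i = 0 := by simpa [SOF.freeE] using hi
    rw [this]; exact C.k0
  · refine ⟨.neg (.eq 0 0), fun i hi => ?_, fun p hp => absurd hp (Set.notMem_empty _),
      fun B g v V hv => by simp [SOF.Sat, hp]⟩
    have : i = 0 := by simpa [SOF.freeE] using hi
    rw [this]; exact C.k0

theorem SD.finall {ι : Type} [Finite ι] {P : ι → ∀ B, Γ B → Prop}
    (h : ∀ i, SD C (P i)) : SD C (fun B g => ∀ i, P i B g) := by
  have key : ∀ s : Finset ι, SD C (fun B g => ∀ i ∈ s, P i B g) := by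
    classical
    intro s
    induction s using Finset.induction_on with
    | empty => exact SD.congr (P := fun _ _ => True) inferInstance (fun B g v V _ => by simp)
    | insert a s ha ih =>
      exact SD.congr (P := fun B g => P a B g ∧ ∀ i ∈ s, P i B g) inferInstance
        (fun B g v V _ => by simp)
  have := Fintype.ofFinite ι
  exact (key Finset.univ).congr (fun B g v V _ => by simp)

/-! ## Quantifiers -/

instance SD.allE {Q : ∀ B, Γ B → B.M → Prop} [h : SD (C.ext kE) (fun B p => Q B p.1 p.2)] :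
    SD C (fun B g => ∀ x : B.M, Q B g x) := by
  obtain ⟨φ, h1, h2, hφ⟩ := h.out
  refine ⟨.all C.k φ, fun i hi => ?_, fun p hp => ?_, fun B g v V hv => ?_⟩
  · have := h1 i hi.1
    have hne : i ≠ C.k := hi.2
    simp only [SCx.ext, kE] at this; omega
  · have := h2 p hp; simpa [SCx.ext, kE] using this
  · simp only [SOF.Sat]
    refine forall_congr' fun a => ?_
    refine hφ B (g, a) (update v C.k a) V ⟨?_, ?_⟩
    · refine C.congr B g v _ _ _ (fun i hi => ?_) (fun j _ => rfl) hv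
      rw [update_of_ne (by omega)]
    · simp [kE]

instance SD.exE {Q : ∀ B, Γ B → B.M → Prop} [h : SD (C.ext kE) (fun B p => Q B p.1 p.2)] :
    SD C (fun B g => ∃ x : B.M, Q B g x) :=
  SD.congr (P := fun B g => ¬ ∀ x : B.M, ¬ Q B g x) inferInstance
    (fun B g v V _ => by push Not; rfl)

instance SD.allR {Q : ∀ B : NStr τ, Γ B → Rel3 B.M → Prop}
    [h : SD (C.ext kR) (fun B p => Q B p.1 p.2)] :
    SD C (fun B g => ∀ R : Rel3 B.M, Q B g R) := by
  obtain ⟨φ, h1, h2, hφ⟩ := h.out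
  refine ⟨.allR 3 C.l φ, fun i hi => ?_, fun p hp => ?_, fun B g v V hv => ?_⟩
  · have := h1 i hi; simpa [SCx.ext, kR] using this
  · have := h2 p hp.1
    have hne : p ≠ (3, C.l) := hp.2
    simp only [SCx.ext, kR] at this
    refine ⟨this.1, ?_⟩
    have h3 : p.2 ≠ C.l := fun h => hne (Prod.ext this.1 h)
    omega
  · simp only [SOF.Sat]
    constructor
    · intro hQ S
      refine (hφ B (g, fun x y z => S ![x, y, z]) v _ ⟨?_, ?_⟩).1 (hQ _)
      · refine C.congr B g v _ _ _ (fun i _ => rfl) (fun j hj => ?_) hv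
        rw [und_update, update_of_ne (by omega)]
      · simp [kR, und_update]
    · intro hQ S
      have := hQ (fun f => S (f 0) (f 1) (f 2))
      refine (hφ B (g, S) v _ ⟨?_, ?_⟩).2 this
      · refine C.congr B g v _ _ _ (fun i _ => rfl) (fun j hj => ?_) hv
        rw [und_update, update_of_ne (by omega)]
      · simp [kR, und_update]

instance SD.exR {Q : ∀ B : NStr τ, Γ B → Rel3 B.M → Prop}
    [h : SD (C.ext kR) (fun B p => Q B p.1 p.2)] :
    SD C (fun B g => ∃ R : Rel3 B.M, Q B g R) :=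
  SD.congr (P := fun B g => ¬ ∀ R : Rel3 B.M, ¬ Q B g R) inferInstance
    (fun B g v V _ => by push Not; rfl)

/-- quantification over the range of a surjective function of relations -/
theorem SD.allVia {X : NStr τ → Type w} (f : ∀ B : NStr τ, Rel3 B.M → X B)
    (hf : ∀ B, Surjective (f B)) {Q : ∀ B, Γ B → X B → Prop}
    (h : SD (C.ext kR) (fun B p => Q B p.1 (f B p.2))) :
    SD C (fun B g => ∀ x : X B, Q B g x) :=
  SD.congr (P := fun B g => ∀ R : Rel3 B.M, Q B g (f B R)) inferInstance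
    (fun B g v V _ => ⟨fun h R => h _, fun h x => by obtain ⟨R, rfl⟩ := hf B x; exact h R⟩)

theorem SD.exVia {X : NStr τ → Type w} (f : ∀ B : NStr τ, Rel3 B.M → X B)
    (hf : ∀ B, Surjective (f B)) {Q : ∀ B, Γ B → X B → Prop}
    (h : SD (C.ext kR) (fun B p => Q B p.1 (f B p.2))) :
    SD C (fun B g => ∃ x : X B, Q B g x) :=
  SD.congr (P := fun B g => ∃ R : Rel3 B.M, Q B g (f B R)) inferInstance
    (fun B g v V _ => ⟨fun ⟨x, h⟩ => by obtain ⟨R, rfl⟩ := hf B x; exact ⟨R, h⟩,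
      fun ⟨R, h⟩ => ⟨_, h⟩⟩)

instance SD.allU {Q : ∀ B : NStr τ, Γ B → (B.M → Prop) → Prop}
    [h : SD (C.ext kR) (fun B p => Q B p.1 (fun x => p.2 x x x))] :
    SD C (fun B g => ∀ U : B.M → Prop, Q B g U) :=
  SD.allVia (X := fun B => B.M → Prop) (fun B R => fun x => R x x x)
    (fun B U => ⟨fun x _ _ => U x, rfl⟩) h

instance SD.exU {Q : ∀ B : NStr τ, Γ B → (B.M → Prop) → Prop}
    [h : SD (C.ext kR) (fun B p => Q B p.1 (fun x => p.2 x x x))] :
    SD C (fun B g => ∃ U : B.M → Prop, Q B g U) :=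
  SD.exVia (X := fun B => B.M → Prop) (fun B R => fun x => R x x x)
    (fun B U => ⟨fun x _ _ => U x, rfl⟩) h

instance SD.allB {Q : ∀ B : NStr τ, Γ B → (B.M → B.M → Prop) → Prop}
    [h : SD (C.ext kR) (fun B p => Q B p.1 (fun x y => p.2 x y y))] :
    SD C (fun B g => ∀ U : B.M → B.M → Prop, Q B g U) :=
  SD.allVia (X := fun B => B.M → B.M → Prop) (fun B R => fun x y => R x y y)
    (fun B U => ⟨fun x y _ => U x y, rfl⟩) h

instance SD.exB {Q : ∀ B : NStr τ, Γ B → (B.M → B.M → Prop) → Prop}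
    [h : SD (C.ext kR) (fun B p => Q B p.1 (fun x y => p.2 x y y))] :
    SD C (fun B g => ∃ U : B.M → B.M → Prop, Q B g U) :=
  SD.exVia (X := fun B => B.M → B.M → Prop) (fun B R => fun x y => R x y y)
    (fun B U => ⟨fun x y _ => U x y, rfl⟩) h

/-! ## Leaves -/

instance SD.eqE {x y : ∀ B, Γ B → B.M} [hx : IsE C x] [hy : IsE C y] :
    SD C (fun B g => x B g = y B g) := by
  obtain ⟨i, hi, hx⟩ := hx.out
  obtain ⟨j, hj, hy⟩ := hy.out
  refine ⟨.eq i j, fun n hn => ?_, fun p hp => absurd hp (Set.notMem_empty _), fun B g v V hv => ?_⟩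
  · rcases hn with rfl | rfl
    · exact hi
    · exact hj
  · simp only [SOF.Sat]; rw [hx B g v _ hv, hy B g v _ hv]

instance SD.eqN {x y : ∀ B, Γ B → ℕ} [hx : IsN C x] [hy : IsN C y] :
    SD C (fun B g => x B g = y B g) :=
  SD.congr (P := fun B g => B.ν (x B g) = B.ν (y B g)) inferInstance
    (fun B g v V _ => ⟨fun h => by rw [h], fun h => B.inj h⟩)

instance SD.rel {R : ∀ B : NStr τ, Γ B → Rel3 B.M} {x y z : ∀ B, Γ B → B.M} [hR : IsR C R]
    [hx : IsE C x] [hy : IsE C y] [hz : IsE C z] :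
    SD C (fun B g => R B g (x B g) (y B g) (z B g)) := by
  obtain ⟨i, hi, hx⟩ := hx.out
  obtain ⟨j, hj, hy⟩ := hy.out
  obtain ⟨k, hk, hz⟩ := hz.out
  obtain ⟨l, hl, hR⟩ := hR.out
  refine ⟨.app 3 l ![i, j, k], fun n hn => ?_, fun p hp => ?_, fun B g v V hv => ?_⟩
  · obtain ⟨m, rfl⟩ := hn
    fin_cases m
    · exact hi
    · exact hj
    · exact hk
  · have : p = (3, l) := hp
    subst this; exact ⟨rfl, hl⟩
  · simp only [SOF.Sat]
    rw [← hx B g v _ hv, ← hy B g v _ hv, ← hz B g v _ hv, ← hR B g v _ hv]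
    unfold und
    have : (![v i, v j, v k] : Fin 3 → B.M) = fun m => v (![i, j, k] m) := by
      funext m; fin_cases m <;> rfl
    rw [this]

theorem SD.symR (R : Fin τ.nR) {x : Fin (τ.arR R) → ∀ B : NStr τ, Γ B → B.M}
    (hx : ∀ i, IsE C (x i)) : SD C (fun B g => B.S.rel R (fun i => x i B g)) := by
  choose i hi hx using fun k => (hx k).out
  refine ⟨.rel R i, fun n hn => ?_, fun p hp => absurd hp (Set.notMem_empty _), fun B g v V hv => ?_⟩
  · obtain ⟨m, rfl⟩ := hn; exact hi m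
  · simp only [SOF.Sat]
    have : (fun k => x k B g) = fun k => v (i k) := by
      funext k; rw [hx k B g v _ hv]
    rw [this]

theorem SD.symF (f : Fin τ.nF) {x : Fin (τ.arF f) → ∀ B : NStr τ, Γ B → B.M}
    (hx : ∀ i, IsE C (x i)) {y : ∀ B : NStr τ, Γ B → B.M} (hy : IsE C y) :
    SD C (fun B g => B.S.fn f (fun i => x i B g) = y B g) := by
  choose i hi hx using fun k => (hx k).out
  obtain ⟨j, hj, hy⟩ := hy.out
  refine ⟨.fn f i j, fun n hn => ?_, fun p hp => absurd hp (Set.notMem_empty _), fun B g v V hv => ?_⟩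
  · rcases hn with rfl | ⟨m, rfl⟩
    · exact hj
    · exact hi m
  · simp only [SOF.Sat]
    have : (fun k => x k B g) = fun k => v (i k) := by
      funext k; rw [hx k B g v _ hv]
    rw [this, ← hy B g v _ hv]

/-! ## Numbers -/

instance SD.isNum {x : ∀ B : NStr τ, Γ B → B.M} [hx : IsE C x] :
    SD C (fun B g => ∃ n, x B g = B.ν n) :=
  SD.congr (P := fun B g => ∀ U : B.M → Prop, U (B.ν 0) →
      (∀ a b : B.M, U a → B.succR a b b → U b) → U (x B g)) inferInstance
    (fun B g v V _ => by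
      constructor
      · rintro ⟨n, hn⟩ U h0 hs
        rw [hn]; clear hn
        induction n with
        | zero => exact h0
        | succ n ih => exact hs _ _ ih ⟨n, rfl, rfl⟩
      · intro h
        refine h (fun x => ∃ n, x = B.ν n) ⟨0, rfl⟩ ?_
        rintro a b - ⟨n, -, hb⟩
        exact ⟨n + 1, hb⟩)

instance SD.allN {Q : ∀ B, Γ B → ℕ → Prop} [h : SD (C.ext kN) (fun B p => Q B p.1 p.2)] :
    SD C (fun B g => ∀ n : ℕ, Q B g n) := by
  obtain ⟨φ, h1, h2, hφ⟩ := h.out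
  have hψ : SD (C.ext kE) (fun B p => ∃ n, p.2 = B.ν n) := inferInstance
  obtain ⟨ψ, h1', h2', hψ⟩ := hψ.out
  refine ⟨.all C.k (.neg (.and ψ (.neg φ))), fun i hi => ?_, fun p hp => ?_, fun B g v V hv => ?_⟩
  · have hne : i ≠ C.k := hi.2
    rcases hi.1 with h | h
    · have := h1' i h
      simp only [SCx.ext, kE] at this; omega
    · have := h1 i h
      simp only [SCx.ext, kN] at this; omega
  · rcases hp with h | h
    · simpa [SCx.ext, kE] using h2' p h
    · simpa [SCx.ext, kN] using h2 p h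
  · simp only [SOF.Sat]
    have hcg : ∀ a, C.ok B g (update v C.k a) (und V) := fun a => by
      refine C.congr B g v _ _ _ (fun i hi => ?_) (fun j _ => rfl) hv
      rw [update_of_ne (by omega)]
    constructor
    · rintro h a ⟨ha, hna⟩
      obtain ⟨n, hn⟩ := (hψ B (g, a) (update v C.k a) V ⟨hcg a, by simp [kE]⟩).2 ha
      apply hna
      refine (hφ B (g, n) (update v C.k a) V ⟨hcg a, ?_⟩).1 (h n)
      simp only [kN]; simpa using hn
    · intro h n
      have := h (B.ν n)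
      by_contra hcon
      apply this
      refine ⟨(hψ B (g, B.ν n) _ V ⟨hcg _, by simp [kE]⟩).1 ⟨n, rfl⟩, fun h' => hcon ?_⟩
      exact (hφ B (g, n) _ V ⟨hcg _, by simp [kN]⟩).2 h'

instance SD.exN {Q : ∀ B, Γ B → ℕ → Prop} [h : SD (C.ext kN) (fun B p => Q B p.1 p.2)] :
    SD C (fun B g => ∃ n : ℕ, Q B g n) :=
  SD.congr (P := fun B g => ¬ ∀ n : ℕ, ¬ Q B g n) inferInstance
    (fun B g v V _ => by push Not; rfl)

/-! ### relations on numbers -/

theorem exists_inv (B : NStr τ) : ∃ μ : B.M → ℕ, ∀ n, μ (B.ν n) = n :=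
  ⟨_, Function.leftInverse_invFun B.inj⟩

instance SD.allNNN {Q : ∀ B : NStr τ, Γ B → (ℕ → ℕ → ℕ → Prop) → Prop}
    [h : SD (C.ext kR) (fun B p => Q B p.1 (fun a b c => p.2 (B.ν a) (B.ν b) (B.ν c)))] :
    SD C (fun B g => ∀ U : ℕ → ℕ → ℕ → Prop, Q B g U) :=
  SD.allVia (X := fun _ => ℕ → ℕ → ℕ → Prop) (fun B R => fun a b c => R (B.ν a) (B.ν b) (B.ν c))
    (fun B U => by
      obtain ⟨μ, hμ⟩ := exists_inv B
      exact ⟨fun x y z => U (μ x) (μ y) (μ z), by funext a b c; simp only [hμ]⟩) h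

instance SD.allNN {Q : ∀ B : NStr τ, Γ B → (ℕ → ℕ → Prop) → Prop}
    [h : SD (C.ext kR) (fun B p => Q B p.1 (fun a b => p.2 (B.ν a) (B.ν b) (B.ν b)))] :
    SD C (fun B g => ∀ U : ℕ → ℕ → Prop, Q B g U) :=
  SD.allVia (X := fun _ => ℕ → ℕ → Prop) (fun B R => fun a b => R (B.ν a) (B.ν b) (B.ν b))
    (fun B U => by
      obtain ⟨μ, hμ⟩ := exists_inv B
      exact ⟨fun x y _ => U (μ x) (μ y), by funext a b; simp only [hμ]⟩) h

instance SD.exNP {Q : ∀ B : NStr τ, Γ B → (ℕ → Prop) → Prop}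
    [h : SD (C.ext kR) (fun B p => Q B p.1 (fun a => p.2 (B.ν a) (B.ν a) (B.ν a)))] :
    SD C (fun B g => ∃ U : ℕ → Prop, Q B g U) :=
  SD.exVia (X := fun _ => ℕ → Prop) (fun B R => fun a => R (B.ν a) (B.ν a) (B.ν a))
    (fun B U => by
      obtain ⟨μ, hμ⟩ := exists_inv B
      exact ⟨fun x _ _ => U (μ x), by funext a; simp only [hμ]⟩) h

instance SD.exNM {Q : ∀ B : NStr τ, Γ B → (ℕ → B.M → Prop) → Prop}
    [h : SD (C.ext kR) (fun B p => Q B p.1 (fun a x => p.2 (B.ν a) x x))] :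
    SD C (fun B g => ∃ U : ℕ → B.M → Prop, Q B g U) :=
  SD.exVia (X := fun B => ℕ → B.M → Prop) (fun B R => fun a x => R (B.ν a) x x)
    (fun B U => by
      obtain ⟨μ, hμ⟩ := exists_inv B
      exact ⟨fun x y _ => U (μ x) y, by funext a b; simp only [hμ]⟩) h

instance SD.exNMM {Q : ∀ B : NStr τ, Γ B → (ℕ → B.M → B.M → Prop) → Prop}
    [h : SD (C.ext kR) (fun B p => Q B p.1 (fun a x y => p.2 (B.ν a) x y))] :
    SD C (fun B g => ∃ U : ℕ → B.M → B.M → Prop, Q B g U) :=
  SD.exVia (X := fun B => ℕ → B.M → B.M → Prop) (fun B R => fun a x y => R (B.ν a) x y)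
    (fun B U => by
      obtain ⟨μ, hμ⟩ := exists_inv B
      exact ⟨fun x y z => U (μ x) y z, by funext a b c; simp only [hμ]⟩) h

instance SD.exMNM {Q : ∀ B : NStr τ, Γ B → (B.M → ℕ → B.M → Prop) → Prop}
    [h : SD (C.ext kR) (fun B p => Q B p.1 (fun x a y => p.2 x (B.ν a) y))] :
    SD C (fun B g => ∃ U : B.M → ℕ → B.M → Prop, Q B g U) :=
  SD.exVia (X := fun B => B.M → ℕ → B.M → Prop) (fun B R => fun x a y => R x (B.ν a) y)
    (fun B U => by
      obtain ⟨μ, hμ⟩ := exists_inv B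
      exact ⟨fun x y z => U x (μ y) z, by funext a b c; simp only [hμ]⟩) h

/-! ## The closing lemma -/

/-- the closed context -/
def SCx.base : SCx τ (fun _ => PUnit.{2}) where
  k := 1
  l := 1
  ok B _ v V := v 0 = B.ν 0 ∧ V 0 = B.succR
  congr B _ v v' V V' h1 h2 h := by rw [← h1 0 (by omega), ← h2 0 (by omega)]; exact h
  k0 := by omega
  l0 := by omega
  z _ _ _ _ h := h.1
  s _ _ _ _ h := h.2

end Pool.Agent.Solovay
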