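import Pool.Agent.Solovay.Arith

/-! # Sets coded by points of well-founded relations -/

set_option linter.unusedVariables false

namespace Pool.Agent.Solovay

open Function

universe u w

section codes

variable {M : Type}

theorem dec_mem {R : Rel3 M} (h : WellFounded (fun x y => R x y y)) {a : M} {z : ZFSet.{0}} :
    z ∈ dec R a ↔ ∃ b, R b a a ∧ dec R b = z := by
  have key : ∀ x, dec R x = decW _ h x := fun x => by unfold dec; rw [dif_pos h]
  rw [key, decW, WellFounded.fix_eq, ZFSet.mem_range]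
  constructor
  · rintro ⟨⟨b, hb⟩, rfl⟩
    exact ⟨b, hb, key b⟩
  · rintro ⟨b, hb, rfl⟩
    exact ⟨⟨b, hb⟩, (key b).symm⟩

theorem dec_not {R : Rel3 M} (h : ¬ WellFounded (fun x y => R x y y)) (a : M) : dec R a = ∅ := by
  unfold dec; rw [dif_neg h]

theorem dec_mem_HH (R : Rel3 M) (a : M) : dec R a ∈ HH M := by
  refine ⟨ZFSet.range (dec R), ?_, ZFSet.mem_range.2 ⟨a, rfl⟩, dec R, fun y hy => ?_⟩
  · intro y hy z hz
    obtain ⟨b, rfl⟩ := ZFSet.mem_range.1 hy
    by_cases h : WellFounded (fun x y => R x y y)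
    · obtain ⟨c, _, rfl⟩ := (dec_mem h).1 hz
      exact ZFSet.mem_range.2 ⟨c, rfl⟩
    · rw [dec_not h] at hz; exact absurd hz (ZFSet.notMem_empty _)
  · obtain ⟨b, rfl⟩ := ZFSet.mem_range.1 hy
    exact ⟨b, rfl⟩

theorem exists_code {t : ZFSet.{0}} (ht : t.IsTransitive) (hc : Cov (El t) M) :
    ∃ R : Rel3 M, WellFounded (fun x y => R x y y) ∧ ∀ x ∈ t, ∃ a, dec R a = x := by
  obtain ⟨s, hs⟩ := hc
  let R : Rel3 M := fun x y _ => s x ∈ s y
  have hwf : WellFounded (fun x y => R x y y) := InvImage.wf s ZFSet.mem_wf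
  refine ⟨R, hwf, ?_⟩
  have key : ∀ x, x ∈ t → ∀ a, s a = x → dec R a = x := by
    intro x
    induction x using ZFSet.inductionOn with
    | h x ih =>
      intro hx a ha
      ext z
      rw [dec_mem hwf]
      constructor
      · rintro ⟨b, hb, rfl⟩
        have hb' : s b ∈ x := by rw [← ha]; exact hb
        rw [ih (s b) hb' (ht x hx hb') b rfl]; exact hb'
      · intro hz
        obtain ⟨b, hb⟩ := hs z (ht x hx hz)
        refine ⟨b, ?_, ih z hz (ht x hx hz) b hb⟩
        show s b ∈ s a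
        rw [ha, hb]; exact hz
  intro x hx
  obtain ⟨a, ha⟩ := hs x hx
  exact ⟨a, key x hx a ha⟩

theorem exists_dec {x : ZFSet.{0}} (hx : x ∈ HH M) : ∃ (R : Rel3 M) (a : M),
    WellFounded (fun x y => R x y y) ∧ dec R a = x := by
  obtain ⟨t, ht, hxt, hc⟩ := hx
  obtain ⟨R, hR, h⟩ := exists_code ht hc
  obtain ⟨a, ha⟩ := h x hxt
  exact ⟨R, a, hR, ha⟩

end codes

variable {τ : Vocab} {Γ : NStr τ → Type u} {C : SCx τ Γ}

instance SD.wf {R : ∀ B : NStr τ, Γ B → Rel3 B.M} [hR : IsR C R] :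
    SD C (fun B g => WellFounded (fun x y => R B g x y y)) :=
  SD.congr (P := fun B g => ∀ U : B.M → Prop, (∀ x : B.M, (∀ y : B.M, R B g y x x → U y) → U x) →
    ∀ x : B.M, U x) inferInstance
    (fun B g v V _ => by
      constructor
      · intro h U hU x
        exact h.induction x hU
      · intro h
        exact ⟨h _ fun x hx => Acc.intro x hx⟩)

/-- bisimilarity -/
def Bis {M : Type} (E F : Rel3 M) (a b : M) : Prop :=
  ∃ Z : M → M → Prop, Z a b ∧ ∀ x : M, ∀ y : M, Z x y →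
    (∀ x' : M, E x' x x → ∃ y' : M, F y' y y ∧ Z x' y') ∧
    (∀ y' : M, F y' y y → ∃ x' : M, E x' x x ∧ Z x' y')

theorem bis_iff {M : Type} {E F : Rel3 M} {a b : M} (hE : WellFounded (fun x y => E x y y))
    (hF : WellFounded (fun x y => F x y y)) : Bis E F a b ↔ dec E a = dec F b := by
  constructor
  · rintro ⟨Z, hab, hZ⟩
    induction a using hE.induction generalizing b with
    | _ a ih =>
      obtain ⟨h1, h2⟩ := hZ a b hab
      ext z
      rw [dec_mem hE, dec_mem hF]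
      constructor
      · rintro ⟨x', hx', rfl⟩
        obtain ⟨y', hy', hZ'⟩ := h1 x' hx'
        exact ⟨y', hy', (ih x' hx' hZ').symm⟩
      · rintro ⟨y', hy', rfl⟩
        obtain ⟨x', hx', hZ'⟩ := h2 y' hy'
        exact ⟨x', hx', ih x' hx' hZ'⟩
  · intro hab
    refine ⟨fun x y => dec E x = dec F y, hab, fun x y hxy => ⟨fun x' hx' => ?_, fun y' hy' => ?_⟩⟩
    · have h1 : dec E x' ∈ dec E x := (dec_mem hE).2 ⟨x', hx', rfl⟩
      rw [hxy, dec_mem hF] at h1
      obtain ⟨y', hy', he⟩ := h1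
      exact ⟨y', hy', he.symm⟩
    · have h1 : dec F y' ∈ dec F y := (dec_mem hF).2 ⟨y', hy', rfl⟩
      rw [← hxy, dec_mem hE] at h1
      obtain ⟨x', hx', he⟩ := h1
      exact ⟨x', hx', he⟩

instance SD.bis {E F : ∀ B : NStr τ, Γ B → Rel3 B.M} [hE : IsR C E] [hF : IsR C F]
    {a b : ∀ B : NStr τ, Γ B → B.M} [ha : IsE C a] [hb : IsE C b] :
    SD C (fun B g => Bis (E B g) (F B g) (a B g) (b B g)) := by
  unfold Bis; infer_instance

theorem SD.decEq {E F : ∀ B : NStr τ, Γ B → Rel3 B.M} (hE : IsR C E) (hF : IsR C F)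
    {a b : ∀ B : NStr τ, Γ B → B.M} (ha : IsE C a) (hb : IsE C b) :
    SD C (fun B g => dec (E B g) (a B g) = dec (F B g) (b B g)) :=
  SD.congr (P := fun B g =>
    (WellFounded (fun x y => E B g x y y) ∧ WellFounded (fun x y => F B g x y y) ∧
      Bis (E B g) (F B g) (a B g) (b B g)) ∨
    (WellFounded (fun x y => E B g x y y) ∧ ¬ WellFounded (fun x y => F B g x y y) ∧
      ∀ x : B.M, ¬ E B g x (a B g) (a B g)) ∨
    (¬ WellFounded (fun x y => E B g x y y) ∧ WellFounded (fun x y => F B g x y y) ∧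
      ∀ x : B.M, ¬ F B g x (b B g) (b B g)) ∨
    (¬ WellFounded (fun x y => E B g x y y) ∧ ¬ WellFounded (fun x y => F B g x y y)))
    inferInstance
    (fun B g v V _ => by
      by_cases h1 : WellFounded (fun x y => E B g x y y) <;>
        by_cases h2 : WellFounded (fun x y => F B g x y y)
      · simp only [h1, h2, true_and, not_true_eq_false, false_and, or_false]
        exact (bis_iff h1 h2).symm
      · simp only [h1, h2, true_and, not_true_eq_false, false_and, or_false, not_false_eq_true,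
          false_or]
        rw [dec_not h2, ZFSet.eq_empty]
        constructor
        · intro h x hx; exact h _ ((dec_mem h1).2 ⟨x, hx, rfl⟩)
        · intro h y hy
          obtain ⟨b, hb, _⟩ := (dec_mem h1).1 hy
          exact h b hb
      · simp only [h1, h2, true_and, not_true_eq_false, false_and, or_false, not_false_eq_true,
          false_or]
        rw [dec_not h1, eq_comm, ZFSet.eq_empty]
        constructor
        · intro h x hx; exact h _ ((dec_mem h2).2 ⟨x, hx, rfl⟩)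
        · intro h y hy
          obtain ⟨b, hb, _⟩ := (dec_mem h2).1 hy
          exact h b hb
      · simp only [h1, h2, not_false_eq_true, false_and, and_self, or_true, iff_true]
        rw [dec_not h1, dec_not h2])

theorem SD.decMem {E F : ∀ B : NStr τ, Γ B → Rel3 B.M} (hE : IsR C E) (hF : IsR C F)
    {a b : ∀ B : NStr τ, Γ B → B.M} (ha : IsE C a) (hb : IsE C b) :
    SD C (fun B g => dec (E B g) (a B g) ∈ dec (F B g) (b B g)) := by
  have h1 : SD (C.ext kE) (fun B p => dec (F B p.1) p.2 = dec (E B p.1) (a B p.1)) :=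
    SD.decEq (C := C.ext kE) (E := fun B p => F B p.1) (F := fun B p => E B p.1)
      (a := fun B p => p.2) (b := fun B p => a B p.1) inferInstance inferInstance inferInstance
      inferInstance
  refine SD.congr (P := fun B g => WellFounded (fun x y => F B g x y y) ∧
    ∃ c : B.M, F B g c (b B g) (b B g) ∧ dec (F B g) c = dec (E B g) (a B g)) inferInstance
    (fun B g v V _ => ?_)
  by_cases h2 : WellFounded (fun x y => F B g x y y)
  · simp only [h2, true_and]
    exact dec_mem h2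
  · simp only [h2, false_and, iff_false]
    rw [dec_not h2]; exact ZFSet.notMem_empty _

/-! ## Passing to raw valuations -/

def SCx.sharp (C : SCx τ Γ) : SCx τ (fun B => Γ B × ((ℕ → B.M) × (ℕ → Rel3 B.M))) where
  k := C.k
  l := C.l
  ok B p v V := C.ok B p.1 v V ∧ (∀ i < C.k, v i = p.2.1 i) ∧ (∀ j < C.l, V j = p.2.2 j)
  congr B p v v' V V' h1 h2 h := by
    refine ⟨C.congr B p.1 v v' V V' h1 h2 h.1, fun i hi => ?_, fun j hj => ?_⟩
    · rw [← h1 i hi]; exact h.2.1 i hi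
    · rw [← h2 j hj]; exact h.2.2 j hj
  k0 := C.k0
  l0 := C.l0
  z B p v V h := C.z B p.1 v V h.1
  s B p v V h := C.s B p.1 v V h.1

theorem SD.of_sharp {P : ∀ B, Γ B → Prop} (h : SD C.sharp (fun B p => P B p.1)) : SD C P := by
  obtain ⟨φ, h1, h2, hφ⟩ := h.out
  exact ⟨φ, h1, h2, fun B g v V hv => hφ B (g, (v, und V)) v V ⟨hv, fun _ _ => rfl, fun _ _ => rfl⟩⟩

theorem IsE.sharp {i : ℕ} (hi : i < C.k) : IsE C.sharp (fun B p => p.2.1 i) :=
  ⟨i, hi, fun _ _ _ _ h => h.2.1 i hi⟩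

theorem IsR.sharp {j : ℕ} (hj : j < C.l) : IsR C.sharp (fun B p => p.2.2 j) :=
  ⟨j, hj, fun _ _ _ _ h => h.2.2 j hj⟩

instance SD.eqS {x y : ∀ B, Γ B → ZFSet.{0}} [hx : IsS C x] [hy : IsS C y] :
    SD C (fun B g => x B g = y B g) := by
  obtain ⟨i, hi, j, hj, hx⟩ := hx.out
  obtain ⟨i', hi', j', hj', hy⟩ := hy.out
  apply SD.of_sharp
  refine (SD.decEq (IsR.sharp hj) (IsR.sharp hj') (IsE.sharp hi) (IsE.sharp hi')).congr ?_
  intro B p v V h
  rw [← hx B p.1 v V h.1, ← hy B p.1 v V h.1, h.2.1 i hi, h.2.1 i' hi', h.2.2 j hj, h.2.2 j' hj']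

instance SD.memS {x y : ∀ B, Γ B → ZFSet.{0}} [hx : IsS C x] [hy : IsS C y] :
    SD C (fun B g => x B g ∈ y B g) := by
  obtain ⟨i, hi, j, hj, hx⟩ := hx.out
  obtain ⟨i', hi', j', hj', hy⟩ := hy.out
  apply SD.of_sharp
  refine (SD.decMem (IsR.sharp hj) (IsR.sharp hj') (IsE.sharp hi) (IsE.sharp hi')).congr ?_
  intro B p v V h
  rw [← hx B p.1 v V h.1, ← hy B p.1 v V h.1, h.2.1 i hi, h.2.1 i' hi', h.2.2 j hj, h.2.2 j' hj']

theorem IsS.mem_HH {x : ∀ B, Γ B → ZFSet.{0}} (hx : IsS C x) {B g v V} (h : C.ok B g v V) :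
    x B g ∈ HH B.M := by
  obtain ⟨i, hi, j, hj, hx⟩ := hx.out
  rw [← hx B g v V h]; exact dec_mem_HH _ _

instance SD.allS {Q : ∀ B, Γ B → ZFSet.{0} → Prop} [h : SD (C.ext kS) (fun B p => Q B p.1 p.2)] :
    SD C (fun B g => ∀ x : ZFSet.{0}, x ∈ HH B.M → Q B g x) := by
  obtain ⟨φ, h1, h2, hφ⟩ := h.out
  refine ⟨.allR 3 C.l (.all C.k φ), fun i hi => ?_, fun p hp => ?_, fun B g v V hv => ?_⟩
  · have := h1 i hi.1
    have hne : i ≠ C.k := hi.2
    simp only [SCx.ext, kS] at this; omega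
  · have := h2 p hp.1
    have hne : p ≠ (3, C.l) := hp.2
    simp only [SCx.ext, kS] at this
    refine ⟨this.1, ?_⟩
    have h3 : p.2 ≠ C.l := fun h => hne (Prod.ext this.1 h)
    omega
  · simp only [SOF.Sat]
    have hok : ∀ (Sx : (Fin 3 → B.M) → Prop) (a : B.M) (x : ZFSet.{0}),
        dec (fun x y z => Sx ![x, y, z]) a = x →
        (C.ext kS).ok B (g, x) (update v C.k a) (und (update V 3 (update (V 3) C.l Sx))) := by
      intro Sx a x hx
      refine ⟨C.congr B g v _ _ _ (fun i hi => ?_) (fun j hj => ?_) hv, ?_⟩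
      · rw [update_of_ne (by omega)]
      · rw [und_update, update_of_ne (by omega)]
      · simp only [kS, und_update, Nat.add_zero, update_self]
        exact hx
    constructor
    · intro hQ Sx a
      exact (hφ B (g, _) _ _ (hok Sx a _ rfl)).1
        (hQ (dec (fun x y z => Sx ![x, y, z]) a) (dec_mem_HH _ _))
    · intro hQ x hx
      obtain ⟨R, a, -, he⟩ := exists_dec hx
      refine (hφ B (g, x) _ _ (hok (fun f => R (f 0) (f 1) (f 2)) a x ?_)).2 (hQ _ a)
      rw [← he]; rfl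

instance SD.exS {Q : ∀ B, Γ B → ZFSet.{0} → Prop} [h : SD (C.ext kS) (fun B p => Q B p.1 p.2)] :
    SD C (fun B g => ∃ x : ZFSet.{0}, x ∈ HH B.M ∧ Q B g x) :=
  SD.congr (P := fun B g => ¬ ∀ x : ZFSet.{0}, x ∈ HH B.M → ¬ Q B g x) inferInstance
    (fun B g v V _ => by push Not; rfl)

/-- bounded quantification -/
instance SD.ballS {Y : ∀ B, Γ B → ZFSet.{0}} [hY : IsS C Y] {Q : ∀ B, Γ B → ZFSet.{0} → Prop}
    [h : SD (C.ext kS) (fun B p => Q B p.1 p.2)] :
    SD C (fun B g => ∀ x : ZFSet.{0}, x ∈ Y B g → Q B g x) :=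
  SD.congr (P := fun B g => ∀ x : ZFSet.{0}, x ∈ HH B.M → x ∈ Y B g → Q B g x) inferInstance
    (fun B g v V hv => ⟨fun h x _ hx => h x hx, fun h x hx => h x (HH.trans (hY.mem_HH hv) hx) hx⟩)

instance SD.bexS {Y : ∀ B, Γ B → ZFSet.{0}} [hY : IsS C Y] {Q : ∀ B, Γ B → ZFSet.{0} → Prop}
    [h : SD (C.ext kS) (fun B p => Q B p.1 p.2)] :
    SD C (fun B g => ∃ x : ZFSet.{0}, x ∈ Y B g ∧ Q B g x) :=
  SD.congr (P := fun B g => ¬ ∀ x : ZFSet.{0}, x ∈ Y B g → ¬ Q B g x) inferInstance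
    (fun B g v V _ => by push Not; rfl)

instance SD.subsetS {x y : ∀ B, Γ B → ZFSet.{0}} [hx : IsS C x] [hy : IsS C y] :
    SD C (fun B g => x B g ⊆ y B g) :=
  SD.congr (P := fun B g => ∀ z : ZFSet.{0}, z ∈ x B g → z ∈ y B g) inferInstance
    (fun B g v V _ => Iff.rfl)

instance SD.emptyS {x : ∀ B, Γ B → ZFSet.{0}} [hx : IsS C x] :
    SD C (fun B g => x B g = ∅) :=
  SD.congr (P := fun B g => ∀ z : ZFSet.{0}, z ∈ x B g → False) inferInstance
    (fun B g v V _ => by rw [ZFSet.eq_empty])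

end Pool.Agent.Solovay
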