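import Pool.Agent.Solovay.FO

/-! # First-order definability of simple set-theoretic notions -/

namespace Pool.Agent.Solovay

open Function

variable {Γ : Type 1} {C : FCx Γ}

theorem IsV.memX {x : Γ → ZFSet.{0}} (hx : IsV C x) {X g v} (h : C.ok X g v) : x g ∈ X := by
  obtain ⟨i, -, hi⟩ := hx.out
  exact (hi X g v h).2

instance FD.subset {x y : Γ → ZFSet.{0}} [hx : IsV C x] [hy : IsV C y] :
    FD C (fun _ g => x g ⊆ y g) :=
  FD.congr (P := fun _ g => ∀ z, z ∈ x g → z ∈ y g) inferInstance (fun _ _ _ _ => Iff.rfl)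

instance FD.eqEmpty {x : Γ → ZFSet.{0}} [hx : IsV C x] : FD C (fun _ g => x g = ∅) :=
  FD.congr (P := fun _ g => ∀ z, z ∈ x g → False) inferInstance
    (fun _ _ _ _ => by rw [ZFSet.eq_empty])

instance FD.eqSingle {x a : Γ → ZFSet.{0}} [hx : IsV C x] [ha : IsV C a] :
    FD C (fun _ g => x g = {a g}) :=
  FD.congr (P := fun _ g => a g ∈ x g ∧ ∀ z, z ∈ x g → z = a g) inferInstance
    (fun _ g _ _ => by
      constructor
      · intro h; rw [h]; simp
      · rintro ⟨h1, h2⟩
        ext z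
        rw [ZFSet.mem_singleton]
        exact ⟨h2 z, fun h => h ▸ h1⟩)

instance FD.eqPr {x a b : Γ → ZFSet.{0}} [hx : IsV C x] [ha : IsV C a] [hb : IsV C b] :
    FD C (fun _ g => x g = {a g, b g}) :=
  FD.congr (P := fun _ g => a g ∈ x g ∧ b g ∈ x g ∧ ∀ z, z ∈ x g → z = a g ∨ z = b g)
    inferInstance
    (fun _ g _ _ => by
      constructor
      · intro h; rw [h]; simp
      · rintro ⟨h1, h2, h3⟩
        ext z
        rw [ZFSet.mem_pair]
        exact ⟨h3 z, fun h => h.elim (fun h => h ▸ h1) (fun h => h ▸ h2)⟩)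

instance FD.eqInsert {x a b : Γ → ZFSet.{0}} [hx : IsV C x] [ha : IsV C a] [hb : IsV C b] :
    FD C (fun _ g => x g = insert (a g) (b g)) :=
  FD.congr (P := fun _ g => a g ∈ x g ∧ (∀ z, z ∈ b g → z ∈ x g) ∧
      ∀ z, z ∈ x g → z = a g ∨ z ∈ b g)
    inferInstance
    (fun _ g _ _ => by
      constructor
      · intro h; rw [h]; simp; tauto
      · rintro ⟨h1, h2, h3⟩
        ext z
        rw [ZFSet.mem_insert_iff]
        exact ⟨h3 z, fun h => h.elim (fun h => h ▸ h1) (h2 z)⟩)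

instance FD.eqUnion {x a b : Γ → ZFSet.{0}} [hx : IsV C x] [ha : IsV C a] [hb : IsV C b] :
    FD C (fun _ g => x g = a g ∪ b g) :=
  FD.congr (P := fun _ g => (∀ z, z ∈ a g → z ∈ x g) ∧ (∀ z, z ∈ b g → z ∈ x g) ∧
      ∀ z, z ∈ x g → z ∈ a g ∨ z ∈ b g)
    inferInstance
    (fun _ g _ _ => by
      constructor
      · intro h; rw [h]; simp; tauto
      · rintro ⟨h1, h2, h3⟩
        ext z
        rw [ZFSet.mem_union]
        exact ⟨h3 z, fun h => h.elim (h1 z) (h2 z)⟩)

instance FD.eqPair {x a b : Γ → ZFSet.{0}} [hx : IsV C x] [ha : IsV C a] [hb : IsV C b] :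
    FD C (fun _ g => x g = ZFSet.pair (a g) (b g)) :=
  FD.congr (P := fun _ g => ∃ u, u ∈ x g ∧ (u = {a g} ∧ ∃ w, w ∈ x g ∧ (w = {a g, b g} ∧
      x g = {u, w})))
    inferInstance
    (fun _ g _ _ => by
      constructor
      · intro h; rw [h]
        refine ⟨{a g}, by simp [ZFSet.pair], rfl, {a g, b g}, by simp [ZFSet.pair], rfl, rfl⟩
      · rintro ⟨u, _, rfl, w, _, rfl, h⟩
        exact h)

instance FD.pairMem {x a b : Γ → ZFSet.{0}} [hx : IsV C x] [ha : IsV C a] [hb : IsV C b] :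
    FD C (fun _ g => ZFSet.pair (a g) (b g) ∈ x g) :=
  FD.congr (P := fun _ g => ∃ u, u ∈ x g ∧ u = ZFSet.pair (a g) (b g)) inferInstance
    (fun _ g _ _ => by
      constructor
      · intro h; exact ⟨_, h, rfl⟩
      · rintro ⟨u, h, rfl⟩; exact h)

/-- numerals -/
def numS : ℕ → ZFSet.{0}
  | 0 => ∅
  | n + 1 => insert (numS n) (numS n)

theorem numS_mem {n m : ℕ} (h : n < m) : numS n ∈ numS m := by
  induction m with
  | zero => omega
  | succ m ih =>
    rw [numS, ZFSet.mem_insert_iff]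
    rcases Nat.lt_succ_iff_lt_or_eq.1 h with h | rfl
    · exact Or.inr (ih h)
    · exact Or.inl rfl

theorem numS_inj {n m : ℕ} : numS n = numS m ↔ n = m := by
  refine ⟨fun h => ?_, fun h => h ▸ rfl⟩
  rcases lt_trichotomy n m with h' | h' | h'
  · exact absurd (numS_mem h') (h ▸ ZFSet.mem_irrefl _)
  · exact h'
  · exact absurd (numS_mem h') (h ▸ ZFSet.mem_irrefl _)

instance FD.eqNumS (n : ℕ) : ∀ {Γ : Type 1} {C : FCx Γ} {x : Γ → ZFSet.{0}} [IsV C x],
    FD C (fun _ g => x g = numS n) := by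
  induction n with
  | zero => intro Γ C x hx; exact FD.eqEmpty
  | succ n ih =>
    intro Γ C x hx
    have h1 : FD C.ext (fun _ p => p.2 = numS n) := ih (C := C.ext) (x := fun p => p.2)
    refine FD.congr (P := fun _ g => ∃ y, y ∈ x g ∧ (y = numS n ∧ x g = insert y y)) inferInstance
      (fun _ g _ _ => ?_)
    constructor
    · intro h; exact ⟨numS n, by rw [h]; simp [numS], rfl, h⟩
    · rintro ⟨y, _, rfl, h⟩; exact h

/-- coding of finite sequences -/
def tup : List ZFSet.{0} → ZFSet.{0}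
  | [] => ∅
  | a :: l => ZFSet.pair a (tup l)

theorem pair_ne_empty (a b : ZFSet.{0}) : ZFSet.pair a b ≠ ∅ := by
  intro h
  have : ({a} : ZFSet.{0}) ∈ ZFSet.pair a b := by simp [ZFSet.pair]
  rw [h] at this
  exact ZFSet.notMem_empty _ this

theorem tup_inj : ∀ {l m : List ZFSet.{0}}, tup l = tup m → l = m
  | [], [], _ => rfl
  | [], _ :: _, h => absurd h.symm (pair_ne_empty _ _)
  | _ :: _, [], h => absurd h (pair_ne_empty _ _)
  | a :: l, b :: m, h => by
    obtain ⟨h1, h2⟩ := ZFSet.pair_inj.1 h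
    rw [h1, tup_inj h2]

theorem Good.tup {X : Set ZFSet.{0}} (h : Good X) {l : List ZFSet.{0}} (hl : ∀ x ∈ l, x ∈ X) :
    Solovay.tup l ∈ X := by
  induction l with
  | nil => exact h.em
  | cons a l ih =>
    exact h.pair (hl a (by simp)) (ih fun x hx => hl x (by simp [hx]))

theorem FD.eqTup (xs : List (Γ → ZFSet.{0})) (hxs : ∀ x ∈ xs, IsV C x) :
    ∀ (c : Γ → ZFSet.{0}), IsV C c → FD C (fun _ g => c g = tup (xs.map (fun x => x g))) := by
  suffices H : ∀ (Γ' : Type 1) (C' : FCx Γ') (π : Γ' → Γ) (_ : ∀ x, IsV C x → IsV C' (fun p => x (π p)))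
      (c : Γ' → ZFSet.{0}), IsV C' c → FD C' (fun _ g => c g = tup (xs.map (fun x => x (π g)))) by
    intro c hc
    exact H Γ C id (fun x hx => hx) c hc
  induction xs with
  | nil => intro Γ' C' π hπ c hc; exact FD.eqEmpty
  | cons a l ih =>
    intro Γ' C' π hπ c hc
    have ha : IsV C' (fun p => a (π p)) := hπ a (hxs a (by simp))
    have h1 : FD C'.ext (fun _ p => p.2 = tup (l.map (fun x => x (π p.1)))) :=
      ih (fun x hx => hxs x (by simp [hx])) _ C'.ext (fun p => π p.1)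
        (fun x hx => (hπ x hx).wk) (fun p => p.2) inferInstance
    obtain ⟨a', ha'⟩ : ∃ a' : Γ' → ZFSet.{0}, a' = fun p => a (π p) := ⟨_, rfl⟩
    rw [← ha'] at ha
    refine FD.congr (P := fun X g => ∃ u, u ∈ X ∧ (u = tup (l.map (fun x => x (π g))) ∧
      c g = ZFSet.pair (a' g) u)) inferInstance (fun X g v hv => ?_)
    subst ha'
    constructor
    · intro h
      refine ⟨_, ?_, rfl, h⟩
      have hc' := hc.memX hv
      rw [h] at hc'
      exact ((C'.good X g v hv).of_pair hc').2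
    · rintro ⟨u, _, rfl, h⟩; exact h

theorem FD.tupMem (xs : List (Γ → ZFSet.{0})) (hxs : ∀ x ∈ xs, IsV C x)
    (z : Γ → ZFSet.{0}) (hz : IsV C z) :
    FD C (fun _ g => tup (xs.map (fun x => x g)) ∈ z g) := by
  have h := FD.eqTup (C := C.ext) (xs.map (fun x => fun p => x p.1)) (by
    intro x hx
    obtain ⟨y, hy, rfl⟩ := List.mem_map.1 hx
    exact (hxs y hy).wk) (fun p => p.2) inferInstance
  have h1 : FD C.ext (fun _ p => p.2 = tup (xs.map (fun x => x p.1))) :=
    h.congr (fun X p v hv => by rw [List.map_map]; rfl)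
  refine FD.congr (P := fun X g => ∃ u, u ∈ z g ∧ u = tup (xs.map (fun x => x g))) inferInstance
    (fun X g v hv => ?_)
  constructor
  · intro h; exact ⟨_, h, rfl⟩
  · rintro ⟨u, h, rfl⟩; exact h

/-! ## Finite sets of levels -/

/-- `y` is a set of exactly `n` levels -/
def FinLev (n : ℕ) (y : ZFSet.{0}) : Prop := (∀ z ∈ y, Lv z) ∧ (El y).encard = n

theorem El_insert (a y : ZFSet.{0}) : El (insert a y) = insert a (El y) := by
  ext z; simp [El, ZFSet.mem_insert_iff]

theorem El_inj {x y : ZFSet.{0}} (h : El x = El y) : x = y := by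
  ext z; exact Set.ext_iff.1 h z

theorem El_sub {X : Set ZFSet.{0}} (hX : Good X) {y : ZFSet.{0}} (hy : y ∈ X) : El y ⊆ X :=
  fun z hz => hX.tr y hy z hz

theorem Good.finite_mem {X : Set ZFSet.{0}} (hX : Good X) {s : Set ZFSet.{0}} (hs : s.Finite)
    (hsX : s ⊆ X) : ∃ y ∈ X, El y = s := by
  induction s, hs using Set.Finite.induction_on with
  | empty => exact ⟨∅, hX.em, by ext z; simp [El]⟩
  | insert ha hfin ih =>
    rename_i a s
    obtain ⟨y, hy, rfl⟩ := ih (fun z hz => hsX (Set.mem_insert_of_mem _ hz))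
    exact ⟨insert a y, hX.ins a (hsX (Set.mem_insert _ _)) y hy, El_insert a y⟩

theorem FinLev.zero {y : ZFSet.{0}} : FinLev 0 y ↔ y = ∅ := by
  unfold FinLev
  constructor
  · rintro ⟨_, h⟩
    have : El y = ∅ := by simpa using h
    apply El_inj; rw [this]; ext z; simp [El]
  · rintro rfl
    refine ⟨fun z hz => absurd hz (ZFSet.notMem_empty _), ?_⟩
    have : El (∅ : ZFSet.{0}) = ∅ := by ext z; simp [El]
    rw [this]; simp

theorem FinLev.finite {n : ℕ} {y : ZFSet.{0}} (h : FinLev n y) : (El y).Finite :=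
  Set.finite_of_encard_eq_coe h.2

theorem FinLev.succ {X : Set ZFSet.{0}} (hX : Good X) {n : ℕ} {y : ZFSet.{0}} (hy : y ∈ X) :
    FinLev (n + 1) y ↔ ∃ a, a ∈ y ∧ ∃ y', y' ∈ X ∧ (FinLev n y' ∧ Lv a ∧ a ∉ y' ∧
      y = insert a y') := by
  constructor
  · rintro ⟨h1, h2⟩
    have hfin : (El y).Finite := Set.finite_of_encard_eq_coe h2
    have hne : (El y).Nonempty := by
      rw [← Set.encard_ne_zero, h2]; simp
    obtain ⟨a, ha⟩ := hne
    obtain ⟨y', hy', he⟩ := hX.finite_mem (s := El y \ {a}) (hfin.subset Set.sdiff_subset)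
      (Set.sdiff_subset.trans (El_sub hX hy))
    have hins : y = insert a y' := by
      apply El_inj
      rw [El_insert, he, Set.insert_sdiff_singleton, Set.insert_eq_of_mem ha]
    have hna : a ∉ y' := by
      intro h
      have : a ∈ El y' := h
      rw [he] at this
      exact this.2 rfl
    refine ⟨a, ha, y', hy', ⟨fun z hz => h1 z ?_, ?_⟩, h1 a ha, hna, hins⟩
    · rw [hins]; exact ZFSet.mem_insert_of_mem _ hz
    · rw [hins, El_insert, Set.encard_insert_of_notMem (s := El y') hna] at h2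
      have hf' : (El y').Finite := by rw [he]; exact hfin.subset Set.sdiff_subset
      rw [← hf'.cast_ncard_eq] at h2 ⊢
      have h3 : (El y').ncard + 1 = n + 1 := by exact_mod_cast h2
      have h4 : (El y').ncard = n := by omega
      exact_mod_cast h4
  · rintro ⟨a, ha, y', hy', ⟨h1, h2⟩, hl, hna, rfl⟩
    refine ⟨fun z hz => ?_, ?_⟩
    · rcases ZFSet.mem_insert_iff.1 hz with rfl | hz
      · exact hl
      · exact h1 z hz
    · rw [El_insert, Set.encard_insert_of_notMem (s := El y') hna, h2]; push_cast; rfl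

instance FD.finLev (n : ℕ) : ∀ {Γ : Type 1} {C : FCx Γ} {x : Γ → ZFSet.{0}} [IsV C x],
    FD C (fun _ g => FinLev n (x g)) := by
  induction n with
  | zero =>
    intro Γ C x hx
    exact FD.congr (P := fun _ g => x g = ∅) inferInstance (fun _ _ _ _ => FinLev.zero)
  | succ n ih =>
    intro Γ C x hx
    have h1 : FD C.ext.ext (fun _ p => FinLev n p.2) := ih (C := C.ext.ext) (x := fun p => p.2)
    refine FD.congr (P := fun X g => ∃ a, a ∈ x g ∧ ∃ y', y' ∈ X ∧ (FinLev n y' ∧ Lv a ∧ ¬ a ∈ y' ∧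
      x g = insert a y')) inferInstance (fun X g v hv => ?_)
    exact FinLev.succ (C.good X g v hv) (hx.memX hv)

/-- the colexicographic comparison of finite sets of levels -/
def cx (c a : ZFSet.{0}) : Prop :=
  ∃ z, z ∈ a ∧ ¬ z ∈ c ∧ (∀ y, y ∈ c → z ∈ y → y ∈ a) ∧ (∀ y, y ∈ a → z ∈ y → y ∈ c)

instance FD.cx {x y : Γ → ZFSet.{0}} [IsV C x] [IsV C y] :
    FD C (fun _ g => cx (x g) (y g)) := by
  unfold Solovay.cx; infer_instance

end Pool.Agent.Solovay
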